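import Mathlib

/-!
Noncommutative column determinants for the semidirect product of `gl` with copies of the
standard representation: the vanishing lemma and the invariance under column operations.
-/

set_option linter.unusedSectionVars false

namespace Pool.Agent.MP_5aa3e6_al

open scoped TensorProduct

section Vec

variable {ι : Type*} [Fintype ι] [DecidableEq ι] {U : Type*} [Ring U] {α : Type*}

/-- matrix of elements of `U` applied to a column vector of elements of `U` -/
def opVec (E : ι → ι → U) (v : ι → U) : ι → U := fun i => ∑ j, E i j * v j

/-- `colVec E P a k = E ^ k P_a` -/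
def colVec (E : ι → ι → U) (P : α → ι → U) (a : α) : ℕ → ι → U
  | 0 => P a
  | k + 1 => opVec E (colVec E P a k)

/-- the commutation relations of the semidirect product -/
structure GLRel (E : ι → ι → U) (P : α → ι → U) : Prop where
  EE : ∀ i j k l, E i j * E k l - E k l * E i j =
    (if j = k then E i l else 0) - (if l = i then E k j else 0)
  EP : ∀ i j a k, E i j * P a k - P a k * E i j = if j = k then P a i else 0
  PP : ∀ a b i j, P a i * P b j = P b j * P a i

variable {E : ι → ι → U} {P : α → ι → U}

theorem opVec_add (v w : ι → U) : opVec E (v + w) = opVec E v + opVec E w := by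
  funext i
  simp [opVec, mul_add, Finset.sum_add_distrib]

theorem opVec_sub (v w : ι → U) : opVec E (v - w) = opVec E v - opVec E w := by
  funext i
  simp [opVec, mul_sub, Finset.sum_sub_distrib]

theorem opVec_neg (v : ι → U) : opVec E (-v) = - opVec E v := by
  funext i
  simp [opVec]

theorem opVec_zero : opVec E (0 : ι → U) = 0 := by
  funext i
  simp [opVec]

theorem opVec_smul_right (v : ι → U) (κ : U) :
    opVec E (fun i => v i * κ) = fun i => opVec E v i * κ := by
  funext i
  simp [opVec, Finset.sum_mul, mul_assoc]

theorem GLRel.colVec_comm (h : GLRel E P) (a : α) (k : ℕ) : ∀ i j l,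
    E i j * colVec E P a k l - colVec E P a k l * E i j =
      if j = l then colVec E P a k i else 0 := by
  induction k with
  | zero => intro i j l; exact h.EP i j a l
  | succ k ih =>
    intro i j l
    set c := colVec E P a k with hc
    have e1 : E i j * colVec E P a (k + 1) l - colVec E P a (k + 1) l * E i j
        = ∑ p, ((E i j * E l p - E l p * E i j) * c p + E l p * (E i j * c p - c p * E i j)) := by
      simp only [colVec, opVec, ← hc, Finset.mul_sum, Finset.sum_mul, ← Finset.sum_sub_distrib]
      refine Finset.sum_congr rfl fun p _ => ?_
      noncomm_ring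
    rw [e1]
    simp only [h.EE, ih, sub_mul, ite_mul, zero_mul, mul_ite, mul_zero]
    rw [Finset.sum_add_distrib, Finset.sum_sub_distrib]
    have e2 : ∑ x, (if j = l then E i x * c x else 0) = if j = l then opVec E c i else 0 := by
      split_ifs <;> simp [opVec]
    have e3 : ∑ x, (if x = i then E l j * c x else 0) = E l j * c i := by
      simp
    have e4 : ∑ x, (if j = x then E l x * c i else 0) = E l j * c i := by
      simp
    rw [e2, e3, e4]
    simp only [colVec, ← hc]
    abel

/-- tensors spanned by products of two column vectors of total level `< N` -/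
def tensB (E : ι → ι → U) (P : α → ι → U) (N : ℕ) : AddSubgroup (ι → ι → U) :=
  AddSubgroup.closure {T | ∃ a b s t, s + t < N ∧
    ((T = fun i j => colVec E P a s i * colVec E P b t j) ∨
     (T = fun i j => colVec E P a s j * colVec E P b t i))}

theorem tensB_mono {N M : ℕ} (h : N ≤ M) : tensB E P N ≤ tensB E P M := by
  apply AddSubgroup.closure_mono
  rintro T ⟨a, b, s, t, hst, hT⟩
  exact ⟨a, b, s, t, lt_of_lt_of_le hst h, hT⟩

theorem tensB_op1 (h : GLRel E P) (N : ℕ) {T : ι → ι → U} (hT : T ∈ tensB E P N) :
    (fun i j => ∑ p, E i p * T p j) ∈ tensB E P (N + 1) := by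
  induction hT using AddSubgroup.closure_induction with
  | mem T hT =>
    obtain ⟨a, b, s, t, hst, rfl | rfl⟩ := hT
    · apply AddSubgroup.subset_closure
      refine ⟨a, b, s + 1, t, by omega, Or.inl ?_⟩
      funext i j
      simp only [colVec, opVec, Finset.sum_mul, mul_assoc]
    · have : (fun i j => ∑ p, E i p * (colVec E P a s j * colVec E P b t p))
          = (fun i j => colVec E P a s j * colVec E P b (t + 1) i)
            + (fun i j => colVec E P a s i * colVec E P b t j) := by
        funext i j
        have key : ∀ p, E i p * (colVec E P a s j * colVec E P b t p)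
            = colVec E P a s j * (E i p * colVec E P b t p)
              + (if p = j then colVec E P a s i * colVec E P b t p else 0) := by
          intro p
          have := h.colVec_comm a s i p j
          have h2 : E i p * colVec E P a s j = colVec E P a s j * E i p +
              (if p = j then colVec E P a s i else 0) := by
            rw [← this]; abel
          rw [← mul_assoc, h2, add_mul, mul_assoc]
          split_ifs <;> simp
        simp only [Pi.add_apply]
        rw [Finset.sum_congr rfl fun p _ => key p, Finset.sum_add_distrib, ← Finset.mul_sum]
        simp [colVec, opVec]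
      rw [this]
      refine add_mem (AddSubgroup.subset_closure ?_) (AddSubgroup.subset_closure ?_)
      · exact ⟨a, b, s, t + 1, by omega, Or.inr rfl⟩
      · exact ⟨a, b, s, t, by omega, Or.inl rfl⟩
  | zero => 
    convert zero_mem (tensB E P (N + 1)) using 1
    funext i j
    simp
  | add x y _ _ hx hy =>
    convert add_mem hx hy using 1
    funext i j
    simp [mul_add, Finset.sum_add_distrib]
  | neg x _ hx =>
    convert neg_mem hx using 1
    funext i j
    simp

theorem tensB_op2 (h : GLRel E P) (N : ℕ) {T : ι → ι → U} (hT : T ∈ tensB E P N) :
    (fun i j => ∑ p, E j p * T i p) ∈ tensB E P (N + 1) := by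
  induction hT using AddSubgroup.closure_induction with
  | mem T hT =>
    obtain ⟨a, b, s, t, hst, rfl | rfl⟩ := hT
    · have : (fun i j => ∑ p, E j p * (colVec E P a s i * colVec E P b t p))
          = (fun i j => colVec E P a s i * colVec E P b (t + 1) j)
            + (fun i j => colVec E P a s j * colVec E P b t i) := by
        funext i j
        have key : ∀ p, E j p * (colVec E P a s i * colVec E P b t p)
            = colVec E P a s i * (E j p * colVec E P b t p)
              + (if p = i then colVec E P a s j * colVec E P b t p else 0) := by
          intro p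
          have := h.colVec_comm a s j p i
          have h2 : E j p * colVec E P a s i = colVec E P a s i * E j p +
              (if p = i then colVec E P a s j else 0) := by
            rw [← this]; abel
          rw [← mul_assoc, h2, add_mul, mul_assoc]
          split_ifs <;> simp
        simp only [Pi.add_apply]
        rw [Finset.sum_congr rfl fun p _ => key p, Finset.sum_add_distrib, ← Finset.mul_sum]
        simp [colVec, opVec]
      rw [this]
      refine add_mem (AddSubgroup.subset_closure ?_) (AddSubgroup.subset_closure ?_)
      · exact ⟨a, b, s, t + 1, by omega, Or.inl rfl⟩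
      · exact ⟨a, b, s, t, by omega, Or.inr rfl⟩
    · apply AddSubgroup.subset_closure
      refine ⟨a, b, s + 1, t, by omega, Or.inr ?_⟩
      funext i j
      simp only [colVec, opVec, Finset.sum_mul, mul_assoc]
  | zero => 
    convert zero_mem (tensB E P (N + 1)) using 1
    funext i j
    simp
  | add x y _ _ hx hy =>
    convert add_mem hx hy using 1
    funext i j
    simp [mul_add, Finset.sum_add_distrib]
  | neg x _ hx =>
    convert neg_mem hx using 1
    funext i j
    simp

theorem colVec_comm_mem_zero (h : GLRel E P) (a b : α) (l : ℕ) :
    (fun i j => colVec E P a 0 i * colVec E P b l j - colVec E P b l j * colVec E P a 0 i)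
      ∈ tensB E P l := by
  induction l with
  | zero =>
    convert zero_mem (tensB E P 0) using 1
    funext i j
    simp [colVec, h.PP a b i j]
  | succ l ih =>
    have := tensB_op2 h l ih
    have e : (fun i j => colVec E P a 0 i * colVec E P b (l + 1) j
          - colVec E P b (l + 1) j * colVec E P a 0 i)
        = (fun i j => ∑ p, E j p * (colVec E P a 0 i * colVec E P b l p
            - colVec E P b l p * colVec E P a 0 i))
          - (fun i j => colVec E P a 0 j * colVec E P b l i) := by
      funext i j
      have key : ∀ p, colVec E P a 0 i * (E j p * colVec E P b l p)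
          - (E j p * colVec E P b l p) * colVec E P a 0 i
          = E j p * (colVec E P a 0 i * colVec E P b l p
            - colVec E P b l p * colVec E P a 0 i)
            - (if p = i then colVec E P a 0 j * colVec E P b l p else 0) := by
        intro p
        have := h.colVec_comm a 0 j p i
        have h2 : (if p = i then colVec E P a 0 j * colVec E P b l p else 0)
            = (E j p * colVec E P a 0 i - colVec E P a 0 i * E j p) * colVec E P b l p := by
          rw [this]; split_ifs <;> simp
        rw [h2]
        noncomm_ring
      simp only [Pi.sub_apply]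
      have : colVec E P b (l + 1) j = ∑ p, E j p * colVec E P b l p := rfl
      rw [this, Finset.mul_sum, Finset.sum_mul, ← Finset.sum_sub_distrib,
        Finset.sum_congr rfl fun p _ => key p, Finset.sum_sub_distrib]
      simp
    rw [e]
    refine sub_mem this (AddSubgroup.subset_closure ?_)
    exact ⟨a, b, 0, l, by omega, Or.inr rfl⟩

theorem colVec_comm_mem (h : GLRel E P) (a b : α) (k l : ℕ) :
    (fun i j => colVec E P a k i * colVec E P b l j - colVec E P b l j * colVec E P a k i)
      ∈ tensB E P (k + l) := by
  induction k with
  | zero => simpa using colVec_comm_mem_zero h a b l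
  | succ k ih =>
    have := tensB_op1 h _ ih
    have e : (fun i j => colVec E P a (k + 1) i * colVec E P b l j
          - colVec E P b l j * colVec E P a (k + 1) i)
        = (fun i j => ∑ p, E i p * (colVec E P a k p * colVec E P b l j
            - colVec E P b l j * colVec E P a k p))
          + (fun i j => colVec E P b l i * colVec E P a k j) := by
      funext i j
      have key : ∀ p, (E i p * colVec E P a k p) * colVec E P b l j
          - colVec E P b l j * (E i p * colVec E P a k p)
          = E i p * (colVec E P a k p * colVec E P b l j
            - colVec E P b l j * colVec E P a k p)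
            + (if p = j then colVec E P b l i * colVec E P a k p else 0) := by
        intro p
        have := h.colVec_comm b l i p j
        have h2 : (if p = j then colVec E P b l i * colVec E P a k p else 0)
            = (E i p * colVec E P b l j - colVec E P b l j * E i p) * colVec E P a k p := by
          rw [this]; split_ifs <;> simp
        rw [h2]
        noncomm_ring
      simp only [Pi.add_apply]
      have : colVec E P a (k + 1) i = ∑ p, E i p * colVec E P a k p := rfl
      rw [this, Finset.mul_sum, Finset.sum_mul, ← Finset.sum_sub_distrib,
        Finset.sum_congr rfl fun p _ => key p, Finset.sum_add_distrib]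
      simp
    rw [e]
    have hN : k + 1 + l = k + l + 1 := by omega
    rw [hN]
    refine add_mem this (AddSubgroup.subset_closure ?_)
    exact ⟨b, a, l, k, by omega, Or.inl rfl⟩

/-- vectors in the right span of the columns of level `< k` -/
def lowV (E : ι → ι → U) (P : α → ι → U) (k : ℕ) : AddSubgroup (ι → U) :=
  AddSubgroup.closure {v | ∃ b s κ, s < k ∧ v = fun i => colVec E P b s i * κ}

theorem opVec_mem_lowV {k : ℕ} {v : ι → U} (hv : v ∈ lowV E P k) :
    opVec E v ∈ lowV E P (k + 1) := by
  induction hv using AddSubgroup.closure_induction with
  | mem v hv =>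
    obtain ⟨b, s, κ, hs, rfl⟩ := hv
    apply AddSubgroup.subset_closure
    refine ⟨b, s + 1, κ, by omega, ?_⟩
    rw [opVec_smul_right]
    rfl
  | zero => rw [opVec_zero]; exact zero_mem _
  | add x y _ _ hx hy => rw [opVec_add]; exact add_mem hx hy
  | neg x _ hx => rw [opVec_neg]; exact neg_mem hx

theorem lowV_mono {k l : ℕ} (h : k ≤ l) : lowV E P k ≤ lowV E P l := by
  apply AddSubgroup.closure_mono
  rintro v ⟨b, s, κ, hs, rfl⟩
  exact ⟨b, s, κ, lt_of_lt_of_le hs h, rfl⟩

theorem mem_lowV_of_step {u : α → ℕ → ι → U} (h0 : ∀ a, u a 0 = P a)
    (hs : ∀ a k, u a k - colVec E P a k ∈ lowV E P k →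
      u a (k + 1) - opVec E (u a k) ∈ lowV E P (k + 1)) (a : α) (k : ℕ) :
    u a k - colVec E P a k ∈ lowV E P k := by
  induction k with
  | zero => simp [h0, colVec]
  | succ k ih =>
    have e : u a (k + 1) - colVec E P a (k + 1)
        = (u a (k + 1) - opVec E (u a k)) + opVec E (u a k - colVec E P a k) := by
      rw [opVec_sub]; simp [colVec]
    rw [e]
    exact add_mem (hs a k ih) (opVec_mem_lowV ih)

theorem lowV_smul_right {k : ℕ} {v : ι → U} (hv : v ∈ lowV E P k) (κ : U) :
    (fun i => v i * κ) ∈ lowV E P k := by
  induction hv using AddSubgroup.closure_induction with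
  | mem v hv =>
    obtain ⟨b, s, κ', hs, rfl⟩ := hv
    apply AddSubgroup.subset_closure
    exact ⟨b, s, κ' * κ, hs, by funext i; simp [mul_assoc]⟩
  | zero => simp only [Pi.zero_apply, zero_mul]; exact zero_mem _
  | add x y _ _ hx hy =>
    simp only [Pi.add_apply, add_mul]; exact add_mem hx hy
  | neg x _ hx => simp only [Pi.neg_apply, neg_mul]; exact neg_mem hx

end Vec

end Pool.Agent.MP_5aa3e6_al
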