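import Mathlib
import Pool.Agent.MP_5aa3e6_al.Wedge

/-!
Products of column vectors in `Λ(K^ι) ⊗ U`.
-/

set_option linter.unusedSectionVars false

namespace Pool.Agent.MP_5aa3e6_al

open scoped TensorProduct

section Ring

variable (K : Type*) [Field K] [CharZero K]
variable {ι : Type*} [Fintype ι] [DecidableEq ι] {U : Type*} [Ring U] [Algebra K U]
variable {α : Type*}

/-- the ring `Λ(K^ι) ⊗ U` -/
abbrev WR (K : Type*) [Field K] (ι : Type*) (U : Type*) [Ring U] [Algebra K U] :=
  ExteriorAlgebra K (ι → K) ⊗[K] U

/-- generators of the exterior algebra -/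
noncomputable def th (i : ι) : ExteriorAlgebra K (ι → K) :=
  ExteriorAlgebra.ι K (Pi.single i (1 : K) : ι → K)

theorem th_mul_th (i j : ι) : th K i * th K j = - (th K j * th K i) := by
  have := ExteriorAlgebra.ι_add_mul_swap (R := K) (Pi.single i (1 : K) : ι → K)
    (Pi.single j (1 : K) : ι → K)
  rw [eq_neg_iff_add_eq_zero]
  exact this

theorem th_sq (i : ι) : th K i * th K i = 0 :=
  ExteriorAlgebra.ι_sq_zero _

/-- a vector with entries in `U`, as an element of `Λ ⊗ U` -/
noncomputable def emb (v : ι → U) : WR K ι U := ∑ i, th K i ⊗ₜ[K] v i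

/-- the scalar `u` in `Λ ⊗ U` -/
noncomputable def sc (u : U) : WR K ι U := 1 ⊗ₜ[K] u

theorem emb_add (v w : ι → U) : emb K (v + w) = emb K v + emb K w := by
  simp [emb, TensorProduct.tmul_add, Finset.sum_add_distrib]

theorem emb_sub (v w : ι → U) : emb K (v - w) = emb K v - emb K w := by
  simp [emb, TensorProduct.tmul_sub, Finset.sum_sub_distrib]

theorem emb_neg (v : ι → U) : emb K (-v) = - emb K v := by
  simp [emb, TensorProduct.tmul_neg]

theorem emb_zero : emb K (0 : ι → U) = 0 := by
  simp [emb]

theorem emb_mul_sc (v : ι → U) (u : U) : emb K (fun i => v i * u) = emb K v * sc K u := by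
  simp [emb, sc, Finset.sum_mul, Algebra.TensorProduct.tmul_mul_tmul]

/-- the quadratic elements of `Λ² ⊗ U` -/
noncomputable def quad (T : ι → ι → U) : WR K ι U := ∑ i, ∑ j, (th K i * th K j) ⊗ₜ[K] T i j

theorem quad_add (T S : ι → ι → U) : quad K (T + S) = quad K T + quad K S := by
  simp [quad, TensorProduct.tmul_add, Finset.sum_add_distrib]

theorem quad_neg (T : ι → ι → U) : quad K (-T) = - quad K T := by
  simp [quad, TensorProduct.tmul_neg]

theorem quad_zero : quad K (0 : ι → ι → U) = 0 := by
  simp [quad]

theorem quad_mul (x y : ι → U) : quad K (fun i j => x i * y j) = emb K x * emb K y := by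
  simp only [quad, emb, Finset.sum_mul, Finset.mul_sum, Algebra.TensorProduct.tmul_mul_tmul]
  rw [Finset.sum_comm]

theorem quad_swap (T : ι → ι → U) : quad K (fun i j => T j i) = - quad K T := by
  simp only [quad]
  rw [Finset.sum_comm, ← Finset.sum_neg_distrib]
  refine Finset.sum_congr rfl fun i _ => ?_
  rw [← Finset.sum_neg_distrib]
  refine Finset.sum_congr rfl fun j _ => ?_
  rw [th_mul_th K j i, TensorProduct.neg_tmul]

theorem quad_mul' (x y : ι → U) : quad K (fun i j => x j * y i) = - (emb K x * emb K y) := by
  rw [← quad_mul, ← quad_swap]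

theorem anticomm (x y : ι → U) :
    emb K x * emb K y + emb K y * emb K x = quad K (fun i j => x i * y j - y j * x i) := by
  have : (fun i j => x i * y j - y j * x i) = (fun i j => x i * y j) + - (fun i j => y j * x i) := by
    funext i j; simp [sub_eq_add_neg]
  rw [this, quad_add, quad_neg, quad_mul, quad_mul']
  simp

variable {E : ι → ι → U} {P : α → ι → U}

/-- the column `c_{a,k}` in `Λ ⊗ U` -/
noncomputable def col (E : ι → ι → U) (P : α → ι → U) (a : α) (k : ℕ) : WR K ι U :=
  emb K (colVec E P a k)

/-- additive span of products of two columns with total level `< N` -/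
noncomputable def bh (E : ι → ι → U) (P : α → ι → U) (N : ℕ) : AddSubgroup (WR K ι U) :=
  AddSubgroup.closure {r | ∃ a b s t, s + t < N ∧ r = col K E P a s * col K E P b t}

theorem quad_mem_bh {N : ℕ} {T : ι → ι → U} (hT : T ∈ tensB E P N) : quad K T ∈ bh K E P N := by
  induction hT using AddSubgroup.closure_induction with
  | mem T hT =>
    obtain ⟨a, b, s, t, hst, rfl | rfl⟩ := hT
    · rw [quad_mul]
      exact AddSubgroup.subset_closure ⟨a, b, s, t, hst, rfl⟩
    · rw [quad_mul']
      exact neg_mem (AddSubgroup.subset_closure ⟨a, b, s, t, hst, rfl⟩)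
  | zero => rw [quad_zero]; exact zero_mem _
  | add x y _ _ hx hy => rw [quad_add]; exact add_mem hx hy
  | neg x _ hx => rw [quad_neg]; exact neg_mem hx

theorem anticomm_mem (h : GLRel E P) (a b : α) (k l : ℕ) :
    col K E P a k * col K E P b l + col K E P b l * col K E P a k ∈ bh K E P (k + l) := by
  rw [col, col, anticomm]
  exact quad_mem_bh K (colVec_comm_mem h a b k l)

/-- `L` followed by columns of level `k` -/
noncomputable def wrd (E : ι → ι → U) (P : α → ι → U) (L : WR K ι U) (k : ℕ) (w : List α) :
    WR K ι U := L * (w.map (fun a => col K E P a k)).prod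

theorem wrd_append (L : WR K ι U) (k : ℕ) (w : List α) (b : α) :
    wrd K E P L k (w ++ [b]) = wrd K E P L k w * col K E P b k := by
  simp [wrd, mul_assoc]

theorem word_step (h : GLRel E P) (k : ℕ) (X : WR K ι U)
    (hX : ∀ a s, s < k → X * col K E P a s = 0) :
    ∀ N t s, t + s = N → s < k → t + s ≤ k → ∀ a b,
      X * col K E P b (k + t) * col K E P a s = 0 := by
  intro N
  induction N using Nat.strong_induction_on with
  | _ N ih =>
    intro t s hN hs hts a b
    have h1 : X * col K E P b (k + t) * col K E P a s
        = X * (col K E P b (k + t) * col K E P a s + col K E P a s * col K E P b (k + t))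
          - X * col K E P a s * col K E P b (k + t) := by
      noncomm_ring
    rw [h1, hX a s hs, zero_mul, sub_zero]
    have h2 := anticomm_mem K h b a (k + t) s
    have h3 : ∀ r ∈ bh K E P (k + t + s), X * r = 0 := by
      intro r hr
      induction hr using AddSubgroup.closure_induction with
      | mem r hr =>
        obtain ⟨a1, a2, s1, s2, hst, rfl⟩ := hr
        rw [← mul_assoc]
        by_cases hs1 : s1 < k
        · rw [hX a1 s1 hs1, zero_mul]
        · obtain ⟨t1, rfl⟩ : ∃ t1, s1 = k + t1 := ⟨s1 - k, by omega⟩
          exact ih (t1 + s2) (by omega) t1 s2 rfl (by omega) (by omega) a2 a1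
      | zero => simp
      | add x y _ _ hx hy => rw [mul_add, hx, hy, add_zero]
      | neg x _ hx => rw [mul_neg, hx, neg_zero]
    exact h3 _ h2

theorem wrd_low (h : GLRel E P) (k : ℕ) (L : WR K ι U)
    (hL : ∀ a s, s < k → L * col K E P a s = 0) (w : List α) :
    ∀ a s, s < k → wrd K E P L k w * col K E P a s = 0 := by
  induction w using List.reverseRecOn with
  | nil => simpa [wrd] using hL
  | append_singleton w b ih =>
    intro a s hs
    rw [wrd_append]
    have := word_step K h k _ ih (0 + s) 0 s rfl hs (by omega) a b
    simpa using this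

theorem wrd_anticomm (h : GLRel E P) (k : ℕ) (L : WR K ι U)
    (hL : ∀ a s, s < k → L * col K E P a s = 0) (w : List α) (a b : α) :
    wrd K E P L k w * (col K E P a k * col K E P b k + col K E P b k * col K E P a k) = 0 := by
  have hX := wrd_low K h k L hL w
  set X := wrd K E P L k w with hXdef
  have h2 := anticomm_mem K h a b k k
  have h3 : ∀ r ∈ bh K E P (k + k), X * r = 0 := by
    intro r hr
    induction hr using AddSubgroup.closure_induction with
    | mem r hr =>
      obtain ⟨a1, a2, s1, s2, hst, rfl⟩ := hr
      rw [← mul_assoc]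
      by_cases hs1 : s1 < k
      · rw [hX a1 s1 hs1, zero_mul]
      · obtain ⟨t1, rfl⟩ : ∃ t1, s1 = k + t1 := ⟨s1 - k, by omega⟩
        exact word_step K h k X hX (t1 + s2) t1 s2 rfl (by omega) (by omega) a2 a1
    | zero => simp
    | add x y _ _ hx hy => rw [mul_add, hx, hy, add_zero]
    | neg x _ hx => rw [mul_neg, hx, neg_zero]
  exact h3 _ h2

theorem wrd_same (h : GLRel E P) (k : ℕ) (L : WR K ι U)
    (hL : ∀ a s, s < k → L * col K E P a s = 0) (w : List α) (a : α) (ha : a ∈ w) :
    wrd K E P L k w * col K E P a k = 0 := by
  induction w using List.reverseRecOn with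
  | nil => simp at ha
  | append_singleton w b ih =>
    rw [wrd_append]
    have h1 := wrd_anticomm K h k L hL w b a
    rw [mul_add, ← mul_assoc, ← mul_assoc] at h1
    by_cases hab : a = b
    · subst hab
      have h2 : (2 : K) • (wrd K E P L k w * col K E P a k * col K E P a k) = 0 := by
        rw [two_smul]; exact h1
      have := smul_eq_zero.mp h2
      rcases this with h3 | h3
      · exact absurd h3 two_ne_zero
      · exact h3
    · have ha' : a ∈ w := by
        rcases List.mem_append.mp ha with h' | h'
        · exact h'
        · simp at h'; exact absurd h' hab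
      rw [ih ha', zero_mul, add_zero] at h1
      exact h1

variable [Fintype α]

/-- the product of all columns of level `< k`; within a level the order is given by the list `l` -/
noncomputable def lev (E : ι → ι → U) (P : α → ι → U) (l : List α) : ℕ → WR K ι U
  | 0 => 1
  | k + 1 => wrd K E P (lev E P l k) k l

theorem lev_low (h : GLRel E P) (l : List α) (hl : ∀ a, a ∈ l) (k : ℕ) :
    ∀ a s, s < k → lev K E P l k * col K E P a s = 0 := by
  induction k with
  | zero => intro a s hs; omega
  | succ k ih =>
    intro a s hs
    rcases Nat.lt_succ_iff_lt_or_eq.mp hs with h' | rfl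
    · exact wrd_low K h k _ ih l a s h'
    · exact wrd_same K h s _ ih l a (hl a)

theorem mul_emb_lowV {k : ℕ} (X : WR K ι U)
    (hX : ∀ a s, s < k → X * col K E P a s = 0) {v : ι → U} (hv : v ∈ lowV E P k) :
    X * emb K v = 0 := by
  induction hv using AddSubgroup.closure_induction with
  | mem v hv =>
    obtain ⟨b, s, κ, hs, rfl⟩ := hv
    rw [emb_mul_sc, ← mul_assoc]
    have := hX b s hs
    rw [col] at this
    rw [this, zero_mul]
  | zero => rw [emb_zero, mul_zero]
  | add x y _ _ hx hy => rw [emb_add, mul_add, hx, hy, add_zero]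
  | neg x _ hx => rw [emb_neg, mul_neg, hx, neg_zero]

/-- column operations do not change products over words -/
theorem wrd_colop (h : GLRel E P) (k : ℕ) (L : WR K ι U)
    (hL : ∀ a s, s < k → L * col K E P a s = 0) (u : α → ι → U)
    (hu : ∀ a, u a - colVec E P a k ∈ lowV E P k) (w : List α) :
    L * (w.map (fun a => emb K (u a))).prod = wrd K E P L k w := by
  induction w using List.reverseRecOn with
  | nil => simp [wrd]
  | append_singleton w b ih =>
    rw [wrd_append, ← ih]
    simp only [List.map_append, List.map_cons, List.map_nil, List.prod_append, List.prod_cons,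
      List.prod_nil, mul_one]
    rw [← mul_assoc, ih]
    have h1 := mul_emb_lowV K _ (wrd_low K h k L hL w) (hu b)
    rw [emb_sub, mul_sub, sub_eq_zero] at h1
    exact h1

/-- full product over the levels `< q` and a last partial level -/
theorem full_colop (h : GLRel E P) (l : List α) (hl : ∀ a, a ∈ l) (u : α → ℕ → ι → U)
    (hu : ∀ a k, u a k - colVec E P a k ∈ lowV E P k) (q : ℕ) (w : List α) :
    (((List.range q).map (fun k => (l.map (fun a => emb K (u a k))).prod)).prod)
        * (w.map (fun a => emb K (u a q))).prod
      = (((List.range q).map (fun k => (l.map (fun a => col K E P a k)).prod)).prod)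
        * (w.map (fun a => col K E P a q)).prod := by
  have h1 : ∀ q, ((List.range q).map (fun k => (l.map (fun a => emb K (u a k))).prod)).prod
      = lev K E P l q := by
    intro q
    induction q with
    | zero => simp [lev]
    | succ q ih =>
      rw [List.range_succ, List.map_append, List.prod_append, ih]
      simp only [List.map_cons, List.map_nil, List.prod_cons, List.prod_nil, mul_one, lev]
      exact wrd_colop K h q _ (lev_low K h l hl q) (fun a => u a q) (fun a => hu a q) l
  have h2 : ∀ q, ((List.range q).map (fun k => (l.map (fun a => col K E P a k)).prod)).prod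
      = lev K E P l q := by
    intro q
    induction q with
    | zero => simp [lev]
    | succ q ih =>
      rw [List.range_succ, List.map_append, List.prod_append, ih]
      simp only [List.map_cons, List.map_nil, List.prod_cons, List.prod_nil, mul_one, lev, wrd]
  rw [h1, h2]
  exact wrd_colop K h q _ (lev_low K h l hl q) (fun a => u a q) (fun a => hu a q) w

end Ring

end Pool.Agent.MP_5aa3e6_al
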