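import Mathlib
import Pool.Agent.MP_5aa3e6_al.Wedge2

/-!
Column determinants with entries in a noncommutative algebra and their relation with
products in `Λ(K^ι) ⊗ U`.
-/

set_option linter.unusedSectionVars false

namespace Pool.Agent.MP_5aa3e6_al

open scoped TensorProduct

section CDet

/-- the column-ordered determinant: the factors are multiplied in the order of the columns -/
def cdet {U : Type*} [Ring U] {n : ℕ} (v : Fin n → Fin n → U) : U :=
  ∑ σ : Equiv.Perm (Fin n), ((Equiv.Perm.sign σ : ℤˣ) : ℤ) • (List.ofFn fun j => v j (σ j)).prod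

variable (K : Type*) [Field K] [CharZero K]
variable {ι : Type*} [Fintype ι] [DecidableEq ι] {U : Type*} [Ring U] [Algebra K U]

theorem prod_emb_expand {n : ℕ} (v : Fin n → ι → U) :
    (List.ofFn fun j => emb K (v j)).prod
      = ∑ f : Fin n → ι, ((List.ofFn fun j => th K (f j)).prod
          ⊗ₜ[K] (List.ofFn fun j => v j (f j)).prod : WR K ι U) := by
  induction n with
  | zero =>
    simp
    rfl
  | succ n ih =>
    rw [List.ofFn_succ, List.prod_cons, ih (fun j => v j.succ)]
    rw [← (Fin.consEquiv (fun _ => ι)).sum_comp, Fintype.sum_prod_type]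
    rw [emb, Finset.sum_mul_sum]
    refine Finset.sum_congr rfl fun i _ => Finset.sum_congr rfl fun f _ => ?_
    rw [Algebra.TensorProduct.tmul_mul_tmul]
    simp [Fin.consEquiv, List.ofFn_succ]

theorem th_prod_eq {n : ℕ} (f : Fin n → ι) :
    (List.ofFn fun j => th K (f j)).prod
      = ExteriorAlgebra.ιMulti K n (fun j => (Pi.single (f j) (1 : K) : ι → K)) := by
  rw [ExteriorAlgebra.ιMulti_apply]
  rfl

theorem prod_emb {n : ℕ} (ε : Fin n ≃ ι) (v : Fin n → ι → U) :
    (List.ofFn fun j => emb K (v j)).prod
      = ((List.ofFn fun j => th K (ε j)).prod ⊗ₜ[K] cdet (fun j i => v j (ε i)) : WR K ι U) := by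
  rw [prod_emb_expand]
  rw [cdet, TensorProduct.tmul_sum]
  symm
  apply Fintype.sum_of_injective (fun σ : Equiv.Perm (Fin n) => (fun j => ε (σ j)))
  · intro σ τ h
    ext j
    have := congrFun h j
    simp only [EmbeddingLike.apply_eq_iff_eq] at this
    rw [this]
  · intro f hf
    rw [th_prod_eq]
    have : ¬ Function.Injective f := by
      intro hinj
      apply hf
      have hb : Function.Bijective (fun j => ε.symm (f j)) := by
        rw [← Finite.injective_iff_bijective]
        exact ε.symm.injective.comp hinj
      refine ⟨Equiv.ofBijective _ hb, ?_⟩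
      funext j
      simp
    have h2 : ¬ Function.Injective (fun j => (Pi.single (f j) (1 : K) : ι → K)) := by
      intro h
      apply this
      intro a b hab
      apply h
      simp only [hab]
    rw [AlternatingMap.map_eq_zero_of_not_injective _ _ h2, TensorProduct.zero_tmul]
  · intro σ
    rw [th_prod_eq, th_prod_eq]
    have := AlternatingMap.map_perm (ExteriorAlgebra.ιMulti K n)
      (fun j => (Pi.single (ε j) (1 : K) : ι → K)) σ
    have h2 : ((fun j => (Pi.single (ε j) (1 : K) : ι → K)) ∘ ⇑σ)
      = (fun j => (Pi.single (ε (σ j)) (1 : K) : ι → K)) := rfl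
    rw [h2] at this
    rw [this]
    rw [Units.smul_def, ← TensorProduct.smul_tmul', ← TensorProduct.tmul_smul]

theorem vol_tmul_injective {n : ℕ} (ε : Fin n ≃ ι) {x y : U}
    (h : ((List.ofFn fun j => th K (ε j)).prod ⊗ₜ[K] x : WR K ι U)
      = (List.ofFn fun j => th K (ε j)).prod ⊗ₜ[K] y) : x = y := by
  let g : (ι → K) [⋀^Fin n]→ₗ[K] K :=
    (Matrix.detRowAlternating (n := Fin n) (R := K)).compLinearMap
      (LinearMap.funLeft K K ε)
  let lin : ExteriorAlgebra K (ι → K) →ₗ[K] K :=
    ExteriorAlgebra.liftAlternating (Pi.single n g)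
  have hlin : lin ((List.ofFn fun j => th K (ε j)).prod) = 1 := by
    rw [th_prod_eq]
    have e1 := ExteriorAlgebra.liftAlternating_apply_ιMulti (R := K) (Pi.single n g)
      (fun j => (Pi.single (ε j) (1 : K) : ι → K))
    simp only [lin]
    rw [e1]
    simp only [Pi.single_eq_same, g, AlternatingMap.compLinearMap_apply]
    have : (fun i => (LinearMap.funLeft K K ε) (Pi.single (ε i) (1 : K) : ι → K))
        = (1 : Matrix (Fin n) (Fin n) K) := by
      funext i j
      simp only [LinearMap.funLeft_apply, Matrix.one_apply]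
      by_cases hij : i = j
      · subst hij; simp
      · rw [if_neg hij, Pi.single_eq_of_ne]
        intro h; exact hij (ε.injective h).symm
    rw [this]
    exact Matrix.det_one
  have h2 := congrArg (fun r => (TensorProduct.lid K U) ((LinearMap.rTensor U lin) r)) h
  simpa [hlin] using h2

end CDet

end Pool.Agent.MP_5aa3e6_al
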