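import Mathlib
import Pool.Agent.MP_5aa3e6_al.Wedge3

/-!
Column determinants with the columns `(a,k)`, `k < q`, followed by `(I l, q)`.
-/

set_option linter.unusedSectionVars false

namespace Pool.Agent.MP_5aa3e6_al

open scoped TensorProduct

/-- the labels of the columns: first the pairs `(a,k)` with `k < q`, ordered by `k` and then by
`a`; then the pairs `(I l, q)` -/
def colI {m q r : ℕ} (I : Fin r → Fin m) (j : Fin (q * m + r)) : Fin m × ℕ :=
  if h : j.1 < q * m then
    (⟨j.1 % m, Nat.mod_lt _ (Nat.pos_of_ne_zero (by rintro rfl; simp at h))⟩, j.1 / m)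
  else (I ⟨j.1 - q * m, by omega⟩, q)

theorem ofFn_colI {m q r : ℕ} (I : Fin r → Fin m) {β : Type*} (g : Fin m × ℕ → β) :
    (List.ofFn fun j : Fin (q * m + r) => g (colI I j))
      = ((List.range q).map (fun k => (List.finRange m).map (fun a => g (a, k)))).flatten
        ++ (List.ofFn I).map (fun a => g (a, q)) := by
  rw [List.ofFn_add]
  congr 1
  · rw [List.ofFn_mul]
    congr 1
    rw [← List.map_coe_finRange_eq_range, List.map_map, List.ofFn_eq_map]
    refine List.map_congr_left fun i _ => ?_
    rw [List.ofFn_eq_map]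
    refine List.map_congr_left fun j _ => ?_
    have hm : 0 < m := Nat.pos_of_ne_zero (by rintro rfl; exact j.elim0)
    have hlt : i.1 * m + j.1 < q * m := by
      have h1 : i.1 * m + j.1 < (i.1 + 1) * m := by
        rw [Nat.add_mul, Nat.one_mul]
        exact Nat.add_lt_add_left j.2 _
      exact h1.trans_le (Nat.mul_le_mul_right _ i.2)
    simp only [Function.comp_apply]
    congr 1
    rw [colI, dif_pos (by simpa using hlt)]
    ext
    · simp [Nat.mod_eq_of_lt j.2]
    · change (i.1 * m + j.1) / m = i.1
      rw [mul_comm, Nat.mul_add_div hm, Nat.div_eq_of_lt j.2, add_zero]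
  · rw [List.map_ofFn]
    congr 1
    funext l
    simp only [Function.comp_apply]
    congr 1
    rw [colI, dif_neg (by simp)]
    simp

section DI

variable {ι : Type*} [Fintype ι] [DecidableEq ι] {U : Type*} [Ring U]

/-- the determinant with columns `u a k`, `k < q`, `u (I l) q`; the rows are ordered by `ε` -/
def dI {m q r : ℕ} (u : Fin m → ℕ → ι → U) (ε : Fin (q * m + r) ≃ ι) (I : Fin r → Fin m) : U :=
  cdet (fun j i => u (colI I j).1 (colI I j).2 (ε i))

variable (K : Type*) [Field K] [CharZero K] [Algebra K U]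

theorem vol_dI {m q r : ℕ} (u : Fin m → ℕ → ι → U) (ε : Fin (q * m + r) ≃ ι)
    (I : Fin r → Fin m) :
    ((List.ofFn fun j => th K (ε j)).prod ⊗ₜ[K] dI u ε I : WR K ι U)
      = (((List.range q).map (fun k => ((List.finRange m).map (fun a => emb K (u a k))).prod)).prod)
        * ((List.ofFn I).map (fun a => emb K (u a q))).prod := by
  rw [dI, ← prod_emb K ε (fun j => u (colI I j).1 (colI I j).2)]
  rw [ofFn_colI I (fun p => emb K (u p.1 p.2)), List.prod_append, List.prod_flatten,
    List.map_map]
  rfl

include K in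
theorem dI_congr {m q r : ℕ} {E : ι → ι → U} {P : Fin m → ι → U} (h : GLRel E P)
    (u : Fin m → ℕ → ι → U) (hu : ∀ a k, u a k - colVec E P a k ∈ lowV E P k)
    (ε : Fin (q * m + r) ≃ ι) (I : Fin r → Fin m) :
    dI u ε I = dI (colVec E P) ε I := by
  apply vol_tmul_injective K ε
  rw [vol_dI, vol_dI]
  exact full_colop K h (List.finRange m) (List.mem_finRange) u hu q (List.ofFn I)

end DI

section Conj

variable {U : Type*} [Ring U] {K : Type*} [Field K] [Algebra K U]

theorem list_prod_sum {n : ℕ} {κ : Type*} [Fintype κ] (x : Fin n → κ → U) :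
    (List.ofFn fun j => ∑ l, x j l).prod
      = ∑ f : Fin n → κ, (List.ofFn fun j => x j (f j)).prod := by
  induction n with
  | zero => simp
  | succ n ih =>
    rw [List.ofFn_succ, List.prod_cons, ih (fun j => x j.succ)]
    rw [← (Fin.consEquiv (fun _ => κ)).sum_comp, Fintype.sum_prod_type]
    rw [Finset.sum_mul_sum]
    refine Finset.sum_congr rfl fun i _ => Finset.sum_congr rfl fun f _ => ?_
    simp [Fin.consEquiv, List.ofFn_succ]

theorem list_prod_smul {n : ℕ} (c : Fin n → K) (x : Fin n → U) :
    (List.ofFn fun j => c j • x j).prod = (∏ j, c j) • (List.ofFn x).prod := by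
  induction n with
  | zero => simp
  | succ n ih =>
    rw [List.ofFn_succ, List.prod_cons, ih (fun j => c j.succ) (fun j => x j.succ),
      List.ofFn_succ, List.prod_cons, Fin.prod_univ_succ, smul_mul_smul_comm]

/-- left multiplication of the rows by a scalar matrix -/
theorem cdet_conj {n : ℕ} (A : Matrix (Fin n) (Fin n) K) (v : Fin n → Fin n → U) :
    cdet (fun j i => ∑ l, A l i • v j l) = A.det • cdet v := by
  have h1 : cdet (fun j i => ∑ l, A l i • v j l)
      = ∑ f : Fin n → Fin n, (A.submatrix f id).det • (List.ofFn fun j => v j (f j)).prod := by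
    rw [cdet]
    simp only [list_prod_sum, list_prod_smul]
    simp only [Finset.smul_sum]
    rw [Finset.sum_comm]
    refine Finset.sum_congr rfl fun f _ => ?_
    rw [← Matrix.det_transpose, Matrix.det_apply', Finset.sum_smul]
    refine Finset.sum_congr rfl fun σ _ => ?_
    rw [mul_smul, Int.cast_smul_eq_zsmul]
    rfl
  rw [h1, cdet, Finset.smul_sum]
  symm
  apply Fintype.sum_of_injective (fun σ : Equiv.Perm (Fin n) => (σ : Fin n → Fin n))
  · intro σ τ h
    exact Equiv.coe_fn_injective h
  · intro f hf
    have hf' : ¬ Function.Injective f := by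
      intro hinj
      apply hf
      exact ⟨Equiv.ofBijective f ((Finite.injective_iff_bijective).mp hinj), rfl⟩
    rw [Function.Injective] at hf'
    push Not at hf'
    obtain ⟨i, j, hij, hne⟩ := hf'
    rw [Matrix.det_zero_of_row_eq hne, zero_smul]
    funext k
    simp [hij]
  · intro σ
    rw [Matrix.det_permute, smul_comm]
    rw [mul_smul, Int.cast_smul_eq_zsmul]

end Conj

end Pool.Agent.MP_5aa3e6_al
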