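import Mathlib

/-!
The apolar pairing on polynomials.
-/

set_option linter.unusedSectionVars false

namespace Pool.Agent.MP_5aa3e6_al

open MvPolynomial

section Pairing

variable {K : Type*} [Field K] {σ τ : Type*} [Fintype σ] [DecidableEq σ]
  [Fintype τ] [DecidableEq τ]

/-- the apolar pairing `∑ γ! p_γ q_γ`, as a linear map in `p` -/
noncomputable def apol (q : MvPolynomial σ K) : MvPolynomial σ K →ₗ[K] K :=
  (basisMonomials σ K).constr K (fun γ => (∏ i, ((γ i).factorial : K)) * coeff γ q)

theorem apol_monomial (q : MvPolynomial σ K) (γ : σ →₀ ℕ) :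
    apol q (monomial γ 1) = (∏ i, ((γ i).factorial : K)) * coeff γ q := by
  have := (basisMonomials σ K).constr_basis K
    (fun γ => (∏ i, ((γ i).factorial : K)) * coeff γ q) γ
  simpa [apol] using this

theorem apol_monomial' (q : MvPolynomial σ K) (γ : σ →₀ ℕ) (c : K) :
    apol q (monomial γ c) = c * ((∏ i, ((γ i).factorial : K)) * coeff γ q) := by
  rw [← apol_monomial, ← smul_eq_mul, ← map_smul, smul_monomial, smul_eq_mul, mul_one]

theorem apol_eq_sum (q p : MvPolynomial σ K) :
    apol q p = ∑ γ ∈ p.support, coeff γ p * ((∏ i, ((γ i).factorial : K)) * coeff γ q) := by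
  conv_lhs => rw [p.as_sum]
  rw [map_sum]
  exact Finset.sum_congr rfl fun γ _ => apol_monomial' q γ _

theorem apol_C (q : MvPolynomial σ K) (c : K) : apol q (C c) = c * constantCoeff q := by
  rw [C_apply, apol_monomial']
  simp [constantCoeff_eq]

theorem apol_mul_X (q p : MvPolynomial σ K) (i : σ) :
    apol q (p * X i) = apol (pderiv i q) p := by
  induction p using MvPolynomial.induction_on' with
  | add p q hp hq => simp only [add_mul, map_add, hp, hq]
  | monomial γ c =>
    rw [X, monomial_mul, mul_one, apol_monomial', apol_monomial', coeff_pderiv]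
    have h : (∏ j, (((γ + Finsupp.single i 1 : σ →₀ ℕ) j).factorial : K))
        = (∏ j, ((γ j).factorial : K)) * (γ i + 1) := by
      rw [← Finset.mul_prod_erase _ _ (Finset.mem_univ i),
        ← Finset.mul_prod_erase _ (fun j => ((γ j).factorial : K)) (Finset.mem_univ i)]
      have h1 : ∏ x ∈ Finset.univ.erase i, (((γ + Finsupp.single i 1 : σ →₀ ℕ) x).factorial : K)
          = ∏ x ∈ Finset.univ.erase i, ((γ x).factorial : K) := by
        refine Finset.prod_congr rfl fun x hx => ?_
        have : x ≠ i := (Finset.mem_erase.mp hx).1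
        simp [Finsupp.add_apply, Finsupp.single_apply, this.symm]
      rw [h1]
      simp only [Finsupp.add_apply, Finsupp.single_eq_same, Nat.factorial_succ, Nat.cast_mul,
        Nat.cast_add, Nat.cast_one]
      ring
    rw [h]
    ring

/-- linear substitution -/
noncomputable def lam (L : τ → σ → K) : MvPolynomial τ K →ₐ[K] MvPolynomial σ K :=
  aeval fun t => ∑ s, C (L t s) * X s

theorem lam_X (L : τ → σ → K) (t : τ) : lam L (X t) = ∑ s, C (L t s) * X s := by
  simp [lam]

theorem constantCoeff_lam (L : τ → σ → K) (p : MvPolynomial τ K) :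
    constantCoeff (lam L p) = constantCoeff p := by
  induction p using MvPolynomial.induction_on with
  | C a => simp [lam]
  | add p q hp hq => simp [hp, hq]
  | mul_X p i hp => simp [lam_X]

theorem pderiv_lam (L : τ → σ → K) (s : σ) (p : MvPolynomial τ K) :
    pderiv s (lam L p) = ∑ t, C (L t s) * lam L (pderiv t p) := by
  induction p using MvPolynomial.induction_on with
  | C a => simp [lam]
  | add p q hp hq => simp only [map_add, hp, hq, mul_add, Finset.sum_add_distrib]
  | mul_X p i hp =>
    rw [map_mul, pderiv_mul, hp]
    simp only [pderiv_mul, map_add, map_mul, mul_add, Finset.sum_add_distrib]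
    congr 1
    · rw [Finset.sum_mul]
      exact Finset.sum_congr rfl fun t _ => by ring
    · rw [lam_X, map_sum]
      have h1 : ∀ s', (pderiv s) (C (L i s') * X s' : MvPolynomial σ K)
          = if s' = s then C (L i s) else 0 := by
        intro s'
        rw [pderiv_C_mul, pderiv_X]
        by_cases h : s' = s
        · subst h; simp
        · simp [h, Pi.single_apply]
      simp only [h1, Finset.sum_ite_eq', Finset.mem_univ, if_true]
      have h2 : ∀ t, (lam L) ((pderiv t) (X i : MvPolynomial τ K)) = if t = i then 1 else 0 := by
        intro t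
        rw [pderiv_X]
        by_cases h : t = i
        · subst h; simp
        · simp only [Pi.single_apply]
          rw [if_neg (fun h' => h h'.symm), if_neg h, map_zero]
      simp only [h2, mul_ite, mul_one, mul_zero, Finset.sum_ite_eq', Finset.mem_univ, if_true]
      rw [mul_comm]

/-- adjointness of linear substitutions for the apolar pairing -/
theorem apol_lam (L : τ → σ → K) (p : MvPolynomial τ K) (q : MvPolynomial σ K) :
    apol q (lam L p) = apol (lam (fun s t => L t s) q) p := by
  induction p using MvPolynomial.induction_on generalizing q with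
  | C a =>
    have : lam L (C a) = C a := by simp [lam]
    rw [this, apol_C, apol_C, constantCoeff_lam]
  | add p q hp hq => simp only [map_add, hp, hq]
  | mul_X p i hp =>
    rw [map_mul, lam_X, Finset.mul_sum, map_sum, apol_mul_X, pderiv_lam]
    have h1 : ∀ s, (apol q) (lam L p * (C (L i s) * X s))
        = L i s * apol (lam (fun s t => L t s) (pderiv s q)) p := by
      intro s
      have : lam L p * (C (L i s) * X s) = L i s • (lam L p * X s) := by
        rw [smul_eq_C_mul]; ring
      rw [this, map_smul, apol_mul_X, hp, smul_eq_mul]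
    rw [Finset.sum_congr rfl fun s _ => h1 s]
    -- linearity of `apol` in the first argument
    have lin : ∀ (f : σ → MvPolynomial τ K),
        apol (∑ s, C (L i s) * f s) p = ∑ s, L i s * apol (f s) p := by
      intro f
      rw [apol_eq_sum]
      simp only [apol_eq_sum]
      simp only [Finset.mul_sum]
      rw [Finset.sum_comm]
      refine Finset.sum_congr rfl fun γ _ => ?_
      rw [coeff_sum]
      simp only [coeff_C_mul, Finset.mul_sum]
      exact Finset.sum_congr rfl fun s _ => by ring
    rw [lin]

theorem apol_self_ne_zero [CharZero K] (P : MvPolynomial σ ℤ) (hP : P ≠ 0) :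
    apol (map (Int.castRingHom K) P) (map (Int.castRingHom K) P) ≠ 0 := by
  have h : apol (map (Int.castRingHom K) P) (map (Int.castRingHom K) P)
      = ((∑ γ ∈ P.support, coeff γ P * ((∏ i, ((γ i).factorial : ℤ)) * coeff γ P) : ℤ) : K) := by
    rw [apol_eq_sum]
    have hs : (map (Int.castRingHom K) P).support = P.support :=
      MvPolynomial.support_map_of_injective P (RingHom.injective_int (Int.castRingHom K))
    rw [hs]
    push_cast
    refine Finset.sum_congr rfl fun γ _ => ?_
    simp [coeff_map]
  rw [h]
  have h2 : (0 : ℤ) < ∑ γ ∈ P.support, coeff γ P * ((∏ i, ((γ i).factorial : ℤ)) * coeff γ P) := by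
    apply Finset.sum_pos
    · intro γ hγ
      have h0 : coeff γ P ≠ 0 := by simpa using hγ
      have h1 : (0 : ℤ) < ∏ i, ((γ i).factorial : ℤ) :=
        Finset.prod_pos fun i _ => by exact_mod_cast Nat.factorial_pos _
      have : coeff γ P * ((∏ i, ((γ i).factorial : ℤ)) * coeff γ P)
        = (∏ i, ((γ i).factorial : ℤ)) * (coeff γ P) ^ 2 := by ring
      rw [this]
      positivity
    · exact MvPolynomial.support_nonempty.mpr hP
  exact_mod_cast h2.ne'

end Pairing

end Pool.Agent.MP_5aa3e6_al
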