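import Mathlib
import Pool.Agent.MP_5aa3e6_al.FFT1

/-!
The first fundamental theorem for `SL_r`: polynomial functions on `m × r` matrices invariant
under right multiplication by `SL_r(ℝ)` are polynomials in the maximal minors.
-/

set_option linter.unusedSectionVars false

namespace Pool.Agent.MP_5aa3e6_al

open MvPolynomial

section FFT

variable {K : Type*} [Field K] [Algebra ℝ K]

theorem cast_injective : Function.Injective (algebraMap ℝ K) := (algebraMap ℝ K).injective

theorem funext_real {σ : Type*} {f g : MvPolynomial σ K}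
    (h : ∀ x : σ → ℝ, aeval (fun i => algebraMap ℝ K (x i)) f
      = aeval (fun i => algebraMap ℝ K (x i)) g) : f = g := by
  refine MvPolynomial.funext_set (fun _ => Set.range (algebraMap ℝ K)) (fun _ => ?_) ?_
  · exact Set.infinite_range_of_injective (cast_injective (K := K))
  · intro x hx
    have : ∀ i, ∃ y : ℝ, algebraMap ℝ K y = x i := fun i => hx i (Set.mem_univ i)
    choose y hy using this
    have h1 := h y
    have h2 : (fun i => algebraMap ℝ K (y i)) = x := funext hy
    rw [h2] at h1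
    simpa [coe_aeval_eq_eval] using h1

variable {α : Type*} [Fintype α] [DecidableEq α] {r : ℕ}

/-- evaluation at a real matrix -/
noncomputable def evR (ξ : Matrix α (Fin r) ℝ) : MvPolynomial (α × Fin r) K →ₐ[K] K :=
  aeval (fun i => algebraMap ℝ K (ξ i.1 i.2))

@[simp] theorem evR_X (ξ : Matrix α (Fin r) ℝ) (i : α × Fin r) :
    evR (K := K) ξ (X i) = algebraMap ℝ K (ξ i.1 i.2) := by simp [evR]

@[simp] theorem evR_C (ξ : Matrix α (Fin r) ℝ) (c : K) : evR ξ (C c) = c := by
  simp [evR]

theorem evR_ext {f g : MvPolynomial (α × Fin r) K} (h : ∀ ξ, evR ξ f = evR ξ g) : f = g := by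
  apply funext_real
  intro x
  exact h (fun a j => x (a, j))

/-- the maximal minor with rows `I` of the generic matrix -/
noncomputable def minorP (K : Type*) [Field K] {α : Type*} {r : ℕ} (I : Fin r → α) :
    MvPolynomial (α × Fin r) K :=
  (Matrix.of fun (l j : Fin r) => (X (I l, j) : MvPolynomial (α × Fin r) K)).det

/-- right multiplication -/
noncomputable def rho (A : Matrix (Fin r) (Fin r) ℝ) :
    MvPolynomial (α × Fin r) K →ₐ[K] MvPolynomial (α × Fin r) K :=
  aeval fun i => ∑ k, C (algebraMap ℝ K (A k i.2)) * X (i.1, k)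

theorem evR_rho (A : Matrix (Fin r) (Fin r) ℝ) (ξ : Matrix α (Fin r) ℝ)
    (f : MvPolynomial (α × Fin r) K) : evR ξ (rho A f) = evR (ξ * A) f := by
  have : (evR ξ).comp (rho A) = evR (K := K) (ξ * A) := by
    apply MvPolynomial.algHom_ext
    intro i
    simp only [rho, AlgHom.comp_apply, aeval_X, map_sum, map_mul, evR_C, evR_X, Matrix.mul_apply]
    exact Finset.sum_congr rfl fun k _ => mul_comm _ _
  rw [← this]
  rfl

theorem rho_homog (A : Matrix (Fin r) (Fin r) ℝ) (f : MvPolynomial (α × Fin r) K) (d : ℕ) :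
    rho A (homogeneousComponent d f) = homogeneousComponent d (rho A f) := by
  have key : ∀ i, rho A (homogeneousComponent i f) ∈ homogeneousSubmodule (α × Fin r) K i := by
    intro i
    rw [mem_homogeneousSubmodule]
    have := (homogeneousComponent_isHomogeneous i f).aeval
      (fun i : α × Fin r => ∑ k, C (algebraMap ℝ K (A k i.2)) * X (R := K) (i.1, k)) (n := 1) ?_
    · simpa [rho] using this
    · intro i
      apply IsHomogeneous.sum
      intro k _
      simpa using (isHomogeneous_C_mul_X (algebraMap ℝ K (A k i.2)) (i.1, k))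
  conv_rhs => rw [← sum_homogeneousComponent f, map_sum, map_sum]
  simp only [homogeneousComponent_of_mem (key _)]
  rw [Finset.sum_ite_eq]
  by_cases hd : d ∈ Finset.range (f.totalDegree + 1)
  · rw [if_pos hd]
  · rw [if_neg hd]
    have : f.totalDegree < d := by simpa using hd
    rw [homogeneousComponent_eq_zero _ _ this, map_zero]

/-- invariance under `SL_r(ℝ)` -/
def Inv (f : MvPolynomial (α × Fin r) K) : Prop :=
  ∀ A : Matrix (Fin r) (Fin r) ℝ, A.det = 1 → ∀ ξ : Matrix α (Fin r) ℝ, evR (ξ * A) f = evR ξ f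

theorem Inv.rho_eq {f : MvPolynomial (α × Fin r) K} (hf : Inv f)
    (A : Matrix (Fin r) (Fin r) ℝ) (hA : A.det = 1) : rho A f = f := by
  apply evR_ext
  intro ξ
  rw [evR_rho, hf A hA ξ]

theorem Inv.homog {f : MvPolynomial (α × Fin r) K} (hf : Inv f) (d : ℕ) :
    Inv (homogeneousComponent d f) := by
  intro A hA ξ
  rw [← evR_rho, rho_homog, hf.rho_eq A hA]

theorem aeval_smul_homog {σ : Type*} {f : MvPolynomial σ K} {d : ℕ} (hf : f.IsHomogeneous d)
    (t : K) (x : σ → K) : aeval (fun i => t * x i) f = t ^ d * aeval x f := by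
  rw [aeval_def, aeval_def, eval₂_eq, eval₂_eq, Finset.mul_sum]
  refine Finset.sum_congr rfl fun γ hγ => ?_
  have h1 := hf (mem_support_iff.mp hγ)
  simp only [mul_pow, Finset.prod_mul_distrib]
  have h2 : ∏ i ∈ γ.support, t ^ (γ i) = t ^ d := by
    rw [Finset.prod_pow_eq_pow_sum, ← h1]
    congr 1
    simp [Finsupp.weight_apply, Finsupp.sum]
  rw [h2]; ring

theorem evR_smul_homog {f : MvPolynomial (α × Fin r) K} {d : ℕ} (hf : f.IsHomogeneous d)
    (t : ℝ) (ξ : Matrix α (Fin r) ℝ) : evR (t • ξ) f = (algebraMap ℝ K t) ^ d * evR ξ f := by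
  rw [evR, evR, ← aeval_smul_homog hf]
  simp

/-- the matrix `diag(s,t,…,t)` -/
def dg (hr : 0 < r) (s t : ℝ) : Matrix (Fin r) (Fin r) ℝ :=
  Matrix.diagonal (fun j => if j = ⟨0, hr⟩ then s else t)

theorem dg_det (hr : 0 < r) (s t : ℝ) : (dg hr s t).det = s * t ^ (r - 1) := by
  rw [dg, Matrix.det_diagonal, ← Finset.mul_prod_erase _ _ (Finset.mem_univ (⟨0, hr⟩ : Fin r))]
  have : ∏ x ∈ Finset.univ.erase (⟨0, hr⟩ : Fin r), (if x = ⟨0, hr⟩ then s else t)
      = ∏ x ∈ Finset.univ.erase (⟨0, hr⟩ : Fin r), t :=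
    Finset.prod_congr rfl fun x hx => if_neg (Finset.mem_erase.mp hx).1
  rw [this, Finset.prod_const, Finset.card_erase_of_mem (Finset.mem_univ _)]
  simp

/-- the one-variable polynomial `s ↦ f(ξ diag(s,1,…,1))` -/
noncomputable def gpoly (hr : 0 < r) (ξ : Matrix α (Fin r) ℝ) :
    MvPolynomial (α × Fin r) K →ₐ[K] Polynomial K :=
  aeval fun i => if i.2 = ⟨0, hr⟩ then Polynomial.C (algebraMap ℝ K (ξ i.1 i.2)) * Polynomial.X
    else Polynomial.C (algebraMap ℝ K (ξ i.1 i.2))

theorem gpoly_eval (hr : 0 < r) (ξ : Matrix α (Fin r) ℝ) (f : MvPolynomial (α × Fin r) K)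
    (s : ℝ) : (gpoly hr ξ f).eval (algebraMap ℝ K s)
      = evR (ξ * dg hr s 1) f := by
  have : ((Polynomial.aeval (algebraMap ℝ K s)).restrictScalars K).comp (gpoly (K := K) hr ξ)
      = evR (ξ * dg hr s 1) := by
    apply MvPolynomial.algHom_ext
    intro i
    simp only [gpoly, dg, AlgHom.comp_apply, aeval_X, evR_X, Matrix.mul_diagonal,
      AlgHom.restrictScalars_apply]
    split_ifs with h
    · simp
    · simp
  rw [← this]
  simp [Polynomial.aeval_def]

theorem gpoly_homog (hr : 0 < r) {f : MvPolynomial (α × Fin r) K} (hf : Inv f) {d : ℕ}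
    (hd : f.IsHomogeneous d) (ξ : Matrix α (Fin r) ℝ) :
    Polynomial.expand K r (gpoly hr ξ f) = Polynomial.C (evR ξ f) * Polynomial.X ^ d := by
  apply Polynomial.eq_of_infinite_eval_eq
  have hinf : Set.Infinite ((algebraMap ℝ K) '' {t : ℝ | t ≠ 0}) := by
    apply Set.Infinite.image
    · exact (cast_injective (K := K)).injOn
    · exact Set.infinite_of_finite_compl (by simp [Set.compl_setOf])
  refine hinf.mono ?_
  rintro _ ⟨t, ht, rfl⟩
  have ht : t ≠ 0 := ht
  simp only [Set.mem_setOf_eq, Polynomial.expand_eval, Polynomial.eval_mul, Polynomial.eval_C,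
    Polynomial.eval_pow, Polynomial.eval_X]
  rw [← map_pow, gpoly_eval]
  have h1 : ξ * dg hr (t ^ r) 1 = (t • ξ) * dg hr (t ^ (r - 1)) t⁻¹ := by
    ext a j
    simp only [dg, Matrix.mul_diagonal, Matrix.smul_apply, smul_eq_mul]
    split_ifs with h
    · have : t ^ r = t ^ (r - 1) * t := by
        rw [← pow_succ]; congr 1; omega
      rw [this]; ring
    · field_simp
  rw [h1]
  have h2 : (dg hr (t ^ (r - 1)) t⁻¹).det = 1 := by
    rw [dg_det, ← mul_pow, mul_inv_cancel₀ ht, one_pow]
  rw [hf _ h2, evR_smul_homog hd]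
  ring

/-- a homogeneous invariant is a relative invariant of `GL_r` -/
theorem rel_inv (hr : 0 < r) {f : MvPolynomial (α × Fin r) K} (hf : Inv f) {d : ℕ}
    (hd : f.IsHomogeneous d) (h0 : f ≠ 0) : ∃ k : ℕ, ∀ (A : Matrix (Fin r) (Fin r) ℝ)
      (_ : A.det ≠ 0) (ξ : Matrix α (Fin r) ℝ),
      evR (ξ * A) f = (algebraMap ℝ K A.det) ^ k * evR ξ f := by
  have hdvd : r ∣ d := by
    by_contra hnd
    apply h0
    apply evR_ext
    intro ξ
    have := congrArg (fun p => p.coeff d) (gpoly_homog hr hf hd ξ)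
    simp only [Polynomial.coeff_expand hr, if_neg hnd, Polynomial.coeff_C_mul,
      Polynomial.coeff_X_pow, if_true, mul_one] at this
    rw [← this, map_zero]
  obtain ⟨k, rfl⟩ := hdvd
  refine ⟨k, fun A hA ξ => ?_⟩
  have h1 : gpoly hr ξ f = Polynomial.C (evR ξ f) * Polynomial.X ^ k := by
    apply Polynomial.expand_injective hr
    rw [gpoly_homog hr hf hd ξ]
    simp [pow_mul]
  have hDD : dg hr A.det 1 * dg hr A.det⁻¹ 1 = 1 := by
    rw [dg, dg, Matrix.diagonal_mul_diagonal, ← Matrix.diagonal_one]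
    congr 1
    funext j
    split_ifs with h
    · exact mul_inv_cancel₀ hA
    · simp
  have h2 : ξ * A = (ξ * dg hr A.det 1) * (dg hr A.det⁻¹ 1 * A) := by
    rw [Matrix.mul_assoc, ← Matrix.mul_assoc (dg hr A.det 1), hDD, Matrix.one_mul]
  have h3 : (dg hr A.det⁻¹ 1 * A).det = 1 := by
    rw [Matrix.det_mul, dg_det, one_pow, mul_one, inv_mul_cancel₀ hA]
  rw [h2, hf _ h3, ← gpoly_eval, h1]
  simp
  ring

/-- substitution `X ↦ ξᵗ X` -/
noncomputable def subL (ξ : Matrix α (Fin r) ℝ) : (Fin r × Fin r) → (α × Fin r) → K :=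
  fun t s => if t.2 = s.2 then algebraMap ℝ K (ξ s.1 t.1) else 0

theorem lam_subL_X (ξ : Matrix α (Fin r) ℝ) (t : Fin r × Fin r) :
    lam (subL (K := K) ξ) (X t) = ∑ a, C (algebraMap ℝ K (ξ a t.1)) * X (a, t.2) := by
  rw [lam_X, Fintype.sum_prod_type]
  refine Finset.sum_congr rfl fun a _ => ?_
  rw [Finset.sum_eq_single t.2]
  · simp [subL]
  · intro j _ hj
    simp [subL, hj.symm]
  · simp

/-- the determinant of the generic `r × r` matrix -/
noncomputable def detP (K : Type*) [Field K] (r : ℕ) : MvPolynomial (Fin r × Fin r) K :=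
  (Matrix.of fun (i j : Fin r) => (X (i, j) : MvPolynomial (Fin r × Fin r) K)).det

theorem algHom_det {A B : Type*} [CommRing A] [CommRing B] [Algebra K A] [Algebra K B]
    (φ : A →ₐ[K] B) (M : Matrix (Fin r) (Fin r) A) :
    φ M.det = (Matrix.of fun i j => φ (M i j)).det := by
  rw [AlgHom.map_det]
  rfl

theorem evR_minorP (ξ : Matrix α (Fin r) ℝ) (I : Fin r → α) :
    evR ξ (minorP K I) = (Matrix.of fun l j => algebraMap ℝ K (ξ (I l) j)).det := by
  rw [minorP, algHom_det]
  congr 1
  ext l j
  simp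

theorem evR_minorP_perm (ξ : Matrix α (Fin r) ℝ) (I : Fin r → α) (τ : Equiv.Perm (Fin r)) :
    evR ξ (minorP K (I ∘ τ)) = ((Equiv.Perm.sign τ : ℤ) : K) * evR ξ (minorP K I) := by
  rw [evR_minorP, evR_minorP, ← Matrix.det_permute]
  rfl

theorem lam_detP (ξ : Matrix α (Fin r) ℝ) :
    lam (subL (K := K) ξ) (detP K r)
      = C ((r.factorial : K)⁻¹) * ∑ I : Fin r → α, C (evR ξ (minorP K I)) * minorP K I := by
  haveI : CharZero K := charZero_of_injective_algebraMap (cast_injective (K := K))
  have h1 : lam (subL (K := K) ξ) (detP K r)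
      = ∑ I : Fin r → α, C (evR ξ (minorP K I)) * ∏ j, X (I j, j) := by
    rw [detP, algHom_det, Matrix.det_apply']
    have h2 : ∀ σ : Equiv.Perm (Fin r),
        ∏ i, lam (subL (K := K) ξ)
          ((X (σ i, i) : MvPolynomial (Fin r × Fin r) K))
        = ∑ I : Fin r → α, (∏ j, C (algebraMap ℝ K (ξ (I j) (σ j)))) *
            ∏ j, (X (I j, j) : MvPolynomial (α × Fin r) K) := by
      intro σ
      simp only [lam_subL_X]
      rw [Finset.prod_univ_sum]
      simp only [Finset.prod_mul_distrib, Fintype.piFinset_univ]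
    simp only [Matrix.of_apply, h2]
    simp only [Finset.mul_sum]
    rw [Finset.sum_comm]
    refine Finset.sum_congr rfl fun I _ => ?_
    rw [evR_minorP, ← Matrix.det_transpose, Matrix.det_apply', map_sum, Finset.sum_mul]
    refine Finset.sum_congr rfl fun σ _ => ?_
    simp only [Matrix.transpose_apply, Matrix.of_apply, map_mul, map_prod]
    rw [map_intCast]
    ring
  have h3 : ∀ τ : Equiv.Perm (Fin r),
      ∑ I : Fin r → α, C (evR ξ (minorP K I)) * ∏ j, (X (I j, j) : MvPolynomial (α × Fin r) K)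
      = ∑ I : Fin r → α, C (evR ξ (minorP K I)) *
          (((Equiv.Perm.sign τ : ℤ) : MvPolynomial (α × Fin r) K) * ∏ j, X (I (τ j), j)) := by
    intro τ
    rw [← (Equiv.arrowCongr τ.symm (Equiv.refl α)).sum_comp]
    refine Finset.sum_congr rfl fun I _ => ?_
    have h4 : (Equiv.arrowCongr τ.symm (Equiv.refl α)) I = I ∘ τ := by
      funext j; simp [Equiv.arrowCongr]
    rw [h4, evR_minorP_perm]
    simp only [Function.comp_apply, map_mul, map_intCast]
    ring
  have h5 : (r.factorial : MvPolynomial (α × Fin r) K) * lam (subL (K := K) ξ) (detP K r)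
      = ∑ I : Fin r → α, C (evR ξ (minorP K I)) * minorP K I := by
    have h6 : (r.factorial : MvPolynomial (α × Fin r) K) * lam (subL (K := K) ξ) (detP K r)
        = ∑ _τ : Equiv.Perm (Fin r), lam (subL (K := K) ξ) (detP K r) := by
      rw [Finset.sum_const, Finset.card_univ, Fintype.card_perm, Fintype.card_fin, nsmul_eq_mul]
    rw [h6, Finset.sum_congr rfl fun τ _ => h1.trans (h3 τ), Finset.sum_comm]
    refine Finset.sum_congr rfl fun I _ => ?_
    rw [← Finset.mul_sum]
    congr 1
    rw [minorP, Matrix.det_apply']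
    rfl
  rw [← h5, ← mul_assoc]
  have h7 : (C ((r.factorial : K)⁻¹) * (r.factorial : MvPolynomial (α × Fin r) K)) = 1 := by
    rw [← map_natCast (C (σ := α × Fin r) (R := K)), ← map_mul, inv_mul_cancel₀, map_one]
    exact_mod_cast Nat.factorial_ne_zero r
  rw [h7, one_mul]

theorem apol_minors (f : MvPolynomial (α × Fin r) K) (k : ℕ) :
    ∀ q' : MvPolynomial (α × Fin r) K,
      ∃ s ∈ Algebra.adjoin K (Set.range (fun I : Fin r → α => minorP K I)),
      ∀ ξ : Matrix α (Fin r) ℝ, apol f (q' * (lam (subL (K := K) ξ) (detP K r)) ^ k) = evR ξ s := by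
  induction k with
  | zero =>
    intro q'
    refine ⟨C (apol f q'), ?_, fun ξ => by simp⟩
    exact Subalgebra.algebraMap_mem _ _
  | succ k ih =>
    intro q'
    choose s hs hs2 using fun I : Fin r → α => ih (q' * minorP K I)
    refine ⟨∑ I, C ((r.factorial : K)⁻¹) * (minorP K I * s I), ?_, fun ξ => ?_⟩
    · refine Subalgebra.sum_mem _ fun I _ => ?_
      refine Subalgebra.mul_mem _ (Subalgebra.algebraMap_mem _ _) ?_
      exact Subalgebra.mul_mem _ (Algebra.subset_adjoin ⟨I, rfl⟩) (hs I)
    · rw [pow_succ, map_sum]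
      have h1 : q' * ((lam (subL (K := K) ξ) (detP K r)) ^ k * lam (subL (K := K) ξ) (detP K r))
          = ∑ I : Fin r → α, ((r.factorial : K)⁻¹ * evR ξ (minorP K I)) •
            (q' * minorP K I * (lam (subL (K := K) ξ) (detP K r)) ^ k) := by
        set T := (lam (subL (K := K) ξ) (detP K r)) ^ k with hT
        rw [lam_detP ξ, Finset.mul_sum, Finset.mul_sum, Finset.mul_sum]
        refine Finset.sum_congr rfl fun I _ => ?_
        rw [smul_eq_C_mul, map_mul]
        ring
      rw [h1, map_sum]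
      refine Finset.sum_congr rfl fun I _ => ?_
      rw [map_smul, hs2 I ξ, smul_eq_mul, map_mul, map_mul, evR_C]
      ring

theorem detP_ne_zero : detP K r ≠ 0 := by
  intro h
  have := congrArg (aeval (fun t : Fin r × Fin r => (1 : Matrix (Fin r) (Fin r) K) t.1 t.2)) h
  rw [detP, algHom_det, map_zero] at this
  have h2 : (Matrix.of fun (i j : Fin r) => (aeval (R := K) (fun t : Fin r × Fin r =>
      (1 : Matrix (Fin r) (Fin r) K) t.1 t.2))
        ((Matrix.of fun (i j : Fin r) => (X (i, j) : MvPolynomial (Fin r × Fin r) K)) i j))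
      = 1 := by
    ext i j
    simp
  rw [h2, Matrix.det_one] at this
  exact one_ne_zero this

theorem detP_eq_map : detP K r = map (Int.castRingHom K)
    (Matrix.of fun (i j : Fin r) => (X (i, j) : MvPolynomial (Fin r × Fin r) ℤ)).det := by
  rw [RingHom.map_det, detP]
  congr 1
  ext i j : 2
  simp

theorem fft_homog (hr : 0 < r) {f : MvPolynomial (α × Fin r) K} (hf : Inv f) {d : ℕ}
    (hd : f.IsHomogeneous d) :
    f ∈ Algebra.adjoin K (Set.range (fun I : Fin r → α => minorP K I)) := by
  haveI : CharZero K := charZero_of_injective_algebraMap (cast_injective (K := K))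
  by_cases h0 : f = 0
  · rw [h0]; exact zero_mem _
  obtain ⟨k, hk⟩ := rel_inv hr hf hd h0
  obtain ⟨s, hs, hs2⟩ := apol_minors f k 1
  -- `f(ξ Z) = det(Z)^k f(ξ)`
  have h1 : ∀ ξ : Matrix α (Fin r) ℝ, lam (fun s t => subL (K := K) ξ t s) f
      = C (evR ξ f) * (detP K r) ^ k := by
    intro ξ
    have h2 : (lam (fun s t => subL (K := K) ξ t s) f - C (evR ξ f) * (detP K r) ^ k)
        * detP K r = 0 := by
      apply funext_real
      intro z
      set Z : Matrix (Fin r) (Fin r) ℝ := Matrix.of fun i j => z (i, j) with hZ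
      have e1 : aeval (fun i => algebraMap ℝ K (z i)) (detP K r) = algebraMap ℝ K Z.det := by
        rw [detP, algHom_det, RingHom.map_det]
        congr 1
        ext i j
        simp [hZ]
      have e2 : aeval (fun i => algebraMap ℝ K (z i)) (lam (fun s t => subL (K := K) ξ t s) f)
          = evR (ξ * Z) f := by
        have : (aeval (fun i => algebraMap ℝ K (z i))).comp (lam (fun s t => subL (K := K) ξ t s))
            = evR (K := K) (ξ * Z) := by
          apply MvPolynomial.algHom_ext
          intro i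
          rw [AlgHom.comp_apply, lam_X, evR_X, map_sum, Fintype.sum_prod_type, Matrix.mul_apply,
            map_sum]
          refine Finset.sum_congr rfl fun k _ => ?_
          rw [Finset.sum_eq_single i.2]
          · simp [subL, hZ]
          · intro j _ hj
            simp [subL, hj]
          · simp
        rw [← this]; rfl
      rw [map_mul, map_sub, map_mul, map_pow, e1, e2, map_zero]
      by_cases hdet : Z.det = 0
      · rw [hdet, map_zero, mul_zero]
      · rw [hk Z hdet ξ]
        simp only [aeval_C, Algebra.algebraMap_self, RingHom.id_apply]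
        ring
    have h3 := (mul_eq_zero.mp h2).resolve_right (detP_ne_zero (K := K) (r := r))
    exact sub_eq_zero.mp h3
  have h4 : ∀ ξ : Matrix α (Fin r) ℝ, evR ξ s
      = evR ξ f * apol ((detP K r) ^ k) ((detP K r) ^ k) := by
    intro ξ
    rw [← hs2 ξ, one_mul, ← map_pow, apol_lam, h1 ξ]
    have lin : ∀ (c : K) (p q : MvPolynomial (Fin r × Fin r) K),
        apol (C c * p) q = c * apol p q := by
      intro c p q
      rw [apol_eq_sum, apol_eq_sum, Finset.mul_sum]
      refine Finset.sum_congr rfl fun γ _ => ?_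
      rw [coeff_C_mul]; ring
    exact lin _ _ _
  have h5 : apol ((detP K r) ^ k) ((detP K r) ^ k) ≠ 0 := by
    rw [detP_eq_map, ← map_pow]
    apply apol_self_ne_zero
    apply pow_ne_zero
    intro h
    have := congrArg (map (Int.castRingHom K)) h
    rw [← detP_eq_map, map_zero] at this
    exact detP_ne_zero (K := K) (r := r) this
  have h6 : f = C ((apol ((detP K r) ^ k) ((detP K r) ^ k))⁻¹) * s := by
    apply evR_ext
    intro ξ
    rw [map_mul, evR_C, h4 ξ]
    field_simp
  rw [h6]
  exact Subalgebra.mul_mem _ (Subalgebra.algebraMap_mem _ _) hs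

/-- the first fundamental theorem for `SL_r` -/
theorem fft (hr : 0 < r) {f : MvPolynomial (α × Fin r) K} (hf : Inv f) :
    f ∈ Algebra.adjoin K (Set.range (fun I : Fin r → α => minorP K I)) := by
  rw [← sum_homogeneousComponent f]
  exact Subalgebra.sum_mem _ fun i _ =>
    fft_homog hr (hf.homog i) (homogeneousComponent_isHomogeneous i f)

end FFT

end Pool.Agent.MP_5aa3e6_al
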