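import Mathlib

/-!
Smooth functions on a real normed space, ambient differential operators, smooth functions and
differential operators on a subset.
-/

set_option linter.unusedSectionVars false

namespace Pool.Agent.MP_5aa3e6_al

open scoped ContDiff

section Defs

variable (𝕜 : Type*) [RCLike 𝕜] (E : Type*) [NormedAddCommGroup E] [NormedSpace ℝ E]

/-- the algebra of smooth `𝕜`-valued functions on the real normed space `E` -/
def SF : Subalgebra 𝕜 (E → 𝕜) where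
  carrier := {F | ContDiff ℝ ∞ F}
  mul_mem' := by
    intro a b ha hb
    have ha' : ContDiff ℝ ∞ a := ha
    have hb' : ContDiff ℝ ∞ b := hb
    exact ha'.mul hb'
  add_mem' := by
    intro a b ha hb
    have ha' : ContDiff ℝ ∞ a := ha
    have hb' : ContDiff ℝ ∞ b := hb
    exact ha'.add hb'
  algebraMap_mem' := by
    intro r
    have : ContDiff ℝ ∞ (fun _ : E => r) := contDiff_const
    exact this

variable {𝕜 E}

theorem SF_contDiff (F : SF 𝕜 E) : ContDiff ℝ ∞ (F : E → 𝕜) := F.2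

theorem SF_differentiable (F : SF 𝕜 E) : Differentiable ℝ (F : E → 𝕜) :=
  (SF_contDiff F).differentiable (by simp)

variable (𝕜)

/-- the directional derivative `F ↦ ∂_v F` -/
noncomputable def dd (v : E) : Module.End 𝕜 (SF 𝕜 E) where
  toFun F := ⟨fun x => fderiv ℝ (F : E → 𝕜) x v,
    ((SF_contDiff F).fderiv_right (m := ∞) (by simp)).clm_apply contDiff_const⟩
  map_add' F G := by
    ext x
    have h := fderiv_add (SF_differentiable F x) (SF_differentiable G x)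
    have h2 : fderiv ℝ (((F + G : SF 𝕜 E)) : E → 𝕜) x
      = fderiv ℝ ((F : E → 𝕜) + (G : E → 𝕜)) x := rfl
    simp only [h2, h]
    rfl
  map_smul' c F := by
    ext x
    have h := fderiv_const_smul (SF_differentiable F x) c
    have h2 : fderiv ℝ (((c • F : SF 𝕜 E)) : E → 𝕜) x
      = fderiv ℝ (c • (F : E → 𝕜)) x := rfl
    simp only [h2, h]
    rfl

/-- multiplication by a smooth function -/
noncomputable def mulO (f : SF 𝕜 E) : Module.End 𝕜 (SF 𝕜 E) := LinearMap.mulLeft 𝕜 f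

variable (E)

/-- linear differential operators with smooth coefficients on `E`: the algebra of operators
generated by multiplications with smooth functions and by directional derivatives -/
noncomputable def ambDO : Subalgebra 𝕜 (Module.End 𝕜 (SF 𝕜 E)) :=
  Algebra.adjoin 𝕜 (Set.range (mulO 𝕜 (E := E)) ∪ Set.range (dd 𝕜 (E := E)))

variable {E}

variable {M : Type*} (e : M → E)

/-- smooth functions on `M`, which is embedded in `E` by `e`: the restrictions of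
smooth functions on `E` -/
def Sm : Subalgebra 𝕜 (M → 𝕜) where
  carrier := {f | ∃ F : E → 𝕜, ContDiff ℝ ∞ F ∧ ∀ x, f x = F (e x)}
  mul_mem' := fun ⟨F, hF, hF'⟩ ⟨G, hG, hG'⟩ => ⟨F * G, hF.mul hG, fun x => by simp [hF', hG']⟩
  add_mem' := fun ⟨F, hF, hF'⟩ ⟨G, hG, hG'⟩ => ⟨F + G, hF.add hG, fun x => by simp [hF', hG']⟩
  algebraMap_mem' := fun r => ⟨fun _ => r, contDiff_const, fun _ => rfl⟩

/-- restriction of smooth functions from `E` to `M` -/
def res : SF 𝕜 E →ₐ[𝕜] Sm 𝕜 e where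
  toFun F := ⟨fun x => (F : E → 𝕜) (e x), F, F.2, fun _ => rfl⟩
  map_one' := rfl
  map_mul' _ _ := rfl
  map_zero' := rfl
  map_add' _ _ := rfl
  commutes' _ := rfl

/-- the algebra of `𝕜`-linear operators on the smooth functions on `M` -/
def Op : Type _ := Module.End 𝕜 (Sm 𝕜 e)

instance : Ring (Op 𝕜 e) := inferInstanceAs (Ring (Module.End 𝕜 (Sm 𝕜 e)))

instance : Algebra 𝕜 (Op 𝕜 e) := inferInstanceAs (Algebra 𝕜 (Module.End 𝕜 (Sm 𝕜 e)))

instance : FunLike (Op 𝕜 e) (Sm 𝕜 e) (Sm 𝕜 e) :=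
  inferInstanceAs (FunLike (Module.End 𝕜 (Sm 𝕜 e)) (Sm 𝕜 e) (Sm 𝕜 e))

instance : LinearMapClass (Op 𝕜 e) 𝕜 (Sm 𝕜 e) (Sm 𝕜 e) :=
  inferInstanceAs (LinearMapClass (Module.End 𝕜 (Sm 𝕜 e)) 𝕜 (Sm 𝕜 e) (Sm 𝕜 e))

/-- `D` is a linear differential operator with smooth coefficients on `M`: it is induced by a
linear differential operator with smooth coefficients on the ambient space -/
def IsDO (D : Op 𝕜 e) : Prop :=
  ∃ Dt ∈ ambDO 𝕜 E, ∀ F : SF 𝕜 E, D (res 𝕜 e F) = res 𝕜 e (Dt F)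

end Defs

section Basic

variable {𝕜 : Type*} [RCLike 𝕜] {E : Type*} [NormedAddCommGroup E] [NormedSpace ℝ E]

@[simp] theorem dd_apply (v : E) (F : SF 𝕜 E) (x : E) :
    (dd 𝕜 v F : E → 𝕜) x = fderiv ℝ (F : E → 𝕜) x v := rfl

@[simp] theorem mulO_apply (f F : SF 𝕜 E) : mulO 𝕜 f F = f * F := rfl

theorem dd_mul (v : E) (F G : SF 𝕜 E) : dd 𝕜 v (F * G) = dd 𝕜 v F * G + F * dd 𝕜 v G := by
  ext x
  have h := fderiv_mul (SF_differentiable F x) (SF_differentiable G x)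
  have h2 : fderiv ℝ (((F * G : SF 𝕜 E)) : E → 𝕜) x
      = fderiv ℝ ((F : E → 𝕜) * (G : E → 𝕜)) x := rfl
  simp only [dd_apply, h2, h]
  simp
  ring

theorem dd_add (v w : E) : dd 𝕜 (v + w) = dd 𝕜 v + dd 𝕜 w := by
  ext F x
  simp

theorem dd_smul (c : ℝ) (v : E) : dd 𝕜 (c • v) = (c : 𝕜) • dd 𝕜 v := by
  ext F x
  simp [RCLike.real_smul_eq_coe_mul]

theorem dd_zero : dd 𝕜 (0 : E) = 0 := by
  ext F x
  simp

theorem dd_comm (v w : E) (F : SF 𝕜 E) : dd 𝕜 v (dd 𝕜 w F) = dd 𝕜 w (dd 𝕜 v F) := by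
  ext x
  have hd : DifferentiableAt ℝ (fderiv ℝ (F : E → 𝕜)) x :=
    ((SF_contDiff F).fderiv_right (m := ∞) (by simp)).differentiable (by simp) x
  have key : ∀ u v : E, fderiv ℝ (fun y => fderiv ℝ (F : E → 𝕜) y u) x v
      = fderiv ℝ (fderiv ℝ (F : E → 𝕜)) x v u := by
    intro u v
    have := fderiv_clm_apply hd (differentiableAt_const (c := u))
    rw [this]
    simp
  change fderiv ℝ (fun y => fderiv ℝ (F : E → 𝕜) y w) x v
    = fderiv ℝ (fun y => fderiv ℝ (F : E → 𝕜) y v) x w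
  rw [key, key]
  have hs : IsSymmSndFDerivAt ℝ (F : E → 𝕜) x :=
    (SF_contDiff F).contDiffAt.isSymmSndFDerivAt (by simp; decide)
  exact hs v w

theorem mulO_mem (f : SF 𝕜 E) : mulO 𝕜 f ∈ ambDO 𝕜 E :=
  Algebra.subset_adjoin (Or.inl ⟨f, rfl⟩)

theorem dd_mem (v : E) : dd 𝕜 v ∈ ambDO 𝕜 E :=
  Algebra.subset_adjoin (Or.inr ⟨v, rfl⟩)

/-- induction principle for ambient differential operators -/
theorem ambDO_induction {p : Module.End 𝕜 (SF 𝕜 E) → Prop}
    (hmul : ∀ f, p (mulO 𝕜 f)) (hdd : ∀ v, p (dd 𝕜 v))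
    (hadd : ∀ S T, p S → p T → p (S + T)) (hcomp : ∀ S T, p S → p T → p (S * T))
    {D : Module.End 𝕜 (SF 𝕜 E)} (hD : D ∈ ambDO 𝕜 E) : p D := by
  induction hD using Algebra.adjoin_induction with
  | mem x hx =>
    rcases hx with ⟨f, rfl⟩ | ⟨v, rfl⟩
    · exact hmul f
    · exact hdd v
  | algebraMap r =>
    have : algebraMap 𝕜 (Module.End 𝕜 (SF 𝕜 E)) r = mulO 𝕜 (algebraMap 𝕜 (SF 𝕜 E) r) := by
      ext F x
      simp [Algebra.smul_def]
    rw [this]
    exact hmul _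
  | add x y _ _ hx hy => exact hadd _ _ hx hy
  | mul x y _ _ hx hy => exact hcomp _ _ hx hy

variable {M : Type*} {e : M → E}

@[simp] theorem res_apply (F : SF 𝕜 E) (x : M) :
    (res 𝕜 e F : M → 𝕜) x = (F : E → 𝕜) (e x) := rfl

theorem res_surj (f : Sm 𝕜 e) : ∃ F : SF 𝕜 E, res 𝕜 e F = f := by
  obtain ⟨F, hF, hF'⟩ := f.2
  exact ⟨⟨F, hF⟩, Subtype.ext (funext fun x => (hF' x).symm)⟩

/-- the underlying linear map -/
def Op.lin (D : Op 𝕜 e) : Sm 𝕜 e →ₗ[𝕜] Sm 𝕜 e := D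

@[simp] theorem Op.lin_apply (D : Op 𝕜 e) (f : Sm 𝕜 e) : D.lin f = D f := rfl

theorem Op.ext {A B : Op 𝕜 e} (h : ∀ f, A f = B f) : A = B := LinearMap.ext h

@[simp] theorem Op.mul_apply (A B : Op 𝕜 e) (f : Sm 𝕜 e) : (A * B) f = A (B f) := rfl
@[simp] theorem Op.add_apply (A B : Op 𝕜 e) (f : Sm 𝕜 e) : (A + B) f = A f + B f := rfl
@[simp] theorem Op.sub_apply (A B : Op 𝕜 e) (f : Sm 𝕜 e) : (A - B) f = A f - B f := rfl
@[simp] theorem Op.neg_apply (A : Op 𝕜 e) (f : Sm 𝕜 e) : (-A) f = -(A f) := rfl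
@[simp] theorem Op.smul_apply (c : 𝕜) (A : Op 𝕜 e) (f : Sm 𝕜 e) : (c • A) f = c • (A f) := rfl
@[simp] theorem Op.zero_apply (f : Sm 𝕜 e) : (0 : Op 𝕜 e) f = 0 := rfl
@[simp] theorem Op.one_apply (f : Sm 𝕜 e) : (1 : Op 𝕜 e) f = f := rfl
@[simp] theorem Op.algebraMap_apply (c : 𝕜) (f : Sm 𝕜 e) :
    (algebraMap 𝕜 (Op 𝕜 e) c) f = c • f := rfl

theorem Op.sum_apply {κ : Type*} (s : Finset κ) (A : κ → Op 𝕜 e) (f : Sm 𝕜 e) :
    (∑ k ∈ s, A k) f = ∑ k ∈ s, A k f := by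
  classical
  induction s using Finset.induction_on with
  | empty => simp
  | insert a s ha ih => rw [Finset.sum_insert ha, Op.add_apply, ih, Finset.sum_insert ha]

/-- operators agreeing on restrictions are equal -/
theorem Op.ext_res {A B : Op 𝕜 e} (h : ∀ F, A (res 𝕜 e F) = B (res 𝕜 e F)) : A = B := by
  apply Op.ext
  intro f
  obtain ⟨F, rfl⟩ := res_surj f
  exact h F

theorem IsDO.mul {D D' : Op 𝕜 e} (h : IsDO 𝕜 e D) (h' : IsDO 𝕜 e D') :
    IsDO 𝕜 e (D * D') := by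
  obtain ⟨A, hA, hA'⟩ := h
  obtain ⟨B, hB, hB'⟩ := h'
  exact ⟨A * B, mul_mem hA hB, fun F => by
    rw [Op.mul_apply, hB', hA']; rfl⟩

theorem IsDO.add {D D' : Op 𝕜 e} (h : IsDO 𝕜 e D) (h' : IsDO 𝕜 e D') :
    IsDO 𝕜 e (D + D') := by
  obtain ⟨A, hA, hA'⟩ := h
  obtain ⟨B, hB, hB'⟩ := h'
  exact ⟨A + B, add_mem hA hB, fun F => by
    rw [Op.add_apply, hB', hA']; simp⟩

theorem IsDO.algebraMap (c : 𝕜) : IsDO 𝕜 e (algebraMap 𝕜 (Op 𝕜 e) c) :=
  ⟨_, Subalgebra.algebraMap_mem _ c, fun F => by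
    rw [Op.algebraMap_apply, Module.algebraMap_end_apply, map_smul]⟩

/-- the algebra of differential operators -/
def DOs (𝕜 : Type*) [RCLike 𝕜] (e : M → E) : Subalgebra 𝕜 (Op 𝕜 e) where
  carrier := {D | IsDO 𝕜 e D}
  mul_mem' := fun ha hb => IsDO.mul ha hb
  add_mem' := fun ha hb => IsDO.add ha hb
  algebraMap_mem' := fun c => IsDO.algebraMap c

theorem mem_DOs {D : Op 𝕜 e} : D ∈ DOs 𝕜 e ↔ IsDO 𝕜 e D := Iff.rfl

end Basic

section Pull

variable {𝕜 : Type*} [RCLike 𝕜] {E E' : Type*} [NormedAddCommGroup E] [NormedSpace ℝ E]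
  [NormedAddCommGroup E'] [NormedSpace ℝ E']

/-- pull-back of smooth functions by a smooth map -/
def pull (φ : E → E') (hφ : ContDiff ℝ ∞ φ) : SF 𝕜 E' →ₐ[𝕜] SF 𝕜 E where
  toFun F := ⟨fun x => (F : E' → 𝕜) (φ x), (SF_contDiff F).comp hφ⟩
  map_one' := rfl
  map_mul' _ _ := rfl
  map_zero' := rfl
  map_add' _ _ := rfl
  commutes' _ := rfl

@[simp] theorem pull_apply (φ : E → E') (hφ : ContDiff ℝ ∞ φ) (F : SF 𝕜 E') (x : E) :
    (pull φ hφ F : E → 𝕜) x = (F : E' → 𝕜) (φ x) := rfl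

/-- a real smooth function, as an element of `SF` -/
noncomputable def ofR (g : E → ℝ) (hg : ContDiff ℝ ∞ g) : SF 𝕜 E :=
  ⟨fun x => (g x : 𝕜), (RCLike.ofRealCLM (K := 𝕜)).contDiff.comp hg⟩

@[simp] theorem ofR_apply (g : E → ℝ) (hg : ContDiff ℝ ∞ g) (x : E) :
    (ofR g hg : SF 𝕜 E).1 x = (g x : 𝕜) := rfl

variable [FiniteDimensional ℝ E']

/-- continuous coordinates with respect to the standard basis -/
noncomputable def crd (E' : Type*) [NormedAddCommGroup E'] [NormedSpace ℝ E']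
    [FiniteDimensional ℝ E'] (j : Fin (Module.finrank ℝ E')) : E' →L[ℝ] ℝ :=
  LinearMap.toContinuousLinearMap ((Module.finBasis ℝ E').coord j)

theorem crd_sum (x : E') : ∑ j, crd E' j x • (Module.finBasis ℝ E') j = x := by
  have := (Module.finBasis ℝ E').sum_repr x
  simpa [crd] using this

/-- chain rule -/
theorem dd_pull (φ : E → E') (hφ : ContDiff ℝ ∞ φ) (v : E) (F : SF 𝕜 E') :
    dd 𝕜 v (pull φ hφ F) = ∑ j, ofR (fun x => crd E' j (fderiv ℝ φ x v))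
      ((crd E' j).contDiff.comp
        ((hφ.fderiv_right (m := ∞) (by simp)).clm_apply contDiff_const)) *
        pull φ hφ (dd 𝕜 ((Module.finBasis ℝ E') j) F) := by
  ext x
  have h1 : fderiv ℝ (fun x => (F : E' → 𝕜) (φ x)) x
      = (fderiv ℝ (F : E' → 𝕜) (φ x)).comp (fderiv ℝ φ x) :=
    fderiv_comp x (SF_differentiable F _) (hφ.differentiable (by simp) x)
  have h2 : fderiv ℝ ((pull φ hφ F : SF 𝕜 E) : E → 𝕜) x
      = (fderiv ℝ (F : E' → 𝕜) (φ x)).comp (fderiv ℝ φ x) := h1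
  rw [dd_apply, h2]
  simp only [ContinuousLinearMap.comp_apply]
  conv_lhs => rw [← crd_sum (fderiv ℝ φ x v)]
  rw [map_sum]
  simp only [map_smul, AddSubmonoidClass.coe_finset_sum, Finset.sum_apply]
  refine Finset.sum_congr rfl fun j _ => ?_
  rw [RCLike.real_smul_eq_coe_mul]
  rfl

/-- operators of the form `∑ a_k · φ^* ∘ W_k` -/
def alongS (φ : E → E') (hφ : ContDiff ℝ ∞ φ) : Submodule 𝕜 (SF 𝕜 E' →ₗ[𝕜] SF 𝕜 E) :=
  Submodule.span 𝕜 {T | ∃ a : SF 𝕜 E, ∃ W ∈ ambDO 𝕜 E',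
    T = (mulO 𝕜 a) ∘ₗ (pull φ hφ).toLinearMap ∘ₗ W}

theorem alongS_comp (φ : E → E') (hφ : ContDiff ℝ ∞ φ) {D : Module.End 𝕜 (SF 𝕜 E)}
    (hD : D ∈ ambDO 𝕜 E) : ∀ T ∈ alongS (𝕜 := 𝕜) φ hφ, D ∘ₗ T ∈ alongS (𝕜 := 𝕜) φ hφ := by
  refine ambDO_induction (p := fun D => ∀ T ∈ alongS (𝕜 := 𝕜) φ hφ,
    D ∘ₗ T ∈ alongS (𝕜 := 𝕜) φ hφ) ?_ ?_ ?_ ?_ hD
  · intro f T hT
    induction hT using Submodule.span_induction with
    | mem T hT =>
      obtain ⟨a, W, hW, rfl⟩ := hT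
      apply Submodule.subset_span
      refine ⟨f * a, W, hW, ?_⟩
      ext F x
      simp [mul_assoc]
    | zero => simp
    | add x y _ _ hx hy => rw [LinearMap.comp_add]; exact add_mem hx hy
    | smul c x _ hx => rw [LinearMap.comp_smul]; exact Submodule.smul_mem _ _ hx
  · intro v T hT
    induction hT using Submodule.span_induction with
    | mem T hT =>
      obtain ⟨a, W, hW, rfl⟩ := hT
      have : dd 𝕜 v ∘ₗ (mulO 𝕜 a) ∘ₗ (pull φ hφ).toLinearMap ∘ₗ W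
          = (mulO 𝕜 (dd 𝕜 v a)) ∘ₗ (pull φ hφ).toLinearMap ∘ₗ W
            + ∑ j, (mulO 𝕜 (a * ofR (fun x => crd E' j (fderiv ℝ φ x v))
              ((crd E' j).contDiff.comp
                ((hφ.fderiv_right (m := ∞) (by simp)).clm_apply contDiff_const)))) ∘ₗ
              (pull φ hφ).toLinearMap ∘ₗ (dd 𝕜 ((Module.finBasis ℝ E') j) * W) := by
        apply LinearMap.ext
        intro F
        simp only [LinearMap.comp_apply, mulO_apply, AlgHom.toLinearMap_apply,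
          LinearMap.add_apply, LinearMap.sum_apply, Module.End.mul_apply]
        rw [dd_mul, dd_pull, Finset.mul_sum]
        congr 1
        exact Finset.sum_congr rfl fun j _ => by rw [mul_assoc]
      rw [this]
      refine add_mem (Submodule.subset_span ⟨_, W, hW, rfl⟩) (Submodule.sum_mem _ fun j _ => ?_)
      exact Submodule.subset_span ⟨_, _, mul_mem (dd_mem _) hW, rfl⟩
    | zero => simp
    | add x y _ _ hx hy => rw [LinearMap.comp_add]; exact add_mem hx hy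
    | smul c x _ hx => rw [LinearMap.comp_smul]; exact Submodule.smul_mem _ _ hx
  · intro S T hS hT R hR
    rw [LinearMap.add_comp]
    exact add_mem (hS R hR) (hT R hR)
  · intro S T hS hT R hR
    exact hS _ (hT _ hR)

end Pull

end Pool.Agent.MP_5aa3e6_al
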