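import Mathlib
import Pool.Agent.MP_5aa3e6_al.Smooth1

/-!
Maps between embedded sets, transport of differential operators, extension lemma.
-/

set_option linter.unusedSectionVars false

namespace Pool.Agent.MP_5aa3e6_al

open scoped ContDiff Manifold Topology

section Maps

variable {𝕜 : Type*} [RCLike 𝕜] {E E' : Type*} [NormedAddCommGroup E] [NormedSpace ℝ E]
  [NormedAddCommGroup E'] [NormedSpace ℝ E'] {M M' : Type*}

/-- `φ : M → M'` is the restriction of a smooth map of the ambient spaces -/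
def SMap (e : M → E) (e' : M' → E') (φ : M → M') : Prop :=
  ∃ φt : E → E', ContDiff ℝ ∞ φt ∧ ∀ x, φt (e x) = e' (φ x)

/-- pull-back of smooth functions -/
def pb (𝕜 : Type*) [RCLike 𝕜] {e : M → E} {e' : M' → E'} {φ : M → M'} (h : SMap e e' φ) :
    Sm 𝕜 e' →ₐ[𝕜] Sm 𝕜 e where
  toFun f := ⟨fun x => (f : M' → 𝕜) (φ x), by
    obtain ⟨φt, hφt, hφt'⟩ := h
    obtain ⟨F, hF, hF'⟩ := f.2
    exact ⟨F ∘ φt, hF.comp hφt, fun x => by simp [hφt', hF']⟩⟩
  map_one' := rfl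
  map_mul' _ _ := rfl
  map_zero' := rfl
  map_add' _ _ := rfl
  commutes' _ := rfl

@[simp] theorem pb_apply {e : M → E} {e' : M' → E'} {φ : M → M'} (h : SMap e e' φ)
    (f : Sm 𝕜 e') (x : M) : (pb 𝕜 h f : M → 𝕜) x = (f : M' → 𝕜) (φ x) := rfl

/-- multiplication by a smooth function -/
noncomputable def mulM {e : M → E} (g : Sm 𝕜 e) : Op 𝕜 e :=
  (LinearMap.mulLeft 𝕜 g : Module.End 𝕜 (Sm 𝕜 e))

@[simp] theorem mulM_apply {e : M → E} (g f : Sm 𝕜 e) : mulM g f = g * f := rfl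

theorem IsDO_mulM {e : M → E} (g : Sm 𝕜 e) : IsDO 𝕜 e (mulM g) := by
  obtain ⟨G, rfl⟩ := res_surj g
  exact ⟨mulO 𝕜 G, mulO_mem G, fun F => by simp⟩

variable [FiniteDimensional ℝ E']

/-- transport of differential operators along a retraction -/
noncomputable def trans {e : M → E} {e' : M' → E'} {φ : M → M'} (hφ : SMap e e' φ)
    {ψ : M' → M} (hψ : SMap e' e ψ) (D : Op 𝕜 e) : Op 𝕜 e' :=
  ((pb 𝕜 hψ).toLinearMap ∘ₗ D.lin ∘ₗ (pb 𝕜 hφ).toLinearMap : Module.End 𝕜 (Sm 𝕜 e'))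

@[simp] theorem trans_apply {e : M → E} {e' : M' → E'} {φ : M → M'} (hφ : SMap e e' φ)
    {ψ : M' → M} (hψ : SMap e' e ψ) (D : Op 𝕜 e) (f : Sm 𝕜 e') :
    trans hφ hψ D f = pb 𝕜 hψ (D (pb 𝕜 hφ f)) := rfl

/-- transport of differential operators along a retraction -/
theorem IsDO.transport {e : M → E} {e' : M' → E'} {φ : M → M'} (hφ : SMap e e' φ)
    {ψ : M' → M} (hψ : SMap e' e ψ) (hφψ : ∀ y, φ (ψ y) = y)
    {D : Op 𝕜 e} (hD : IsDO 𝕜 e D) :
    IsDO 𝕜 e' (trans hφ hψ D) := by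
  obtain ⟨Dt, hDt, hDt'⟩ := hD
  obtain ⟨φt, hφt, hφt'⟩ := id hφ
  obtain ⟨ψt, hψt, hψt'⟩ := id hψ
  have h1 : (pull (𝕜 := 𝕜) φt hφt).toLinearMap ∈ alongS (𝕜 := 𝕜) φt hφt := by
    apply Submodule.subset_span
    refine ⟨1, 1, one_mem _, ?_⟩
    ext F x
    simp
  have h2 := alongS_comp φt hφt hDt _ h1
  have h3 : ∀ T ∈ alongS (𝕜 := 𝕜) φt hφt, ∃ W ∈ ambDO 𝕜 E', ∀ F,
      pb 𝕜 hψ (res 𝕜 e (T F)) = res 𝕜 e' (W F) := by
    intro T hT
    induction hT using Submodule.span_induction with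
    | mem T hT =>
      obtain ⟨a, W, hW, rfl⟩ := hT
      refine ⟨mulO 𝕜 (pull ψt hψt a) * W, mul_mem (mulO_mem _) hW, fun F => ?_⟩
      ext y
      simp [hψt', hφt', hφψ]
    | zero => exact ⟨0, zero_mem _, fun F => by simp⟩
    | add x y _ _ hx hy =>
      obtain ⟨A, hA, hA'⟩ := hx
      obtain ⟨B, hB, hB'⟩ := hy
      exact ⟨A + B, add_mem hA hB, fun F => by
        simp only [LinearMap.add_apply, map_add, hA', hB']⟩
    | smul c x _ hx =>
      obtain ⟨A, hA, hA'⟩ := hx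
      exact ⟨c • A, Subalgebra.smul_mem _ hA c, fun F => by
        simp only [LinearMap.smul_apply, map_smul, hA']⟩
  obtain ⟨W, hW, hW'⟩ := h3 _ h2
  refine ⟨W, hW, fun F => ?_⟩
  rw [← hW' F]
  simp only [trans_apply, LinearMap.comp_apply, AlgHom.toLinearMap_apply]
  rw [← hDt']
  congr 2
  ext x
  simp [hφt']

end Maps

section Extend

variable {E F : Type*} [NormedAddCommGroup E] [NormedSpace ℝ E] [FiniteDimensional ℝ E]
  [NormedAddCommGroup F] [NormedSpace ℝ F] {M : Type*}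

/-- a map smooth near the closed set `e(M)` agrees on it with a globally smooth map -/
theorem exists_ext {e : M → E} (he : IsClosed (Set.range e)) {U : Set E} (hU : IsOpen U)
    (heU : ∀ x, e x ∈ U) {g : E → F} (hg : ∀ x ∈ U, ContDiffAt ℝ ∞ g x) :
    ∃ gt : E → F, ContDiff ℝ ∞ gt ∧ ∀ x, gt (e x) = g (e x) := by
  have hdisj : Disjoint Uᶜ (Set.range e) := by
    rw [Set.disjoint_left]
    rintro _ h1 ⟨x, rfl⟩
    exact h1 (heU x)
  obtain ⟨χ, hχ0, hχ1, -⟩ := exists_contMDiffMap_zero_one_nhds_of_isClosed (n := ⊤) 𝓘(ℝ, E)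
    hU.isClosed_compl he hdisj
  have hχ : ContDiff ℝ ∞ (χ : E → ℝ) := contMDiff_iff_contDiff.mp χ.2
  refine ⟨fun x => χ x • g x, ?_, ?_⟩
  · rw [contDiff_iff_contDiffAt]
    intro x
    by_cases hx : x ∈ U
    · exact hχ.contDiffAt.smul (hg x hx)
    · have h1 : ∀ᶠ y in 𝓝 x, χ y = 0 :=
        hχ0.filter_mono (nhds_le_nhdsSet (by exact hx))
      have h2 : (fun y => χ y • g y) =ᶠ[𝓝 x] fun _ => (0 : F) := by
        filter_upwards [h1] with y hy
        rw [hy, zero_smul]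
      exact contDiffAt_const.congr_of_eventuallyEq h2
  · intro x
    have : χ (e x) = 1 := by
      have h1 : ∀ᶠ y in 𝓝 (e x), χ y = 1 :=
        hχ1.filter_mono (nhds_le_nhdsSet (Set.mem_range_self x))
      exact h1.self_of_nhds
    simp only [this, one_smul]

variable {E' : Type*} [NormedAddCommGroup E'] [NormedSpace ℝ E'] {M' : Type*}

theorem SMap.of_contDiffAt {e : M → E} (he : IsClosed (Set.range e)) {e' : M' → E'} {φ : M → M'}
    {U : Set E} (hU : IsOpen U) (heU : ∀ x, e x ∈ U) {g : E → E'}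
    (hg : ∀ x ∈ U, ContDiffAt ℝ ∞ g x) (hφ : ∀ x, g (e x) = e' (φ x)) : SMap e e' φ := by
  obtain ⟨gt, h1, h2⟩ := exists_ext he hU heU hg
  exact ⟨gt, h1, fun x => by rw [h2, hφ]⟩

variable {𝕜 : Type*} [RCLike 𝕜]

theorem mem_Sm_of_contDiffAt {e : M → E} (he : IsClosed (Set.range e)) {f : M → 𝕜}
    {U : Set E} (hU : IsOpen U) (heU : ∀ x, e x ∈ U) {g : E → 𝕜}
    (hg : ∀ x ∈ U, ContDiffAt ℝ ∞ g x) (hφ : ∀ x, f x = g (e x)) : f ∈ Sm 𝕜 e := by
  obtain ⟨gt, h1, h2⟩ := exists_ext he hU heU hg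
  exact ⟨gt, h1, fun x => by rw [h2, hφ]⟩

/-- the inverse of a nowhere vanishing smooth function is smooth -/
theorem inv_mem_Sm {e : M → E} (he : IsClosed (Set.range e)) {f : M → 𝕜}
    (hf : f ∈ Sm 𝕜 e) (h0 : ∀ x, f x ≠ 0) : (fun x => (f x)⁻¹) ∈ Sm 𝕜 e := by
  obtain ⟨F, hF, hF'⟩ := hf
  refine mem_Sm_of_contDiffAt he (U := {y | F y ≠ 0}) ?_ ?_ (g := fun y => (F y)⁻¹) ?_ ?_
  · exact isOpen_ne_fun hF.continuous continuous_const
  · intro x
    have := h0 x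
    rw [hF' x] at this
    exact this
  · intro y hy
    exact hF.contDiffAt.inv hy
  · intro x
    rw [hF' x]

end Extend

end Pool.Agent.MP_5aa3e6_al
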