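import Mathlib
import Pool.Agent.MP_5aa3e6_al.Smooth2
import Pool.Agent.MP_5aa3e6_al.FFT2

/-!
Exponentials, polynomial dependence on parameters, operators determined by exponentials or by
polynomials, derivatives with respect to a parameter.
-/

set_option linter.unusedSectionVars false

namespace Pool.Agent.MP_5aa3e6_al

open scoped ContDiff Manifold Topology

section Expo

variable {𝕜 : Type*} [RCLike 𝕜] {E : Type*} [NormedAddCommGroup E] [NormedSpace ℝ E]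

/-- the exponential of a linear form -/
noncomputable def expo (l : E →L[ℝ] ℝ) : SF 𝕜 E :=
  ofR (fun x => Real.exp (l x)) (Real.contDiff_exp.comp l.contDiff)

/-- a real linear form, as a smooth function -/
noncomputable def linf (l : E →L[ℝ] ℝ) : SF 𝕜 E := ofR (fun x => l x) l.contDiff

@[simp] theorem expo_apply (l : E →L[ℝ] ℝ) (x : E) :
    (expo (𝕜 := 𝕜) l : E → 𝕜) x = (Real.exp (l x) : ℝ) := rfl

@[simp] theorem linf_apply (l : E →L[ℝ] ℝ) (x : E) :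
    (linf (𝕜 := 𝕜) l : E → 𝕜) x = (l x : ℝ) := rfl

theorem dd_ofR (g : E → ℝ) (hg : ContDiff ℝ ∞ g) (v x : E) :
    (dd 𝕜 v (ofR g hg) : E → 𝕜) x = (fderiv ℝ g x v : ℝ) := by
  have h1 : HasFDerivAt (fun x => ((g x : ℝ) : 𝕜))
      ((RCLike.ofRealCLM (K := 𝕜)).comp (fderiv ℝ g x)) x :=
    (RCLike.ofRealCLM (K := 𝕜)).hasFDerivAt.comp x
      ((hg.differentiable (by simp)) x).hasFDerivAt
  rw [dd_apply]
  have h2 : fderiv ℝ ((ofR g hg : SF 𝕜 E) : E → 𝕜) x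
      = (RCLike.ofRealCLM (K := 𝕜)).comp (fderiv ℝ g x) := h1.fderiv
  rw [h2]
  rfl

theorem dd_expo (l : E →L[ℝ] ℝ) (v : E) :
    dd 𝕜 v (expo l) = ((l v : ℝ) : 𝕜) • expo (𝕜 := 𝕜) l := by
  ext x
  rw [expo, dd_ofR]
  have h1 : HasFDerivAt (fun x => Real.exp (l x)) (Real.exp (l x) • (l : E →L[ℝ] ℝ)) x :=
    l.hasFDerivAt.exp
  rw [h1.fderiv]
  simp [mul_comm]

theorem dd_linf (l : E →L[ℝ] ℝ) (v : E) :
    dd 𝕜 v (linf l) = algebraMap 𝕜 (SF 𝕜 E) ((l v : ℝ) : 𝕜) := by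
  ext x
  rw [linf, dd_ofR]
  rw [l.hasFDerivAt.fderiv]
  rfl

section Param

variable {K : Type*} [Fintype K] (l : K → E →L[ℝ] ℝ)

/-- evaluation of a polynomial with coefficients in `SF` at a real point -/
noncomputable def evS (ξ : K → ℝ) : MvPolynomial K (SF 𝕜 E) →+* SF 𝕜 E :=
  MvPolynomial.eval (fun k => algebraMap 𝕜 (SF 𝕜 E) ((ξ k : ℝ) : 𝕜))

/-- the exponential of `∑ ξ_k l_k` -/
noncomputable def expoL (ξ : K → ℝ) : SF 𝕜 E := expo (∑ k, ξ k • l k)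

theorem evS_diff (v : E) (P : MvPolynomial K (SF 𝕜 E)) :
    ∃ P' : MvPolynomial K (SF 𝕜 E), ∀ ξ : K → ℝ, dd 𝕜 v (evS ξ P) = evS ξ P' := by
  induction P using MvPolynomial.induction_on with
  | C a => exact ⟨MvPolynomial.C (dd 𝕜 v a), fun ξ => by simp [evS]⟩
  | add p q hp hq =>
    obtain ⟨p', hp⟩ := hp
    obtain ⟨q', hq⟩ := hq
    exact ⟨p' + q', fun ξ => by rw [map_add, map_add, hp, hq, map_add]⟩
  | mul_X p k hp =>
    obtain ⟨p', hp⟩ := hp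
    refine ⟨p' * MvPolynomial.X k, fun ξ => ?_⟩
    rw [map_mul (evS ξ), map_mul (evS ξ)]
    have h1 : evS (𝕜 := 𝕜) (E := E) ξ (MvPolynomial.X k)
        = algebraMap 𝕜 (SF 𝕜 E) ((ξ k : ℝ) : 𝕜) := by simp [evS]
    rw [h1, ← hp ξ, mul_comm, ← Algebra.smul_def, map_smul, mul_comm, ← Algebra.smul_def]

theorem ambDO_param {D : Module.End 𝕜 (SF 𝕜 E)} (hD : D ∈ ambDO 𝕜 E) :
    ∀ P : MvPolynomial K (SF 𝕜 E), ∃ P' : MvPolynomial K (SF 𝕜 E), ∀ ξ : K → ℝ,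
      D (expoL l ξ * evS ξ P) = expoL l ξ * evS ξ P' := by
  refine ambDO_induction (p := fun D => ∀ P : MvPolynomial K (SF 𝕜 E),
    ∃ P' : MvPolynomial K (SF 𝕜 E), ∀ ξ : K → ℝ,
      D (expoL l ξ * evS ξ P) = expoL l ξ * evS ξ P') ?_ ?_ ?_ ?_ hD
  · intro f P
    refine ⟨MvPolynomial.C f * P, fun ξ => ?_⟩
    rw [mulO_apply, map_mul]
    have : evS (𝕜 := 𝕜) (E := E) ξ (MvPolynomial.C f) = f := by simp [evS]
    rw [this]; ring
  · intro v P
    obtain ⟨P', hP'⟩ := evS_diff (𝕜 := 𝕜) v P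
    refine ⟨(∑ k, MvPolynomial.C (algebraMap 𝕜 (SF 𝕜 E) ((l k v : ℝ) : 𝕜)) *
      MvPolynomial.X k) * P + P', fun ξ => ?_⟩
    rw [dd_mul, hP', expoL, dd_expo, map_add, map_mul, map_sum]
    have h1 : ∀ k, evS (𝕜 := 𝕜) (E := E) ξ
        (MvPolynomial.C (algebraMap 𝕜 (SF 𝕜 E) ((l k v : ℝ) : 𝕜)) * MvPolynomial.X k)
        = algebraMap 𝕜 (SF 𝕜 E) (((ξ k * l k v : ℝ)) : 𝕜) := by
      intro k
      simp only [evS, map_mul, MvPolynomial.eval_C, MvPolynomial.eval_X]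
      rw [← map_mul]
      congr 1
      push_cast
      ring
    simp only [h1]
    rw [← map_sum, Algebra.smul_def]
    have h2 : (((∑ k, ξ k • l k) v : ℝ) : 𝕜) = ∑ k, (((ξ k * l k v : ℝ)) : 𝕜) := by
      simp
    rw [h2]
    ring
  · intro S T hS hT P
    obtain ⟨A, hA⟩ := hS P
    obtain ⟨B, hB⟩ := hT P
    exact ⟨A + B, fun ξ => by rw [LinearMap.add_apply, hA, hB, map_add, mul_add]⟩
  · intro S T hS hT P
    obtain ⟨B, hB⟩ := hT P
    obtain ⟨A, hA⟩ := hS B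
    exact ⟨A, fun ξ => by rw [Module.End.mul_apply, hB, hA]⟩

/-- polynomial dependence on `ξ` -/
theorem ambDO_poly {D : Module.End 𝕜 (SF 𝕜 E)} (hD : D ∈ ambDO 𝕜 E) (F : SF 𝕜 E) (x : E) :
    ∃ P : MvPolynomial K 𝕜, ∀ ξ : K → ℝ,
      (D (expoL l ξ * F) : E → 𝕜) x = (expoL (𝕜 := 𝕜) l ξ : E → 𝕜) x *
        MvPolynomial.aeval (fun k => algebraMap ℝ 𝕜 (ξ k)) P := by
  obtain ⟨P, hP⟩ := ambDO_param l hD (MvPolynomial.C F)
  let evx : SF 𝕜 E →ₐ[𝕜] 𝕜 :=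
    { toFun := fun F => (F : E → 𝕜) x
      map_one' := rfl
      map_mul' := fun _ _ => rfl
      map_zero' := rfl
      map_add' := fun _ _ => rfl
      commutes' := fun _ => rfl }
  have key : ∀ (ξ : K → ℝ) (P : MvPolynomial K (SF 𝕜 E)), evx (evS ξ P)
      = MvPolynomial.aeval (fun k => algebraMap ℝ 𝕜 (ξ k)) (MvPolynomial.map evx.toRingHom P) := by
    intro ξ P
    induction P using MvPolynomial.induction_on with
    | C a => simp [evS]
    | add p q hp hq => simp only [map_add, hp, hq]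
    | mul_X p k hp =>
      rw [map_mul (evS ξ), map_mul evx, hp, map_mul, map_mul]
      congr 1
      simp only [evS, MvPolynomial.eval_X, MvPolynomial.map_X, MvPolynomial.aeval_X]
      rfl
  refine ⟨MvPolynomial.map evx.toRingHom P, fun ξ => ?_⟩
  have h1 := hP ξ
  have h2 : evS (𝕜 := 𝕜) (E := E) ξ (MvPolynomial.C F) = F := by simp [evS]
  rw [h2] at h1
  rw [h1]
  change (expoL (𝕜 := 𝕜) l ξ : E → 𝕜) x * evx (evS ξ P) = _
  rw [key]

end Param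

end Expo

end Pool.Agent.MP_5aa3e6_al
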