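import Mathlib
import Pool.Agent.MP_5aa3e6_al.Smooth3

/-!
Differential operators are determined by their values on exponentials or on polynomials.
-/

set_option linter.unusedSectionVars false

namespace Pool.Agent.MP_5aa3e6_al

open scoped ContDiff Manifold Topology

open scoped IsMulCommutative in
theorem exists_aeval_comm {K A J : Type*} [Field K] [Semiring A] [Algebra K A] (x : J → A)
    (h : ∀ i j, x i * x j = x j * x i) :
    ∃ ev : MvPolynomial J K →ₐ[K] A, ∀ j, ev (MvPolynomial.X j) = x j := by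
  have hc : ∀ a ∈ Set.range x, ∀ b ∈ Set.range x, a * b = b * a := by
    rintro _ ⟨i, rfl⟩ _ ⟨j, rfl⟩; exact h i j
  have : IsMulCommutative (Algebra.adjoin K (Set.range x)) := Algebra.isMulCommutative_adjoin K hc
  let f : MvPolynomial J K →ₐ[K] Algebra.adjoin K (Set.range x) :=
    MvPolynomial.aeval (fun j => ⟨x j, Algebra.subset_adjoin ⟨j, rfl⟩⟩)
  refine ⟨(Algebra.adjoin K (Set.range x)).val.comp f, fun j => ?_⟩
  simp [f]

section NF

variable {𝕜 : Type*} [RCLike 𝕜] {E : Type*} [NormedAddCommGroup E] [NormedSpace ℝ E]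
  [FiniteDimensional ℝ E]

/-- basis derivatives -/
noncomputable def pd (𝕜 : Type*) [RCLike 𝕜] {E : Type*} [NormedAddCommGroup E] [NormedSpace ℝ E]
    [FiniteDimensional ℝ E] (j : Fin (Module.finrank ℝ E)) : Module.End 𝕜 (SF 𝕜 E) :=
  dd 𝕜 ((Module.finBasis ℝ E) j)

theorem pd_comm (i j : Fin (Module.finrank ℝ E)) :
    pd 𝕜 (E := E) i * pd 𝕜 j = pd 𝕜 j * pd 𝕜 i := by
  ext1 F
  exact dd_comm _ _ F

/-- constant coefficient differential operators -/
theorem exists_evD (𝕜 : Type*) [RCLike 𝕜] (E : Type*) [NormedAddCommGroup E] [NormedSpace ℝ E]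
    [FiniteDimensional ℝ E] :
    ∃ ev : MvPolynomial (Fin (Module.finrank ℝ E)) 𝕜 →ₐ[𝕜] Module.End 𝕜 (SF 𝕜 E),
      ∀ j, ev (MvPolynomial.X j) = pd 𝕜 j :=
  exists_aeval_comm _ pd_comm

/-- evaluation of polynomials at the basis derivatives -/
noncomputable def evD (𝕜 : Type*) [RCLike 𝕜] (E : Type*) [NormedAddCommGroup E] [NormedSpace ℝ E]
    [FiniteDimensional ℝ E] :
    MvPolynomial (Fin (Module.finrank ℝ E)) 𝕜 →ₐ[𝕜] Module.End 𝕜 (SF 𝕜 E) :=
  (exists_evD 𝕜 E).choose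

theorem evD_X (j : Fin (Module.finrank ℝ E)) : evD 𝕜 E (MvPolynomial.X j) = pd 𝕜 j :=
  (exists_evD 𝕜 E).choose_spec j

/-- normal forms -/
noncomputable def NF (𝕜 : Type*) [RCLike 𝕜] (E : Type*) [NormedAddCommGroup E] [NormedSpace ℝ E]
    [FiniteDimensional ℝ E] : Submodule 𝕜 (Module.End 𝕜 (SF 𝕜 E)) :=
  Submodule.span 𝕜 {T | ∃ a p, T = mulO 𝕜 a * evD 𝕜 E p}

theorem dd_eq_sum (v : E) : dd 𝕜 v = ∑ j, ((crd E j v : ℝ) : 𝕜) • pd 𝕜 (E := E) j := by
  conv_lhs => rw [← crd_sum v]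
  have : ∀ (s : Finset (Fin (Module.finrank ℝ E))),
      dd 𝕜 (∑ j ∈ s, crd E j v • (Module.finBasis ℝ E) j)
        = ∑ j ∈ s, ((crd E j v : ℝ) : 𝕜) • pd 𝕜 (E := E) j := by
    intro s
    induction s using Finset.induction_on with
    | empty => simp [dd_zero]
    | insert a s ha ih => rw [Finset.sum_insert ha, dd_add, dd_smul, ih, Finset.sum_insert ha]; rfl
  exact this _

theorem NF_left {D : Module.End 𝕜 (SF 𝕜 E)} (hD : D ∈ ambDO 𝕜 E) :
    ∀ T ∈ NF 𝕜 E, D * T ∈ NF 𝕜 E := by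
  refine ambDO_induction (p := fun D => ∀ T ∈ NF 𝕜 E, D * T ∈ NF 𝕜 E) ?_ ?_ ?_ ?_ hD
  · intro f T hT
    induction hT using Submodule.span_induction with
    | mem T hT =>
      obtain ⟨a, p, rfl⟩ := hT
      apply Submodule.subset_span
      refine ⟨f * a, p, ?_⟩
      ext F x
      simp [mul_assoc]
    | zero => simp
    | add x y _ _ hx hy => rw [mul_add]; exact add_mem hx hy
    | smul c x _ hx => rw [mul_smul_comm]; exact Submodule.smul_mem _ _ hx
  · intro v T hT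
    rw [dd_eq_sum, Finset.sum_mul]
    refine Submodule.sum_mem _ fun j _ => ?_
    rw [smul_mul_assoc]
    refine Submodule.smul_mem _ _ ?_
    induction hT using Submodule.span_induction with
    | mem T hT =>
      obtain ⟨a, p, rfl⟩ := hT
      have : pd 𝕜 j * (mulO 𝕜 a * evD 𝕜 E p)
          = mulO 𝕜 (pd 𝕜 j a) * evD 𝕜 E p + mulO 𝕜 a * evD 𝕜 E (MvPolynomial.X j * p) := by
        rw [map_mul, evD_X]
        ext1 F
        simp only [Module.End.mul_apply, mulO_apply, LinearMap.add_apply]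
        exact dd_mul _ _ _
      rw [this]
      exact add_mem (Submodule.subset_span ⟨_, _, rfl⟩) (Submodule.subset_span ⟨_, _, rfl⟩)
    | zero => simp
    | add x y _ _ hx hy => rw [mul_add]; exact add_mem hx hy
    | smul c x _ hx => rw [mul_smul_comm]; exact Submodule.smul_mem _ _ hx
  · intro S T hS hT R hR
    rw [add_mul]
    exact add_mem (hS R hR) (hT R hR)
  · intro S T hS hT R hR
    rw [mul_assoc]
    exact hS _ (hT _ hR)

theorem ambDO_le_NF {D : Module.End 𝕜 (SF 𝕜 E)} (hD : D ∈ ambDO 𝕜 E) : D ∈ NF 𝕜 E := by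
  have h1 : (1 : Module.End 𝕜 (SF 𝕜 E)) ∈ NF 𝕜 E := by
    apply Submodule.subset_span
    refine ⟨1, 1, ?_⟩
    ext F x
    simp
  simpa using NF_left hD 1 h1

/-- at a point, a differential operator is a constant coefficient operator -/
theorem exists_symbol {D : Module.End 𝕜 (SF 𝕜 E)} (hD : D ∈ ambDO 𝕜 E) (x : E) :
    ∃ Q : MvPolynomial (Fin (Module.finrank ℝ E)) 𝕜, ∀ F : SF 𝕜 E,
      (D F : E → 𝕜) x = (evD 𝕜 E Q F : E → 𝕜) x := by
  have h := ambDO_le_NF hD
  clear hD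
  induction h using Submodule.span_induction with
  | mem T hT =>
    obtain ⟨a, p, rfl⟩ := hT
    refine ⟨(a : E → 𝕜) x • p, fun F => ?_⟩
    rw [map_smul]
    rfl
  | zero => exact ⟨0, fun F => by simp⟩
  | add A B _ _ hA hB =>
    obtain ⟨P, hP⟩ := hA
    obtain ⟨Q, hQ⟩ := hB
    refine ⟨P + Q, fun F => ?_⟩
    rw [map_add, LinearMap.add_apply, LinearMap.add_apply]
    change (A F : E → 𝕜) x + (B F : E → 𝕜) x = _
    rw [hP, hQ]
    rfl
  | smul c A _ hA =>
    obtain ⟨P, hP⟩ := hA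
    refine ⟨c • P, fun F => ?_⟩
    rw [map_smul, LinearMap.smul_apply, LinearMap.smul_apply]
    change c * (A F : E → 𝕜) x = _
    rw [hP]
    rfl

theorem evD_expo (Q : MvPolynomial (Fin (Module.finrank ℝ E)) 𝕜) (l : E →L[ℝ] ℝ) :
    evD 𝕜 E Q (expo l)
      = MvPolynomial.aeval (fun j => algebraMap ℝ 𝕜 (l ((Module.finBasis ℝ E) j))) Q
        • expo (𝕜 := 𝕜) l := by
  induction Q using MvPolynomial.induction_on with
  | C a =>
    have h1 : MvPolynomial.C a = algebraMap 𝕜 (MvPolynomial (Fin (Module.finrank ℝ E)) 𝕜) a := rfl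
    rw [h1, AlgHom.commutes, AlgHom.commutes]
    rfl
  | add p q hp hq => rw [map_add, LinearMap.add_apply, hp, hq, map_add, add_smul]
  | mul_X p j hp =>
    rw [map_mul, Module.End.mul_apply, evD_X, pd, dd_expo, map_smul, hp, map_mul, smul_smul,
      mul_comm]
    simp [RCLike.algebraMap_eq_ofReal]

/-- an operator killing all exponentials at a point vanishes at that point -/
theorem eq_zero_of_expo {D : Module.End 𝕜 (SF 𝕜 E)} (hD : D ∈ ambDO 𝕜 E) (x : E)
    (h : ∀ l : E →L[ℝ] ℝ, (D (expo l) : E → 𝕜) x = 0) (F : SF 𝕜 E) : (D F : E → 𝕜) x = 0 := by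
  obtain ⟨Q, hQ⟩ := exists_symbol hD x
  have hQ0 : Q = 0 := by
    apply funext_real
    intro y
    rw [map_zero]
    have h1 := h (∑ j, y j • crd E j)
    rw [hQ, evD_expo] at h1
    have h2 : ∀ j, (∑ i, y i • crd E i) ((Module.finBasis ℝ E) j) = y j := by
      intro j
      simp [crd, Finsupp.single_apply]
    simp only [h2] at h1
    have h3 : ((MvPolynomial.aeval (fun j => algebraMap ℝ 𝕜 (y j))) Q)
      * (expo (𝕜 := 𝕜) (∑ j, y j • crd E j) : E → 𝕜) x = 0 := h1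
    rcases mul_eq_zero.mp h3 with h4 | h4
    · exact h4
    · exfalso
      rw [expo_apply] at h4
      have : Real.exp ((∑ j, y j • crd E j) x) = 0 := by exact_mod_cast h4
      exact (Real.exp_pos _).ne' this
  rw [hQ, hQ0, map_zero]
  rfl

/-- the algebra of polynomial functions -/
noncomputable def polyF (𝕜 : Type*) [RCLike 𝕜] (E : Type*) [NormedAddCommGroup E]
    [NormedSpace ℝ E] : Subalgebra 𝕜 (SF 𝕜 E) :=
  Algebra.adjoin 𝕜 (Set.range (linf (𝕜 := 𝕜) (E := E)))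

theorem dd_pow_succ (v : E) (F : SF 𝕜 E) (k : ℕ) :
    dd 𝕜 v (F ^ (k + 1)) = ((k + 1 : ℕ) : 𝕜) • (F ^ k * dd 𝕜 v F) := by
  induction k with
  | zero => simp
  | succ k ih =>
    rw [pow_succ, dd_mul, ih]
    push_cast
    simp only [Algebra.smul_def, map_add, map_one, map_natCast]
    ring

theorem evD_pow (x : E) (y : Fin (Module.finrank ℝ E) → ℝ)
    (s : Fin (Module.finrank ℝ E) →₀ ℕ) (a : 𝕜) :
    ∃ d, (MvPolynomial.monomial s a).IsHomogeneous d ∧ ∀ k,
      evD 𝕜 E (MvPolynomial.monomial s a)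
        ((linf (∑ j, y j • crd E j) -
          algebraMap 𝕜 (SF 𝕜 E) (((∑ j, y j • crd E j) x : ℝ) : 𝕜)) ^ k)
      = ((k.descFactorial d : 𝕜) *
          MvPolynomial.aeval (fun j => algebraMap ℝ 𝕜 (y j)) (MvPolynomial.monomial s a)) •
        ((linf (∑ j, y j • crd E j) -
          algebraMap 𝕜 (SF 𝕜 E) (((∑ j, y j • crd E j) x : ℝ) : 𝕜)) ^ (k - d)) := by
  set L : SF 𝕜 E := linf (∑ j, y j • crd E j) -
          algebraMap 𝕜 (SF 𝕜 E) (((∑ j, y j • crd E j) x : ℝ) : 𝕜) with hL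
  have hdL : ∀ j, pd 𝕜 j L = algebraMap 𝕜 (SF 𝕜 E) ((y j : ℝ) : 𝕜) := by
    intro j
    rw [hL, map_sub, pd, dd_linf]
    have h1 : dd 𝕜 ((Module.finBasis ℝ E) j)
        (algebraMap 𝕜 (SF 𝕜 E) (((∑ j, y j • crd E j) x : ℝ) : 𝕜)) = 0 := by
      ext z
      rw [dd_apply]
      have : ((algebraMap 𝕜 (SF 𝕜 E) (((∑ j, y j • crd E j) x : ℝ) : 𝕜) : SF 𝕜 E) : E → 𝕜)
        = fun _ => (((∑ j, y j • crd E j) x : ℝ) : 𝕜) := rfl
      rw [this]
      simp
    rw [h1, sub_zero]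
    congr 2
    simp [crd, Finsupp.single_apply]
  apply MvPolynomial.induction_on_monomial (motive := fun Q => ∃ d, Q.IsHomogeneous d ∧ ∀ k,
      evD 𝕜 E Q (L ^ k) = ((k.descFactorial d : 𝕜) *
          MvPolynomial.aeval (fun j => algebraMap ℝ 𝕜 (y j)) Q) • (L ^ (k - d)))
  · intro a
    refine ⟨0, MvPolynomial.isHomogeneous_C _ _, fun k => ?_⟩
    have h1 : MvPolynomial.C a = algebraMap 𝕜 (MvPolynomial (Fin (Module.finrank ℝ E)) 𝕜) a := rfl
    rw [h1, AlgHom.commutes, AlgHom.commutes]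
    simp
  · rintro p n ⟨d, hd, hd'⟩
    refine ⟨d + 1, hd.mul (MvPolynomial.isHomogeneous_X _ _), fun k => ?_⟩
    rw [map_mul, Module.End.mul_apply, evD_X]
    rcases k with _ | k
    · have h1 : pd 𝕜 n (L ^ 0) = 0 := by
        ext z
        rw [pow_zero, pd, dd_apply]
        have : ((1 : SF 𝕜 E) : E → 𝕜) = fun _ => (1 : 𝕜) := rfl
        rw [this]
        simp
      rw [h1, map_zero]
      simp
    · rw [pd, dd_pow_succ]
      have h2 := hdL n
      rw [pd] at h2
      rw [h2, mul_comm (L ^ k), ← Algebra.smul_def, map_smul, map_smul, hd' k, smul_smul,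
        smul_smul, map_mul, MvPolynomial.aeval_X, Nat.succ_descFactorial_succ]
      congr 1
      · rw [RCLike.algebraMap_eq_ofReal]
        push_cast
        ring
      · congr 1
        omega

/-- an operator killing all polynomials at a point vanishes at that point -/
theorem eq_zero_of_poly {D : Module.End 𝕜 (SF 𝕜 E)} (hD : D ∈ ambDO 𝕜 E) (x : E)
    (h : ∀ p ∈ polyF 𝕜 E, (D p : E → 𝕜) x = 0) (F : SF 𝕜 E) : (D F : E → 𝕜) x = 0 := by
  obtain ⟨Q, hQ⟩ := exists_symbol hD x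
  have hcomp : ∀ k, MvPolynomial.homogeneousComponent k Q = 0 := by
    intro k
    apply funext_real
    intro y
    rw [map_zero]
    set L : SF 𝕜 E := linf (∑ j, y j • crd E j) -
          algebraMap 𝕜 (SF 𝕜 E) (((∑ j, y j • crd E j) x : ℝ) : 𝕜) with hL
    have hLp : L ^ k ∈ polyF 𝕜 E := by
      apply pow_mem
      exact sub_mem (Algebra.subset_adjoin ⟨_, rfl⟩) (Subalgebra.algebraMap_mem _ _)
    have hLx : (L : E → 𝕜) x = 0 := by
      rw [hL]
      change (linf (𝕜 := 𝕜) (∑ j, y j • crd E j) : E → 𝕜) x - _ = 0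
      rw [linf_apply]
      exact sub_self _
    have h1 := h _ hLp
    rw [hQ] at h1
    -- expand `Q`
    have h2 : (evD 𝕜 E Q (L ^ k) : E → 𝕜) x
        = ∑ s ∈ Q.support, (evD 𝕜 E (MvPolynomial.monomial s (MvPolynomial.coeff s Q)) (L ^ k) :
          E → 𝕜) x := by
      conv_lhs => rw [Q.as_sum]
      rw [map_sum, LinearMap.sum_apply]
      simp
    have h3 : ∀ s ∈ Q.support,
        (evD 𝕜 E (MvPolynomial.monomial s (MvPolynomial.coeff s Q)) (L ^ k) : E → 𝕜) x
        = (k.factorial : 𝕜) * (if s.degree = k then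
          MvPolynomial.aeval (fun j => algebraMap ℝ 𝕜 (y j))
            (MvPolynomial.monomial s (MvPolynomial.coeff s Q)) else 0) := by
      intro s hs
      obtain ⟨d, hd, hd'⟩ := evD_pow x y s (MvPolynomial.coeff s Q)
      have hc : MvPolynomial.coeff s Q ≠ 0 := by simpa using hs
      have hsd : s.degree = d := by
        have := hd (d := s) (by simpa using hc)
        rw [← this, Finsupp.degree_eq_weight_one]
        rfl
      rw [hd' k]
      change _ * ((L ^ (k - d) : SF 𝕜 E) : E → 𝕜) x = _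
      have hpow : ((L ^ (k - d) : SF 𝕜 E) : E → 𝕜) x = ((L : E → 𝕜) x) ^ (k - d) := rfl
      rw [hpow, hLx, hsd]
      rcases lt_trichotomy d k with hlt | heq | hgt
      · rw [zero_pow (by omega), mul_zero, if_neg hlt.ne, mul_zero]
      · subst heq
        rw [if_pos rfl, Nat.sub_self, pow_zero, mul_one, Nat.descFactorial_self]
      · rw [Nat.descFactorial_eq_zero_iff_lt.mpr hgt, if_neg hgt.ne', Nat.cast_zero, zero_mul,
          zero_mul, mul_zero]
    rw [h2, Finset.sum_congr rfl h3, ← Finset.mul_sum] at h1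
    have h4 := (mul_eq_zero.mp h1).resolve_left (by exact_mod_cast Nat.factorial_ne_zero k)
    rw [MvPolynomial.homogeneousComponent_apply, map_sum, Finset.sum_filter]
    exact h4
  have hQ0 : Q = 0 := by
    rw [← MvPolynomial.sum_homogeneousComponent Q]
    exact Finset.sum_eq_zero fun k _ => hcomp k
  rw [hQ, hQ0, map_zero]
  rfl

end NF

section OnM

variable {𝕜 : Type*} [RCLike 𝕜] {E : Type*} [NormedAddCommGroup E] [NormedSpace ℝ E]
  [FiniteDimensional ℝ E] {M : Type*} {e : M → E}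

theorem IsDO.eq_zero_of_expo {D : Op 𝕜 e} (hD : IsDO 𝕜 e D)
    (h : ∀ l : E →L[ℝ] ℝ, D (res 𝕜 e (expo l)) = 0) : D = 0 := by
  obtain ⟨Dt, hDt, hDt'⟩ := hD
  apply Op.ext
  intro f
  obtain ⟨F, rfl⟩ := res_surj f
  rw [hDt']
  ext x
  refine Pool.Agent.MP_5aa3e6_al.eq_zero_of_expo hDt (e x) (fun l => ?_) F
  have := h l
  rw [hDt'] at this
  exact congrFun (congrArg Subtype.val this) x

theorem IsDO.eq_zero_of_poly {D : Op 𝕜 e} (hD : IsDO 𝕜 e D)
    (h : ∀ p ∈ polyF 𝕜 E, D (res 𝕜 e p) = 0) : D = 0 := by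
  obtain ⟨Dt, hDt, hDt'⟩ := hD
  apply Op.ext
  intro f
  obtain ⟨F, rfl⟩ := res_surj f
  rw [hDt']
  ext x
  refine Pool.Agent.MP_5aa3e6_al.eq_zero_of_poly hDt (e x) (fun p hp => ?_) F
  have := h p hp
  rw [hDt'] at this
  exact congrFun (congrArg Subtype.val this) x

end OnM

end Pool.Agent.MP_5aa3e6_al
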