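import Mathlib
import Pool.Agent.MP_5aa3e6_al.Smooth4

/-!
Linear vector fields, descending operators, derivatives with respect to a parameter.
-/

set_option linter.unusedSectionVars false

namespace Pool.Agent.MP_5aa3e6_al

open scoped ContDiff Manifold Topology

section LVF

variable {𝕜 : Type*} [RCLike 𝕜] {E : Type*} [NormedAddCommGroup E] [NormedSpace ℝ E]

/-- the derivation given by the linear vector field `x ↦ A x` -/
noncomputable def lvf (𝕜 : Type*) [RCLike 𝕜] {E : Type*} [NormedAddCommGroup E] [NormedSpace ℝ E]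
    (A : E →L[ℝ] E) : Module.End 𝕜 (SF 𝕜 E) where
  toFun F := ⟨fun x => fderiv ℝ (F : E → 𝕜) x (A x),
    ((SF_contDiff F).fderiv_right (m := ∞) (by simp)).clm_apply A.contDiff⟩
  map_add' F G := by
    ext x
    have h := fderiv_add (SF_differentiable F x) (SF_differentiable G x)
    have h2 : fderiv ℝ (((F + G : SF 𝕜 E)) : E → 𝕜) x
      = fderiv ℝ ((F : E → 𝕜) + (G : E → 𝕜)) x := rfl
    simp only [h2, h]
    rfl
  map_smul' c F := by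
    ext x
    have h := fderiv_const_smul (SF_differentiable F x) c
    have h2 : fderiv ℝ (((c • F : SF 𝕜 E)) : E → 𝕜) x
      = fderiv ℝ (c • (F : E → 𝕜)) x := rfl
    simp only [h2, h]
    rfl

@[simp] theorem lvf_apply (A : E →L[ℝ] E) (F : SF 𝕜 E) (x : E) :
    (lvf 𝕜 A F : E → 𝕜) x = fderiv ℝ (F : E → 𝕜) x (A x) := rfl

theorem lvf_mul (A : E →L[ℝ] E) (F G : SF 𝕜 E) :
    lvf 𝕜 A (F * G) = lvf 𝕜 A F * G + F * lvf 𝕜 A G := by
  ext x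
  have h := dd_mul (𝕜 := 𝕜) (A x) F G
  exact congrFun (congrArg Subtype.val h) x

theorem lvf_add (A B : E →L[ℝ] E) : lvf 𝕜 (A + B) = lvf 𝕜 A + lvf 𝕜 B := by
  ext F x
  simp

theorem lvf_smul (c : ℝ) (A : E →L[ℝ] E) : lvf 𝕜 (c • A) = (c : 𝕜) • lvf 𝕜 A := by
  ext F x
  simp [RCLike.real_smul_eq_coe_mul]

theorem lvf_neg (A : E →L[ℝ] E) : lvf 𝕜 (-A) = - lvf 𝕜 A := by
  ext F x
  simp

theorem lvf_sub (A B : E →L[ℝ] E) : lvf 𝕜 (A - B) = lvf 𝕜 A - lvf 𝕜 B := by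
  ext F x
  simp

theorem lvf_zero : lvf 𝕜 (0 : E →L[ℝ] E) = 0 := by
  ext F x
  simp

theorem lvf_linf (A : E →L[ℝ] E) (l : E →L[ℝ] ℝ) : lvf 𝕜 A (linf l) = linf (l.comp A) := by
  ext x
  rw [lvf_apply]
  have := dd_ofR (𝕜 := 𝕜) l l.contDiff (A x) x
  rw [dd_apply] at this
  change fderiv ℝ ((ofR l l.contDiff : SF 𝕜 E) : E → 𝕜) x (A x) = _
  rw [this, l.hasFDerivAt.fderiv]
  rfl

theorem lvf_algebraMap (A : E →L[ℝ] E) (c : 𝕜) : lvf 𝕜 A (algebraMap 𝕜 (SF 𝕜 E) c) = 0 := by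
  ext x
  rw [lvf_apply]
  have : ((algebraMap 𝕜 (SF 𝕜 E) c : SF 𝕜 E) : E → 𝕜) = fun _ => c := rfl
  rw [this]
  simp

theorem fderiv_lvf (A : E →L[ℝ] E) (F : SF 𝕜 E) (x w : E) :
    fderiv ℝ ((lvf 𝕜 A F : SF 𝕜 E) : E → 𝕜) x w
      = fderiv ℝ (fderiv ℝ (F : E → 𝕜)) x w (A x) + fderiv ℝ (F : E → 𝕜) x (A w) := by
  have hd : DifferentiableAt ℝ (fderiv ℝ (F : E → 𝕜)) x :=
    ((SF_contDiff F).fderiv_right (m := ∞) (by simp)).differentiable (by simp) x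
  have := fderiv_clm_apply hd (A.differentiableAt (x := x))
  change fderiv ℝ (fun y => fderiv ℝ (F : E → 𝕜) y (A y)) x w = _
  rw [this]
  simp [add_comm]

theorem fderiv_dd (v : E) (F : SF 𝕜 E) (x w : E) :
    fderiv ℝ ((dd 𝕜 v F : SF 𝕜 E) : E → 𝕜) x w
      = fderiv ℝ (fderiv ℝ (F : E → 𝕜)) x w v := by
  have hd : DifferentiableAt ℝ (fderiv ℝ (F : E → 𝕜)) x :=
    ((SF_contDiff F).fderiv_right (m := ∞) (by simp)).differentiable (by simp) x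
  have := fderiv_clm_apply hd (differentiableAt_const (c := v))
  change fderiv ℝ (fun y => fderiv ℝ (F : E → 𝕜) y v) x w = _
  rw [this]
  simp

theorem snd_symm (F : SF 𝕜 E) (x v w : E) :
    fderiv ℝ (fderiv ℝ (F : E → 𝕜)) x v w = fderiv ℝ (fderiv ℝ (F : E → 𝕜)) x w v := by
  have hs : IsSymmSndFDerivAt ℝ (F : E → 𝕜) x :=
    (SF_contDiff F).contDiffAt.isSymmSndFDerivAt (by simp; decide)
  exact hs v w

theorem lvf_comm (A B : E →L[ℝ] E) (F : SF 𝕜 E) :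
    lvf 𝕜 A (lvf 𝕜 B F) - lvf 𝕜 B (lvf 𝕜 A F) = lvf 𝕜 (B.comp A - A.comp B) F := by
  ext x
  have h1 : ((lvf 𝕜 A (lvf 𝕜 B F) - lvf 𝕜 B (lvf 𝕜 A F) : SF 𝕜 E) : E → 𝕜) x
      = fderiv ℝ ((lvf 𝕜 B F : SF 𝕜 E) : E → 𝕜) x (A x)
        - fderiv ℝ ((lvf 𝕜 A F : SF 𝕜 E) : E → 𝕜) x (B x) := rfl
  rw [h1, fderiv_lvf, fderiv_lvf, snd_symm F x (A x) (B x), lvf_apply]
  simp

theorem lvf_dd_comm (A : E →L[ℝ] E) (b : E) (F : SF 𝕜 E) :
    lvf 𝕜 A (dd 𝕜 b F) - dd 𝕜 b (lvf 𝕜 A F) = - dd 𝕜 (A b) F := by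
  ext x
  have h1 : ((lvf 𝕜 A (dd 𝕜 b F) - dd 𝕜 b (lvf 𝕜 A F) : SF 𝕜 E) : E → 𝕜) x
      = fderiv ℝ ((dd 𝕜 b F : SF 𝕜 E) : E → 𝕜) x (A x)
        - fderiv ℝ ((lvf 𝕜 A F : SF 𝕜 E) : E → 𝕜) x b := rfl
  rw [h1, fderiv_lvf, fderiv_dd, snd_symm F x (A x) b]
  simp

/-- equivariance of linear vector fields -/
theorem lvf_pull (A A' : E →L[ℝ] E) (G : E → E) (hG : ContDiff ℝ ∞ G)
    (h : ∀ x, fderiv ℝ G x (A x) = A' (G x)) (F : SF 𝕜 E) :
    lvf 𝕜 A (pull G hG F) = pull G hG (lvf 𝕜 A' F) := by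
  ext x
  have h1 : fderiv ℝ (fun x => (F : E → 𝕜) (G x)) x
      = (fderiv ℝ (F : E → 𝕜) (G x)).comp (fderiv ℝ G x) :=
    fderiv_comp x (SF_differentiable F _) (hG.differentiable (by simp) x)
  have h2 : fderiv ℝ ((pull G hG F : SF 𝕜 E) : E → 𝕜) x
      = (fderiv ℝ (F : E → 𝕜) (G x)).comp (fderiv ℝ G x) := h1
  rw [lvf_apply, h2, ContinuousLinearMap.comp_apply, h]
  rfl

theorem dd_pull_lin (b b' : E) (G : E → E) (hG : ContDiff ℝ ∞ G)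
    (h : ∀ x, fderiv ℝ G x b = b') (F : SF 𝕜 E) :
    dd 𝕜 b (pull G hG F) = pull G hG (dd 𝕜 b' F) := by
  ext x
  have h1 : fderiv ℝ (fun x => (F : E → 𝕜) (G x)) x
      = (fderiv ℝ (F : E → 𝕜) (G x)).comp (fderiv ℝ G x) :=
    fderiv_comp x (SF_differentiable F _) (hG.differentiable (by simp) x)
  have h2 : fderiv ℝ ((pull G hG F : SF 𝕜 E) : E → 𝕜) x
      = (fderiv ℝ (F : E → 𝕜) (G x)).comp (fderiv ℝ G x) := h1
  rw [dd_apply, h2, ContinuousLinearMap.comp_apply, h]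
  rfl

theorem lvf_mem [FiniteDimensional ℝ E] (A : E →L[ℝ] E) : lvf 𝕜 A ∈ ambDO 𝕜 E := by
  have : lvf 𝕜 A = ∑ j, mulO 𝕜 (linf ((crd E j).comp A)) * pd 𝕜 j := by
    ext F x
    rw [lvf_apply]
    conv_lhs => rw [← crd_sum (A x)]
    rw [map_sum, LinearMap.sum_apply]
    simp only [map_smul, AddSubmonoidClass.coe_finset_sum, Finset.sum_apply]
    refine Finset.sum_congr rfl fun j _ => ?_
    rw [RCLike.real_smul_eq_coe_mul]
    rfl
  rw [this]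
  exact sum_mem fun j _ => mul_mem (mulO_mem _) (dd_mem _)

end LVF

section Slice

variable {𝕜 : Type*} [RCLike 𝕜] {E : Type*} [NormedAddCommGroup E] [NormedSpace ℝ E]

/-- restriction to the slice `{t} × E` -/
noncomputable def slice (𝕜 : Type*) [RCLike 𝕜] {E : Type*} [NormedAddCommGroup E]
    [NormedSpace ℝ E] (t : ℝ) : SF 𝕜 (ℝ × E) →ₐ[𝕜] SF 𝕜 E :=
  pull (fun x => (t, x)) (contDiff_const.prodMk contDiff_id)

@[simp] theorem slice_apply (t : ℝ) (G : SF 𝕜 (ℝ × E)) (x : E) :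
    (slice 𝕜 t G : E → 𝕜) x = (G : ℝ × E → 𝕜) (t, x) := rfl

theorem dd_slice (t : ℝ) (v : E) (G : SF 𝕜 (ℝ × E)) :
    dd 𝕜 v (slice 𝕜 t G) = slice 𝕜 t (dd 𝕜 ((0 : ℝ), v) G) := by
  ext x
  have h0 : HasFDerivAt (fun x : E => (t, x)) (ContinuousLinearMap.inr ℝ ℝ E) x :=
    hasFDerivAt_prodMk_right t x
  have h1 : HasFDerivAt (fun x : E => (G : ℝ × E → 𝕜) (t, x))
      ((fderiv ℝ (G : ℝ × E → 𝕜) (t, x)).comp (ContinuousLinearMap.inr ℝ ℝ E)) x :=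
    ((SF_differentiable G (t, x)).hasFDerivAt).comp x h0
  have h2 : fderiv ℝ ((slice 𝕜 t G : SF 𝕜 E) : E → 𝕜) x
      = (fderiv ℝ (G : ℝ × E → 𝕜) (t, x)).comp (ContinuousLinearMap.inr ℝ ℝ E) := h1.fderiv
  rw [dd_apply, h2]
  simp

theorem ambDO_slice {D : Module.End 𝕜 (SF 𝕜 E)} (hD : D ∈ ambDO 𝕜 E) :
    ∀ G : SF 𝕜 (ℝ × E), ∃ G' : SF 𝕜 (ℝ × E), (∀ t, slice 𝕜 t G' = D (slice 𝕜 t G)) ∧
      ∀ t, slice 𝕜 t (dd 𝕜 ((1 : ℝ), (0 : E)) G')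
        = D (slice 𝕜 t (dd 𝕜 ((1 : ℝ), (0 : E)) G)) := by
  refine ambDO_induction (p := fun D => ∀ G : SF 𝕜 (ℝ × E), ∃ G' : SF 𝕜 (ℝ × E),
      (∀ t, slice 𝕜 t G' = D (slice 𝕜 t G)) ∧
      ∀ t, slice 𝕜 t (dd 𝕜 ((1 : ℝ), (0 : E)) G')
        = D (slice 𝕜 t (dd 𝕜 ((1 : ℝ), (0 : E)) G))) ?_ ?_ ?_ ?_ hD
  · intro f G
    refine ⟨pull Prod.snd contDiff_snd f * G, fun t => ?_, fun t => ?_⟩
    · ext x; rfl
    · rw [dd_mul]
      have h1 : dd 𝕜 ((1 : ℝ), (0 : E)) (pull Prod.snd contDiff_snd f) = 0 := by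
        ext x
        have h0 : HasFDerivAt (fun y : ℝ × E => (f : E → 𝕜) y.2)
            ((fderiv ℝ (f : E → 𝕜) x.2).comp (ContinuousLinearMap.snd ℝ ℝ E)) x :=
          ((SF_differentiable f x.2).hasFDerivAt).comp x hasFDerivAt_snd
        have h2 : fderiv ℝ ((pull Prod.snd contDiff_snd f : SF 𝕜 (ℝ × E)) : ℝ × E → 𝕜) x
            = (fderiv ℝ (f : E → 𝕜) x.2).comp (ContinuousLinearMap.snd ℝ ℝ E) := h0.fderiv
        rw [dd_apply, h2]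
        simp
      rw [h1, zero_mul, zero_add]
      ext x; rfl
  · intro v G
    refine ⟨dd 𝕜 ((0 : ℝ), v) G, fun t => (dd_slice t v G).symm, fun t => ?_⟩
    rw [dd_slice, dd_comm]
  · intro S T hS hT G
    obtain ⟨A, hA, hA'⟩ := hS G
    obtain ⟨B, hB, hB'⟩ := hT G
    exact ⟨A + B, fun t => by rw [map_add, hA, hB]; rfl,
      fun t => by rw [map_add, map_add, hA', hB']; rfl⟩
  · intro S T hS hT G
    obtain ⟨B, hB, hB'⟩ := hT G
    obtain ⟨A, hA, hA'⟩ := hS B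
    exact ⟨A, fun t => by rw [hA, hB]; rfl, fun t => by rw [hA', hB']; rfl⟩

variable {M : Type*} {e : M → E}

/-- if a differential operator commutes with a one-parameter family of maps, it commutes with the
infinitesimal generator -/
theorem IsDO.comm_generator {D : Op 𝕜 e} (hD : IsDO 𝕜 e D)
    {g : ℝ → M → M} (gt : ℝ × E → E) (hgt : ContDiff ℝ ∞ gt) (hg : ∀ t x, gt (t, e x) = e (g t x))
    (hgs : ∀ t, SMap e e (g t))
    (hcomm : ∀ t f, D (pb 𝕜 (hgs t) f) = pb 𝕜 (hgs t) (D f))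
    {L : Op 𝕜 e}
    (hL : ∀ F : SF 𝕜 E, L (res 𝕜 e F)
      = res 𝕜 e (slice 𝕜 0 (dd 𝕜 ((1 : ℝ), (0 : E)) (pull gt hgt F)))) :
    D * L = L * D := by
  obtain ⟨Dt, hDt, hDt'⟩ := hD
  apply Op.ext
  intro f
  obtain ⟨F, rfl⟩ := res_surj f
  obtain ⟨H, hH⟩ := res_surj (D (res 𝕜 e F))
  obtain ⟨G', hG, hG'⟩ := ambDO_slice hDt (pull gt hgt F)
  have h1 : ∀ t, res 𝕜 e (slice 𝕜 t (pull gt hgt F)) = pb 𝕜 (hgs t) (res 𝕜 e F) := by
    intro t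
    ext x
    simp [hg]
  have h2 : ∀ t x, (G' : ℝ × E → 𝕜) (t, e x) = (pull gt hgt H : SF 𝕜 (ℝ × E)).1 (t, e x) := by
    intro t x
    have h3 : res 𝕜 e (slice 𝕜 t G') = pb 𝕜 (hgs t) (res 𝕜 e H) := by
      rw [hG, ← hDt', h1, hcomm, hH]
    have h4 := congrFun (congrArg Subtype.val h3) x
    simp only [res_apply, slice_apply, pb_apply] at h4
    rw [h4, ← hg]
    rfl
  have h5 : ∀ x, (dd 𝕜 ((1 : ℝ), (0 : E)) G' : SF 𝕜 (ℝ × E)).1 (0, e x)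
      = (dd 𝕜 ((1 : ℝ), (0 : E)) (pull gt hgt H) : SF 𝕜 (ℝ × E)).1 (0, e x) := by
    intro x
    have key : ∀ K : SF 𝕜 (ℝ × E), HasDerivAt (fun t : ℝ => (K : ℝ × E → 𝕜) (t, e x))
        ((dd 𝕜 ((1 : ℝ), (0 : E)) K : SF 𝕜 (ℝ × E)).1 (0, e x)) 0 := by
      intro K
      have h0 : HasDerivAt (fun t : ℝ => (t, e x)) ((1 : ℝ), (0 : E)) 0 :=
        (hasDerivAt_id (0 : ℝ)).prodMk (hasDerivAt_const (0 : ℝ) (e x))
      exact ((SF_differentiable K (0, e x)).hasFDerivAt).comp_hasDerivAt (0 : ℝ) h0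
    have h6 := key G'
    have h7 := key (pull gt hgt H)
    have h8 : (fun t : ℝ => (G' : ℝ × E → 𝕜) (t, e x))
        = (fun t : ℝ => (pull gt hgt H : SF 𝕜 (ℝ × E)).1 (t, e x)) := by
      funext t; exact h2 t x
    rw [h8] at h6
    exact h6.unique h7
  rw [Op.mul_apply, Op.mul_apply, hL, hDt', ← hH, hL]
  ext x
  rw [← hG' 0]
  exact h5 x

end Slice

section Descend

variable {𝕜 : Type*} [RCLike 𝕜] {E : Type*} [NormedAddCommGroup E] [NormedSpace ℝ E]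
  {M : Type*} {e : M → E}

/-- operators preserving the functions which vanish on `M` -/
def Desc (e : M → E) (T : Module.End 𝕜 (SF 𝕜 E)) : Prop :=
  ∀ F : SF 𝕜 E, res 𝕜 e F = 0 → res 𝕜 e (T F) = 0

/-- the operator on `M` induced by an operator on the ambient space -/
noncomputable def descO (T : Module.End 𝕜 (SF 𝕜 E)) (h : Desc e T) : Op 𝕜 e :=
  ({toFun f := res 𝕜 e (T (res_surj f).choose)
    map_add' f g := by
      rw [← map_add, ← map_add, ← sub_eq_zero, ← map_sub, ← map_sub]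
      apply h
      rw [map_sub, map_add, (res_surj (f + g)).choose_spec, (res_surj f).choose_spec,
        (res_surj g).choose_spec, sub_self]
    map_smul' c f := by
      simp only [RingHom.id_apply]
      rw [← map_smul, ← map_smul, ← sub_eq_zero, ← map_sub, ← map_sub]
      apply h
      rw [map_sub, map_smul, (res_surj (c • f)).choose_spec, (res_surj f).choose_spec,
        sub_self]} : Module.End 𝕜 (Sm 𝕜 e))

theorem descO_res (T : Module.End 𝕜 (SF 𝕜 E)) (h : Desc e T) (F : SF 𝕜 E) :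
    descO T h (res 𝕜 e F) = res 𝕜 e (T F) := by
  change res 𝕜 e (T (res_surj (res 𝕜 e F)).choose) = _
  rw [← sub_eq_zero, ← map_sub, ← map_sub]
  apply h
  rw [map_sub, (res_surj (res 𝕜 e F)).choose_spec, sub_self]

theorem IsDO_descO {T : Module.End 𝕜 (SF 𝕜 E)} (hT : T ∈ ambDO 𝕜 E) (h : Desc e T) :
    IsDO 𝕜 e (descO T h) := ⟨T, hT, descO_res T h⟩

/-- derivative along a curve in `M` -/
theorem hasDerivAt_curve {c : ℝ → M} {τ : E} {s : ℝ} (hc : HasDerivAt (fun t => e (c t)) τ s)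
    (F : SF 𝕜 E) :
    HasDerivAt (fun t => (res 𝕜 e F : M → 𝕜) (c t)) (fderiv ℝ (F : E → 𝕜) (e (c s)) τ) s :=
  ((SF_differentiable F (e (c s))).hasFDerivAt).comp_hasDerivAt s hc

theorem Desc_of_curve {T : Module.End 𝕜 (SF 𝕜 E)} {v : M → E}
    (hT : ∀ (F : SF 𝕜 E) x, (T F : E → 𝕜) (e x) = fderiv ℝ (F : E → 𝕜) (e x) (v x))
    (h : ∀ x, ∃ c : ℝ → M, c 0 = x ∧ HasDerivAt (fun t => e (c t)) (v x) 0) : Desc e T := by
  intro F hF
  ext x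
  obtain ⟨c, hc0, hc⟩ := h x
  have h1 := hasDerivAt_curve hc F
  rw [hc0, ← hT] at h1
  have h2 : (fun t => (res 𝕜 e F : M → 𝕜) (c t)) = fun _ => 0 := by
    funext t
    rw [hF]
    rfl
  rw [h2] at h1
  exact h1.unique (hasDerivAt_const _ _)

end Descend

end Pool.Agent.MP_5aa3e6_al
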