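import Mathlib
import Pool.Agent.MP_5aa3e6_al.Smooth5

/-!
Calculus for matrices: determinants, normalisation to determinant one.
-/

set_option linter.unusedSectionVars false

namespace Pool.Agent.MP_5aa3e6_al

open scoped ContDiff Manifold Topology Matrix.Norms.Elementwise

section Mat

variable {m n k : Type*} [Fintype m] [Fintype n] [Fintype k]

theorem hasDerivAt_mat {Z : ℝ → Matrix m n ℝ} {Z' : Matrix m n ℝ} {t : ℝ} :
    HasDerivAt Z Z' t ↔ ∀ i j, HasDerivAt (fun s => Z s i j) (Z' i j) t := by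
  constructor
  · intro h i j
    have h1 := (hasDerivAt_pi (φ := fun s => (Z s : m → n → ℝ)) (φ' := (Z' : m → n → ℝ))).mp h i
    exact (hasDerivAt_pi.mp h1) j
  · intro h
    exact (hasDerivAt_pi (φ := fun s => (Z s : m → n → ℝ)) (φ' := (Z' : m → n → ℝ))).mpr
      fun i => hasDerivAt_pi.mpr fun j => h i j

theorem hasDerivAt_matmul {A : ℝ → Matrix m n ℝ} {B : ℝ → Matrix n k ℝ} {A' : Matrix m n ℝ}
    {B' : Matrix n k ℝ} {t : ℝ} (hA : HasDerivAt A A' t) (hB : HasDerivAt B B' t) :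
    HasDerivAt (fun s => A s * B s) (A' * B t + A t * B') t := by
  rw [hasDerivAt_mat] at *
  intro i j
  simp only [Matrix.mul_apply, Matrix.add_apply]
  rw [← Finset.sum_add_distrib]
  exact HasDerivAt.fun_sum fun l _ => (hA i l).mul (hB l j)

theorem hasDerivAt_transpose {A : ℝ → Matrix m n ℝ} {A' : Matrix m n ℝ} {t : ℝ}
    (hA : HasDerivAt A A' t) : HasDerivAt (fun s => (A s).transpose) A'.transpose t := by
  rw [hasDerivAt_mat] at *
  intro i j
  exact hA j i

variable [DecidableEq n]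

theorem contDiff_entry (i : m) (j : n) : ContDiff ℝ ∞ (fun Z : Matrix m n ℝ => Z i j) :=
  (LinearMap.toContinuousLinearMap (Matrix.entryLinearMap ℝ ℝ i j)).contDiff

theorem contDiff_det : ContDiff ℝ ∞ (fun Z : Matrix n n ℝ => Z.det) := by
  have : (fun Z : Matrix n n ℝ => Z.det)
      = fun Z => ∑ σ : Equiv.Perm n, ((Equiv.Perm.sign σ : ℤ) : ℝ) * ∏ i, Z (σ i) i := by
    funext Z
    rw [Matrix.det_apply']
  rw [this]
  refine ContDiff.sum fun σ _ => contDiff_const.mul ?_
  exact contDiff_prod fun i _ => contDiff_entry _ _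

theorem deriv_det_line (Z W : Matrix n n ℝ) (hZ : Z.det ≠ 0) :
    HasDerivAt (fun s : ℝ => (Z + s • W).det) (Z.det * (Z⁻¹ * W).trace) 0 := by
  have h1 : ∀ s : ℝ, (Z + s • W).det = Z.det * (1 + s • (Z⁻¹ * W)).det := by
    intro s
    rw [← Matrix.det_mul, mul_add, mul_one, Matrix.mul_smul, ← Matrix.mul_assoc,
      Matrix.mul_nonsing_inv _ (Ne.isUnit hZ), Matrix.one_mul]
  have h2 : ∀ s : ℝ, (1 + s • (Z⁻¹ * W)).det
      = ((1 + (Polynomial.X : Polynomial ℝ) • (Z⁻¹ * W).map Polynomial.C).det).eval s := by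
    intro s
    generalize Z⁻¹ * W = N
    rw [← Polynomial.coe_evalRingHom, RingHom.map_det]
    congr 1
    ext i j
    by_cases hij : i = j
    · subst hij
      simp
      ring
    · simp [Matrix.one_apply_ne hij]
      ring
  simp only [h1, h2]
  have h3 := (((1 + (Polynomial.X : Polynomial ℝ) • (Z⁻¹ * W).map Polynomial.C).det).hasDerivAt
    (0 : ℝ)).const_mul Z.det
  rw [Matrix.derivative_det_one_add_X_smul] at h3
  exact h3

theorem fderiv_det (Z W : Matrix n n ℝ) (hZ : Z.det ≠ 0) :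
    fderiv ℝ (fun Z : Matrix n n ℝ => Z.det) Z W = Z.det * (Z⁻¹ * W).trace := by
  have h1 : HasFDerivAt (fun Z : Matrix n n ℝ => Z.det)
      (fderiv ℝ (fun Z : Matrix n n ℝ => Z.det) Z) Z :=
    (contDiff_det.differentiable (by simp) Z).hasFDerivAt
  have h2 : HasDerivAt (fun s : ℝ => Z + s • W) W 0 := by
    have h := ((hasDerivAt_id (0 : ℝ)).smul_const W).const_add Z
    rw [one_smul] at h
    exact h
  have h3 : HasDerivAt (fun s : ℝ => (Z + s • W).det)
      (fderiv ℝ (fun Z : Matrix n n ℝ => Z.det) Z W) 0 := by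
    have h4 : HasFDerivAt (fun Z : Matrix n n ℝ => Z.det)
      (fderiv ℝ (fun Z : Matrix n n ℝ => Z.det) Z) (Z + (0 : ℝ) • W) := by simpa using h1
    exact h4.comp_hasDerivAt (0 : ℝ) h2
  exact h3.unique (deriv_det_line Z W hZ)

theorem hasDerivAt_det {Z : ℝ → Matrix n n ℝ} {Z' : Matrix n n ℝ} {t : ℝ}
    (hZ : HasDerivAt Z Z' t) (h0 : (Z t).det ≠ 0) :
    HasDerivAt (fun s => (Z s).det) ((Z t).det * ((Z t)⁻¹ * Z').trace) t := by
  have h1 : HasFDerivAt (fun Z : Matrix n n ℝ => Z.det)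
      (fderiv ℝ (fun Z : Matrix n n ℝ => Z.det) (Z t)) (Z t) :=
    (contDiff_det.differentiable (by simp) (Z t)).hasFDerivAt
  exact (h1.comp_hasDerivAt t hZ).congr_deriv (fderiv_det _ _ h0)

/-- normalisation to determinant one -/
noncomputable def nrm (Z : Matrix n n ℝ) : Matrix n n ℝ :=
  (Z.det ^ (-(1 : ℝ) / (Fintype.card n : ℝ))) • Z

theorem nrm_det [Nonempty n] {Z : Matrix n n ℝ} (hZ : 0 < Z.det) : (nrm Z).det = 1 := by
  rw [nrm, Matrix.det_smul, ← Real.rpow_natCast, ← Real.rpow_mul hZ.le]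
  have : (Fintype.card n : ℝ) ≠ 0 := by exact_mod_cast Fintype.card_ne_zero
  rw [div_mul_cancel₀ _ this, Real.rpow_neg hZ.le, Real.rpow_one]
  exact inv_mul_cancel₀ hZ.ne'

theorem nrm_posDef {Z : Matrix n n ℝ} (hZ : Z.PosDef) : (nrm Z).PosDef := by
  rw [nrm]
  exact hZ.smul (Real.rpow_pos_of_pos hZ.det_pos _)

theorem nrm_of_det_one {Z : Matrix n n ℝ} (hZ : Z.det = 1) : nrm Z = Z := by
  rw [nrm, hZ, Real.one_rpow, one_smul]

theorem nrm_smul [Nonempty n] {c : ℝ} (hc : 0 < c) {Z : Matrix n n ℝ} (hZ : 0 < Z.det) :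
    nrm (c • Z) = nrm Z := by
  have hn : (Fintype.card n : ℝ) ≠ 0 := by exact_mod_cast Fintype.card_ne_zero
  rw [nrm, nrm, Matrix.det_smul, Real.mul_rpow (pow_nonneg hc.le _) hZ.le, ← Real.rpow_natCast,
    ← Real.rpow_mul hc.le, mul_div_cancel₀ _ hn, smul_smul]
  congr 1
  rw [Real.rpow_neg hc.le, Real.rpow_one]
  field_simp

theorem hasDerivAt_nrm {Z : ℝ → Matrix n n ℝ} {Z' : Matrix n n ℝ} {t : ℝ}
    (hZ : HasDerivAt Z Z' t) (h0 : 0 < (Z t).det) :
    HasDerivAt (fun s => nrm (Z s))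
      (((Z t).det ^ (-(1 : ℝ) / (Fintype.card n : ℝ))) •
        (Z' - ((1 / (Fintype.card n : ℝ)) * ((Z t)⁻¹ * Z').trace) • Z t)) t := by
  have h1 := (hasDerivAt_det hZ h0.ne').rpow_const (p := -(1 : ℝ) / (Fintype.card n : ℝ))
    (Or.inl h0.ne')
  refine (h1.smul hZ).congr_deriv ?_
  symm
  rw [smul_sub, smul_smul, sub_eq_add_neg, ← neg_smul]
  congr 2
  have : (Z t).det ^ (-(1 : ℝ) / (Fintype.card n : ℝ))
      = (Z t).det ^ (-(1 : ℝ) / (Fintype.card n : ℝ) - 1) * (Z t).det := by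
    rw [← Real.rpow_add_one h0.ne']
    congr 1
    ring
  rw [this]
  ring

/-- positive definite matrices of determinant one -/
def PD (n : Type*) [Fintype n] [DecidableEq n] : Type _ :=
  {Y : Matrix n n ℝ // Y.PosDef ∧ Y.det = 1}

theorem isClosed_PD : IsClosed {Y : Matrix n n ℝ | Y.PosDef ∧ Y.det = 1} := by
  have : {Y : Matrix n n ℝ | Y.PosDef ∧ Y.det = 1}
      = {Y : Matrix n n ℝ | Y.transpose = Y} ∩ (⋂ x : n → ℝ, {Y | 0 ≤ x ⬝ᵥ (Y.mulVec x)})
        ∩ {Y | Y.det = 1} := by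
    ext Y
    simp only [Set.mem_setOf_eq, Set.mem_inter_iff, Set.mem_iInter]
    constructor
    · rintro ⟨h1, h2⟩
      refine ⟨⟨?_, ?_⟩, h2⟩
      · have := h1.isHermitian
        rwa [Matrix.IsHermitian, Matrix.conjTranspose_eq_transpose_of_trivial] at this
      · intro x
        have := h1.posSemidef.dotProduct_mulVec_nonneg x
        simpa using this
    · rintro ⟨⟨h1, h2⟩, h3⟩
      refine ⟨?_, h3⟩
      have h4 : Y.PosSemidef := by
        apply Matrix.PosSemidef.of_dotProduct_mulVec_nonneg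
        · rwa [Matrix.IsHermitian, Matrix.conjTranspose_eq_transpose_of_trivial]
        · intro x
          simpa using h2 x
      rw [h4.posDef_iff_det_ne_zero, h3]
      exact one_ne_zero
  rw [this]
  have hc : ∀ i j, Continuous (fun Y : Matrix n n ℝ => Y i j) := fun i j =>
    (contDiff_entry i j).continuous
  refine (IsClosed.inter ?_ ?_).inter ?_
  · have : {Y : Matrix n n ℝ | Y.transpose = Y} = ⋂ i, ⋂ j, {Y : Matrix n n ℝ | Y j i = Y i j} := by
      ext Y
      simp only [Set.mem_setOf_eq, Set.mem_iInter]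
      constructor
      · intro h i j
        exact congrFun (congrFun h i) j
      · intro h
        ext i j
        exact h i j
    rw [this]
    exact isClosed_iInter fun i => isClosed_iInter fun j => isClosed_eq (hc _ _) (hc _ _)
  · refine isClosed_iInter fun x => isClosed_le continuous_const ?_
    simp only [dotProduct, Matrix.mulVec]
    exact continuous_finset_sum _ fun i _ => continuous_const.mul
      (continuous_finset_sum _ fun j _ => (hc i j).mul continuous_const)
  · exact isClosed_eq contDiff_det.continuous continuous_const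

end Mat

end Pool.Agent.MP_5aa3e6_al
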