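import Mathlib
import Pool.Agent.MP_5aa3e6_al.Geo1
import Pool.Agent.MP_5aa3e6_al.Wedge3

/-!
The manifold `P_ι × ℝ^(α,ι)`, its embedding, the operators `Θ`, `∂` on the ambient space.
-/

set_option linter.unusedSectionVars false

namespace Pool.Agent.MP_5aa3e6_al

open scoped ContDiff Manifold Topology

section Defs

variable (α ι : Type*) [Fintype α] [DecidableEq α] [Fintype ι] [DecidableEq ι]

/-- the ambient space of pairs of matrices -/
abbrev EX := (ι → ι → ℝ) × (α → ι → ℝ)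

/-- the manifold `P_ι × ℝ^(α,ι)` -/
abbrev XX := PD ι × Matrix α ι ℝ

variable {α ι}

/-- first matrix -/
def mY (p : EX α ι) : Matrix ι ι ℝ := Matrix.of p.1
/-- second matrix -/
def mV (p : EX α ι) : Matrix α ι ℝ := Matrix.of p.2
/-- pair of matrices -/
def mE (Y : Matrix ι ι ℝ) (V : Matrix α ι ℝ) : EX α ι := (Y, V)

@[simp] theorem mY_mE (Y : Matrix ι ι ℝ) (V : Matrix α ι ℝ) : mY (mE Y V) = Y := rfl
@[simp] theorem mV_mE (Y : Matrix ι ι ℝ) (V : Matrix α ι ℝ) : mV (mE Y V) = V := rfl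
@[simp] theorem mE_eta (p : EX α ι) : mE (mY p) (mV p) = p := rfl
@[simp] theorem mY_add (p q : EX α ι) : mY (p + q) = mY p + mY q := rfl
@[simp] theorem mV_add (p q : EX α ι) : mV (p + q) = mV p + mV q := rfl
@[simp] theorem mY_sub (p q : EX α ι) : mY (p - q) = mY p - mY q := rfl
@[simp] theorem mV_sub (p q : EX α ι) : mV (p - q) = mV p - mV q := rfl
@[simp] theorem mY_neg (p : EX α ι) : mY (-p) = -mY p := rfl
@[simp] theorem mV_neg (p : EX α ι) : mV (-p) = -mV p := rfl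
@[simp] theorem mY_smul (c : ℝ) (p : EX α ι) : mY (c • p) = c • mY p := rfl
@[simp] theorem mV_smul (c : ℝ) (p : EX α ι) : mV (c • p) = c • mV p := rfl
@[simp] theorem mY_zero : mY (0 : EX α ι) = 0 := rfl
@[simp] theorem mV_zero : mV (0 : EX α ι) = 0 := rfl

theorem EX_ext {p q : EX α ι} (h1 : mY p = mY q) (h2 : mV p = mV q) : p = q :=
  Prod.ext h1 h2

theorem mY_sum {κ : Type*} (s : Finset κ) (f : κ → EX α ι) :
    mY (∑ k ∈ s, f k) = ∑ k ∈ s, mY (f k) :=
  map_sum (⟨⟨mY, rfl⟩, fun _ _ => rfl⟩ : EX α ι →+ Matrix ι ι ℝ) f s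

theorem mV_sum {κ : Type*} (s : Finset κ) (f : κ → EX α ι) :
    mV (∑ k ∈ s, f k) = ∑ k ∈ s, mV (f k) :=
  map_sum (⟨⟨mV, rfl⟩, fun _ _ => rfl⟩ : EX α ι →+ Matrix α ι ℝ) f s

/-- a linear map of pairs of matrices -/
noncomputable def mkL (f : Matrix ι ι ℝ →ₗ[ℝ] Matrix ι ι ℝ) (g : Matrix α ι ℝ →ₗ[ℝ] Matrix α ι ℝ) :
    EX α ι →L[ℝ] EX α ι :=
  LinearMap.toContinuousLinearMap
    { toFun := fun p => mE (f (mY p)) (g (mV p))
      map_add' := fun p q => by
        apply EX_ext <;> simp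
      map_smul' := fun c p => by
        apply EX_ext <;> simp }

@[simp] theorem mkL_apply (f : Matrix ι ι ℝ →ₗ[ℝ] Matrix ι ι ℝ)
    (g : Matrix α ι ℝ →ₗ[ℝ] Matrix α ι ℝ) (p : EX α ι) :
    mkL f g p = mE (f (mY p)) (g (mV p)) := rfl

/-- the embedding -/
def emX (x : XX α ι) : EX α ι := (x.1.1, x.2)

@[simp] theorem mY_emX (x : XX α ι) : mY (emX x) = x.1.1 := rfl
@[simp] theorem mV_emX (x : XX α ι) : mV (emX x) = x.2 := rfl

theorem isClosed_emX : IsClosed (Set.range (emX : XX α ι → EX α ι)) := by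
  have : Set.range (emX : XX α ι → EX α ι)
      = mY ⁻¹' {Y : Matrix ι ι ℝ | Y.PosDef ∧ Y.det = 1} := by
    ext p
    constructor
    · rintro ⟨x, rfl⟩
      exact x.1.2
    · intro h
      exact ⟨(⟨mY p, h⟩, mV p), rfl⟩
  rw [this]
  exact isClosed_PD.preimage (by
    have : Continuous (Prod.fst : EX α ι → ι → ι → ℝ) := continuous_fst
    exact this)

/-- the linear map `Y ↦ -(B₀ Y + Y B₀ᵗ)`, `B₀ = B - (tr B / n)` -/
noncomputable def fY (B : Matrix ι ι ℝ) : Matrix ι ι ℝ →ₗ[ℝ] Matrix ι ι ℝ where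
  toFun Y := -(B * Y + Y * B.transpose - (2 / (Fintype.card ι : ℝ) * B.trace) • Y)
  map_add' Y Z := by
    simp only [Matrix.mul_add, Matrix.add_mul, smul_add]
    abel
  map_smul' c Y := by
    simp only [Matrix.mul_smul, Matrix.smul_mul, RingHom.id_apply]
    rw [smul_neg, smul_sub, smul_add, smul_comm]

theorem fY_apply (B Y : Matrix ι ι ℝ) :
    fY B Y = -(B * Y + Y * B.transpose - (2 / (Fintype.card ι : ℝ) * B.trace) • Y) := rfl

/-- the linear map `V ↦ - V Bᵗ` -/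
noncomputable def fV (B : Matrix ι ι ℝ) : Matrix α ι ℝ →ₗ[ℝ] Matrix α ι ℝ where
  toFun V := -(V * B.transpose)
  map_add' Y Z := by
    simp only [Matrix.add_mul]
    abel
  map_smul' c Y := by
    simp only [Matrix.smul_mul, RingHom.id_apply, smul_neg]

theorem fV_apply (B : Matrix ι ι ℝ) (V : Matrix α ι ℝ) : fV B V = -(V * B.transpose) := rfl

/-- the linear vector field `Y ↦ -(B₀ Y + Y B₀ᵗ)`, `B₀ = B - (tr B / n)` -/
noncomputable def aY (B : Matrix ι ι ℝ) : EX α ι →L[ℝ] EX α ι := mkL (fY B) 0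

@[simp] theorem mY_aY (B : Matrix ι ι ℝ) (p : EX α ι) :
    mY (aY B p) = -(B * mY p + mY p * B.transpose
        - (2 / (Fintype.card ι : ℝ) * B.trace) • mY p) := rfl
@[simp] theorem mV_aY (B : Matrix ι ι ℝ) (p : EX α ι) : mV (aY B p) = 0 := rfl

/-- the linear vector field `V ↦ - V Bᵗ` -/
noncomputable def aV (B : Matrix ι ι ℝ) : EX α ι →L[ℝ] EX α ι := mkL 0 (fV B)

@[simp] theorem mY_aV (B : Matrix ι ι ℝ) (p : EX α ι) : mY (aV B p) = 0 := rfl
@[simp] theorem mV_aV (B : Matrix ι ι ℝ) (p : EX α ι) : mV (aV B p) = -(mV p * B.transpose) := rfl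

variable (𝕜 : Type*) [RCLike 𝕜]

/-- `Θ_B` on the ambient space -/
noncomputable def ThB (B : Matrix ι ι ℝ) : Module.End 𝕜 (SF 𝕜 (EX α ι)) := lvf 𝕜 (aY B)

/-- the infinitesimal action of `B` on the ambient space -/
noncomputable def EB (B : Matrix ι ι ℝ) : Module.End 𝕜 (SF 𝕜 (EX α ι)) := lvf 𝕜 (aY B + aV B)

/-- the derivative in the direction `W` of the `V`-variable -/
noncomputable def PB (W : Matrix α ι ℝ) : Module.End 𝕜 (SF 𝕜 (EX α ι)) :=
  dd 𝕜 (mE 0 W)

end Defs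

section Curves

open scoped Matrix.Norms.Elementwise

variable {α ι : Type*} [Fintype α] [DecidableEq α] [Fintype ι] [DecidableEq ι]
variable {𝕜 : Type*} [RCLike 𝕜]

theorem hasDerivAt_mE {Z : ℝ → Matrix ι ι ℝ} {V : ℝ → Matrix α ι ℝ} {Z' : Matrix ι ι ℝ}
    {V' : Matrix α ι ℝ} {t : ℝ} (hZ : HasDerivAt Z Z' t) (hV : HasDerivAt V V' t) :
    HasDerivAt (fun s => (mE (Z s) (V s) : EX α ι)) (mE Z' V') t := by
  have h1 : HasDerivAt (fun s => (Z s : ι → ι → ℝ)) (Z' : ι → ι → ℝ) t := hZ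
  have h2 : HasDerivAt (fun s => (V s : α → ι → ℝ)) (V' : α → ι → ℝ) t := hV
  exact h1.prodMk h2

theorem hasDerivAt_pair {Z : ℝ → Matrix ι ι ℝ} {V : ℝ → Matrix α ι ℝ} {B : Matrix ι ι ℝ}
    {V' : Matrix α ι ℝ} {t : ℝ} (hZ : (Z t).PosDef)
    (hZ' : HasDerivAt Z (B * Z t + Z t * B.transpose) t) (hV : HasDerivAt V V' t) :
    HasDerivAt (fun s => (mE (nrm (Z s)) (V s) : EX α ι))
      (-(aY B (mE (nrm (Z t)) (V t) : EX α ι)) + mE 0 V') t := by
  refine (hasDerivAt_mE (hasDerivAt_nrm hZ' hZ.det_pos) hV).congr_deriv ?_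
  have hu : IsUnit (Z t).det := hZ.det_pos.ne'.isUnit
  have htr : ((Z t)⁻¹ * (B * Z t + Z t * B.transpose)).trace = 2 * B.trace := by
    rw [Matrix.mul_add, Matrix.trace_add, ← Matrix.mul_assoc, Matrix.trace_mul_comm,
      ← Matrix.mul_assoc, Matrix.mul_nonsing_inv _ hu, Matrix.one_mul, ← Matrix.mul_assoc,
      Matrix.nonsing_inv_mul _ hu, Matrix.one_mul, Matrix.trace_transpose]
    ring
  rw [htr]
  apply EX_ext
  · simp only [mY_add, mY_neg, mY_mE, mY_aY, neg_neg, add_zero, nrm, Matrix.mul_smul,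
      Matrix.smul_mul]
    rw [smul_sub, smul_add, smul_smul, smul_smul]
    congr 2
    ring
  · simp

/-- a point of the manifold from a positive definite matrix -/
noncomputable def mkX [Nonempty ι] (Z : Matrix ι ι ℝ) (hZ : Z.PosDef) (V : Matrix α ι ℝ) :
    XX α ι := (⟨nrm Z, nrm_posDef hZ, nrm_det hZ.det_pos⟩, V)

theorem emX_mkX [Nonempty ι] (Z : Matrix ι ι ℝ) (hZ : Z.PosDef) (V : Matrix α ι ℝ) :
    emX (mkX Z hZ V) = mE (nrm Z) V := rfl

theorem exists_curve [Nonempty ι] (B : Matrix ι ι ℝ) (W : Matrix α ι ℝ) (x : XX α ι) :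
    ∃ c : ℝ → XX α ι, c 0 = x ∧
      HasDerivAt (fun t => emX (c t)) (aY B (emX x) + mE 0 W) 0 := by
  classical
  -- use `Z t = (1 - t B) Y (1 - t B)ᵗ`
  set G : ℝ → Matrix ι ι ℝ := fun t => 1 - t • B with hG
  have hGd : HasDerivAt G (-B) 0 := by
    have h := ((hasDerivAt_id (0 : ℝ)).smul_const B).const_sub (1 : Matrix ι ι ℝ)
    rw [one_smul] at h
    exact h
  have hG0 : G 0 = 1 := by simp [hG]
  have hdet : ∀ᶠ t in 𝓝 (0 : ℝ), (G t).det ≠ 0 := by
    have hc : ContinuousAt (fun t => (G t).det) 0 :=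
      (contDiff_det.continuous.continuousAt).comp hGd.continuousAt
    apply hc.eventually_ne
    rw [hG0, Matrix.det_one]
    exact one_ne_zero
  set Z : ℝ → Matrix ι ι ℝ := fun t => G t * x.1.1 * (G t).transpose with hZ
  have hZ0 : Z 0 = x.1.1 := by simp [hZ, hG0]
  have hpos : ∀ t, (G t).det ≠ 0 → (Z t).PosDef := by
    intro t ht
    have hinj : Function.Injective (G t).vecMul :=
      Matrix.vecMul_injective_of_isUnit ((Matrix.isUnit_iff_isUnit_det _).mpr ht.isUnit)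
    have := x.1.2.1.mul_mul_conjTranspose_same hinj
    rwa [Matrix.conjTranspose_eq_transpose_of_trivial] at this
  let c : ℝ → XX α ι := fun t =>
    if h : (G t).det ≠ 0 then mkX (Z t) (hpos t h) (x.2 + t • W) else x
  have hc0 : c 0 = x := by
    have h : (G 0).det ≠ 0 := by rw [hG0, Matrix.det_one]; exact one_ne_zero
    simp only [c, dif_pos h]
    rw [mkX]
    ext1
    · apply Subtype.ext
      change nrm (Z 0) = x.1.1
      rw [hZ0, nrm_of_det_one x.1.2.2]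
    · simp
  refine ⟨c, hc0, ?_⟩
  have h1 : HasDerivAt (fun s => (mE (nrm (Z s)) (x.2 + s • W) : EX α ι))
      (-(aY (-B) (mE (nrm (Z 0)) (x.2 + (0 : ℝ) • W) : EX α ι)) + mE 0 W) 0 := by
    apply hasDerivAt_pair
    · rw [hZ0]; exact x.1.2.1
    · have h2 := hasDerivAt_matmul (hasDerivAt_matmul hGd (hasDerivAt_const (0 : ℝ) x.1.1))
        (hasDerivAt_transpose hGd)
      refine h2.congr_deriv ?_
      simp [hZ0, hG0]
    · have h := ((hasDerivAt_id (0 : ℝ)).smul_const W).const_add x.2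
      rw [one_smul] at h
      exact h
  have h2 : (fun t => emX (c t)) =ᶠ[𝓝 0] (fun s => (mE (nrm (Z s)) (x.2 + s • W) : EX α ι)) := by
    filter_upwards [hdet] with t ht
    simp only [c, dif_pos ht, emX_mkX]
  refine (h1.congr_of_eventuallyEq h2).congr_deriv ?_
  rw [hZ0, nrm_of_det_one x.1.2.2, zero_smul, add_zero]
  apply EX_ext
  · simp only [mY_add, mY_neg, mY_aY, mY_mE, mY_emX, Matrix.trace_neg, Matrix.transpose_neg,
      Matrix.neg_mul, Matrix.mul_neg, mul_neg, neg_smul, neg_neg]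
    abel
  · simp

theorem Desc_ThB [Nonempty ι] (B : Matrix ι ι ℝ) : Desc emX (ThB (α := α) 𝕜 B) := by
  refine Desc_of_curve (v := fun x => aY B (emX x)) (fun F x => rfl) fun x => ?_
  obtain ⟨c, h1, h2⟩ := exists_curve B 0 x
  refine ⟨c, h1, h2.congr_deriv ?_⟩
  have : (mE 0 0 : EX α ι) = 0 := rfl
  rw [this, add_zero]

theorem Desc_PB (W : Matrix α ι ℝ) : Desc emX (PB (ι := ι) 𝕜 W) := by
  refine Desc_of_curve (v := fun x => (mE 0 W : EX α ι)) (fun F x => rfl) fun x => ?_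
  refine ⟨fun t => (x.1, x.2 + t • W), by simp, ?_⟩
  have h := ((hasDerivAt_id (0 : ℝ)).smul_const W).const_add x.2
  rw [one_smul] at h
  exact hasDerivAt_mE (hasDerivAt_const (0 : ℝ) x.1.1) h

theorem Desc_EB [Nonempty ι] (B : Matrix ι ι ℝ) : Desc emX (EB (α := α) 𝕜 B) := by
  refine Desc_of_curve (v := fun x => aY B (emX x) + aV B (emX x)) (fun F x => rfl) fun x => ?_
  exact exists_curve B (-(x.2 * B.transpose)) x

end Curves

end Pool.Agent.MP_5aa3e6_al
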