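import Mathlib
import Pool.Agent.MP_5aa3e6_al.Geo2

/-!
Operators on `P_ι × ℝ^(α,ι)` and their commutation relations.
-/

set_option linter.unusedSectionVars false

namespace Pool.Agent.MP_5aa3e6_al

open scoped ContDiff Manifold Topology

section Ops

/-- smooth functions on `P_ι × ℝ^(α,ι)` -/
noncomputable abbrev CX (𝕜 : Type*) [RCLike 𝕜] (α ι : Type*) [Fintype α] [Fintype ι]
    [DecidableEq ι] :=
  Sm 𝕜 (emX : XX α ι → EX α ι)

/-- linear operators on smooth functions on `P_ι × ℝ^(α,ι)` -/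
noncomputable abbrev OpX (𝕜 : Type*) [RCLike 𝕜] (α ι : Type*) [Fintype α] [Fintype ι]
    [DecidableEq ι] :=
  Op 𝕜 (emX : XX α ι → EX α ι)

variable {α ι : Type*} [Fintype α] [DecidableEq α] [Fintype ι] [DecidableEq ι]
variable {𝕜 : Type*} [RCLike 𝕜]

/-- the operator `Θ_B` -/
noncomputable def Th [Nonempty ι] (B : Matrix ι ι ℝ) : OpX 𝕜 α ι :=
  descO (ThB 𝕜 B) (Desc_ThB B)

/-- the derivative in direction `W` of `V` -/
noncomputable def Pm (W : Matrix α ι ℝ) : OpX 𝕜 α ι :=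
  descO (PB 𝕜 W) (Desc_PB W)

/-- the infinitesimal action of `B` -/
noncomputable def Em [Nonempty ι] (B : Matrix ι ι ℝ) : OpX 𝕜 α ι :=
  descO (EB 𝕜 B) (Desc_EB B)

/-- ambient linear coordinates -/
noncomputable def lY (α : Type*) [Fintype α] (i j : ι) : EX α ι →L[ℝ] ℝ :=
  LinearMap.toContinuousLinearMap
    { toFun := fun p => p.1 i j
      map_add' := fun _ _ => rfl
      map_smul' := fun _ _ => rfl }

/-- ambient linear coordinates -/
noncomputable def lV (a : α) (i : ι) : EX α ι →L[ℝ] ℝ :=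
  LinearMap.toContinuousLinearMap
    { toFun := fun p => p.2 a i
      map_add' := fun _ _ => rfl
      map_smul' := fun _ _ => rfl }

@[simp] theorem lY_apply (i j : ι) (p : EX α ι) : lY α i j p = mY p i j := rfl
@[simp] theorem lV_apply (a : α) (i : ι) (p : EX α ι) : lV a i p = mV p a i := rfl

/-- the coordinate function `Y_ij` -/
noncomputable def cY (i j : ι) : CX 𝕜 α ι := res 𝕜 emX (linf (lY α i j))

/-- the coordinate function `V_ai` -/
noncomputable def cV (a : α) (i : ι) : CX 𝕜 α ι := res 𝕜 emX (linf (lV a i))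

@[simp] theorem cY_apply (i j : ι) (x : XX α ι) :
    (cY i j : CX 𝕜 α ι).1 x = ((x.1.1 i j : ℝ) : 𝕜) := rfl

@[simp] theorem cV_apply (a : α) (i : ι) (x : XX α ι) :
    (cV a i : CX 𝕜 α ι).1 x = ((x.2 a i : ℝ) : 𝕜) := rfl

variable [Nonempty ι]

theorem Th_res (B : Matrix ι ι ℝ) (F : SF 𝕜 (EX α ι)) :
    Th B (res 𝕜 emX F) = res 𝕜 emX (ThB 𝕜 B F) := descO_res _ _ _

omit [Nonempty ι] in
theorem Pm_res (W : Matrix α ι ℝ) (F : SF 𝕜 (EX α ι)) :
    Pm W (res 𝕜 emX F) = res 𝕜 emX (PB 𝕜 W F) := descO_res _ _ _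

theorem Em_res (B : Matrix ι ι ℝ) (F : SF 𝕜 (EX α ι)) :
    Em B (res 𝕜 emX F) = res 𝕜 emX (EB 𝕜 B F) := descO_res _ _ _

theorem IsDO_Th (B : Matrix ι ι ℝ) : IsDO 𝕜 emX (Th B : OpX 𝕜 α ι) :=
  IsDO_descO (lvf_mem _) _

omit [Nonempty ι] in
theorem IsDO_Pm (W : Matrix α ι ℝ) : IsDO 𝕜 emX (Pm W : OpX 𝕜 α ι) :=
  IsDO_descO (dd_mem _) _

theorem IsDO_Em (B : Matrix ι ι ℝ) : IsDO 𝕜 emX (Em B : OpX 𝕜 α ι) :=
  IsDO_descO (lvf_mem _) _

/-! linearity -/

theorem aY_add (B C : Matrix ι ι ℝ) : aY (α := α) (B + C) = aY B + aY C := by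
  refine ContinuousLinearMap.ext fun p => EX_ext ?_ ?_
  · simp only [mY_aY, ContinuousLinearMap.add_apply, mY_add, Matrix.add_mul,
      Matrix.transpose_add, Matrix.mul_add, Matrix.trace_add, mul_add, add_smul]
    abel
  · simp

theorem aY_smul (c : ℝ) (B : Matrix ι ι ℝ) : aY (α := α) (c • B) = c • aY B := by
  refine ContinuousLinearMap.ext fun p => EX_ext ?_ ?_
  · simp only [mY_aY, ContinuousLinearMap.smul_apply, mY_smul, Matrix.smul_mul,
      Matrix.transpose_smul, Matrix.mul_smul, Matrix.trace_smul, smul_neg, smul_sub, smul_add]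
    rw [smul_eq_mul, smul_smul]
    congr 3
    ring
  · simp

theorem aV_add (B C : Matrix ι ι ℝ) : aV (α := α) (B + C) = aV B + aV C := by
  refine ContinuousLinearMap.ext fun p => EX_ext ?_ ?_
  · simp
  · simp only [mV_aV, ContinuousLinearMap.add_apply, mV_add, Matrix.transpose_add, Matrix.mul_add]
    abel

theorem aV_smul (c : ℝ) (B : Matrix ι ι ℝ) : aV (α := α) (c • B) = c • aV B := by
  refine ContinuousLinearMap.ext fun p => EX_ext ?_ ?_
  · simp
  · simp [Matrix.mul_smul]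

theorem Th_add (B C : Matrix ι ι ℝ) :
    (Th (B + C) : OpX 𝕜 α ι) = Th B + Th C := by
  apply Op.ext_res; intro F
  rw [Op.add_apply, Th_res, Th_res, Th_res, ← map_add, ThB, aY_add, lvf_add]
  rfl

theorem Th_smul (c : ℝ) (B : Matrix ι ι ℝ) :
    (Th (c • B) : OpX 𝕜 α ι) = (c : 𝕜) • Th B := by
  apply Op.ext_res; intro F
  rw [Op.smul_apply, Th_res, Th_res, ← map_smul, ThB, aY_smul, lvf_smul]
  rfl

theorem Em_add (B C : Matrix ι ι ℝ) :
    (Em (B + C) : OpX 𝕜 α ι) = Em B + Em C := by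
  apply Op.ext_res; intro F
  rw [Op.add_apply, Em_res, Em_res, Em_res, ← map_add, EB, EB, EB, ← LinearMap.add_apply,
    ← lvf_add, aY_add, aV_add]
  congr 3
  abel

theorem Em_smul (c : ℝ) (B : Matrix ι ι ℝ) :
    (Em (c • B) : OpX 𝕜 α ι) = (c : 𝕜) • Em B := by
  apply Op.ext_res; intro F
  rw [Op.smul_apply, Em_res, Em_res, ← map_smul, EB, EB, aY_smul, aV_smul, ← smul_add,
    lvf_smul]
  rfl

omit [Nonempty ι] in
theorem Pm_add (W W' : Matrix α ι ℝ) :
    (Pm (W + W') : OpX 𝕜 α ι) = Pm W + Pm W' := by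
  apply Op.ext_res; intro F
  have h : (mE 0 (W + W') : EX α ι) = mE 0 W + mE 0 W' := by apply EX_ext <;> simp
  rw [Op.add_apply, Pm_res, Pm_res, Pm_res, ← map_add, PB, h, dd_add]
  rfl

omit [Nonempty ι] in
theorem Pm_smul (c : ℝ) (W : Matrix α ι ℝ) :
    (Pm (c • W) : OpX 𝕜 α ι) = (c : 𝕜) • Pm W := by
  apply Op.ext_res; intro F
  have h : (mE 0 (c • W) : EX α ι) = c • mE 0 W := by apply EX_ext <;> simp
  rw [Op.smul_apply, Pm_res, Pm_res, ← map_smul, PB, h, dd_smul]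
  rfl

theorem Th_zero : (Th 0 : OpX 𝕜 α ι) = 0 := by
  have := Th_smul (𝕜 := 𝕜) (α := α) (0 : ℝ) (0 : Matrix ι ι ℝ)
  rw [zero_smul] at this
  rw [this]; simp
theorem Em_zero : (Em 0 : OpX 𝕜 α ι) = 0 := by
  have := Em_smul (𝕜 := 𝕜) (α := α) (0 : ℝ) (0 : Matrix ι ι ℝ)
  rw [zero_smul] at this
  rw [this]; simp
omit [Nonempty ι] in
theorem Pm_zero : (Pm 0 : OpX 𝕜 α ι) = 0 := by
  have := Pm_smul (𝕜 := 𝕜) (0 : ℝ) (0 : Matrix α ι ℝ)
  rw [zero_smul] at this
  rw [this]; simp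

theorem Th_neg (B : Matrix ι ι ℝ) :
    (Th (-B) : OpX 𝕜 α ι) = - Th B := by
  rw [← neg_one_smul ℝ, Th_smul]; simp
theorem Em_neg (B : Matrix ι ι ℝ) :
    (Em (-B) : OpX 𝕜 α ι) = - Em B := by
  rw [← neg_one_smul ℝ, Em_smul]; simp
theorem Th_sub (B C : Matrix ι ι ℝ) :
    (Th (B - C) : OpX 𝕜 α ι) = Th B - Th C := by
  rw [sub_eq_add_neg, Th_add, Th_neg, sub_eq_add_neg]
theorem Em_sub (B C : Matrix ι ι ℝ) :
    (Em (B - C) : OpX 𝕜 α ι) = Em B - Em C := by
  rw [sub_eq_add_neg, Em_add, Em_neg, sub_eq_add_neg]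

theorem Th_sum {κ : Type*} (s : Finset κ) (f : κ → Matrix ι ι ℝ) :
    (Th (∑ k ∈ s, f k) : OpX 𝕜 α ι) = ∑ k ∈ s, Th (f k) := by
  classical
  induction s using Finset.induction_on with
  | empty => simp [Th_zero]
  | insert a s ha ih => rw [Finset.sum_insert ha, Th_add, ih, Finset.sum_insert ha]
theorem Em_sum {κ : Type*} (s : Finset κ) (f : κ → Matrix ι ι ℝ) :
    (Em (∑ k ∈ s, f k) : OpX 𝕜 α ι) = ∑ k ∈ s, Em (f k) := by
  classical
  induction s using Finset.induction_on with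
  | empty => simp [Em_zero]
  | insert a s ha ih => rw [Finset.sum_insert ha, Em_add, ih, Finset.sum_insert ha]
omit [Nonempty ι] in
theorem Pm_sum {κ : Type*} (s : Finset κ) (f : κ → Matrix α ι ℝ) :
    (Pm (∑ k ∈ s, f k) : OpX 𝕜 α ι) = ∑ k ∈ s, Pm (f k) := by
  classical
  induction s using Finset.induction_on with
  | empty => simp [Pm_zero]
  | insert a s ha ih => rw [Finset.sum_insert ha, Pm_add, ih, Finset.sum_insert ha]

theorem Th_one : (Th 1 : OpX 𝕜 α ι) = 0 := by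
  apply Op.ext_res; intro F
  rw [Th_res]
  have : aY (α := α) (1 : Matrix ι ι ℝ) = 0 := by
    refine ContinuousLinearMap.ext fun p => EX_ext ?_ ?_
    · rw [mY_aY, Matrix.trace_one, Matrix.transpose_one, Matrix.one_mul, Matrix.mul_one]
      have hn : (Fintype.card ι : ℝ) ≠ 0 := by exact_mod_cast Fintype.card_ne_zero
      rw [div_mul_cancel₀ _ hn, two_smul, sub_self, neg_zero]
      rfl
    · rfl
  rw [ThB, this, lvf_zero]
  simp

/-! commutation relations -/

theorem Th_comm (B C : Matrix ι ι ℝ) :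
    (Th B * Th C - Th C * Th B : OpX 𝕜 α ι) = Th (B * C - C * B) := by
  apply Op.ext_res; intro F
  have h := lvf_comm (𝕜 := 𝕜) (aY (α := α) B) (aY C) F
  have h2 : (aY (α := α) C).comp (aY B) - (aY B).comp (aY C) = aY (B * C - C * B) := by
    refine ContinuousLinearMap.ext fun p => EX_ext ?_ ?_
    · simp only [ContinuousLinearMap.sub_apply, ContinuousLinearMap.comp_apply, mY_aY, mY_sub,
        Matrix.transpose_sub, Matrix.transpose_mul, Matrix.trace_sub, Matrix.trace_mul_comm B C,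
        sub_self, mul_zero, zero_smul, sub_zero]
      simp only [Matrix.mul_neg, Matrix.neg_mul, Matrix.mul_sub, Matrix.sub_mul, Matrix.mul_add,
        Matrix.add_mul, Matrix.mul_smul, Matrix.smul_mul, smul_neg, smul_sub, smul_add,
        Matrix.mul_assoc]
      rw [smul_comm (2 / (Fintype.card ι : ℝ) * C.trace)]
      abel
    · simp
  rw [h2] at h
  rw [Op.sub_apply, Op.mul_apply, Op.mul_apply, Th_res, Th_res, Th_res,
    Th_res, Th_res, ← map_sub]
  congr 1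

theorem Em_comm (B C : Matrix ι ι ℝ) :
    (Em B * Em C - Em C * Em B : OpX 𝕜 α ι) = Em (B * C - C * B) := by
  apply Op.ext_res; intro F
  have h := lvf_comm (𝕜 := 𝕜) (aY (α := α) B + aV B) (aY C + aV C) F
  have h2 : (aY (α := α) C + aV C).comp (aY B + aV B) - (aY B + aV B).comp (aY C + aV C)
      = aY (B * C - C * B) + aV (B * C - C * B) := by
    refine ContinuousLinearMap.ext fun p => EX_ext ?_ ?_
    all_goals simp only [ContinuousLinearMap.sub_apply, ContinuousLinearMap.comp_apply,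
      ContinuousLinearMap.add_apply, mY_aY, mY_aV, mV_aY, mV_aV, mY_sub, mV_sub, mY_add, mV_add,
      Matrix.transpose_sub, Matrix.transpose_mul, Matrix.trace_sub, Matrix.trace_mul_comm B C,
      sub_self, mul_zero, zero_smul, sub_zero, add_zero, zero_add]
    · simp only [Matrix.mul_neg, Matrix.neg_mul, Matrix.mul_sub, Matrix.sub_mul, Matrix.mul_add,
        Matrix.add_mul, Matrix.mul_smul, Matrix.smul_mul, smul_neg, smul_sub, smul_add,
        Matrix.mul_assoc]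
      rw [smul_comm (2 / (Fintype.card ι : ℝ) * C.trace)]
      abel
    · simp only [Matrix.neg_mul, Matrix.mul_sub, Matrix.mul_assoc]
      abel
  rw [h2] at h
  rw [Op.sub_apply, Op.mul_apply, Op.mul_apply, Em_res, Em_res, Em_res,
    Em_res, Em_res, ← map_sub]
  congr 1

theorem Em_Pm_comm (B : Matrix ι ι ℝ) (W : Matrix α ι ℝ) :
    (Em B * Pm W - Pm W * Em B : OpX 𝕜 α ι) = Pm (W * B.transpose) := by
  apply Op.ext_res; intro F
  have h := lvf_dd_comm (𝕜 := 𝕜) (aY (α := α) B + aV B) (mE 0 W) F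
  have h2 : (aY (α := α) B + aV (α := α) B) (mE 0 W) = -mE 0 (W * B.transpose) := by
    apply EX_ext <;> simp
  have h3 : dd 𝕜 (-(mE 0 (W * B.transpose) : EX α ι)) F = - dd 𝕜 (mE 0 (W * B.transpose)) F := by
    ext x; simp
  rw [h2, h3, neg_neg] at h
  rw [Op.sub_apply, Op.mul_apply, Op.mul_apply, Em_res, Pm_res, Em_res,
    Pm_res, Pm_res, ← map_sub]
  congr 1

theorem Th_Pm_comm (B : Matrix ι ι ℝ) (W : Matrix α ι ℝ) :
    (Th B * Pm W : OpX 𝕜 α ι) = Pm W * Th B := by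
  apply Op.ext_res; intro F
  have h := lvf_dd_comm (𝕜 := 𝕜) (aY (α := α) B) (mE 0 W) F
  have h2 : (aY (α := α) B) (mE 0 W) = 0 := by
    apply EX_ext <;> simp
  have h3 : dd 𝕜 (0 : EX α ι) F = 0 := by ext x; simp
  rw [h2, h3, neg_zero] at h
  rw [Op.mul_apply, Op.mul_apply, Th_res, Pm_res, Th_res,
    Pm_res, ← sub_eq_zero, ← map_sub]
  have h5 : (ThB 𝕜 B (PB 𝕜 W F) - PB 𝕜 W (ThB 𝕜 B F)) = 0 := h
  rw [h5, map_zero]

omit [Nonempty ι] in
theorem Pm_Pm_comm (W W' : Matrix α ι ℝ) :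
    (Pm W * Pm W' : OpX 𝕜 α ι) = Pm W' * Pm W := by
  apply Op.ext_res; intro F
  rw [Op.mul_apply, Op.mul_apply, Pm_res, Pm_res, Pm_res, Pm_res]
  congr 1
  exact dd_comm _ _ _

/-! Leibniz rules -/

theorem Th_mul (B : Matrix ι ι ℝ) (f g : CX 𝕜 α ι) :
    Th B (f * g) = Th B f * g + f * Th B g := by
  obtain ⟨F, rfl⟩ := res_surj f
  obtain ⟨G, rfl⟩ := res_surj g
  rw [← map_mul, Th_res, Th_res, Th_res, ← map_mul, ← map_mul, ← map_add]
  congr 1
  exact lvf_mul _ _ _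

theorem Em_mul (B : Matrix ι ι ℝ) (f g : CX 𝕜 α ι) :
    Em B (f * g) = Em B f * g + f * Em B g := by
  obtain ⟨F, rfl⟩ := res_surj f
  obtain ⟨G, rfl⟩ := res_surj g
  rw [← map_mul, Em_res, Em_res, Em_res, ← map_mul, ← map_mul, ← map_add]
  congr 1
  exact lvf_mul _ _ _

omit [Nonempty ι] in
theorem Pm_mul (W : Matrix α ι ℝ) (f g : CX 𝕜 α ι) :
    Pm W (f * g) = Pm W f * g + f * Pm W g := by
  obtain ⟨F, rfl⟩ := res_surj f
  obtain ⟨G, rfl⟩ := res_surj g
  rw [← map_mul, Pm_res, Pm_res, Pm_res, ← map_mul, ← map_mul, ← map_add]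
  congr 1
  exact dd_mul _ _ _

/-! values on coordinates -/

theorem Th_cY_apply (B : Matrix ι ι ℝ) (k l : ι) (x : XX α ι) :
    (Th B (cY k l) : CX 𝕜 α ι).1 x
      = ((-((B * x.1.1 + x.1.1 * B.transpose) k l
          - 2 / (Fintype.card ι : ℝ) * B.trace * x.1.1 k l) : ℝ) : 𝕜) := by
  rw [cY, Th_res, ThB, lvf_linf, res_apply, linf_apply]
  rfl

theorem Th_cV (B : Matrix ι ι ℝ) (a : α) (i : ι) :
    Th B (cV a i : CX 𝕜 α ι) = 0 := by
  rw [cV, Th_res, ThB, lvf_linf]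
  ext x
  rw [res_apply, linf_apply]
  simp

omit [Nonempty ι] in
theorem Pm_cY (W : Matrix α ι ℝ) (k l : ι) :
    Pm W (cY k l : CX 𝕜 α ι) = 0 := by
  rw [cY, Pm_res, PB, dd_linf]
  ext x
  simp

omit [Nonempty ι] in
theorem Pm_cV (W : Matrix α ι ℝ) (a : α) (i : ι) :
    Pm W (cV a i : CX 𝕜 α ι) = algebraMap 𝕜 _ ((W a i : ℝ) : 𝕜) := by
  rw [cV, Pm_res, PB, dd_linf]
  rfl

/-- derivative along curves -/
theorem KL (f : CX 𝕜 α ι) {Z : ℝ → Matrix ι ι ℝ} (hZ : ∀ s, (Z s).PosDef)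
    {V : ℝ → Matrix α ι ℝ} {B Z' : Matrix ι ι ℝ} {V' : Matrix α ι ℝ} {t : ℝ}
    (hZ' : ∀ i j, HasDerivAt (fun s => Z s i j) (Z' i j) t)
    (hB : Z' = B * Z t + Z t * B.transpose)
    (hV : ∀ a i, HasDerivAt (fun s => V s a i) (V' a i) t) :
    HasDerivAt (fun s => f.1 (mkX (Z s) (hZ s) (V s)))
      (-(Th B f).1 (mkX (Z t) (hZ t) (V t)) + (Pm V' f).1 (mkX (Z t) (hZ t) (V t))) t := by
  open scoped Matrix.Norms.Elementwise in
  subst hB
  obtain ⟨F, rfl⟩ := res_surj f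
  have h1 := hasDerivAt_pair (hZ t) (hasDerivAt_mat.mpr hZ') (hasDerivAt_mat.mpr hV)
  have h2 := hasDerivAt_curve (e := emX) (c := fun s => mkX (Z s) (hZ s) (V s)) h1 F
  refine h2.congr_deriv ?_
  rw [Th_res, Pm_res, map_add, map_neg]
  rfl

theorem KL' (f : CX 𝕜 α ι) {Z : ℝ → Matrix ι ι ℝ} (hZ : ∀ s, (Z s).PosDef)
    {V : ℝ → Matrix α ι ℝ} {B Z' : Matrix ι ι ℝ} {V' : Matrix α ι ℝ} {t : ℝ} {x : XX α ι}
    (hx : mkX (Z t) (hZ t) (V t) = x)
    (hZ' : ∀ i j, HasDerivAt (fun s => Z s i j) (Z' i j) t)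
    (hB : Z' = B * Z t + Z t * B.transpose)
    (hV : ∀ a i, HasDerivAt (fun s => V s a i) (V' a i) t) :
    HasDerivAt (fun s => f.1 (mkX (Z s) (hZ s) (V s)))
      (-(Th B f).1 x + (Pm V' f).1 x) t := by
  subst hx
  exact KL f hZ hZ' hB hV

theorem mkX_eq (x : XX α ι) : mkX x.1.1 x.1.2.1 x.2 = x := by
  rw [mkX]
  ext1
  · apply Subtype.ext
    exact nrm_of_det_one x.1.2.2
  · rfl

end Ops

section Rel

variable {α ι : Type*} [Fintype α] [DecidableEq α] [Fintype ι] [DecidableEq ι] [Nonempty ι]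
variable {𝕜 : Type*} [RCLike 𝕜]

theorem single_mul_single' {m n k : Type*} [Fintype n] [DecidableEq m] [DecidableEq n]
    [DecidableEq k] (i : m) (j j' : n) (l : k) :
    Matrix.single i j (1 : ℝ) * Matrix.single j' l (1 : ℝ)
      = if j = j' then Matrix.single i l (1 : ℝ) else 0 := by
  split_ifs with h
  · subst h; simp
  · ext a b
    rw [Matrix.mul_apply, Matrix.zero_apply]
    refine Finset.sum_eq_zero fun c _ => ?_
    simp only [Matrix.single_apply]
    by_cases h1 : j = c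
    · subst h1
      rw [if_neg (fun h' : j' = j ∧ l = b => h h'.1.symm), mul_zero]
    · rw [if_neg (fun h' : i = a ∧ j = c => h1 h'.2), zero_mul]

/-- the operators `Θ_ij` -/
noncomputable def thM (𝕜 : Type*) [RCLike 𝕜] (α : Type*) [Fintype α] [DecidableEq α]
    {ι : Type*} [Fintype ι] [DecidableEq ι] [Nonempty ι] (i j : ι) :
    OpX 𝕜 α ι := Th (Matrix.single i j 1)

/-- the infinitesimal action of `E_ij` -/
noncomputable def eM (𝕜 : Type*) [RCLike 𝕜] (α : Type*) [Fintype α] [DecidableEq α]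
    {ι : Type*} [Fintype ι] [DecidableEq ι] [Nonempty ι] (i j : ι) :
    OpX 𝕜 α ι := Em (Matrix.single i j 1)

/-- the operators `∂/∂V_ai` -/
noncomputable def pM (𝕜 : Type*) [RCLike 𝕜] {α : Type*} [Fintype α] [DecidableEq α]
    {ι : Type*} [Fintype ι] [DecidableEq ι] (a : α) (i : ι) :
    OpX 𝕜 α ι := Pm (Matrix.single a i 1)

theorem thM_comm (i j k l : ι) :
    (thM 𝕜 α i j * thM 𝕜 α k l - thM 𝕜 α k l * thM 𝕜 α i j) =
      (if j = k then thM 𝕜 α i l else 0) - (if l = i then thM 𝕜 α k j else 0) := by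
  rw [thM, thM, Th_comm, single_mul_single', single_mul_single', Th_sub]
  congr 1
  · split_ifs
    · rfl
    · exact Th_zero
  · split_ifs
    · rfl
    · exact Th_zero

/-- the commutation relations of the infinitesimal action -/
theorem glRel : GLRel (eM 𝕜 α (ι := ι)) (pM 𝕜 (α := α) (ι := ι)) where
  EE i j k l := by
    rw [eM, eM, Em_comm, single_mul_single', single_mul_single', Em_sub]
    congr 1
    · split_ifs
      · rfl
      · exact Em_zero
    · split_ifs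
      · rfl
      · exact Em_zero
  EP i j a k := by
    rw [eM, pM, Em_Pm_comm, Matrix.transpose_single, single_mul_single']
    by_cases h : j = k
    · subst h; simp; rfl
    · rw [if_neg (fun h' => h h'.symm), if_neg h]; exact Pm_zero
  PP a b i j := Pm_Pm_comm _ _

theorem eM_eq (i j : ι) :
    eM 𝕜 α i j = thM 𝕜 α i j - ∑ a, mulM (cV a j) * pM 𝕜 a i := by
  apply Op.ext_res; intro F
  rw [Op.sub_apply, eM, thM, Em_res, Th_res, Op.sum_apply]
  have h1 : ∀ a, (mulM (cV a j) * pM 𝕜 a i : OpX 𝕜 α ι) (res 𝕜 emX F)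
      = res 𝕜 emX (linf (lV a j) * PB 𝕜 (Matrix.single a i 1) F) := by
    intro a
    rw [Op.mul_apply, pM, Pm_res, mulM_apply, cV, ← map_mul]
  simp only [h1]
  rw [← map_sum, ← map_sub]
  congr 1
  ext x
  have h2 : (EB 𝕜 (Matrix.single i j 1) F : EX α ι → 𝕜) x
      = fderiv ℝ (F : EX α ι → 𝕜) x (aY (Matrix.single i j 1) x + aV (Matrix.single i j 1) x) := rfl
  have h3 : aV (Matrix.single i j 1) x
      = -∑ a, mV x a j • (mE 0 (Matrix.single a i 1) : EX α ι) := by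
    apply EX_ext
    · rw [mY_neg, mY_sum]; simp
    · rw [mV_neg, mV_sum, mV_aV]
      congr 1
      ext b k
      rw [Matrix.sum_apply, Matrix.transpose_single, Matrix.mul_apply]
      simp only [mV_smul, mV_mE, Matrix.smul_apply, Matrix.single_apply, smul_eq_mul]
      rw [Finset.sum_eq_single j]
      · rw [Finset.sum_eq_single b]
        · simp
        · intro c _ hc
          rw [if_neg (by tauto), mul_zero]
        · simp
      · intro c _ hc
        rw [if_neg (by tauto), mul_zero]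
      · simp
  rw [h2, h3, ← sub_eq_add_neg, map_sub, map_sum]
  simp only [map_smul]
  change _ = fderiv ℝ (F : EX α ι → 𝕜) x (aY (Matrix.single i j 1) x)
    - ((∑ a, linf (lV a j) * PB 𝕜 (Matrix.single a i 1) F : SF 𝕜 (EX α ι)) : EX α ι → 𝕜) x
  congr 1
  simp only [AddSubmonoidClass.coe_finset_sum, Finset.sum_apply]
  refine Finset.sum_congr rfl fun a _ => ?_
  rw [RCLike.real_smul_eq_coe_mul]
  rfl

end Rel

end Pool.Agent.MP_5aa3e6_al
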