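import Mathlib
import Pool.Agent.MP_5aa3e6_al.Geo3

/-!
The group action, equivariance, the algebra of invariant differential operators.
-/

set_option linter.unusedSectionVars false

namespace Pool.Agent.MP_5aa3e6_al

open scoped ContDiff Manifold Topology

section Act

variable {α ι : Type*} [Fintype α] [DecidableEq α] [Fintype ι] [DecidableEq ι]
variable {𝕜 : Type*} [RCLike 𝕜]

/-- the action of `(A, a) ∈ SL ⋉ ℝ^(α,ι)`: `(Y, V) ↦ (A Y Aᵗ, (V + a) Aᵗ)` -/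
def act (A : Matrix.SpecialLinearGroup ι ℝ) (a : Matrix α ι ℝ) (x : XX α ι) : XX α ι :=
  (⟨A.1 * x.1.1 * A.1.transpose, by
    constructor
    · have hinj : Function.Injective A.1.vecMul :=
        Matrix.vecMul_injective_of_isUnit ((Matrix.isUnit_iff_isUnit_det _).mpr
          (by rw [A.2]; exact isUnit_one))
      have := x.1.2.1.mul_mul_conjTranspose_same hinj
      rwa [Matrix.conjTranspose_eq_transpose_of_trivial] at this
    · rw [Matrix.det_mul, Matrix.det_mul, Matrix.det_transpose, A.2, x.1.2.2]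
      norm_num⟩, (x.2 + a) * A.1.transpose)

/-- `Y ↦ A Y Aᵗ` -/
def cjY (A : Matrix ι ι ℝ) : Matrix ι ι ℝ →ₗ[ℝ] Matrix ι ι ℝ where
  toFun Y := A * Y * A.transpose
  map_add' Y Z := by simp only [Matrix.mul_add, Matrix.add_mul]
  map_smul' c Y := by simp only [Matrix.mul_smul, Matrix.smul_mul, RingHom.id_apply]

/-- `V ↦ V Aᵗ` -/
def cjV (A : Matrix ι ι ℝ) : Matrix α ι ℝ →ₗ[ℝ] Matrix α ι ℝ where
  toFun V := V * A.transpose
  map_add' Y Z := by simp only [Matrix.add_mul]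
  map_smul' c Y := by simp only [Matrix.smul_mul, RingHom.id_apply]

/-- the affine map of the ambient space -/
noncomputable def actT (A : Matrix ι ι ℝ) (a : Matrix α ι ℝ) (p : EX α ι) : EX α ι :=
  mkL (cjY A) (cjV A) p + mE 0 (a * A.transpose)

@[simp] theorem mY_actT (A : Matrix ι ι ℝ) (a : Matrix α ι ℝ) (p : EX α ι) :
    mY (actT A a p) = A * mY p * A.transpose := by
  rw [actT, mY_add, mY_mE, add_zero]; rfl

@[simp] theorem mV_actT (A : Matrix ι ι ℝ) (a : Matrix α ι ℝ) (p : EX α ι) :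
    mV (actT A a p) = (mV p + a) * A.transpose := by
  rw [actT, mV_add, mV_mE, Matrix.add_mul]; rfl

theorem contDiff_actT (A : Matrix ι ι ℝ) (a : Matrix α ι ℝ) : ContDiff ℝ ∞ (actT A a) := by
  have h : ContDiff ℝ ∞ (fun p : EX α ι => mkL (cjY A) (cjV A) p + mE 0 (a * A.transpose)) :=
    (mkL (cjY A) (cjV A) : EX α ι →L[ℝ] EX α ι).contDiff.add contDiff_const
  exact h

theorem fderiv_actT (A : Matrix ι ι ℝ) (a : Matrix α ι ℝ) (p v : EX α ι) :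
    fderiv ℝ (actT A a) p v = mkL (cjY A) (cjV A) v := by
  have h : HasFDerivAt (actT A a) (mkL (cjY A) (cjV A) : EX α ι →L[ℝ] EX α ι) p :=
    ((mkL (cjY A) (cjV A)).hasFDerivAt).add_const _
  rw [h.fderiv]

theorem SMap_act (A : Matrix.SpecialLinearGroup ι ℝ) (a : Matrix α ι ℝ) :
    SMap emX emX (act A a) :=
  ⟨actT A.1 a, contDiff_actT _ _, fun x => by
    apply EX_ext
    · simp; rfl
    · simp; rfl⟩

theorem emX_act (A : Matrix.SpecialLinearGroup ι ℝ) (a : Matrix α ι ℝ) (x : XX α ι) :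
    emX (act A a x) = actT A.1 a (emX x) := by
  apply EX_ext
  · simp; rfl
  · simp; rfl

/-- pull-back by the action -/
noncomputable def rhoX (𝕜 : Type*) [RCLike 𝕜] (A : Matrix.SpecialLinearGroup ι ℝ)
    (a : Matrix α ι ℝ) : CX 𝕜 α ι →ₐ[𝕜] CX 𝕜 α ι :=
  pb 𝕜 (SMap_act A a)

theorem rhoX_apply (A : Matrix.SpecialLinearGroup ι ℝ) (a : Matrix α ι ℝ) (f : CX 𝕜 α ι)
    (x : XX α ι) : (rhoX 𝕜 A a f).1 x = f.1 (act A a x) := rfl

theorem rhoX_res (A : Matrix.SpecialLinearGroup ι ℝ) (a : Matrix α ι ℝ) (F : SF 𝕜 (EX α ι)) :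
    rhoX 𝕜 A a (res 𝕜 emX F) = res 𝕜 emX (pull (actT A.1 a) (contDiff_actT _ _) F) := by
  ext x
  rw [rhoX_apply, res_apply, res_apply, pull_apply, emX_act]

/-- the algebra `𝔻(P_ι × ℝ^(α,ι))` of invariant differential operators -/
noncomputable def DX (𝕜 : Type*) [RCLike 𝕜] (α ι : Type*) [Fintype α] [DecidableEq α]
    [Fintype ι] [DecidableEq ι] : Subalgebra 𝕜 (OpX 𝕜 α ι) where
  carrier := {D | IsDO 𝕜 emX D ∧ ∀ (A : Matrix.SpecialLinearGroup ι ℝ) (a : Matrix α ι ℝ)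
    (f : CX 𝕜 α ι), D (rhoX 𝕜 A a f) = rhoX 𝕜 A a (D f)}
  mul_mem' := by
    rintro D D' ⟨h1, h2⟩ ⟨h1', h2'⟩
    exact ⟨h1.mul h1', fun A a f => by rw [Op.mul_apply, h2', h2]; rfl⟩
  add_mem' := by
    rintro D D' ⟨h1, h2⟩ ⟨h1', h2'⟩
    exact ⟨h1.add h1', fun A a f => by rw [Op.add_apply, h2', h2, ← map_add]; rfl⟩
  algebraMap_mem' c := ⟨IsDO.algebraMap c, fun A a f => by
    rw [Op.algebraMap_apply, Op.algebraMap_apply, map_smul]⟩

theorem mem_DX {D : OpX 𝕜 α ι} : D ∈ DX 𝕜 α ι ↔ IsDO 𝕜 emX D ∧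
    ∀ (A : Matrix.SpecialLinearGroup ι ℝ) (a : Matrix α ι ℝ)
      (f : CX 𝕜 α ι), D (rhoX 𝕜 A a f) = rhoX 𝕜 A a (D f) := Iff.rfl

/-! equivariance of the basic operators -/

theorem Th_rhoX [Nonempty ι] (A : Matrix.SpecialLinearGroup ι ℝ) (a : Matrix α ι ℝ)
    (B : Matrix ι ι ℝ) (f : CX 𝕜 α ι) :
    Th B (rhoX 𝕜 A a f) = rhoX 𝕜 A a (Th (A.1 * B * (A⁻¹).1) f) := by
  obtain ⟨F, rfl⟩ := res_surj f
  rw [rhoX_res, Th_res, Th_res, rhoX_res]
  congr 1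
  apply lvf_pull
  intro x
  have h1 : (A⁻¹).1 * A.1 = 1 := by
    rw [← Matrix.SpecialLinearGroup.coe_mul, inv_mul_cancel, Matrix.SpecialLinearGroup.coe_one]
  rw [fderiv_actT]
  apply EX_ext
  · rw [mkL_apply, mY_mE, mY_aY, mY_aY, mY_actT]
    change A.1 * _ * A.1.transpose = _
    have h2 : (A.1 * B * (A⁻¹).1) * (A.1 * mY x * A.1.transpose)
        = A.1 * (B * mY x) * A.1.transpose := by
      calc _ = A.1 * B * ((A⁻¹).1 * A.1) * mY x * A.1.transpose := by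
            simp only [Matrix.mul_assoc]
        _ = _ := by rw [h1, Matrix.mul_one]; simp only [Matrix.mul_assoc]
    have h3 : (A.1 * mY x * A.1.transpose) * (A.1 * B * (A⁻¹).1).transpose
        = A.1 * (mY x * B.transpose) * A.1.transpose := by
      calc _ = A.1 * mY x * ((A⁻¹).1 * A.1).transpose * B.transpose * A.1.transpose := by
            simp only [Matrix.mul_assoc, Matrix.transpose_mul]
        _ = _ := by
            rw [h1, Matrix.transpose_one, Matrix.mul_one]; simp only [Matrix.mul_assoc]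
    have h4 : (A.1 * B * (A⁻¹).1).trace = B.trace := by
      rw [Matrix.trace_mul_comm, ← Matrix.mul_assoc, h1, Matrix.one_mul]
    rw [h2, h3, h4]
    simp only [Matrix.mul_neg, Matrix.neg_mul, Matrix.mul_sub, Matrix.sub_mul, Matrix.mul_add,
      Matrix.add_mul, Matrix.mul_smul, Matrix.smul_mul]
  · rw [mkL_apply, mV_mE, mV_aY, mV_aY, map_zero]

theorem Pm_rhoX (A : Matrix.SpecialLinearGroup ι ℝ) (a : Matrix α ι ℝ)
    (W : Matrix α ι ℝ) (f : CX 𝕜 α ι) :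
    Pm W (rhoX 𝕜 A a f) = rhoX 𝕜 A a (Pm (W * A.1.transpose) f) := by
  obtain ⟨F, rfl⟩ := res_surj f
  rw [rhoX_res, Pm_res, Pm_res, rhoX_res]
  congr 1
  apply dd_pull_lin
  intro x
  rw [fderiv_actT]
  apply EX_ext
  · rw [mkL_apply, mY_mE, mY_mE, mY_mE, map_zero]
  · rfl

theorem cY_rhoX (A : Matrix.SpecialLinearGroup ι ℝ) (a : Matrix α ι ℝ) (i j : ι) :
    rhoX 𝕜 A a (cY i j) = ∑ k, ∑ l, ((A.1 i k * A.1 j l : ℝ) : 𝕜) • cY k l := by
  ext x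
  rw [rhoX_apply, cY_apply]
  have : ((∑ k, ∑ l, ((A.1 i k * A.1 j l : ℝ) : 𝕜) • (cY k l : CX 𝕜 α ι) : CX 𝕜 α ι)).1 x
      = ∑ k, ∑ l, ((A.1 i k * A.1 j l : ℝ) : 𝕜) * ((x.1.1 k l : ℝ) : 𝕜) := by
    simp only [AddSubmonoidClass.coe_finset_sum, Finset.sum_apply]
    rfl
  rw [this]
  change (((A.1 * x.1.1 * A.1.transpose) i j : ℝ) : 𝕜) = _
  rw [Matrix.mul_apply]
  simp only [Matrix.mul_apply, Finset.sum_mul, Matrix.transpose_apply]
  rw [Finset.sum_comm]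
  push_cast
  exact Finset.sum_congr rfl fun k _ => Finset.sum_congr rfl fun l _ => by ring

theorem Th_eq_sum [Nonempty ι] (B : Matrix ι ι ℝ) :
    (Th B : OpX 𝕜 α ι) = ∑ k, ∑ l, ((B k l : ℝ) : 𝕜) • thM 𝕜 α k l := by
  conv_lhs => rw [Matrix.matrix_eq_sum_single B]
  rw [Th_sum]
  refine Finset.sum_congr rfl fun k _ => ?_
  rw [Th_sum]
  refine Finset.sum_congr rfl fun l _ => ?_
  rw [thM, ← Th_smul, Matrix.smul_single, smul_eq_mul, mul_one]

theorem Pm_eq_sum (W : Matrix α ι ℝ) :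
    (Pm W : OpX 𝕜 α ι) = ∑ a, ∑ i, ((W a i : ℝ) : 𝕜) • pM 𝕜 a i := by
  conv_lhs => rw [Matrix.matrix_eq_sum_single W]
  rw [Pm_sum]
  refine Finset.sum_congr rfl fun k _ => ?_
  rw [Pm_sum]
  refine Finset.sum_congr rfl fun l _ => ?_
  rw [pM, ← Pm_smul, Matrix.smul_single, smul_eq_mul, mul_one]

end Act

section Dl

variable {α ι : Type*} [Fintype α] [DecidableEq α] [Fintype ι] [DecidableEq ι] [Nonempty ι]
variable {𝕜 : Type*} [RCLike 𝕜]

theorem single_conj (A C : Matrix ι ι ℝ) (i j k l : ι) :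
    (A * Matrix.single i j (1 : ℝ) * C) k l = A k i * C j l := by
  rw [Matrix.mul_apply, Finset.sum_eq_single j]
  · rw [Matrix.mul_apply, Finset.sum_eq_single i]
    · simp
    · intro b _ hb
      rw [Matrix.single_apply, if_neg (fun h => hb h.1.symm), mul_zero]
    · simp
  · intro b _ hb
    rw [Matrix.mul_apply, Finset.sum_eq_zero, zero_mul]
    intro c _
    rw [Matrix.single_apply, if_neg (fun h => hb h.2.symm), mul_zero]
  · simp

theorem thM_rhoX (A : Matrix.SpecialLinearGroup ι ℝ) (a : Matrix α ι ℝ) (i j : ι)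
    (f : CX 𝕜 α ι) : thM 𝕜 α i j (rhoX 𝕜 A a f)
      = rhoX 𝕜 A a (∑ k, ∑ l, ((A.1 k i * (A⁻¹).1 j l : ℝ) : 𝕜) • thM 𝕜 α k l f) := by
  rw [thM, Th_rhoX, Th_eq_sum]
  simp only [Op.sum_apply, Op.smul_apply, single_conj]

theorem pM_rhoX (A : Matrix.SpecialLinearGroup ι ℝ) (a : Matrix α ι ℝ) (b : α) (i : ι)
    (f : CX 𝕜 α ι) : pM 𝕜 b i (rhoX 𝕜 A a f)
      = rhoX 𝕜 A a (∑ k, ((A.1 k i : ℝ) : 𝕜) • pM 𝕜 b k f) := by
  rw [pM, Pm_rhoX, Pm_eq_sum]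
  simp only [Op.sum_apply, Op.smul_apply]
  congr 1
  rw [Finset.sum_eq_single b]
  · refine Finset.sum_congr rfl fun k _ => ?_
    congr 2
    rw [Matrix.mul_apply, Finset.sum_eq_single i]
    · simp
    · intro c _ hc
      rw [Matrix.single_apply, if_neg (fun h => hc h.2.symm), zero_mul]
    · simp
  · intro c _ hc
    refine Finset.sum_eq_zero fun k _ => ?_
    rw [Matrix.mul_apply, Finset.sum_eq_zero]
    · simp
    · intro d _
      rw [Matrix.single_apply, if_neg (fun h => hc h.1.symm), zero_mul]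
  · simp

/-- the operator `Δ = ∑ Θ_ij Θ_ji` -/
noncomputable def Dl (𝕜 : Type*) [RCLike 𝕜] (α ι : Type*) [Fintype α] [DecidableEq α]
    [Fintype ι] [DecidableEq ι] [Nonempty ι] : OpX 𝕜 α ι :=
  ∑ i, ∑ j, thM 𝕜 α i j * thM 𝕜 α j i

/-- the operators `Q_ab = ∑ Y_ij ∂_ai ∂_bj` -/
noncomputable def Qd (𝕜 : Type*) [RCLike 𝕜] {α : Type*} (ι : Type*) [Fintype α] [DecidableEq α]
    [Fintype ι] [DecidableEq ι] (a b : α) : OpX 𝕜 α ι :=
  ∑ i, ∑ j, mulM (cY i j) * (pM 𝕜 a i * pM 𝕜 b j)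

theorem SL_mul_inv (A : Matrix.SpecialLinearGroup ι ℝ) : A.1 * (A⁻¹).1 = 1 := by
  rw [← Matrix.SpecialLinearGroup.coe_mul, mul_inv_cancel, Matrix.SpecialLinearGroup.coe_one]

theorem SL_inv_mul (A : Matrix.SpecialLinearGroup ι ℝ) : (A⁻¹).1 * A.1 = 1 := by
  rw [← Matrix.SpecialLinearGroup.coe_mul, inv_mul_cancel, Matrix.SpecialLinearGroup.coe_one]

theorem conj_sum {K U ι : Type*} [Field K] [Ring U] [Algebra K U] [Fintype ι] [DecidableEq ι]
    (A C : Matrix ι ι K) (h : A * C = 1) (th : ι → ι → U) :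
    ∑ i, ∑ j, (∑ k, ∑ l, (A k i * C j l) • th k l) * (∑ k, ∑ l, (A k j * C i l) • th k l)
      = ∑ i, ∑ j, th i j * th j i := by
  have h1 : ∀ k l, ∑ i, A k i * C i l = if k = l then 1 else 0 := by
    intro k l
    rw [← Matrix.mul_apply, h, Matrix.one_apply]
  simp only [← Fintype.sum_prod_type' (f := fun k l => (_ : U))]
  calc ∑ p : ι × ι, (∑ s : ι × ι, (A s.1 p.1 * C p.2 s.2) • th s.1 s.2)
        * (∑ t : ι × ι, (A t.1 p.2 * C p.1 t.2) • th t.1 t.2)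
      = ∑ p : ι × ι, ∑ s : ι × ι, ∑ t : ι × ι,
        ((A s.1 p.1 * C p.1 t.2) * (A t.1 p.2 * C p.2 s.2)) • (th s.1 s.2 * th t.1 t.2) := by
        refine Finset.sum_congr rfl fun p _ => ?_
        rw [Finset.sum_mul]
        refine Finset.sum_congr rfl fun s _ => ?_
        rw [Finset.mul_sum]
        refine Finset.sum_congr rfl fun t _ => ?_
        rw [smul_mul_smul_comm]
        congr 1
        ring
    _ = ∑ s : ι × ι, ∑ t : ι × ι, ∑ p : ι × ι,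
        ((A s.1 p.1 * C p.1 t.2) * (A t.1 p.2 * C p.2 s.2)) • (th s.1 s.2 * th t.1 t.2) := by
        rw [Finset.sum_comm]
        refine Finset.sum_congr rfl fun s _ => ?_
        rw [Finset.sum_comm]
    _ = ∑ s : ι × ι, ∑ t : ι × ι,
        ((if s.1 = t.2 then 1 else 0) * (if t.1 = s.2 then 1 else 0) : K)
          • (th s.1 s.2 * th t.1 t.2) := by
        refine Finset.sum_congr rfl fun s _ => Finset.sum_congr rfl fun t _ => ?_
        rw [← Finset.sum_smul, Fintype.sum_prod_type, ← h1, ← h1, Finset.sum_mul_sum]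
    _ = ∑ s : ι × ι, th s.1 s.2 * th s.2 s.1 := by
        refine Finset.sum_congr rfl fun s _ => ?_
        rw [Finset.sum_eq_single (s.2, s.1)]
        · simp
        · rintro ⟨t1, t2⟩ _ ht
          by_cases h2 : s.1 = t2
          · by_cases h3 : t1 = s.2
            · subst h2 h3; exact absurd rfl ht
            · simp [h3]
          · simp [h2]
        · simp

theorem Dl_rhoX (A : Matrix.SpecialLinearGroup ι ℝ) (a : Matrix α ι ℝ) (f : CX 𝕜 α ι) :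
    Dl 𝕜 α ι (rhoX 𝕜 A a f) = rhoX 𝕜 A a (Dl 𝕜 α ι f) := by
  have hA := SL_mul_inv A
  set T : ι → ι → OpX 𝕜 α ι := fun i j =>
    ∑ k, ∑ l, (((A.1 k i : ℝ) : 𝕜) * (((A⁻¹).1 j l : ℝ) : 𝕜)) • thM 𝕜 α k l with hT
  have h1 : ∀ i j (g : CX 𝕜 α ι), thM 𝕜 α i j (rhoX 𝕜 A a g) = rhoX 𝕜 A a (T i j g) := by
    intro i j g
    rw [thM_rhoX, hT]
    simp only [Op.sum_apply, Op.smul_apply]
    congr 1
    refine Finset.sum_congr rfl fun k _ => Finset.sum_congr rfl fun l _ => ?_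
    push_cast
    rfl
  have h2 : ∑ i, ∑ j, T i j * T j i = Dl 𝕜 α ι := by
    have hAC : (A.1.map (algebraMap ℝ 𝕜)) * ((A⁻¹).1.map (algebraMap ℝ 𝕜)) = 1 := by
      rw [← Matrix.map_mul, hA]
      simp
    have := conj_sum (A.1.map (algebraMap ℝ 𝕜)) ((A⁻¹).1.map (algebraMap ℝ 𝕜)) hAC
      (thM 𝕜 α (ι := ι))
    rw [Dl, ← this]
    rfl
  conv_rhs => rw [← h2]
  rw [Dl]
  simp only [Op.sum_apply, Op.mul_apply, h1, map_sum]

theorem Qd_rhoX (A : Matrix.SpecialLinearGroup ι ℝ) (a : Matrix α ι ℝ) (b c : α)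
    (f : CX 𝕜 α ι) : Qd 𝕜 ι b c (rhoX 𝕜 A a f) = rhoX 𝕜 A a (Qd 𝕜 ι b c f) := by
  have h1 : ∀ i j, (mulM (cY i j) * (pM 𝕜 b i * pM 𝕜 c j) : OpX 𝕜 α ι) (rhoX 𝕜 A a f)
      = ∑ k, ∑ l, (((A.1 k i : ℝ) : 𝕜) * ((A.1 l j : ℝ) : 𝕜)) •
        (cY i j * rhoX 𝕜 A a (pM 𝕜 b k (pM 𝕜 c l f))) := by
    intro i j
    rw [Op.mul_apply, Op.mul_apply, pM_rhoX, pM_rhoX, mulM_apply]
    simp only [map_sum, map_smul, Finset.mul_sum, Finset.smul_sum, mul_smul_comm, smul_smul]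
  have h2 : ∀ k l, rhoX 𝕜 A a ((mulM (cY k l) * (pM 𝕜 b k * pM 𝕜 c l) : OpX 𝕜 α ι) f)
      = ∑ i, ∑ j, (((A.1 k i : ℝ) : 𝕜) * ((A.1 l j : ℝ) : 𝕜)) •
        (cY i j * rhoX 𝕜 A a (pM 𝕜 b k (pM 𝕜 c l f))) := by
    intro k l
    rw [Op.mul_apply, Op.mul_apply, mulM_apply, map_mul, cY_rhoX]
    simp only [Finset.sum_mul, smul_mul_assoc]
    push_cast
    rfl
  rw [Qd]
  simp only [Op.sum_apply, map_sum, h1, h2]
  -- reorder the sums
  rw [Finset.sum_congr rfl fun i _ => Finset.sum_comm]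
  rw [Finset.sum_comm]
  refine Finset.sum_congr rfl fun k _ => ?_
  have : ∀ i, (∑ j, ∑ l, (((A.1 k i : ℝ) : 𝕜) * ((A.1 l j : ℝ) : 𝕜)) •
        (cY i j * rhoX 𝕜 A a (pM 𝕜 b k (pM 𝕜 c l f))))
      = ∑ l, ∑ j, (((A.1 k i : ℝ) : 𝕜) * ((A.1 l j : ℝ) : 𝕜)) •
        (cY i j * rhoX 𝕜 A a (pM 𝕜 b k (pM 𝕜 c l f))) := fun i => Finset.sum_comm
  rw [Finset.sum_congr rfl fun i _ => this i, Finset.sum_comm]

theorem Dl_mem : Dl 𝕜 α ι ∈ DX 𝕜 α ι := by
  refine mem_DX.mpr ⟨?_, Dl_rhoX⟩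
  rw [← mem_DOs]
  exact sum_mem fun i _ => sum_mem fun j _ => mul_mem (IsDO_Th _) (IsDO_Th _)

theorem Qd_mem (b c : α) : Qd 𝕜 ι b c ∈ DX 𝕜 α ι := by
  refine mem_DX.mpr ⟨?_, fun A a f => Qd_rhoX A a b c f⟩
  rw [← mem_DOs]
  exact sum_mem fun i _ => sum_mem fun j _ =>
    mul_mem (IsDO_mulM _) (mul_mem (IsDO_Pm _) (IsDO_Pm _))

end Dl

end Pool.Agent.MP_5aa3e6_al
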