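import Mathlib
import Pool.Agent.MP_5aa3e6_al.Geo4

/-!
Invariant differential operators commute with the infinitesimal action.
-/

set_option linter.unusedSectionVars false

namespace Pool.Agent.MP_5aa3e6_al

open scoped ContDiff Manifold Topology

section SmMat

variable {E : Type*} [NormedAddCommGroup E] [NormedSpace ℝ E] {m n k : Type*}

/-- matrix valued functions with smooth entries -/
def SmMat (A : E → Matrix m n ℝ) : Prop := ∀ i j, ContDiff ℝ ∞ (fun x => A x i j)

theorem SmMat.const (A : Matrix m n ℝ) : SmMat (fun _ : E => A) := fun _ _ => contDiff_const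

theorem SmMat.mul [Fintype n] {A : E → Matrix m n ℝ} {B : E → Matrix n k ℝ} (hA : SmMat A)
    (hB : SmMat B) : SmMat (fun x => A x * B x) := by
  intro i j
  simp only [Matrix.mul_apply]
  exact ContDiff.sum fun l _ => (hA i l).mul (hB l j)

theorem SmMat.add {A B : E → Matrix m n ℝ} (hA : SmMat A) (hB : SmMat B) :
    SmMat (fun x => A x + B x) := fun i j => (hA i j).add (hB i j)

theorem SmMat.neg {A : E → Matrix m n ℝ} (hA : SmMat A) :
    SmMat (fun x => -(A x)) := fun i j => (hA i j).neg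

theorem SmMat.sub {A B : E → Matrix m n ℝ} (hA : SmMat A) (hB : SmMat B) :
    SmMat (fun x => A x - B x) := fun i j => (hA i j).sub (hB i j)

theorem SmMat.smul {A : E → Matrix m n ℝ} {c : E → ℝ} (hc : ContDiff ℝ ∞ c) (hA : SmMat A) :
    SmMat (fun x => c x • A x) := fun i j => hc.mul (hA i j)

theorem SmMat.transpose {A : E → Matrix m n ℝ} (hA : SmMat A) :
    SmMat (fun x => (A x).transpose) := fun i j => hA j i

theorem SmMat.contDiff_mE {α ι : Type*} [Fintype α] [DecidableEq α] [Fintype ι] [DecidableEq ι]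
    {A : E → Matrix ι ι ℝ} {B : E → Matrix α ι ℝ} (hA : SmMat A) (hB : SmMat B) :
    ContDiff ℝ ∞ (fun x => (mE (A x) (B x) : EX α ι)) := by
  have h1 : ContDiff ℝ ∞ (fun (x : E) (i j : ι) => A x i j) :=
    contDiff_pi.mpr fun i => contDiff_pi.mpr fun j => hA i j
  have h2 : ContDiff ℝ ∞ (fun (x : E) (i : α) (j : ι) => B x i j) :=
    contDiff_pi.mpr fun i => contDiff_pi.mpr fun j => hB i j
  exact h1.prodMk h2

end SmMat

section Gen

variable {𝕜 : Type*} [RCLike 𝕜] {E : Type*} [NormedAddCommGroup E] [NormedSpace ℝ E]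

theorem dd_pull_slice (gt : ℝ × E → E) (hgt : ContDiff ℝ ∞ gt) (F : SF 𝕜 E) (p D : E)
    (hD : HasDerivAt (fun t : ℝ => gt (t, p)) D 0) :
    (dd 𝕜 ((1 : ℝ), (0 : E)) (pull gt hgt F) : SF 𝕜 (ℝ × E)).1 (0, p)
      = fderiv ℝ (F : E → 𝕜) (gt (0, p)) D := by
  have h0 : HasDerivAt (fun t : ℝ => (t, p)) ((1 : ℝ), (0 : E)) 0 :=
    (hasDerivAt_id (0 : ℝ)).prodMk (hasDerivAt_const (0 : ℝ) p)
  have h1 : HasDerivAt (fun t : ℝ => (pull gt hgt F : SF 𝕜 (ℝ × E)).1 (t, p))
      ((dd 𝕜 ((1 : ℝ), (0 : E)) (pull gt hgt F) : SF 𝕜 (ℝ × E)).1 (0, p)) 0 :=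
    ((SF_differentiable (pull gt hgt F) (0, p)).hasFDerivAt).comp_hasDerivAt (0 : ℝ) h0
  have h2 : HasDerivAt (fun t : ℝ => (F : E → 𝕜) (gt (t, p)))
      (fderiv ℝ (F : E → 𝕜) (gt (0, p)) D) 0 :=
    ((SF_differentiable F (gt (0, p))).hasFDerivAt).comp_hasDerivAt (0 : ℝ) hD
  exact h1.unique h2

end Gen

section Comm

variable {α ι : Type*} [Fintype α] [DecidableEq α] [Fintype ι] [DecidableEq ι]
variable {𝕜 : Type*} [RCLike 𝕜]

/-- the unipotent one-parameter group `1 - t E_ij` -/
def unip (i j : ι) (hij : i ≠ j) (t : ℝ) : Matrix.SpecialLinearGroup ι ℝ :=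
  ⟨Matrix.transvection i j (-t), Matrix.det_transvection_of_ne i j hij _⟩

theorem DX_comm_eM [Nonempty ι] {D : OpX 𝕜 α ι} (hD : D ∈ DX 𝕜 α ι) (i j : ι) (hij : i ≠ j) :
    D * eM 𝕜 α i j = eM 𝕜 α i j * D := by
  obtain ⟨h1, h2⟩ := mem_DX.mp hD
  set G : ℝ → Matrix ι ι ℝ := fun t => Matrix.transvection i j (-t) with hG
  have hG' : ∀ t, G t = 1 + (-t) • Matrix.single i j (1 : ℝ) := by
    intro t
    rw [hG, Matrix.smul_single, smul_eq_mul, mul_one]
    rfl
  have hGs : SmMat (fun q : ℝ × EX α ι => G q.1) := by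
    intro k l
    simp only [hG', Matrix.add_apply, Matrix.smul_apply, smul_eq_mul]
    exact contDiff_const.add (contDiff_fst.neg.mul contDiff_const)
  have hYs : SmMat (fun q : ℝ × EX α ι => mY q.2) := by
    intro k l
    exact (lY α k l).contDiff.comp contDiff_snd
  have hVs : SmMat (fun q : ℝ × EX α ι => mV q.2) := by
    intro k l
    exact (lV k l).contDiff.comp contDiff_snd
  set gt : ℝ × EX α ι → EX α ι := fun q =>
    mE (G q.1 * mY q.2 * (G q.1).transpose) (mV q.2 * (G q.1).transpose) with hgt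
  have hgtc : ContDiff ℝ ∞ gt :=
    ((hGs.mul hYs).mul hGs.transpose).contDiff_mE (hVs.mul hGs.transpose)
  refine h1.comm_generator (g := fun t => act (unip i j hij t) 0) gt hgtc ?_
    (fun t => SMap_act _ _) ?_ ?_
  · intro t x
    rw [emX_act]
    apply EX_ext
    · rw [mY_actT]; rfl
    · rw [mV_actT, add_zero]; rfl
  · intro t f
    exact h2 _ _ f
  · intro F
    rw [eM, Em_res]
    ext x
    rw [res_apply, res_apply, slice_apply]
    open scoped Matrix.Norms.Elementwise in
    have hGd : HasDerivAt G (-Matrix.single i j (1 : ℝ)) 0 := by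
      have h := ((hasDerivAt_id (0 : ℝ)).neg.smul_const (Matrix.single i j (1 : ℝ))).const_add
        (1 : Matrix ι ι ℝ)
      rw [neg_one_smul] at h
      have h3 : G = fun t => 1 + (-t) • Matrix.single i j (1 : ℝ) := funext hG'
      rw [h3]
      exact h
    have hG0 : G 0 = 1 := by rw [hG']; simp
    have hd : HasDerivAt (fun t : ℝ => gt (t, emX x))
        (aY (Matrix.single i j 1) (emX x) + aV (Matrix.single i j 1) (emX x)) 0 := by
      open scoped Matrix.Norms.Elementwise in
      have h4 := hasDerivAt_matmul (hasDerivAt_matmul hGd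
        (hasDerivAt_const (0 : ℝ) (mY (emX x)))) (hasDerivAt_transpose hGd)
      have h5 := hasDerivAt_matmul (hasDerivAt_const (0 : ℝ) (mV (emX x)))
        (hasDerivAt_transpose hGd)
      refine (hasDerivAt_mE h4 h5).congr_deriv ?_
      apply EX_ext
      · rw [mY_mE, mY_add, mY_aY, mY_aV, hG0, Matrix.transpose_neg, Matrix.transpose_one,
          Matrix.trace_single_eq_of_ne i j 1 hij]
        simp
        abel
      · rw [mV_mE, mV_add, mV_aY, mV_aV, hG0, Matrix.transpose_neg, Matrix.transpose_one]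
        simp
    have h6 := dd_pull_slice (𝕜 := 𝕜) gt hgtc F (emX x) _ hd
    rw [h6]
    have h7 : gt (0, emX x) = emX x := by
      rw [hgt]
      apply EX_ext
      · simp [hG0]
      · simp [hG0]
    rw [h7]
    rfl

theorem DX_comm_Pm {D : OpX 𝕜 α ι} (hD : D ∈ DX 𝕜 α ι) (W : Matrix α ι ℝ) :
    D * Pm W = Pm W * D := by
  obtain ⟨h1, h2⟩ := mem_DX.mp hD
  have hYs : SmMat (fun q : ℝ × EX α ι => mY q.2) := by
    intro k l
    exact (lY α k l).contDiff.comp contDiff_snd
  have hVs : SmMat (fun q : ℝ × EX α ι => mV q.2) := by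
    intro k l
    exact (lV k l).contDiff.comp contDiff_snd
  set gt : ℝ × EX α ι → EX α ι := fun q => mE (mY q.2) (mV q.2 + q.1 • W) with hgt
  have hgtc : ContDiff ℝ ∞ gt :=
    hYs.contDiff_mE (hVs.add ((SmMat.const W).smul contDiff_fst))
  refine h1.comm_generator (g := fun t => act 1 (t • W)) gt hgtc ?_
    (fun t => SMap_act _ _) ?_ ?_
  · intro t x
    rw [emX_act]
    apply EX_ext
    · rw [mY_actT]; simp [hgt]
    · rw [mV_actT]; simp [hgt]
  · intro t f
    exact h2 _ _ f
  · intro F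
    rw [Pm_res]
    ext x
    rw [res_apply, res_apply, slice_apply]
    have hd : HasDerivAt (fun t : ℝ => gt (t, emX x)) (mE 0 W) 0 := by
      open scoped Matrix.Norms.Elementwise in
      have h := ((hasDerivAt_id (0 : ℝ)).smul_const W).const_add (mV (emX x))
      rw [one_smul] at h
      exact hasDerivAt_mE (hasDerivAt_const (0 : ℝ) (mY (emX x))) h
    have h6 := dd_pull_slice (𝕜 := 𝕜) gt hgtc F (emX x) _ hd
    rw [h6]
    have h7 : gt (0, emX x) = emX x := by
      rw [hgt]
      apply EX_ext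
      · simp
      · simp
    rw [h7]
    rfl

/-- the infinitesimal action of the traceless matrices `E_ij - δ_ij/n` -/
noncomputable def e0M (𝕜 : Type*) [RCLike 𝕜] (α : Type*) [Fintype α] [DecidableEq α]
    {ι : Type*} [Fintype ι] [DecidableEq ι] [Nonempty ι] (i j : ι) : OpX 𝕜 α ι :=
  eM 𝕜 α i j - if i = j then (((Fintype.card ι : ℝ)⁻¹ : ℝ) : 𝕜) • Em 1 else 0

theorem DX_comm_e0M [Nonempty ι] {D : OpX 𝕜 α ι} (hD : D ∈ DX 𝕜 α ι) (i j : ι) :
    D * e0M 𝕜 α i j = e0M 𝕜 α i j * D := by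
  by_cases hij : i = j
  · subst hij
    have h1 : ∀ j, D * (eM 𝕜 α i i - eM 𝕜 α j j) = (eM 𝕜 α i i - eM 𝕜 α j j) * D := by
      intro j
      by_cases hij : i = j
      · subst hij; simp
      · have h2 := (glRel (𝕜 := 𝕜) (α := α) (ι := ι)).EE i j j i
        rw [if_pos rfl, if_pos rfl] at h2
        rw [← h2]
        have h3 := DX_comm_eM hD i j hij
        have h4 := DX_comm_eM hD j i (Ne.symm hij)
        rw [mul_sub, sub_mul, ← mul_assoc, ← mul_assoc, h3, h4, mul_assoc, mul_assoc, h3, h4]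
        simp only [mul_assoc]
    have h2 : e0M 𝕜 α i i = (((Fintype.card ι : ℝ)⁻¹ : ℝ) : 𝕜) •
        ∑ j, (eM 𝕜 α i i - eM 𝕜 α j j) := by
      rw [Finset.sum_sub_distrib, Finset.sum_const, Finset.card_univ, smul_sub, e0M, if_pos rfl]
      have h5 : ∑ j, eM 𝕜 α j j = (Em 1 : OpX 𝕜 α ι) := by
        simp only [eM]
        rw [← Em_sum]
        congr 1
        ext a b
        rw [Matrix.sum_apply, Matrix.one_apply]
        simp only [Matrix.single_apply]
        by_cases hab : a = b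
        · subst hab; simp
        · rw [if_neg hab]
          refine Finset.sum_eq_zero fun c _ => if_neg ?_
          rintro ⟨rfl, rfl⟩
          exact hab rfl
      rw [h5]
      congr 1
      have hn : (Fintype.card ι : 𝕜) ≠ 0 := by exact_mod_cast Fintype.card_ne_zero
      rw [← Nat.cast_smul_eq_nsmul 𝕜, smul_smul]
      push_cast
      rw [inv_mul_cancel₀ hn, one_smul]
    rw [h2, mul_smul_comm, smul_mul_assoc, Finset.mul_sum, Finset.sum_mul]
    congr 1
    exact Finset.sum_congr rfl fun j _ => h1 j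
  · rw [e0M, if_neg hij, sub_zero]
    exact DX_comm_eM hD i j hij

end Comm

end Pool.Agent.MP_5aa3e6_al
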