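import Mathlib
import Pool.Agent.MP_5aa3e6_al.Col1
import Pool.Agent.MP_5aa3e6_al.Geo5

/-!
The operators `D_I`: invariance, centrality.
-/

set_option linter.unusedSectionVars false

namespace Pool.Agent.MP_5aa3e6_al

open scoped ContDiff Manifold Topology

section Gen

variable {ι : Type*} [Fintype ι] [DecidableEq ι] {U : Type*} [Ring U] {α : Type*}

theorem cdet_mem {K : Type*} [Field K] [Algebra K U] (S : Subalgebra K U) {n : ℕ}
    {v : Fin n → Fin n → U} (h : ∀ i j, v i j ∈ S) : cdet v ∈ S := by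
  rw [cdet]
  refine sum_mem fun σ _ => ?_
  refine zsmul_mem ?_ _
  apply Subalgebra.list_prod_mem
  intro x hx
  rw [List.mem_ofFn] at hx
  obtain ⟨j, rfl⟩ := hx
  exact h _ _

theorem colVec_mem {K : Type*} [Field K] [Algebra K U] (S : Subalgebra K U)
    {E : ι → ι → U} {P : α → ι → U} (hE : ∀ i j, E i j ∈ S) (hP : ∀ a i, P a i ∈ S)
    (a : α) (k : ℕ) : ∀ i, colVec E P a k i ∈ S := by
  induction k with
  | zero => exact hP a
  | succ k ih =>
    intro i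
    exact sum_mem fun j _ => mul_mem (hE i j) (ih j)

theorem dI_mem {K : Type*} [Field K] [Algebra K U] (S : Subalgebra K U) {m q r : ℕ}
    {E : ι → ι → U} {P : Fin m → ι → U} (hE : ∀ i j, E i j ∈ S) (hP : ∀ a i, P a i ∈ S)
    (ε : Fin (q * m + r) ≃ ι) (I : Fin r → Fin m) : dI (colVec E P) ε I ∈ S :=
  cdet_mem S fun _ _ => colVec_mem S hE hP _ _ _

theorem colVec_mem_lowV {E : ι → ι → U} {P : α → ι → U} {a : α} {k : ℕ} {u : ι → U}
    (h : u - colVec E P a k ∈ lowV E P k) : u ∈ lowV E P (k + 1) := by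
  have h1 : colVec E P a k ∈ lowV E P (k + 1) := by
    apply AddSubgroup.subset_closure
    exact ⟨a, k, 1, by omega, by funext i; rw [mul_one]⟩
  have h2 := add_mem (lowV_mono (Nat.le_succ k) h) h1
  simpa using h2

end Gen

section Ops

variable {m : ℕ} {ι : Type*} [Fintype ι] [DecidableEq ι] [Nonempty ι]
variable {𝕜 : Type*} [RCLike 𝕜]

/-- the operator `D_I` -/
noncomputable def DI (𝕜 : Type*) [RCLike 𝕜] {m q r : ℕ} {ι : Type*} [Fintype ι] [DecidableEq ι]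
    [Nonempty ι] (ε : Fin (q * m + r) ≃ ι) (I : Fin r → Fin m) : OpX 𝕜 (Fin m) ι :=
  dI (colVec (thM 𝕜 (Fin m)) (pM 𝕜)) ε I

theorem pM_mulM (a b : Fin m) (i j : ι) :
    (pM 𝕜 a i * mulM (cV b j) : OpX 𝕜 (Fin m) ι)
      = mulM (cV b j) * pM 𝕜 a i + if a = b ∧ i = j then 1 else 0 := by
  apply Op.ext
  intro f
  rw [Op.mul_apply, Op.add_apply, Op.mul_apply, mulM_apply, mulM_apply, pM, Pm_mul, Pm_cV,
    Matrix.single_apply, add_comm]
  congr 1
  split_ifs with h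
  · simp
  · simp

theorem low_th (a : Fin m) (k : ℕ) :
    colVec (thM 𝕜 (Fin m) (ι := ι)) (pM 𝕜) a k - colVec (eM 𝕜 (Fin m)) (pM 𝕜) a k
      ∈ lowV (eM 𝕜 (Fin m) (ι := ι)) (pM 𝕜) k := by
  refine mem_lowV_of_step (u := colVec (thM 𝕜 (Fin m) (ι := ι)) (pM 𝕜)) (fun a => rfl) ?_ a k
  intro a k hk
  set v := colVec (thM 𝕜 (Fin m) (ι := ι)) (pM 𝕜) a k with hv
  have h1 : colVec (thM 𝕜 (Fin m) (ι := ι)) (pM 𝕜) a (k + 1) - opVec (eM 𝕜 (Fin m)) v
      = (∑ b, fun i => colVec (eM 𝕜 (Fin m)) (pM 𝕜) b 0 i * (∑ j, mulM (cV b j) * v j))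
        - m • v := by
    funext i
    have h2 : ∀ j, thM 𝕜 (Fin m) i j * v j - eM 𝕜 (Fin m) i j * v j
        = ∑ b, pM 𝕜 b i * (mulM (cV b j) * v j) - if i = j then m • v j else 0 := by
      intro j
      rw [← sub_mul, eM_eq, sub_sub_cancel, Finset.sum_mul]
      have h3 : ∀ b, mulM (cV b j) * pM 𝕜 b i * v j
          = pM 𝕜 b i * (mulM (cV b j) * v j) - if i = j then v j else 0 := by
        intro b
        have h4 := pM_mulM (𝕜 := 𝕜) b b i j
        rw [← mul_assoc, h4]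
        by_cases hij : i = j
        · simp [hij, add_mul]
        · simp [hij]
      rw [Finset.sum_congr rfl fun b _ => h3 b, Finset.sum_sub_distrib]
      congr 1
      split_ifs
      · rw [Finset.sum_const, Finset.card_univ, Fintype.card_fin]
      · simp
    have h5 : (colVec (thM 𝕜 (Fin m) (ι := ι)) (pM 𝕜) a (k + 1) - opVec (eM 𝕜 (Fin m)) v) i
        = ∑ j, (thM 𝕜 (Fin m) i j * v j - eM 𝕜 (Fin m) i j * v j) := by
      rw [Finset.sum_sub_distrib]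
      rfl
    rw [h5, Finset.sum_congr rfl fun j _ => h2 j, Finset.sum_sub_distrib, Finset.sum_comm]
    simp only [Pi.sub_apply, Finset.sum_apply, Finset.mul_sum, Finset.sum_ite_eq,
      Finset.mem_univ, if_true, Pi.smul_apply]
    rfl
  rw [h1]
  refine sub_mem (sum_mem fun b _ => AddSubgroup.subset_closure ⟨b, 0, _, by omega, rfl⟩) ?_
  exact nsmul_mem (colVec_mem_lowV hk) _

theorem Em_one : (Em 1 : OpX 𝕜 (Fin m) ι) = ∑ j, eM 𝕜 (Fin m) j j := by
  simp only [eM]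
  rw [← Em_sum]
  congr 1
  ext a b
  rw [Matrix.sum_apply, Matrix.one_apply]
  simp only [Matrix.single_apply]
  by_cases hab : a = b
  · subst hab; simp
  · rw [if_neg hab]
    symm
    refine Finset.sum_eq_zero fun c _ => if_neg ?_
    rintro ⟨rfl, rfl⟩
    exact hab rfl

theorem Em_one_colVec (a : Fin m) (k : ℕ) (i : ι) :
    (Em 1 : OpX 𝕜 (Fin m) ι) * colVec (eM 𝕜 (Fin m)) (pM 𝕜) a k i
      = colVec (eM 𝕜 (Fin m)) (pM 𝕜) a k i * Em 1 + colVec (eM 𝕜 (Fin m)) (pM 𝕜) a k i := by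
  rw [Em_one, Finset.sum_mul, Finset.mul_sum]
  have h := fun j => (glRel (𝕜 := 𝕜) (α := Fin m) (ι := ι)).colVec_comm a k j j i
  have h2 : ∑ j, eM 𝕜 (Fin m) j j * colVec (eM 𝕜 (Fin m)) (pM 𝕜) a k i
      - ∑ j, colVec (eM 𝕜 (Fin m)) (pM 𝕜) a k i * eM 𝕜 (Fin m) j j
      = colVec (eM 𝕜 (Fin m)) (pM 𝕜) a k i := by
    rw [← Finset.sum_sub_distrib, Finset.sum_congr rfl fun j _ => h j]
    simp
  have h3 := sub_eq_iff_eq_add.mp h2
  rw [h3, add_comm]

theorem low_e0 (a : Fin m) (k : ℕ) :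
    colVec (e0M 𝕜 (Fin m) (ι := ι)) (pM 𝕜) a k - colVec (eM 𝕜 (Fin m)) (pM 𝕜) a k
      ∈ lowV (eM 𝕜 (Fin m) (ι := ι)) (pM 𝕜) k := by
  refine mem_lowV_of_step (u := colVec (e0M 𝕜 (Fin m) (ι := ι)) (pM 𝕜)) (fun a => rfl) ?_ a k
  intro a k hk
  set v := colVec (e0M 𝕜 (Fin m) (ι := ι)) (pM 𝕜) a k with hv
  set X : OpX 𝕜 (Fin m) ι := (((Fintype.card ι : ℝ)⁻¹ : ℝ) : 𝕜) • Em 1 with hX
  have h1 : colVec (e0M 𝕜 (Fin m) (ι := ι)) (pM 𝕜) a (k + 1) - opVec (eM 𝕜 (Fin m)) v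
      = - fun i => X * v i := by
    funext i
    have h5 : (colVec (e0M 𝕜 (Fin m) (ι := ι)) (pM 𝕜) a (k + 1) - opVec (eM 𝕜 (Fin m)) v) i
        = ∑ j, (e0M 𝕜 (Fin m) i j * v j - eM 𝕜 (Fin m) i j * v j) := by
      rw [Finset.sum_sub_distrib]
      rfl
    rw [h5]
    have h6 : ∀ j, e0M 𝕜 (Fin m) i j * v j - eM 𝕜 (Fin m) i j * v j
        = if i = j then -(X * v j) else 0 := by
      intro j
      rw [← sub_mul, e0M]
      split_ifs
      · rw [sub_sub_cancel_left, neg_mul]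
      · rw [sub_zero, sub_self, zero_mul]
    rw [Finset.sum_congr rfl fun j _ => h6 j]
    simp
  rw [h1]
  refine neg_mem ?_
  have h2 : ∀ w ∈ lowV (eM 𝕜 (Fin m) (ι := ι)) (pM 𝕜) (k + 1),
      (fun i => X * w i) ∈ lowV (eM 𝕜 (Fin m) (ι := ι)) (pM 𝕜) (k + 1) := by
    intro w hw
    induction hw using AddSubgroup.closure_induction with
    | mem w hw =>
      obtain ⟨b, s, κ, hs, rfl⟩ := hw
      apply AddSubgroup.subset_closure
      refine ⟨b, s, (X + algebraMap 𝕜 _ (((Fintype.card ι : ℝ)⁻¹ : ℝ) : 𝕜)) * κ, hs, ?_⟩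
      funext i
      rw [← mul_assoc, ← mul_assoc, mul_add, hX, smul_mul_assoc, Em_one_colVec,
        mul_smul_comm, smul_add, ← Algebra.commutes, ← Algebra.smul_def]
    | zero => simp only [Pi.zero_apply, mul_zero]; exact zero_mem _
    | add x y _ _ hx hy =>
      simp only [Pi.add_apply, mul_add]; exact add_mem hx hy
    | neg x _ hx => simp only [Pi.neg_apply, mul_neg]; exact neg_mem hx
  exact h2 _ (colVec_mem_lowV hk)

theorem DI_eq_e {q r : ℕ} (ε : Fin (q * m + r) ≃ ι) (I : Fin r → Fin m) :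
    DI 𝕜 ε I = dI (colVec (eM 𝕜 (Fin m)) (pM 𝕜)) ε I :=
  dI_congr 𝕜 glRel _ low_th ε I

theorem DI_eq_e0 {q r : ℕ} (ε : Fin (q * m + r) ≃ ι) (I : Fin r → Fin m) :
    DI 𝕜 ε I = dI (colVec (e0M 𝕜 (Fin m)) (pM 𝕜)) ε I := by
  rw [DI_eq_e]
  exact (dI_congr 𝕜 glRel _ low_e0 ε I).symm

/-- elements of `𝔻` commute with `D_I` -/
theorem DI_comm {q r : ℕ} (ε : Fin (q * m + r) ≃ ι) (I : Fin r → Fin m)
    {D : OpX 𝕜 (Fin m) ι} (hD : D ∈ DX 𝕜 (Fin m) ι) : D * DI 𝕜 ε I = DI 𝕜 ε I * D := by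
  have h : DI 𝕜 ε I ∈ Subalgebra.centralizer 𝕜 {D} := by
    rw [DI_eq_e0]
    apply dI_mem
    · intro i j
      rw [Subalgebra.mem_centralizer_iff]
      intro g hg
      rw [Set.mem_singleton_iff.mp hg]
      exact DX_comm_e0M hD i j
    · intro a i
      rw [Subalgebra.mem_centralizer_iff]
      intro g hg
      rw [Set.mem_singleton_iff.mp hg]
      exact DX_comm_Pm hD _
  exact Subalgebra.mem_centralizer_iff 𝕜 |>.mp h D rfl

theorem colVec_rhoX (A : Matrix.SpecialLinearGroup ι ℝ) (a : Matrix (Fin m) ι ℝ) (b : Fin m)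
    (k : ℕ) : ∀ (i : ι) (f : CX 𝕜 (Fin m) ι),
      colVec (thM 𝕜 (Fin m)) (pM 𝕜) b k i (rhoX 𝕜 A a f)
        = rhoX 𝕜 A a (∑ l, ((A.1 l i : ℝ) : 𝕜) • colVec (thM 𝕜 (Fin m)) (pM 𝕜) b k l f) := by
  induction k with
  | zero => intro i f; exact pM_rhoX A a b i f
  | succ k ih =>
    intro i f
    have h0 : ∀ (i : ι) (g : CX 𝕜 (Fin m) ι), colVec (thM 𝕜 (Fin m)) (pM 𝕜) b (k + 1) i g
        = ∑ j, thM 𝕜 (Fin m) i j (colVec (thM 𝕜 (Fin m)) (pM 𝕜) b k j g) := by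
      intro i g
      simp only [colVec, opVec, Op.sum_apply, Op.mul_apply]
    rw [h0]
    simp only [ih, thM_rhoX]
    rw [← map_sum]
    congr 1
    simp only [h0, map_sum, map_smul, Finset.smul_sum, smul_smul]
    -- both sides are sums over p, q, (l, j)
    set c : ι → CX 𝕜 (Fin m) ι := fun l => colVec (thM 𝕜 (Fin m)) (pM 𝕜) b k l f with hc
    rw [Finset.sum_comm]
    refine Finset.sum_congr rfl fun p _ => ?_
    rw [Finset.sum_comm]
    refine Finset.sum_congr rfl fun x _ => ?_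
    rw [Finset.sum_comm]
    simp only [← Finset.sum_smul]
    have h1 : ∀ l, ∑ j, (((A.1 p i * (A⁻¹).1 j x : ℝ) : 𝕜) * ((A.1 l j : ℝ) : 𝕜))
        = ((A.1 p i : ℝ) : 𝕜) * if l = x then 1 else 0 := by
      intro l
      have h2 : ∑ j, A.1 l j * (A⁻¹).1 j x = if l = x then 1 else 0 := by
        rw [← Matrix.mul_apply, SL_mul_inv, Matrix.one_apply]
      have h3 : ((∑ j, A.1 l j * (A⁻¹).1 j x : ℝ) : 𝕜) = if l = x then 1 else 0 := by
        rw [h2]; split_ifs <;> simp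
      rw [← h3]
      push_cast
      rw [Finset.mul_sum]
      exact Finset.sum_congr rfl fun j _ => by ring
    simp only [h1, mul_ite, mul_one, mul_zero, ite_smul, zero_smul, Finset.sum_ite_eq',
      Finset.sum_ite_eq, Finset.mem_univ, if_true]

theorem ofFn_prod_rhoX (A : Matrix.SpecialLinearGroup ι ℝ) (a : Matrix (Fin m) ι ℝ) {n : ℕ}
    (x y : Fin n → OpX 𝕜 (Fin m) ι)
    (h : ∀ j f, x j (rhoX 𝕜 A a f) = rhoX 𝕜 A a (y j f)) (f : CX 𝕜 (Fin m) ι) :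
    (List.ofFn x).prod (rhoX 𝕜 A a f) = rhoX 𝕜 A a ((List.ofFn y).prod f) := by
  induction n with
  | zero => simp
  | succ n ih =>
    rw [List.ofFn_succ, List.prod_cons, List.ofFn_succ, List.prod_cons, Op.mul_apply,
      ih (fun j => x j.succ) (fun j => y j.succ) (fun j => h j.succ), h, Op.mul_apply]

theorem DI_mem {q r : ℕ} (ε : Fin (q * m + r) ≃ ι) (I : Fin r → Fin m) :
    DI 𝕜 ε I ∈ DX 𝕜 (Fin m) ι := by
  refine mem_DX.mpr ⟨?_, fun A a f => ?_⟩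
  · rw [← mem_DOs]
    exact dI_mem _ (fun i j => IsDO_Th _) (fun a i => IsDO_Pm _) ε I
  · set v : Fin (q * m + r) → Fin (q * m + r) → OpX 𝕜 (Fin m) ι := fun j i =>
      colVec (thM 𝕜 (Fin m)) (pM 𝕜) (colI I j).1 (colI I j).2 (ε i) with hv
    have h1 : DI 𝕜 ε I = cdet v := rfl
    have h2 : cdet v (rhoX 𝕜 A a f)
        = rhoX 𝕜 A a (cdet (fun j i => ∑ l, ((A.1 (ε l) (ε i) : ℝ) : 𝕜) • v j l) f) := by
      rw [cdet, cdet, Op.sum_apply, Op.sum_apply, map_sum]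
      refine Finset.sum_congr rfl fun σ _ => ?_
      have h3 := ofFn_prod_rhoX A a (fun j => v j (σ j))
        (fun j => ∑ l, ((A.1 (ε l) (ε (σ j)) : ℝ) : 𝕜) • v j l) (fun j g => by
          rw [hv]
          simp only
          rw [colVec_rhoX, ← ε.sum_comp]
          simp only [Op.sum_apply, Op.smul_apply]) f
      have h4 : ∀ (z : ℤ) (D : OpX 𝕜 (Fin m) ι) (g : CX 𝕜 (Fin m) ι), (z • D) g = z • (D g) :=
        fun z D g => rfl
      rw [h4, h4, h3, map_zsmul]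
    have h5 : cdet (fun j i => ∑ l, ((A.1 (ε l) (ε i) : ℝ) : 𝕜) • v j l) = cdet v := by
      have h6 := cdet_conj ((A.1.submatrix ε ε).map (algebraMap ℝ 𝕜)) v
      have h7 : ((A.1.submatrix ε ε).map (algebraMap ℝ 𝕜)).det = 1 := by
        have h8 := RingHom.map_det (algebraMap ℝ 𝕜) (A.1.submatrix ε ε)
        rw [RingHom.mapMatrix_apply] at h8
        rw [← h8, Matrix.det_submatrix_equiv_self, A.2, map_one]
      rw [h7, one_smul] at h6
      exact h6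
    rw [h1, h2, h5]

end Ops

end Pool.Agent.MP_5aa3e6_al
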