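import Mathlib
import Pool.Agent.MP_5aa3e6_al.Geo5

/-!
Partial Fourier transform in the `V`-variable: the operators `D_ξ` on `P_ι`.
-/

set_option linter.unusedSectionVars false

namespace Pool.Agent.MP_5aa3e6_al

open scoped ContDiff Manifold Topology

section Curve

variable {α ι α' ι' : Type*} [Fintype α] [DecidableEq α] [Fintype ι] [DecidableEq ι] [Nonempty ι]
  [Fintype α'] [DecidableEq α'] [Fintype ι'] [DecidableEq ι'] [Nonempty ι']
variable {𝕜 : Type*} [RCLike 𝕜]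

/-- comparison of derivatives along corresponding curves -/
theorem pb_curve {φ : XX α ι → XX α' ι'} (h : SMap emX emX φ) (f : CX 𝕜 α' ι')
    {Z : ℝ → Matrix ι ι ℝ} (hZ : ∀ s, (Z s).PosDef)
    {V : ℝ → Matrix α ι ℝ} {B Z' : Matrix ι ι ℝ} {V' : Matrix α ι ℝ} {t : ℝ} {x : XX α ι}
    (hx : mkX (Z t) (hZ t) (V t) = x)
    (hZ' : ∀ i j, HasDerivAt (fun s => Z s i j) (Z' i j) t)
    (hB : Z' = B * Z t + Z t * B.transpose)
    (hV : ∀ a i, HasDerivAt (fun s => V s a i) (V' a i) t)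
    {W : ℝ → Matrix ι' ι' ℝ} (hW : ∀ s, (W s).PosDef)
    {U : ℝ → Matrix α' ι' ℝ} {C W' : Matrix ι' ι' ℝ} {U' : Matrix α' ι' ℝ} {y : XX α' ι'}
    (hy : φ x = y)
    (hφ : ∀ s, φ (mkX (Z s) (hZ s) (V s)) = mkX (W s) (hW s) (U s))
    (hW' : ∀ i j, HasDerivAt (fun s => W s i j) (W' i j) t)
    (hC : W' = C * W t + W t * C.transpose)
    (hU : ∀ a i, HasDerivAt (fun s => U s a i) (U' a i) t) :
    -(Th B (pb 𝕜 h f)).1 x + (Pm V' (pb 𝕜 h f)).1 x = -(Th C f).1 y + (Pm U' f).1 y := by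
  have h1 := KL' (pb 𝕜 h f) hZ hx hZ' hB hV
  have h2 : mkX (W t) (hW t) (U t) = y := by rw [← hφ, hx, hy]
  have h3 := KL' f hW h2 hW' hC hU
  have h4 : (fun s => (pb 𝕜 h f).1 (mkX (Z s) (hZ s) (V s)))
      = fun s => f.1 (mkX (W s) (hW s) (U s)) := by
    funext s
    rw [pb_apply, hφ]
  rw [h4] at h1
  exact h1.unique h3

/-- the standard curve with velocity `-(B Y + Y Bᵗ)` -/
def crv (B Y : Matrix ι ι ℝ) (s : ℝ) : Matrix ι ι ℝ :=
  (1 - s • B) * Y * (1 - s • B).transpose + (s ^ 2) • Y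

omit [Nonempty ι] in
theorem crv_posDef (B : Matrix ι ι ℝ) {Y : Matrix ι ι ℝ} (hY : Y.PosDef) (s : ℝ) :
    (crv B Y s).PosDef := by
  by_cases hs : s = 0
  · subst hs
    simpa [crv] using hY
  · have h1 : ((1 - s • B) * Y * (1 - s • B).transpose).PosSemidef := by
      have := hY.posSemidef.mul_mul_conjTranspose_same (1 - s • B)
      rwa [Matrix.conjTranspose_eq_transpose_of_trivial] at this
    have h2 : ((s ^ 2) • Y).PosDef := hY.smul (by positivity)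
    exact Matrix.PosDef.posSemidef_add h1 h2

omit [Nonempty ι] in
theorem crv_zero (B Y : Matrix ι ι ℝ) : crv B Y 0 = Y := by simp [crv]

omit [Nonempty ι] in
theorem hasDerivAt_crv (B Y : Matrix ι ι ℝ) (i j : ι) :
    HasDerivAt (fun s => crv B Y s i j) ((-(B * Y + Y * B.transpose)) i j) 0 := by
  have h1 : ∀ s : ℝ, crv B Y s i j = Y i j + s * (-(B * Y + Y * B.transpose)) i j
      + s ^ 2 * (B * Y * B.transpose + Y) i j := by
    intro s
    have : crv B Y s = Y + s • (-(B * Y + Y * B.transpose)) + s ^ 2 • (B * Y * B.transpose + Y) := by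
      simp only [crv, Matrix.transpose_sub, Matrix.transpose_one, Matrix.transpose_smul,
        Matrix.sub_mul, Matrix.mul_sub, Matrix.one_mul, Matrix.mul_one, Matrix.smul_mul,
        Matrix.mul_smul, smul_smul, smul_add, smul_neg, smul_sub]
      rw [pow_two]
      abel
    rw [this]
    rfl
  simp only [h1]
  have h2 := (((hasDerivAt_id (0 : ℝ)).mul_const ((-(B * Y + Y * B.transpose)) i j)).const_add
    (Y i j)).add (((hasDerivAt_pow 2 (0 : ℝ))).mul_const ((B * Y * B.transpose + Y) i j))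
  refine h2.congr_deriv ?_
  simp

/-- derivative of a function along the standard curve -/
theorem KLc (f : CX 𝕜 α ι) (B : Matrix ι ι ℝ) (W : Matrix α ι ℝ) (x : XX α ι) :
    HasDerivAt (fun s => f.1 (mkX (crv B x.1.1 s) (crv_posDef B x.1.2.1 s) (x.2 + s • W)))
      ((Th B f).1 x + (Pm W f).1 x) 0 := by
  have h1 := KL' f (crv_posDef B x.1.2.1) (V := fun s => x.2 + s • W) (t := 0) (x := x)
    (B := -B) (Z' := -(B * x.1.1 + x.1.1 * B.transpose)) (V' := W) ?_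
    (hasDerivAt_crv B x.1.1) ?_ ?_
  · rw [Th_neg] at h1
    refine h1.congr_deriv ?_
    congr 1
    change -(-(Th B f).1 x) = _
    rw [neg_neg]
  · simp only [crv_zero, zero_smul, add_zero]
    exact mkX_eq x
  · rw [crv_zero, Matrix.transpose_neg, Matrix.neg_mul, Matrix.mul_neg]
    abel
  · intro a i
    have h := ((hasDerivAt_id (0 : ℝ)).mul_const (W a i)).const_add (x.2 a i)
    rw [one_mul] at h
    exact h

/-- pull-back formula -/
theorem pb_curve_crv {φ : XX α ι → XX α' ι'} (h : SMap emX emX φ) (f : CX 𝕜 α' ι')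
    (B : Matrix ι ι ℝ) (V' : Matrix α ι ℝ) (x : XX α ι)
    {W : ℝ → Matrix ι' ι' ℝ} (hW : ∀ s, (W s).PosDef)
    {U : ℝ → Matrix α' ι' ℝ} {C W' : Matrix ι' ι' ℝ} {U' : Matrix α' ι' ℝ} {y : XX α' ι'}
    (hy : φ x = y)
    (hφ : ∀ s, φ (mkX (crv B x.1.1 s) (crv_posDef B x.1.2.1 s) (x.2 + s • V'))
      = mkX (W s) (hW s) (U s))
    (hW' : ∀ i j, HasDerivAt (fun s => W s i j) (W' i j) 0)
    (hC : W' = -(C * W 0 + W 0 * C.transpose))
    (hU : ∀ a i, HasDerivAt (fun s => U s a i) (U' a i) 0) :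
    (Th B (pb 𝕜 h f)).1 x + (Pm V' (pb 𝕜 h f)).1 x = (Th C f).1 y + (Pm U' f).1 y := by
  have h1 := KLc (pb 𝕜 h f) B V' x
  have h2 : mkX (W 0) (hW 0) (U 0) = y := by
    rw [← hφ, ← hy]
    simp only [crv_zero, zero_smul, add_zero]
    exact congrArg φ (mkX_eq x)
  have h3 := KL' f hW (B := -C) h2 hW' (by
    rw [hC, Matrix.transpose_neg, Matrix.neg_mul, Matrix.mul_neg]; abel) hU
  have h4 : (fun s => (pb 𝕜 h f).1 (mkX (crv B x.1.1 s) (crv_posDef B x.1.2.1 s) (x.2 + s • V')))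
      = fun s => f.1 (mkX (W s) (hW s) (U s)) := by
    funext s
    rw [pb_apply, hφ]
  rw [h4] at h1
  have h5 := h1.unique h3
  rw [h5, Th_neg]
  congr 1
  change -(-(Th C f).1 y) = _
  rw [neg_neg]

end Curve

section J

variable {α ι : Type*} [Fintype α] [DecidableEq α] [Fintype ι] [DecidableEq ι]
variable {𝕜 : Type*} [RCLike 𝕜]

/-- the projection `(Y, V) ↦ Y` -/
def prY (x : XX α ι) : XX Empty ι := (x.1, 0)

/-- the section `Y ↦ (Y, 0)` -/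
def inY (α : Type*) [Fintype α] {ι : Type*} [Fintype ι] [DecidableEq ι] (x : XX Empty ι) :
    XX α ι := (x.1, 0)

theorem prY_inY (x : XX Empty ι) : prY (inY α x) = x := by
  apply Prod.ext
  · rfl
  · ext a; exact a.elim

theorem SmMat_mY : SmMat (fun p : EX α ι => mY p) := fun i j => (lY α i j).contDiff

theorem SmMat_mV : SmMat (fun p : EX α ι => mV p) := fun i j => (lV i j).contDiff

theorem SMap_prY : SMap (emX : XX α ι → EX α ι) emX prY :=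
  ⟨fun p => mE (mY p) 0, SmMat_mY.contDiff_mE (SmMat.const _), fun _ => rfl⟩

theorem SMap_inY : SMap emX (emX : XX α ι → EX α ι) (inY α) :=
  ⟨fun p => mE (mY p) 0, SmMat_mY.contDiff_mE (SmMat.const _), fun _ => rfl⟩

/-- the linear form `(Y, V) ↦ ⟨ξ, V⟩` -/
noncomputable def lxi (ξ : Matrix α ι ℝ) : EX α ι →L[ℝ] ℝ :=
  ∑ k : α × ι, ξ k.1 k.2 • lV k.1 k.2

theorem lxi_apply (ξ : Matrix α ι ℝ) (p : EX α ι) :
    lxi ξ p = (ξ * (mV p).transpose).trace := by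
  rw [lxi]
  simp only [ContinuousLinearMap.sum_apply, ContinuousLinearMap.smul_apply, lV_apply,
    Fintype.sum_prod_type, Matrix.trace, Matrix.diag, Matrix.mul_apply, Matrix.transpose_apply,
    smul_eq_mul]

/-- the exponential `exp ⟨ξ, V⟩` -/
noncomputable def eX (ξ : Matrix α ι ℝ) : CX 𝕜 α ι := res 𝕜 emX (expo (lxi ξ))

theorem eX_apply (ξ : Matrix α ι ℝ) (x : XX α ι) :
    (eX ξ : CX 𝕜 α ι).1 x = ((Real.exp (ξ * x.2.transpose).trace : ℝ) : 𝕜) := by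
  rw [eX, res_apply, expo_apply, lxi_apply, mV_emX]

theorem eX_ne_zero (ξ : Matrix α ι ℝ) (x : XX α ι) : (eX ξ : CX 𝕜 α ι).1 x ≠ 0 := by
  rw [eX_apply]
  exact_mod_cast (Real.exp_pos _).ne'

/-- `f ↦ exp⟨ξ, V⟩ f(Y)` -/
noncomputable def J (𝕜 : Type*) [RCLike 𝕜] {α ι : Type*} [Fintype α] [DecidableEq α] [Fintype ι]
    [DecidableEq ι] (ξ : Matrix α ι ℝ) : CX 𝕜 Empty ι →ₗ[𝕜] CX 𝕜 α ι :=
  (LinearMap.mulLeft 𝕜 (eX ξ : CX 𝕜 α ι)) ∘ₗ (pb 𝕜 (SMap_prY (α := α) (ι := ι))).toLinearMap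

theorem J_def (ξ : Matrix α ι ℝ) (f : CX 𝕜 Empty ι) :
    J 𝕜 ξ f = eX ξ * pb 𝕜 SMap_prY f := rfl

theorem J_apply (ξ : Matrix α ι ℝ) (f : CX 𝕜 Empty ι) (x : XX α ι) :
    (J 𝕜 ξ f).1 x = (eX ξ : CX 𝕜 α ι).1 x * f.1 (prY x) := rfl

theorem J_injective (ξ : Matrix α ι ℝ) {f g : CX 𝕜 Empty ι} (h : J 𝕜 ξ f = J 𝕜 ξ g) : f = g := by
  apply Subtype.ext
  funext y
  have h1 := congrFun (congrArg Subtype.val h) (inY α y)
  rw [J_apply, J_apply, prY_inY] at h1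
  exact mul_left_cancel₀ (eX_ne_zero ξ _) h1

/-- `R` is the symbol of `D` at `ξ` -/
def HasSy (D : OpX 𝕜 α ι) (ξ : Matrix α ι ℝ) (R : OpX 𝕜 Empty ι) : Prop :=
  ∀ f, D (J 𝕜 ξ f) = J 𝕜 ξ (R f)

theorem HasSy.unique {D : OpX 𝕜 α ι} {ξ : Matrix α ι ℝ} {R S : OpX 𝕜 Empty ι}
    (h : HasSy D ξ R) (h' : HasSy D ξ S) : R = S := by
  apply Op.ext
  intro f
  exact J_injective ξ ((h f).symm.trans (h' f))

theorem HasSy.mul {D D' : OpX 𝕜 α ι} {ξ : Matrix α ι ℝ} {R R' : OpX 𝕜 Empty ι}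
    (h : HasSy D ξ R) (h' : HasSy D' ξ R') : HasSy (D * D') ξ (R * R') := by
  intro f
  rw [Op.mul_apply, h', h]; rfl

theorem HasSy.add {D D' : OpX 𝕜 α ι} {ξ : Matrix α ι ℝ} {R R' : OpX 𝕜 Empty ι}
    (h : HasSy D ξ R) (h' : HasSy D' ξ R') : HasSy (D + D') ξ (R + R') := by
  intro f
  rw [Op.add_apply, h', h, ← map_add]; rfl

theorem HasSy.smul {D : OpX 𝕜 α ι} {ξ : Matrix α ι ℝ} {R : OpX 𝕜 Empty ι}
    (h : HasSy D ξ R) (c : 𝕜) : HasSy (c • D) ξ (c • R) := by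
  intro f
  rw [Op.smul_apply, h, ← map_smul]; rfl

theorem HasSy.zero {ξ : Matrix α ι ℝ} : HasSy (0 : OpX 𝕜 α ι) ξ 0 := by
  intro f
  rw [Op.zero_apply, Op.zero_apply, map_zero]

theorem HasSy.one {ξ : Matrix α ι ℝ} : HasSy (1 : OpX 𝕜 α ι) ξ 1 := by
  intro f
  rw [Op.one_apply, Op.one_apply]

theorem HasSy.sum {κ : Type*} (s : Finset κ) {D : κ → OpX 𝕜 α ι} {ξ : Matrix α ι ℝ}
    {R : κ → OpX 𝕜 Empty ι} (h : ∀ k, HasSy (D k) ξ (R k)) :
    HasSy (∑ k ∈ s, D k) ξ (∑ k ∈ s, R k) := by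
  classical
  induction s using Finset.induction_on with
  | empty => simpa using HasSy.zero
  | insert a s ha ih => rw [Finset.sum_insert ha, Finset.sum_insert ha]; exact (h a).add ih

theorem HasSy.list_prod {n : ℕ} {x : Fin n → OpX 𝕜 α ι} {ξ : Matrix α ι ℝ}
    {y : Fin n → OpX 𝕜 Empty ι} (h : ∀ j, HasSy (x j) ξ (y j)) :
    HasSy (List.ofFn x).prod ξ (List.ofFn y).prod := by
  induction n with
  | zero => simpa using HasSy.one
  | succ n ih =>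
    rw [List.ofFn_succ, List.prod_cons, List.ofFn_succ, List.prod_cons]
    exact (h 0).mul (ih fun j => h j.succ)

theorem HasSy.zsmul {D : OpX 𝕜 α ι} {ξ : Matrix α ι ℝ} {R : OpX 𝕜 Empty ι}
    (h : HasSy D ξ R) (c : ℤ) : HasSy (c • D) ξ (c • R) := by
  intro f
  have h4 : ∀ (D : OpX 𝕜 α ι) (g : CX 𝕜 α ι), (c • D) g = c • (D g) := fun D g => rfl
  have h5 : ∀ (D : OpX 𝕜 Empty ι) (g : CX 𝕜 Empty ι), (c • D) g = c • (D g) := fun D g => rfl
  rw [h4, h5, h f, map_zsmul]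

theorem HasSy.cdet {n : ℕ} {x : Fin n → Fin n → OpX 𝕜 α ι} {ξ : Matrix α ι ℝ}
    {y : Fin n → Fin n → OpX 𝕜 Empty ι} (h : ∀ i j, HasSy (x i j) ξ (y i j)) :
    HasSy (cdet x) ξ (cdet y) := by
  rw [MP_5aa3e6_al.cdet, MP_5aa3e6_al.cdet]
  exact HasSy.sum _ fun σ => (HasSy.list_prod fun j => h _ _).zsmul _

theorem HasSy.colVec {β : Type*} {E : ι → ι → OpX 𝕜 α ι} {P : β → ι → OpX 𝕜 α ι}
    {ξ : Matrix α ι ℝ}
    {E' : ι → ι → OpX 𝕜 Empty ι} {P' : β → ι → OpX 𝕜 Empty ι}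
    (hE : ∀ i j, HasSy (E i j) ξ (E' i j)) (hP : ∀ i j, HasSy (P i j) ξ (P' i j)) (a : β) (k : ℕ) :
    ∀ i, HasSy (colVec E P a k i) ξ (colVec E' P' a k i) := by
  induction k with
  | zero => exact hP a
  | succ k ih =>
    intro i
    exact HasSy.sum _ fun j => (hE i j).mul (ih j)

/-! the symbols of the basic operators -/

theorem HasSy_mulM (ξ : Matrix α ι ℝ) (g : CX 𝕜 Empty ι) :
    HasSy (mulM (pb 𝕜 SMap_prY g)) ξ (mulM g) := by
  intro f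
  rw [mulM_apply, mulM_apply, J_def, J_def, map_mul]
  ring

theorem HasSy_cY (ξ : Matrix α ι ℝ) (i j : ι) :
    HasSy (mulM (cY i j) : OpX 𝕜 α ι) ξ (mulM (cY i j)) := HasSy_mulM ξ (cY i j)

theorem HasSy_Pm (ξ W : Matrix α ι ℝ) :
    HasSy (Pm W : OpX 𝕜 α ι) ξ (algebraMap 𝕜 _ (((ξ * W.transpose).trace : ℝ) : 𝕜)) := by
  intro f
  obtain ⟨F, rfl⟩ := res_surj f
  rw [Op.algebraMap_apply, map_smul, J_def, Pm_mul]
  have h1 : Pm W (pb 𝕜 SMap_prY (res 𝕜 emX F) : CX 𝕜 α ι) = 0 := by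
    have h2 : (pb 𝕜 SMap_prY (res 𝕜 emX F) : CX 𝕜 α ι)
        = res 𝕜 emX (pull (fun p : EX α ι => mE (mY p) (0 : Matrix Empty ι ℝ))
          (SmMat_mY.contDiff_mE (SmMat.const _)) F) := by
      ext x; rfl
    rw [h2, Pm_res, PB]
    ext x
    rw [res_apply]
    have h3 : HasDerivAt (fun s : ℝ => (pull (fun p : EX α ι => mE (mY p) (0 : Matrix Empty ι ℝ))
          (SmMat_mY.contDiff_mE (SmMat.const _)) F).1 (emX x + s • mE 0 W))
        ((dd 𝕜 (mE 0 W) (pull (fun p : EX α ι => mE (mY p) (0 : Matrix Empty ι ℝ))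
          (SmMat_mY.contDiff_mE (SmMat.const _)) F)).1 (emX x)) 0 := by
      have h4 : HasDerivAt (fun s : ℝ => emX x + s • (mE 0 W : EX α ι)) (mE 0 W) 0 := by
        have h := ((hasDerivAt_id (0 : ℝ)).smul_const (mE 0 W : EX α ι)).const_add (emX x)
        rw [one_smul] at h
        exact h
      have h5 := SF_differentiable (pull (fun p : EX α ι => mE (mY p) (0 : Matrix Empty ι ℝ))
          (SmMat_mY.contDiff_mE (SmMat.const _)) F) (emX x + (0 : ℝ) • mE 0 W)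
      have h6 := h5.hasFDerivAt.comp_hasDerivAt (0 : ℝ) h4
      refine h6.congr_deriv ?_
      rw [zero_smul, add_zero]
      rfl
    have h7 : (fun s : ℝ => (pull (fun p : EX α ι => mE (mY p) (0 : Matrix Empty ι ℝ))
          (SmMat_mY.contDiff_mE (SmMat.const _)) F).1 (emX x + s • mE 0 W))
        = fun _ => (F : EX Empty ι → 𝕜) (mE x.1.1 0) := by
      funext s
      rw [pull_apply]
      congr 1
      simp
    rw [h7] at h3
    exact h3.unique (hasDerivAt_const _ _)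
  rw [h1, mul_zero, add_zero, eX, Pm_res, PB, dd_expo, map_smul, smul_mul_assoc, lxi_apply]
  rfl

theorem HasSy_pM (ξ : Matrix α ι ℝ) (a : α) (i : ι) :
    HasSy (pM 𝕜 a i) ξ (algebraMap 𝕜 _ ((ξ a i : ℝ) : 𝕜)) := by
  have := HasSy_Pm (𝕜 := 𝕜) ξ (Matrix.single a i 1)
  rw [Matrix.transpose_single, Matrix.trace_mul_single, MulOpposite.op_one, one_smul] at this
  exact this

variable [Nonempty ι]

theorem HasSy_Th (ξ : Matrix α ι ℝ) (B : Matrix ι ι ℝ) :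
    HasSy (Th B : OpX 𝕜 α ι) ξ (Th B) := by
  intro f
  rw [J_def, Th_mul]
  have h1 : Th B (eX ξ : CX 𝕜 α ι) = 0 := by
    rw [eX, Th_res, ThB]
    ext x
    rw [res_apply, lvf_apply]
    have h2 := congrFun (congrArg Subtype.val (dd_expo (𝕜 := 𝕜) (lxi ξ) (aY B (emX x)))) (emX x)
    rw [dd_apply] at h2
    rw [h2, lxi_apply, mV_aY, Matrix.transpose_zero, Matrix.mul_zero, Matrix.trace_zero]
    simp
  rw [h1, zero_mul, zero_add, J_def]
  congr 1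
  ext x
  have h3 := pb_curve_crv (SMap_prY (α := α) (ι := ι)) f B 0 x (W := crv B x.1.1)
    (crv_posDef B x.1.2.1) (U := fun _ => 0) (C := B) (U' := 0) (y := prY x) rfl ?_
    (hasDerivAt_crv B x.1.1) (by rw [crv_zero]) (fun a i => hasDerivAt_const _ _)
  · rw [Pm_zero, Pm_zero] at h3
    simpa using h3
  · intro s
    rfl

theorem HasSy_thM (ξ : Matrix α ι ℝ) (i j : ι) :
    HasSy (thM 𝕜 α i j) ξ (thM 𝕜 Empty i j) := HasSy_Th ξ _

theorem HasSy_Dl (ξ : Matrix α ι ℝ) : HasSy (Dl 𝕜 α ι) ξ (Dl 𝕜 Empty ι) :=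
  HasSy.sum _ fun i => HasSy.sum _ fun j => (HasSy_thM ξ i j).mul (HasSy_thM ξ j i)

/-- the quadratic form `(ξ Y ξᵗ)_ab` -/
noncomputable def qf (𝕜 : Type*) [RCLike 𝕜] {α ι : Type*} [Fintype α] [DecidableEq α] [Fintype ι]
    [DecidableEq ι] (ξ : Matrix α ι ℝ) (a b : α) : CX 𝕜 Empty ι :=
  ∑ i, ∑ j, ((ξ a i * ξ b j : ℝ) : 𝕜) • cY i j

theorem HasSy_Qd (ξ : Matrix α ι ℝ) (a b : α) : HasSy (Qd 𝕜 ι a b) ξ (mulM (qf 𝕜 ξ a b)) := by
  have h1 := HasSy.sum Finset.univ fun i : ι => HasSy.sum Finset.univ fun j : ι =>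
    (HasSy_cY (𝕜 := 𝕜) ξ i j).mul ((HasSy_pM ξ a i).mul (HasSy_pM ξ b j))
  have h2 : (∑ i, ∑ j, mulM (cY i j) * ((algebraMap 𝕜 _ ((ξ a i : ℝ) : 𝕜))
      * (algebraMap 𝕜 _ ((ξ b j : ℝ) : 𝕜))) : OpX 𝕜 Empty ι) = mulM (qf 𝕜 ξ a b) := by
    apply Op.ext
    intro f
    rw [mulM_apply, qf, Finset.sum_mul, Op.sum_apply]
    refine Finset.sum_congr rfl fun i _ => ?_
    rw [Finset.sum_mul, Op.sum_apply]
    refine Finset.sum_congr rfl fun j _ => ?_
    rw [Op.mul_apply, Op.mul_apply, Op.algebraMap_apply, Op.algebraMap_apply, mulM_apply,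
      smul_smul, mul_smul_comm, smul_mul_assoc]
    push_cast
    rfl
  rw [h2] at h1
  exact h1

end J

end Pool.Agent.MP_5aa3e6_al
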