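import Mathlib
import Pool.Agent.MP_5aa3e6_al.Step1

/-!
The symbols `D_ξ` of invariant operators.
-/

set_option linter.unusedSectionVars false

namespace Pool.Agent.MP_5aa3e6_al

open scoped ContDiff Manifold Topology

section Sy

variable {α ι : Type*} [Fintype α] [DecidableEq α] [Fintype ι] [DecidableEq ι] [Nonempty ι]
variable {𝕜 : Type*} [RCLike 𝕜]

/-- the operator `D_ξ` -/
noncomputable def sy (D : OpX 𝕜 α ι) (ξ : Matrix α ι ℝ) : OpX 𝕜 Empty ι :=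
  trans SMap_prY SMap_inY (D * mulM (eX ξ))

theorem sy_apply (D : OpX 𝕜 α ι) (ξ : Matrix α ι ℝ) (f : CX 𝕜 Empty ι) (y : XX Empty ι) :
    (sy D ξ f).1 y = (D (J 𝕜 ξ f)).1 (inY α y) := rfl

theorem IsDO_sy {D : OpX 𝕜 α ι} (hD : IsDO 𝕜 emX D) (ξ : Matrix α ι ℝ) :
    IsDO 𝕜 emX (sy D ξ) :=
  IsDO.transport _ _ prY_inY (hD.mul (IsDO_mulM _))

theorem act_one_apply (a : Matrix α ι ℝ) (x : XX α ι) :
    act 1 a x = (x.1, x.2 + a) := by
  apply Prod.ext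
  · apply Subtype.ext
    change (1 : Matrix.SpecialLinearGroup ι ℝ).1 * x.1.1 *
      (1 : Matrix.SpecialLinearGroup ι ℝ).1.transpose = x.1.1
    rw [Matrix.SpecialLinearGroup.coe_one]; simp
  · change (x.2 + a) * (1 : Matrix.SpecialLinearGroup ι ℝ).1.transpose = x.2 + a
    rw [Matrix.SpecialLinearGroup.coe_one]; simp

theorem rhoX_J_one (ξ a : Matrix α ι ℝ) (f : CX 𝕜 Empty ι) :
    rhoX 𝕜 1 a (J 𝕜 ξ f) = ((Real.exp (ξ * a.transpose).trace : ℝ) : 𝕜) • J 𝕜 ξ f := by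
  ext x
  rw [rhoX_apply, act_one_apply, J_apply, eX_apply]
  have h1 : ((((Real.exp (ξ * a.transpose).trace : ℝ) : 𝕜) • J 𝕜 ξ f : CX 𝕜 α ι)).1 x
      = ((Real.exp (ξ * a.transpose).trace : ℝ) : 𝕜) * (J 𝕜 ξ f).1 x := rfl
  rw [h1, J_apply, eX_apply, Matrix.transpose_add, Matrix.mul_add, Matrix.trace_add, Real.exp_add]
  push_cast
  have h2 : prY (x.1, x.2 + a) = prY x := rfl
  rw [h2]
  ring

theorem rhoX_J (A : Matrix.SpecialLinearGroup ι ℝ) (ξ : Matrix α ι ℝ) (f : CX 𝕜 Empty ι) :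
    rhoX 𝕜 A 0 (J 𝕜 ξ f) = J 𝕜 (ξ * A.1) (rhoX 𝕜 A 0 f) := by
  ext x
  have h1 : (act A 0 x).2 = x.2 * A.1.transpose := by
    change (x.2 + 0) * A.1.transpose = _
    rw [add_zero]
  have h2 : prY (act A 0 x) = act A 0 (prY x) := by
    apply Prod.ext
    · rfl
    · ext a; exact a.elim
  rw [rhoX_apply, J_apply, J_apply, rhoX_apply, eX_apply, eX_apply, h1, h2,
    Matrix.transpose_mul, Matrix.transpose_transpose, Matrix.mul_assoc]

theorem hasSy_sy {D : OpX 𝕜 α ι} (hD : D ∈ DX 𝕜 α ι) (ξ : Matrix α ι ℝ) :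
    HasSy D ξ (sy D ξ) := by
  obtain ⟨h1, h2⟩ := mem_DX.mp hD
  intro f
  ext x
  rw [J_apply, sy_apply]
  -- translate
  have h3 := h2 1 x.2 (J 𝕜 ξ f)
  rw [rhoX_J_one, map_smul] at h3
  have h4 := congrFun (congrArg Subtype.val h3) (inY α (prY x))
  rw [rhoX_apply, act_one_apply] at h4
  have h5 : ((inY α (prY x)).1, (inY α (prY x)).2 + x.2) = x := by
    apply Prod.ext
    · rfl
    · change 0 + x.2 = x.2
      rw [zero_add]
  rw [h5] at h4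
  rw [← h4, eX_apply]
  rfl

theorem sy_mul {D D' : OpX 𝕜 α ι} (hD : D ∈ DX 𝕜 α ι) (hD' : D' ∈ DX 𝕜 α ι)
    (ξ : Matrix α ι ℝ) : sy (D * D') ξ = sy D ξ * sy D' ξ :=
  (hasSy_sy (mul_mem hD hD') ξ).unique ((hasSy_sy hD ξ).mul (hasSy_sy hD' ξ))

theorem sy_add (D D' : OpX 𝕜 α ι) (ξ : Matrix α ι ℝ) : sy (D + D') ξ = sy D ξ + sy D' ξ := rfl

theorem sy_algebraMap (c : 𝕜) (ξ : Matrix α ι ℝ) :
    sy (algebraMap 𝕜 (OpX 𝕜 α ι) c) ξ = algebraMap 𝕜 _ c := by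
  refine (hasSy_sy (Subalgebra.algebraMap_mem _ c) ξ).unique ?_
  intro f
  rw [Op.algebraMap_apply, Op.algebraMap_apply, map_smul]

/-- equivariance of the symbol -/
theorem sy_rhoX {D : OpX 𝕜 α ι} (hD : D ∈ DX 𝕜 α ι) (A : Matrix.SpecialLinearGroup ι ℝ)
    (ξ : Matrix α ι ℝ) (f : CX 𝕜 Empty ι) :
    sy D (ξ * A.1) (rhoX 𝕜 A 0 f) = rhoX 𝕜 A 0 (sy D ξ f) := by
  apply J_injective (ξ * A.1)
  rw [← rhoX_J, ← hasSy_sy hD, ← rhoX_J, ← hasSy_sy hD]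
  exact (mem_DX.mp hD).2 _ _ _

theorem rhoX_inv (A : Matrix.SpecialLinearGroup ι ℝ) (f : CX 𝕜 α ι) :
    rhoX 𝕜 A 0 (rhoX 𝕜 A⁻¹ 0 f) = f := by
  ext x
  rw [rhoX_apply, rhoX_apply]
  have h : act A⁻¹ 0 (act A 0 x) = x := by
    apply Prod.ext
    · apply Subtype.ext
      change (A⁻¹).1 * (A.1 * x.1.1 * A.1.transpose) * (A⁻¹).1.transpose = x.1.1
      calc _ = ((A⁻¹).1 * A.1) * x.1.1 * ((A⁻¹).1 * A.1).transpose := by
            simp only [Matrix.transpose_mul, Matrix.mul_assoc]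
        _ = _ := by rw [SL_inv_mul]; simp
    · change (((x.2 + 0) * A.1.transpose) + 0) * (A⁻¹).1.transpose = x.2
      rw [add_zero, add_zero, Matrix.mul_assoc, ← Matrix.transpose_mul, SL_inv_mul]
      simp
  rw [h]

theorem sy_zero_of_mul {D : OpX 𝕜 α ι} (hD : D ∈ DX 𝕜 α ι) (A : Matrix.SpecialLinearGroup ι ℝ)
    (ξ : Matrix α ι ℝ) (h : sy D ξ = 0) : sy D (ξ * A.1) = 0 := by
  apply Op.ext
  intro f
  have h1 := sy_rhoX hD A ξ (rhoX 𝕜 A⁻¹ 0 f)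
  rw [rhoX_inv, h, Op.zero_apply, map_zero] at h1
  rw [h1, Op.zero_apply]

/-! exponentials -/

/-- restriction of an ambient linear form to the `Y`-space -/
noncomputable def lres (l : EX α ι →L[ℝ] ℝ) : EX Empty ι →L[ℝ] ℝ :=
  LinearMap.toContinuousLinearMap
    { toFun := fun p => l (mE (mY p) 0)
      map_add' := fun p q => by
        rw [← map_add]; congr 1; apply EX_ext <;> simp
      map_smul' := fun c p => by
        rw [RingHom.id_apply, ← map_smul]; congr 1; apply EX_ext <;> simp }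

theorem res_expo_eq_J (l : EX α ι →L[ℝ] ℝ) :
    res 𝕜 emX (expo l) = J 𝕜 (Matrix.of fun a i => l (mE 0 (Matrix.single a i 1)))
      (res 𝕜 emX (expo (lres l))) := by
  ext x
  rw [res_apply, expo_apply, J_apply, eX_apply, res_apply, expo_apply]
  have h1 : (lres l) (emX (prY x)) = l (mE x.1.1 0) := rfl
  have h2 : emX x = mE x.1.1 0 + ∑ k : α × ι, x.2 k.1 k.2 • (mE 0 (Matrix.single k.1 k.2 1)) := by
    apply EX_ext
    · rw [mY_add, mY_sum]; simp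
    · rw [mV_add, mV_sum, mV_emX, mV_mE, zero_add, Fintype.sum_prod_type]
      conv_lhs => rw [Matrix.matrix_eq_sum_single x.2]
      refine Finset.sum_congr rfl fun a _ => Finset.sum_congr rfl fun i _ => ?_
      rw [mV_smul, mV_mE, Matrix.smul_single, smul_eq_mul, mul_one]
  rw [h1, h2, map_add, map_sum, Real.exp_add, mul_comm]
  push_cast
  congr 3
  simp only [map_smul, smul_eq_mul, Fintype.sum_prod_type, Matrix.trace, Matrix.diag,
    Matrix.mul_apply, Matrix.of_apply, Matrix.transpose_apply]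
  exact Finset.sum_congr rfl fun a _ => Finset.sum_congr rfl fun i _ => mul_comm _ _

theorem eq_zero_of_sy {D : OpX 𝕜 α ι} (hD : D ∈ DX 𝕜 α ι) (h : ∀ ξ, sy D ξ = 0) : D = 0 := by
  apply IsDO.eq_zero_of_expo (mem_DX.mp hD).1
  intro l
  rw [res_expo_eq_J, hasSy_sy hD, h, Op.zero_apply, map_zero]

/-- polynomial dependence of the symbol on `ξ` -/
theorem sy_poly {D : OpX 𝕜 α ι} (hD : IsDO 𝕜 emX D) (f : CX 𝕜 Empty ι) (y : XX Empty ι) :
    ∃ P : MvPolynomial (α × ι) 𝕜, ∀ ξ : Matrix α ι ℝ,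
      (sy D ξ f).1 y = MvPolynomial.aeval (fun k => algebraMap ℝ 𝕜 (ξ k.1 k.2)) P := by
  obtain ⟨Dt, hDt, hDt'⟩ := hD
  obtain ⟨F, rfl⟩ := res_surj f
  set G : SF 𝕜 (EX α ι) := pull (fun p : EX α ι => mE (mY p) (0 : Matrix Empty ι ℝ))
          (SmMat_mY.contDiff_mE (SmMat.const _)) F with hG
  obtain ⟨P, hP⟩ := ambDO_poly (fun k : α × ι => lV (ι := ι) k.1 k.2) hDt G (emX (inY α y))
  refine ⟨P, fun ξ => ?_⟩
  have h1 := hP (fun k => ξ k.1 k.2)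
  rw [sy_apply]
  have h2 : J 𝕜 ξ (res 𝕜 emX F)
      = res 𝕜 emX (expoL (fun k : α × ι => lV (ι := ι) k.1 k.2) (fun k => ξ k.1 k.2) * G) := by
    ext x; rfl
  rw [h2, hDt', res_apply, h1]
  have h3 : (expoL (𝕜 := 𝕜) (fun k : α × ι => lV (ι := ι) k.1 k.2) (fun k => ξ k.1 k.2)
      : SF 𝕜 (EX α ι)).1 (emX (inY α y)) = (eX ξ : CX 𝕜 α ι).1 (inY α y) := rfl
  have h4 : (inY α y).2 = 0 := rfl
  rw [h3, eX_apply, h4, Matrix.transpose_zero, Matrix.mul_zero, Matrix.trace_zero, Real.exp_zero]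
  simp

/-- if the symbol vanishes outside of the zero set of a nonzero polynomial it vanishes -/
theorem sy_zero_of_dense {D : OpX 𝕜 α ι} (hD : IsDO 𝕜 emX D)
    {Q : MvPolynomial (α × ι) 𝕜} (hQ : Q ≠ 0)
    (h : ∀ ξ : Matrix α ι ℝ, MvPolynomial.aeval (fun k => algebraMap ℝ 𝕜 (ξ k.1 k.2)) Q ≠ 0 →
      sy D ξ = 0) (ξ : Matrix α ι ℝ) : sy D ξ = 0 := by
  apply Op.ext
  intro f
  ext y
  obtain ⟨P, hP⟩ := sy_poly hD f y
  rw [hP]
  have h1 : Q * P = 0 := by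
    apply funext_real
    intro x
    rw [map_zero, map_mul, mul_eq_zero]
    by_cases h2 : MvPolynomial.aeval (fun k => algebraMap ℝ 𝕜 (x k)) Q = 0
    · exact Or.inl h2
    · right
      have h3 := hP (fun a i => x (a, i))
      have h4 := h (fun a i => x (a, i)) h2
      rw [h4] at h3
      exact h3.symm
  rw [(mul_eq_zero.mp h1).resolve_left hQ, map_zero]
  rfl

end Sy

end Pool.Agent.MP_5aa3e6_al
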