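import Mathlib
import Pool.Agent.MP_5aa3e6_al.Step2

/-!
The functions commuting with an operator; the commutator of `Δ` with the coordinates.
-/

set_option linter.unusedSectionVars false

namespace Pool.Agent.MP_5aa3e6_al

open scoped ContDiff Manifold Topology

section ComF

variable {𝕜 : Type*} [RCLike 𝕜] {E : Type*} [NormedAddCommGroup E] [NormedSpace ℝ E]
  {M : Type*} {e : M → E}

/-- the functions `g` with `[R, g] = 0` -/
def comF (R : Op 𝕜 e) : Subalgebra 𝕜 (Sm 𝕜 e) where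
  carrier := {g | ∀ f, R (g * f) = g * R f}
  mul_mem' := by
    intro a b ha hb
    have ha' : ∀ f, R (a * f) = a * R f := ha
    have hb' : ∀ f, R (b * f) = b * R f := hb
    have : ∀ f, R (a * b * f) = a * b * R f := fun f => by
      rw [mul_assoc, ha', hb', mul_assoc]
    exact this
  add_mem' := by
    intro a b ha hb
    have ha' : ∀ f, R (a * f) = a * R f := ha
    have hb' : ∀ f, R (b * f) = b * R f := hb
    have : ∀ f, R ((a + b) * f) = (a + b) * R f := fun f => by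
      rw [add_mul, map_add, ha', hb', add_mul]
    exact this
  algebraMap_mem' := by
    intro c
    have : ∀ f, R (algebraMap 𝕜 (Sm 𝕜 e) c * f) = algebraMap 𝕜 (Sm 𝕜 e) c * R f := fun f => by
      rw [← Algebra.smul_def, ← Algebra.smul_def, map_smul]
    exact this

theorem mem_comF {R : Op 𝕜 e} {g : Sm 𝕜 e} : g ∈ comF R ↔ ∀ f, R (g * f) = g * R f := Iff.rfl

theorem mem_comF' {R : Op 𝕜 e} {g : Sm 𝕜 e} : g ∈ comF R ↔ R * mulM g = mulM g * R := by
  rw [mem_comF]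
  constructor
  · intro h
    apply Op.ext
    intro f
    exact h f
  · intro h f
    have := DFunLike.congr_fun h f
    exact this

theorem comF_inv {R : Op 𝕜 e} {g g' : Sm 𝕜 e} (hg : g ∈ comF R) (h : g * g' = 1) :
    g' ∈ comF R := by
  rw [mem_comF] at *
  intro f
  have h1 := hg (g' * f)
  rw [← mul_assoc, h, one_mul] at h1
  rw [h1, ← mul_assoc, mul_comm g' g, h, one_mul]

theorem comF_root (he : IsClosed (Set.range e)) [FiniteDimensional ℝ E] {R : Op 𝕜 e} {w : Sm 𝕜 e}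
    (hw : ∀ x, ∃ c : ℝ, 0 < c ∧ w.1 x = (c : 𝕜)) {k : ℕ} (hk : k ≠ 0) (h : w ^ k ∈ comF R) :
    w ∈ comF R := by
  rw [mem_comF]
  intro f
  ext x
  obtain ⟨c, hc, hcx⟩ := hw x
  set w0 : Sm 𝕜 e := algebraMap 𝕜 _ (c : 𝕜) with hw0
  set G : Sm 𝕜 e := ∑ i ∈ Finset.range k, w ^ i * w0 ^ (k - 1 - i) with hG
  have hGw : G * (w - w0) = w ^ k - w0 ^ k := geom_sum₂_mul w w0 k
  have hGpos : ∀ y, G.1 y ≠ 0 := by
    intro y
    obtain ⟨d, hd, hdy⟩ := hw y
    have h1 : G.1 y = ((∑ i ∈ Finset.range k, d ^ i * c ^ (k - 1 - i) : ℝ) : 𝕜) := by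
      rw [hG]
      simp only [AddSubmonoidClass.coe_finset_sum, Finset.sum_apply]
      push_cast
      refine Finset.sum_congr rfl fun i _ => ?_
      change (w.1 y) ^ i * (c : 𝕜) ^ (k - 1 - i) = _
      rw [hdy]
    rw [h1]
    have h2 : 0 < ∑ i ∈ Finset.range k, d ^ i * c ^ (k - 1 - i) := by
      apply Finset.sum_pos
      · intro i _; positivity
      · exact ⟨0, by simpa using Nat.pos_of_ne_zero hk⟩
    exact_mod_cast h2.ne'
  set Gi : Sm 𝕜 e := ⟨fun y => (G.1 y)⁻¹, inv_mem_Sm he G.2 hGpos⟩ with hGi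
  have hGG : G * Gi = 1 := by
    ext y
    exact mul_inv_cancel₀ (hGpos y)
  have h3 : w * f = (w ^ k - w0 ^ k) * (Gi * f) + w0 * f := by
    rw [← hGw]
    calc w * f = (w - w0) * (G * Gi) * f + w0 * f := by rw [hGG]; ring
      _ = _ := by ring
  have h4 : w ^ k - w0 ^ k ∈ comF R :=
    sub_mem h (pow_mem (Subalgebra.algebraMap_mem _ _) _)
  have h5 : R (w * f) = (w ^ k - w0 ^ k) * R (Gi * f) + w0 * R f := by
    rw [h3, map_add, mem_comF.mp h4, mem_comF.mp (Subalgebra.algebraMap_mem _ _)]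
  rw [h5]
  change ((w.1 x) ^ k - (c : 𝕜) ^ k) * (R (Gi * f)).1 x + (c : 𝕜) * (R f).1 x
    = (w.1 x) * (R f).1 x
  rw [hcx, sub_self, zero_mul, zero_add]

end ComF

section Comm

variable {α ι : Type*} [Fintype α] [DecidableEq α] [Fintype ι] [DecidableEq ι] [Nonempty ι]
variable {𝕜 : Type*} [RCLike 𝕜]

/-- the value of `Θ_B f` at a point only depends on the tangent vector -/
theorem Th_congr_at {B C : Matrix ι ι ℝ} {x : XX α ι} (f : CX 𝕜 α ι)
    (h1 : B * x.1.1 + x.1.1 * B.transpose = C * x.1.1 + x.1.1 * C.transpose)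
    (h2 : B.trace = C.trace) : (Th B f).1 x = (Th C f).1 x := by
  obtain ⟨F, rfl⟩ := res_surj f
  rw [Th_res, Th_res, res_apply, res_apply, ThB, ThB, lvf_apply, lvf_apply]
  congr 1
  apply EX_ext
  · rw [mY_aY, mY_aY, mY_emX, h1, h2]
  · rfl

/-- the operators `H_kl = ∑_j Y_kj Θ_jl` -/
noncomputable def Hop (𝕜 : Type*) [RCLike 𝕜] (α : Type*) [Fintype α] [DecidableEq α] {ι : Type*}
    [Fintype ι] [DecidableEq ι] [Nonempty ι] (k l : ι) : OpX 𝕜 α ι :=
  ∑ j, mulM (cY k j) * thM 𝕜 α j l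

theorem PD_symm (Y : PD ι) : Y.1.transpose = Y.1 := by
  have := Y.2.1.isHermitian
  rwa [Matrix.IsHermitian, Matrix.conjTranspose_eq_transpose_of_trivial] at this

theorem cY_symm (k l : ι) : (cY k l : CX 𝕜 α ι) = cY l k := by
  ext x
  rw [cY_apply, cY_apply]
  conv_lhs => rw [← PD_symm x.1]
  rfl

theorem sum_val {κ : Type*} (s : Finset κ) (g : κ → CX 𝕜 α ι) (x : XX α ι) :
    (∑ k ∈ s, g k).1 x = ∑ k ∈ s, (g k).1 x := by
  simp only [AddSubmonoidClass.coe_finset_sum, Finset.sum_apply]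

theorem smul_val (c : 𝕜) (g : CX 𝕜 α ι) (x : XX α ι) : (c • g).1 x = c * g.1 x := rfl

theorem mul_val (f g : CX 𝕜 α ι) (x : XX α ι) : (f * g).1 x = f.1 x * g.1 x := rfl

theorem add_val (f g : CX 𝕜 α ι) (x : XX α ι) : (f + g).1 x = f.1 x + g.1 x := rfl

theorem sub_val (f g : CX 𝕜 α ι) (x : XX α ι) : (f - g).1 x = f.1 x - g.1 x := rfl

theorem neg_val (f : CX 𝕜 α ι) (x : XX α ι) : (-f).1 x = -f.1 x := rfl

theorem Th_val (B : Matrix ι ι ℝ) (f : CX 𝕜 α ι) (x : XX α ι) :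
    (Th B f).1 x = ∑ k, ∑ l, ((B k l : ℝ) : 𝕜) * (thM 𝕜 α k l f).1 x := by
  rw [Th_eq_sum, Op.sum_apply, sum_val]
  refine Finset.sum_congr rfl fun k _ => ?_
  rw [Op.sum_apply, sum_val]
  rfl

theorem Hop_val (k l : ι) (f : CX 𝕜 α ι) (x : XX α ι) :
    (Hop 𝕜 α k l f).1 x = (Th (x.1.1 * Matrix.single k l 1) f).1 x := by
  rw [Hop, Op.sum_apply, sum_val, Th_val]
  refine Finset.sum_congr rfl fun j _ => ?_
  rw [Finset.sum_eq_single l]
  · rw [Op.mul_apply, mulM_apply, mul_val, cY_symm, cY_apply]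
    congr 2
    rw [Matrix.mul_apply, Finset.sum_eq_single k]
    · simp
    · intro b _ hb
      rw [Matrix.single_apply, if_neg (fun h => hb h.1.symm), mul_zero]
    · simp
  · intro b _ hb
    rw [Matrix.mul_apply, Finset.sum_eq_zero]
    · simp
    · intro c _
      rw [Matrix.single_apply, if_neg (fun h => hb h.2.symm), mul_zero]
  · simp

theorem Hop_symm (k l : ι) : Hop 𝕜 α k l = Hop 𝕜 α l k := by
  apply Op.ext
  intro f
  ext x
  rw [Hop_val, Hop_val]
  apply Th_congr_at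
  · rw [Matrix.transpose_mul, Matrix.transpose_mul, PD_symm, Matrix.transpose_single,
      Matrix.transpose_single, ← Matrix.mul_assoc, ← Matrix.mul_assoc, add_comm]
  · rw [Matrix.trace_mul_single, Matrix.trace_mul_single]
    congr 1
    conv_lhs => rw [← PD_symm x.1]
    rfl

theorem thM_cY (i j k l : ι) : thM 𝕜 α i j (cY k l) =
    -((if k = i then cY j l else 0) + (if l = i then cY k j else 0)
      - if i = j then ((2 / (Fintype.card ι : ℝ) : ℝ) : 𝕜) • cY k l else 0) := by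
  ext x
  rw [thM, Th_cY_apply, neg_val, sub_val, add_val]
  have h1 : ∀ (p : Prop) [Decidable p] (g : CX 𝕜 α ι), (if p then g else 0).1 x
      = if p then g.1 x else 0 := by
    intro p _ g; split_ifs <;> rfl
  rw [h1, h1, h1, smul_val, cY_apply, cY_apply, cY_apply]
  have h2 : (Matrix.single i j (1 : ℝ) * x.1.1) k l = if k = i then x.1.1 j l else 0 := by
    rw [Matrix.mul_apply, Finset.sum_eq_single j]
    · by_cases h : k = i
      · subst h; simp
      · rw [if_neg h, Matrix.single_apply, if_neg (fun h' => h h'.1.symm), zero_mul]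
    · intro b _ hb
      rw [Matrix.single_apply, if_neg (fun h => hb h.2.symm), zero_mul]
    · simp
  have h3 : (x.1.1 * (Matrix.single i j (1 : ℝ)).transpose) k l
      = if l = i then x.1.1 k j else 0 := by
    rw [Matrix.transpose_single, Matrix.mul_apply, Finset.sum_eq_single j]
    · by_cases h : l = i
      · subst h; simp
      · rw [if_neg h, Matrix.single_apply, if_neg (fun h' => h h'.2.symm), mul_zero]
    · intro b _ hb
      rw [Matrix.single_apply, if_neg (fun h => hb h.1.symm), mul_zero]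
    · simp
  have h4 : (Matrix.single i j (1 : ℝ)).trace = if i = j then 1 else 0 := by
    by_cases h : i = j
    · subst h; simp
    · rw [Matrix.trace_single_eq_of_ne i j 1 h, if_neg h]
  rw [Matrix.add_apply, h2, h3, h4]
  push_cast
  split_ifs <;> simp

theorem sum_thM : ∑ i, thM 𝕜 α (ι := ι) i i = 0 := by
  rw [← Th_one (𝕜 := 𝕜) (α := α) (ι := ι)]
  simp only [thM]
  rw [← Th_sum]
  congr 1
  ext a b
  rw [Matrix.sum_apply, Matrix.one_apply]
  simp only [Matrix.single_apply]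
  by_cases hab : a = b
  · subst hab; simp
  · rw [if_neg hab]
    refine Finset.sum_eq_zero fun c _ => if_neg ?_
    rintro ⟨rfl, rfl⟩
    exact hab rfl

theorem thM_mul (i j : ι) (f g : CX 𝕜 α ι) :
    thM 𝕜 α i j (f * g) = thM 𝕜 α i j f * g + f * thM 𝕜 α i j g := Th_mul _ _ _

theorem Dl_mulM (g : CX 𝕜 α ι) :
    Dl 𝕜 α ι * mulM g = mulM g * Dl 𝕜 α ι + mulM (Dl 𝕜 α ι g)
      + 2 * ∑ i, ∑ j, mulM (thM 𝕜 α i j g) * thM 𝕜 α j i := by
  apply Op.ext
  intro f
  have h2 : (2 : OpX 𝕜 α ι) * (∑ i, ∑ j, mulM (thM 𝕜 α i j g) * thM 𝕜 α j i)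
      = (∑ i, ∑ j, mulM (thM 𝕜 α i j g) * thM 𝕜 α j i)
        + ∑ i, ∑ j, mulM (thM 𝕜 α j i g) * thM 𝕜 α i j := by
    rw [two_mul]
    congr 1
    rw [Finset.sum_comm]
  rw [h2]
  simp only [Op.add_apply, Op.mul_apply, Dl, Op.sum_apply, mulM_apply, thM_mul, map_add,
    Finset.sum_mul, Finset.mul_sum, Finset.sum_add_distrib]
  abel

theorem Dl_cY (k l : ι) : Dl 𝕜 α ι (cY k l)
    = ((2 * Fintype.card ι + 2 - 4 / (Fintype.card ι : ℝ) : ℝ) : 𝕜) • cY k l := by
  rw [Dl]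
  simp only [Op.sum_apply, Op.mul_apply]
  have hn : (Fintype.card ι : 𝕜) ≠ 0 := by exact_mod_cast Fintype.card_ne_zero
  have h0 : ∑ i, thM 𝕜 α i i (cY k l : CX 𝕜 α ι) = 0 := by
    have := DFunLike.congr_fun (sum_thM (𝕜 := 𝕜) (α := α) (ι := ι)) (cY k l : CX 𝕜 α ι)
    rw [Op.sum_apply] at this
    exact this
  have h1 : ∑ i, ∑ j, thM 𝕜 α i j (thM 𝕜 α j i (cY k l : CX 𝕜 α ι))
      = -(∑ i, thM 𝕜 α i k (cY i l) + ∑ i, thM 𝕜 α i l (cY k i)) := by
    have h2 : ∀ i j, thM 𝕜 α i j (thM 𝕜 α j i (cY k l : CX 𝕜 α ι))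
        = -((if k = j then thM 𝕜 α i j (cY i l) else 0)
          + (if l = j then thM 𝕜 α i j (cY k i) else 0)
          - if j = i then ((2 / (Fintype.card ι : ℝ) : ℝ) : 𝕜) • thM 𝕜 α i j (cY k l) else 0) := by
      intro i j
      rw [thM_cY j i, map_neg, map_sub, map_add]
      congr 2
      · congr 1
        · split_ifs
          · rfl
          · rw [map_zero]
        · split_ifs
          · rfl
          · rw [map_zero]
      · split_ifs
        · rw [map_smul]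
        · rw [map_zero]
    simp only [h2]
    simp only [Finset.sum_neg_distrib, Finset.sum_sub_distrib, Finset.sum_add_distrib,
      Finset.sum_ite_eq, Finset.mem_univ, if_true]
    simp only [Finset.sum_ite_eq', Finset.mem_univ, if_true]
    rw [← Finset.smul_sum, h0, smul_zero, sub_zero]
  rw [h1]
  have h3 : ∑ i, thM 𝕜 α i k (cY i l : CX 𝕜 α ι)
      = -(((Fintype.card ι + 1 - 2 / (Fintype.card ι : ℝ) : ℝ) : 𝕜) • cY k l) := by
    simp only [thM_cY]
    simp only [Finset.sum_neg_distrib, Finset.sum_sub_distrib, Finset.sum_add_distrib,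
      Finset.sum_ite_eq, Finset.sum_ite_eq', Finset.mem_univ, if_true, Finset.sum_const,
      Finset.card_univ]
    rw [cY_symm l k, ← Nat.cast_smul_eq_nsmul 𝕜]
    push_cast
    module
  have h4 : ∑ i, thM 𝕜 α i l (cY k i : CX 𝕜 α ι)
      = -(((Fintype.card ι + 1 - 2 / (Fintype.card ι : ℝ) : ℝ) : 𝕜) • cY k l) := by
    simp only [thM_cY]
    simp only [Finset.sum_neg_distrib, Finset.sum_sub_distrib, Finset.sum_add_distrib,
      Finset.sum_ite_eq, Finset.sum_ite_eq', Finset.mem_univ, if_true, Finset.sum_const,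
      Finset.card_univ]
    rw [cY_symm l k, ← Nat.cast_smul_eq_nsmul 𝕜]
    push_cast
    module
  rw [h3, h4]
  push_cast
  module

theorem Dl_cY_comm (k l : ι) :
    Dl 𝕜 α ι * mulM (cY k l) - mulM (cY k l) * Dl 𝕜 α ι
      = ((2 * Fintype.card ι + 2 - 4 / (Fintype.card ι : ℝ) : ℝ) : 𝕜) • mulM (cY k l)
        - (4 : 𝕜) • Hop 𝕜 α k l := by
  rw [Dl_mulM, Dl_cY]
  have h1 : ∑ i, ∑ j, (mulM (thM 𝕜 α i j (cY k l)) * thM 𝕜 α j i : OpX 𝕜 α ι)
      = -(Hop 𝕜 α k l + Hop 𝕜 α k l) := by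
    have h2 : ∀ i j, (mulM (thM 𝕜 α i j (cY k l)) * thM 𝕜 α j i : OpX 𝕜 α ι)
        = -((if k = i then mulM (cY j l) * thM 𝕜 α j i else 0)
          + (if l = i then mulM (cY k j) * thM 𝕜 α j i else 0)
          - if i = j then ((2 / (Fintype.card ι : ℝ) : ℝ) : 𝕜) •
              (mulM (cY k l) * thM 𝕜 α j i) else 0) := by
      intro i j
      apply Op.ext
      intro f
      have e : ∀ (u v w g : CX 𝕜 α ι), (-(u + v - w)) * g = -(u * g + v * g - w * g) := by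
        intro u v w g; ring
      rw [thM_cY i j, Op.mul_apply, mulM_apply]
      refine (e _ _ _ _).trans ?_
      rw [Op.neg_apply, Op.sub_apply, Op.add_apply]
      congr 2
      · congr 1
        · split_ifs
          · rfl
          · rw [zero_mul]; rfl
        · split_ifs
          · rfl
          · rw [zero_mul]; rfl
      · split_ifs
        · rw [smul_mul_assoc]; rfl
        · rw [zero_mul]; rfl
    simp only [h2]
    simp only [Finset.sum_neg_distrib, Finset.sum_sub_distrib, Finset.sum_add_distrib,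
      Finset.sum_ite_eq, Finset.mem_univ, if_true]
    rw [← Finset.smul_sum, ← Finset.mul_sum, sum_thM, mul_zero, smul_zero, sub_zero]
    have h3 : (∑ i, ∑ j, if k = i then mulM (cY j l) * thM 𝕜 α j i else 0 : OpX 𝕜 α ι)
        = Hop 𝕜 α k l := by
      rw [Finset.sum_comm]
      simp only [Finset.sum_ite_eq, Finset.mem_univ, if_true]
      rw [Hop_symm, Hop]
      exact Finset.sum_congr rfl fun j _ => by rw [cY_symm]
    have h4 : (∑ i, ∑ j, if l = i then mulM (cY k j) * thM 𝕜 α j i else 0 : OpX 𝕜 α ι)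
        = Hop 𝕜 α k l := by
      rw [Finset.sum_comm]
      simp only [Finset.sum_ite_eq, Finset.mem_univ, if_true]
      rfl
    rw [h3, h4]
  rw [h1]
  have h5 : (mulM (((2 * Fintype.card ι + 2 - 4 / (Fintype.card ι : ℝ) : ℝ) : 𝕜)
      • cY k l) : OpX 𝕜 α ι) = ((2 * Fintype.card ι + 2 - 4 / (Fintype.card ι : ℝ) : ℝ) : 𝕜) •
        mulM (cY k l) := by
    apply Op.ext
    intro f
    rw [mulM_apply, smul_mul_assoc]
    rfl
  rw [h5]
  have h6 : (2 : OpX 𝕜 α ι) * -(Hop 𝕜 α k l + Hop 𝕜 α k l) = -((4 : 𝕜) • Hop 𝕜 α k l) := by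
    have : (4 : 𝕜) • Hop 𝕜 α k l = (4 : OpX 𝕜 α ι) * Hop 𝕜 α k l := by
      rw [Algebra.smul_def, map_ofNat]
    rw [this]
    noncomm_ring
  rw [h6]
  abel

/-- the operators `∑ ξ_ak ξ_bl H_kl` -/
noncomputable def Hq (𝕜 : Type*) [RCLike 𝕜] {α ι : Type*} [Fintype α] [DecidableEq α]
    [Fintype ι] [DecidableEq ι] [Nonempty ι] (ξ : Matrix α ι ℝ) (a b : α) : OpX 𝕜 Empty ι :=
  ∑ i, ∑ j, ((ξ a i * ξ b j : ℝ) : 𝕜) • Hop 𝕜 Empty i j

theorem mulM_smul (c : 𝕜) (g : CX 𝕜 α ι) : mulM (c • g) = c • mulM g := by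
  apply Op.ext
  intro f
  rw [mulM_apply, smul_mul_assoc]
  rfl

theorem mulM_sum {κ : Type*} (s : Finset κ) (g : κ → CX 𝕜 α ι) :
    mulM (∑ k ∈ s, g k) = ∑ k ∈ s, mulM (g k) := by
  apply Op.ext
  intro f
  rw [mulM_apply, Finset.sum_mul, Op.sum_apply]
  rfl

theorem Dl_qf_comm (ξ : Matrix α ι ℝ) (a b : α) :
    Dl 𝕜 Empty ι * mulM (qf 𝕜 ξ a b) - mulM (qf 𝕜 ξ a b) * Dl 𝕜 Empty ι
      = ((2 * Fintype.card ι + 2 - 4 / (Fintype.card ι : ℝ) : ℝ) : 𝕜) • mulM (qf 𝕜 ξ a b)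
        - (4 : 𝕜) • Hq 𝕜 ξ a b := by
  have h1 : (mulM (qf 𝕜 ξ a b) : OpX 𝕜 Empty ι)
      = ∑ i, ∑ j, ((ξ a i * ξ b j : ℝ) : 𝕜) • mulM (cY i j) := by
    rw [qf, mulM_sum]
    refine Finset.sum_congr rfl fun i _ => ?_
    rw [mulM_sum]
    exact Finset.sum_congr rfl fun j _ => mulM_smul _ _
  rw [h1, Hq]
  simp only [Finset.mul_sum, Finset.sum_mul, mul_smul_comm, smul_mul_assoc, Finset.smul_sum,
    ← Finset.sum_sub_distrib, ← smul_sub]
  refine Finset.sum_congr rfl fun i _ => Finset.sum_congr rfl fun j _ => ?_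
  rw [Dl_cY_comm, smul_sub, smul_comm, smul_comm (4 : 𝕜)]

/-- an operator commuting with `Δ` and with the quadratic form commutes with `Hq` -/
theorem comm_Hq {R : OpX 𝕜 Empty ι} (hR : R * Dl 𝕜 Empty ι = Dl 𝕜 Empty ι * R)
    (ξ : Matrix α ι ℝ) (a b : α)
    (hq : R * mulM (qf 𝕜 ξ a b) = mulM (qf 𝕜 ξ a b) * R) :
    R * Hq 𝕜 ξ a b = Hq 𝕜 ξ a b * R := by
  have h1 := Dl_qf_comm (𝕜 := 𝕜) ξ a b
  set X : OpX 𝕜 Empty ι := mulM (qf 𝕜 ξ a b) with hX
  set c : 𝕜 := ((2 * Fintype.card ι + 2 - 4 / (Fintype.card ι : ℝ) : ℝ) : 𝕜) with hc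
  have h2 : (4 : 𝕜) • Hq 𝕜 ξ a b = c • X - (Dl 𝕜 Empty ι * X - X * Dl 𝕜 Empty ι) := by
    rw [h1]; abel
  have h3 : R * ((4 : 𝕜) • Hq 𝕜 ξ a b) = ((4 : 𝕜) • Hq 𝕜 ξ a b) * R := by
    rw [h2, mul_sub, sub_mul, mul_sub, sub_mul, mul_smul_comm, smul_mul_assoc, hq,
      ← mul_assoc, ← mul_assoc, hR, hq, mul_assoc, mul_assoc, hq, hR]
    simp only [mul_assoc]
  rw [mul_smul_comm, smul_mul_assoc] at h3
  exact smul_right_injective _ (by norm_num : (4 : 𝕜) ≠ 0) h3

end Comm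

end Pool.Agent.MP_5aa3e6_al
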