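import Mathlib
import Pool.Agent.MP_5aa3e6_al.Step3
import Pool.Agent.MP_5aa3e6_al.Col2

/-!
The operators commuting with `Δ` and `Q_ab`; the case `n ≤ m`.
-/

set_option linter.unusedSectionVars false

namespace Pool.Agent.MP_5aa3e6_al

open scoped ContDiff Manifold Topology

section ZD

variable {α ι : Type*} [Fintype α] [DecidableEq α] [Fintype ι] [DecidableEq ι] [Nonempty ι]
variable {𝕜 : Type*} [RCLike 𝕜]

/-- the invariant differential operators commuting with `Δ` and all the `Q_ab` -/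
noncomputable def ZD (𝕜 : Type*) [RCLike 𝕜] (α ι : Type*) [Fintype α] [DecidableEq α]
    [Fintype ι] [DecidableEq ι] [Nonempty ι] : Subalgebra 𝕜 (OpX 𝕜 α ι) :=
  DX 𝕜 α ι ⊓ Subalgebra.centralizer 𝕜
    ({Dl 𝕜 α ι} ∪ Set.range (fun p : α × α => Qd 𝕜 ι p.1 p.2))

theorem mem_ZD {D : OpX 𝕜 α ι} : D ∈ ZD 𝕜 α ι ↔ D ∈ DX 𝕜 α ι ∧
    D * Dl 𝕜 α ι = Dl 𝕜 α ι * D ∧ ∀ a b, D * Qd 𝕜 ι a b = Qd 𝕜 ι a b * D := by
  rw [ZD, Algebra.mem_inf, Subalgebra.mem_centralizer_iff]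
  constructor
  · rintro ⟨h1, h2⟩
    exact ⟨h1, (h2 _ (Or.inl rfl)).symm, fun a b => (h2 _ (Or.inr ⟨(a, b), rfl⟩)).symm⟩
  · rintro ⟨h1, h2, h3⟩
    refine ⟨h1, ?_⟩
    rintro g (hg | ⟨⟨a, b⟩, rfl⟩)
    · rw [Set.mem_singleton_iff.mp hg, h2]
    · exact (h3 a b).symm

theorem sy_comm_Dl {D : OpX 𝕜 α ι} (hD : D ∈ ZD 𝕜 α ι) (ξ : Matrix α ι ℝ) :
    sy D ξ * Dl 𝕜 Empty ι = Dl 𝕜 Empty ι * sy D ξ := by
  obtain ⟨h1, h2, -⟩ := mem_ZD.mp hD
  have h3 := (hasSy_sy h1 ξ).mul (HasSy_Dl (𝕜 := 𝕜) ξ)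
  rw [h2] at h3
  exact h3.unique ((HasSy_Dl (𝕜 := 𝕜) ξ).mul (hasSy_sy h1 ξ))

theorem sy_comm_qf {D : OpX 𝕜 α ι} (hD : D ∈ ZD 𝕜 α ι) (ξ : Matrix α ι ℝ) (a b : α) :
    sy D ξ * mulM (qf 𝕜 ξ a b) = mulM (qf 𝕜 ξ a b) * sy D ξ := by
  obtain ⟨h1, -, h2⟩ := mem_ZD.mp hD
  have h3 := (hasSy_sy h1 ξ).mul (HasSy_Qd (𝕜 := 𝕜) ξ a b)
  rw [h2] at h3
  exact h3.unique ((HasSy_Qd (𝕜 := 𝕜) ξ a b).mul (hasSy_sy h1 ξ))

theorem sy_comm_Hq {D : OpX 𝕜 α ι} (hD : D ∈ ZD 𝕜 α ι) (ξ : Matrix α ι ℝ) (a b : α) :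
    sy D ξ * Hq 𝕜 ξ a b = Hq 𝕜 ξ a b * sy D ξ :=
  comm_Hq (sy_comm_Dl hD ξ) ξ a b (sy_comm_qf hD ξ a b)

theorem lin_inv {M : Type*} [AddCommGroup M] [Module 𝕜 M] (ξ : Matrix α ι ℝ) (η : Matrix ι α ℝ)
    (h : η * ξ = 1) (T : ι → ι → M) (k l : ι) :
    ∑ a, ∑ b, ((η k a * η l b : ℝ) : 𝕜) • (∑ i, ∑ j, ((ξ a i * ξ b j : ℝ) : 𝕜) • T i j) = T k l := by
  have h1 : ∀ k i, ∑ a, η k a * ξ a i = if k = i then 1 else 0 := by
    intro k i
    rw [← Matrix.mul_apply, h, Matrix.one_apply]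
  simp only [← Fintype.sum_prod_type' (f := fun k l => (_ : M))]
  calc ∑ p : α × α, ((η k p.1 * η l p.2 : ℝ) : 𝕜) •
        ∑ s : ι × ι, ((ξ p.1 s.1 * ξ p.2 s.2 : ℝ) : 𝕜) • T s.1 s.2
      = ∑ s : ι × ι, ∑ p : α × α, (((η k p.1 * ξ p.1 s.1) * (η l p.2 * ξ p.2 s.2) : ℝ) : 𝕜) •
          T s.1 s.2 := by
        simp only [Finset.smul_sum, smul_smul]
        rw [Finset.sum_comm]
        refine Finset.sum_congr rfl fun s _ => Finset.sum_congr rfl fun p _ => ?_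
        congr 1
        push_cast
        ring
    _ = ∑ s : ι × ι, (((if k = s.1 then 1 else 0) * (if l = s.2 then 1 else 0) : ℝ) : 𝕜) •
          T s.1 s.2 := by
        refine Finset.sum_congr rfl fun s _ => ?_
        rw [← Finset.sum_smul]
        congr 1
        rw [Fintype.sum_prod_type, ← h1, ← h1, Finset.sum_mul_sum]
        push_cast
        rfl
    _ = T k l := by
        rw [Finset.sum_eq_single (k, l)]
        · simp
        · rintro ⟨s1, s2⟩ _ hs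
          by_cases h2 : k = s1
          · by_cases h3 : l = s2
            · subst h2 h3; exact absurd rfl hs
            · simp [h3]
          · simp [h2]
        · simp

/-- `Th (Y C)` in terms of the `H_kl` -/
theorem Th_left_val (f : CX 𝕜 α ι) (x : XX α ι) (C : Matrix ι ι ℝ) :
    (Th (x.1.1 * C) f).1 x = ∑ k, ∑ l, ((C k l : ℝ) : 𝕜) * (Hop 𝕜 α k l f).1 x := by
  have h1 : x.1.1 * C = ∑ k, ∑ l, C k l • (x.1.1 * Matrix.single k l 1) := by
    conv_lhs => rw [Matrix.matrix_eq_sum_single C]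
    rw [Finset.mul_sum]
    refine Finset.sum_congr rfl fun k _ => ?_
    rw [Finset.mul_sum]
    refine Finset.sum_congr rfl fun l _ => ?_
    rw [← Matrix.mul_smul, Matrix.smul_single, smul_eq_mul, mul_one]
  rw [h1, Th_sum, Op.sum_apply, sum_val]
  refine Finset.sum_congr rfl fun k _ => ?_
  rw [Th_sum, Op.sum_apply, sum_val]
  refine Finset.sum_congr rfl fun l _ => ?_
  rw [Th_smul, Op.smul_apply, smul_val, Hop_val]

theorem isUnit_det_PD (Y : PD ι) : IsUnit Y.1.det := by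
  rw [Y.2.2]; exact isUnit_one

theorem Th_eq_zero_of_Hop {f : CX 𝕜 α ι} (h : ∀ k l, Hop 𝕜 α k l f = 0) (B : Matrix ι ι ℝ) :
    Th B f = 0 := by
  ext x
  have h1 : B = x.1.1 * (x.1.1⁻¹ * B) := by
    rw [← Matrix.mul_assoc, Matrix.mul_nonsing_inv _ (isUnit_det_PD x.1), Matrix.one_mul]
  rw [h1, Th_left_val]
  simp only [h]
  change ∑ k, ∑ l, _ * (0 : 𝕜) = (0 : 𝕜)
  simp

/-- a function killed by all the `H_kl` on `P_ι` is constant -/
theorem const_of_Hop {f : CX 𝕜 Empty ι} (h : ∀ k l, Hop 𝕜 Empty k l f = 0) (x y : XX Empty ι) :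
    f.1 x = f.1 y := by
  have hone : (1 : Matrix ι ι ℝ).PosDef := Matrix.PosDef.one
  have key : ∀ x : XX Empty ι, f.1 x = f.1 (mkX 1 hone 0) := by
    intro x
    set Z : ℝ → Matrix ι ι ℝ := fun s => (1 - s) ^ 2 • (1 : Matrix ι ι ℝ) + s ^ 2 • x.1.1 with hZ
    have hpos : ∀ s, (Z s).PosDef := by
      intro s
      by_cases hs : s = 0
      · subst hs
        simpa [hZ] using hone
      · exact Matrix.PosDef.posSemidef_add (hone.posSemidef.smul (sq_nonneg _))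
          (x.1.2.1.smul (by positivity))
    have hder : ∀ s, HasDerivAt (fun s => f.1 (mkX (Z s) (hpos s) (0 : Matrix Empty ι ℝ))) 0 s := by
      intro s
      set Z' : Matrix ι ι ℝ := (-(2 * (1 - s))) • (1 : Matrix ι ι ℝ) + (2 * s) • x.1.1 with hZ'
      have h1 : (Z s).transpose = Z s := by
        have := (hpos s).isHermitian
        rwa [Matrix.IsHermitian, Matrix.conjTranspose_eq_transpose_of_trivial] at this
      have h2 : Z'.transpose = Z' := by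
        rw [hZ', Matrix.transpose_add, Matrix.transpose_smul, Matrix.transpose_smul,
          Matrix.transpose_one, PD_symm]
      have h3 : IsUnit (Z s).det := (hpos s).det_pos.ne'.isUnit
      have h4 := KL f hpos (V := fun _ => 0) (B := (1 / 2 : ℝ) • (Z' * (Z s)⁻¹)) (Z' := Z')
        (V' := 0) (t := s) ?_ ?_ (fun a i => hasDerivAt_const _ _)
      · refine h4.congr_deriv ?_
        rw [Th_eq_zero_of_Hop h, Pm_zero]
        change -(0 : 𝕜) + 0 = 0
        simp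
      · intro i j
        have h5 : HasDerivAt (fun s : ℝ => (1 - s) ^ 2 * (1 : Matrix ι ι ℝ) i j
            + s ^ 2 * x.1.1 i j) ((-(2 * (1 - s))) * (1 : Matrix ι ι ℝ) i j
            + (2 * s) * x.1.1 i j) s := by
          have h6 := ((((hasDerivAt_id s).const_sub 1).pow 2).mul_const
            ((1 : Matrix ι ι ℝ) i j)).add ((hasDerivAt_pow 2 s).mul_const (x.1.1 i j))
          refine h6.congr_deriv ?_
          simp
        exact h5
      · rw [Matrix.transpose_smul, Matrix.transpose_mul, Matrix.transpose_nonsing_inv, h1, h2,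
          Matrix.smul_mul, Matrix.mul_smul, Matrix.mul_assoc, Matrix.nonsing_inv_mul _ h3,
          ← Matrix.mul_assoc, Matrix.mul_nonsing_inv _ h3, Matrix.mul_one, Matrix.one_mul,
          ← add_smul]
        norm_num
    have hc := is_const_of_deriv_eq_zero (fun s => (hder s).differentiableAt)
      (fun s => (hder s).deriv) 1 0
    have h7 : mkX (Z 1) (hpos 1) (0 : Matrix Empty ι ℝ) = x := by
      have h8 : Z 1 = x.1.1 := by simp [hZ]
      have h9 : (0 : Matrix Empty ι ℝ) = x.2 := by ext a; exact a.elim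
      simp only [h8, h9]
      exact mkX_eq x
    have h10 : mkX (Z 0) (hpos 0) (0 : Matrix Empty ι ℝ) = mkX 1 hone 0 := by
      have h8 : Z 0 = 1 := by simp [hZ]
      simp only [h8]
    rw [h7, h10] at hc
    exact hc
  rw [key x, key y]

end ZD

section Poly

variable {ι : Type*} [Fintype ι] [DecidableEq ι] [Nonempty ι]
variable {𝕜 : Type*} [RCLike 𝕜]

theorem res_linf_eq (l : EX Empty ι →L[ℝ] ℝ) :
    (res 𝕜 emX (linf l) : CX 𝕜 Empty ι)
      = ∑ i, ∑ j, ((l (mE (Matrix.single i j 1) 0) : ℝ) : 𝕜) • cY i j := by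
  ext x
  rw [res_apply, linf_apply]
  have h2 : emX x = ∑ i, ∑ j, x.1.1 i j • (mE (Matrix.single i j 1) 0 : EX Empty ι) := by
    apply EX_ext
    · rw [mY_sum, mY_emX]
      conv_lhs => rw [Matrix.matrix_eq_sum_single x.1.1]
      refine Finset.sum_congr rfl fun a _ => ?_
      rw [mY_sum]
      refine Finset.sum_congr rfl fun i _ => ?_
      rw [mY_smul, mY_mE, Matrix.smul_single, smul_eq_mul, mul_one]
    · ext a; exact a.elim
  have h3 : l (emX x) = ∑ i, ∑ j, x.1.1 i j * l (mE (Matrix.single i j 1) 0) := by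
    rw [h2, map_sum]
    refine Finset.sum_congr rfl fun i _ => ?_
    rw [map_sum]
    refine Finset.sum_congr rfl fun j _ => ?_
    rw [map_smul, smul_eq_mul]
  rw [h3, sum_val, RCLike.ofReal_sum]
  refine Finset.sum_congr rfl fun i _ => ?_
  rw [sum_val, RCLike.ofReal_sum]
  refine Finset.sum_congr rfl fun j _ => ?_
  rw [smul_val, cY_apply, RCLike.ofReal_mul, mul_comm]

/-- an operator killing all polynomials in the coordinates vanishes -/
theorem eq_zero_of_cY {R : OpX 𝕜 Empty ι} (hR : IsDO 𝕜 emX R)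
    (h : ∀ p ∈ Algebra.adjoin 𝕜 (Set.range fun q : ι × ι => (cY q.1 q.2 : CX 𝕜 Empty ι)),
      R p = 0) : R = 0 := by
  apply hR.eq_zero_of_poly
  intro p hp
  apply h
  have h1 : polyF 𝕜 (EX Empty ι) ≤ (Algebra.adjoin 𝕜 (Set.range
      fun q : ι × ι => (cY q.1 q.2 : CX 𝕜 Empty ι))).comap (res 𝕜 emX) := by
    rw [polyF]
    apply Algebra.adjoin_le
    rintro _ ⟨l, rfl⟩
    rw [SetLike.mem_coe, Subalgebra.mem_comap, res_linf_eq]
    refine sum_mem fun i _ => sum_mem fun j _ => Subalgebra.smul_mem _ ?_ _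
    exact Algebra.subset_adjoin (Set.mem_range_self (i, j))
  exact h1 hp

theorem eq_mulM_of_comm {R : OpX 𝕜 Empty ι} (hR : IsDO 𝕜 emX R)
    (h : ∀ i j, (cY i j : CX 𝕜 Empty ι) ∈ comF R) : R = mulM (R 1) := by
  rw [← sub_eq_zero]
  apply eq_zero_of_cY
  · rw [← mem_DOs]
    exact sub_mem hR (IsDO_mulM _)
  · intro p hp
    have h1 : Algebra.adjoin 𝕜 (Set.range fun q : ι × ι => (cY q.1 q.2 : CX 𝕜 Empty ι))
        ≤ comF R := by
      apply Algebra.adjoin_le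
      rintro _ ⟨q, rfl⟩
      exact h _ _
    have h2 := mem_comF.mp (h1 hp) 1
    rw [mul_one] at h2
    rw [Op.sub_apply, mulM_apply, h2, mul_comm, sub_self]

end Poly

section Base

variable {m r : ℕ} {𝕜 : Type*} [RCLike 𝕜]

theorem exists_left_inv {I : Fin r → Fin m} (ξ : Matrix (Fin m) (Fin r) ℝ)
    (h : (ξ.submatrix I id).det ≠ 0) : ∃ η : Matrix (Fin r) (Fin m) ℝ, η * ξ = 1 := by
  refine ⟨(ξ.submatrix I id)⁻¹ * (1 : Matrix (Fin m) (Fin m) ℝ).submatrix I id, ?_⟩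
  have h1 : (1 : Matrix (Fin m) (Fin m) ℝ).submatrix I id * ξ = ξ.submatrix I id := by
    ext i j
    simp [Matrix.mul_apply, Matrix.one_apply]
  rw [Matrix.mul_assoc, h1, Matrix.nonsing_inv_mul _ h.isUnit]

theorem evR_minorP' (ξ : Matrix (Fin m) (Fin r) ℝ) (I : Fin r → Fin m) :
    evR ξ (minorP 𝕜 I) = algebraMap ℝ 𝕜 (ξ.submatrix I id).det := by
  rw [evR_minorP, RingHom.map_det]
  rfl

variable [Nonempty (Fin r)]

theorem base_sy_aux {D : OpX 𝕜 (Fin m) (Fin r)} (hD : D ∈ ZD 𝕜 (Fin m) (Fin r))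
    (ξ : Matrix (Fin m) (Fin r) ℝ) {η : Matrix (Fin r) (Fin m) ℝ} (h : η * ξ = 1)
    (y : XX Empty (Fin r)) :
    sy D ξ = algebraMap 𝕜 _ ((sy D ξ 1).1 y) := by
  set R := sy D ξ with hR
  have h1 : ∀ i j, (cY i j : CX 𝕜 Empty (Fin r)) ∈ comF R := by
    intro i j
    rw [← lin_inv (𝕜 := 𝕜) ξ η h (fun i j => (cY i j : CX 𝕜 Empty (Fin r))) i j]
    refine sum_mem fun a _ => sum_mem fun b _ => Subalgebra.smul_mem _ ?_ _
    exact mem_comF'.mpr (sy_comm_qf hD ξ a b)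
  have h2 : ∀ i j, R * Hop 𝕜 Empty i j = Hop 𝕜 Empty i j * R := by
    intro i j
    have h3 : Hop 𝕜 Empty i j ∈ Subalgebra.centralizer 𝕜 {R} := by
      rw [← lin_inv (𝕜 := 𝕜) ξ η h (fun i j => (Hop 𝕜 Empty i j : OpX 𝕜 Empty (Fin r))) i j]
      refine sum_mem fun a _ => sum_mem fun b _ => Subalgebra.smul_mem _ ?_ _
      rw [Subalgebra.mem_centralizer_iff]
      intro g hg
      rw [Set.mem_singleton_iff.mp hg]
      exact sy_comm_Hq hD ξ a b
    exact (Subalgebra.mem_centralizer_iff 𝕜).mp h3 R rfl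
  have h4 := eq_mulM_of_comm (IsDO_sy (mem_DX.mp (mem_ZD.mp hD).1).1 ξ) h1
  have h5 : ∀ i j, Hop 𝕜 Empty i j (R 1) = 0 := by
    intro i j
    have h6 := DFunLike.congr_fun (h2 i j) (1 : CX 𝕜 Empty (Fin r))
    rw [Op.mul_apply, Op.mul_apply] at h6
    rw [← h6]
    have h7 : Hop 𝕜 Empty i j (1 : CX 𝕜 Empty (Fin r)) = 0 := by
      rw [Hop, Op.sum_apply]
      refine Finset.sum_eq_zero fun k _ => ?_
      have h8 := thM_mul (𝕜 := 𝕜) k j (1 : CX 𝕜 Empty (Fin r)) 1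
      rw [mul_one, mul_one, one_mul] at h8
      rw [Op.mul_apply, left_eq_add.mp h8, map_zero]
    rw [h7, map_zero]
  refine h4.trans ?_
  apply Op.ext
  intro f
  ext x
  rw [mulM_apply, mul_val, Op.algebraMap_apply, smul_val]
  rw [const_of_Hop h5 x y]

theorem base_sy {D : OpX 𝕜 (Fin m) (Fin r)} (hD : D ∈ ZD 𝕜 (Fin m) (Fin r)) (hrm : r ≤ m) :
    ∃ P : MvPolynomial (Fin m × Fin r) 𝕜, ∀ ξ, sy D ξ = algebraMap 𝕜 _ (evR ξ P) := by
  set y : XX Empty (Fin r) := mkX 1 Matrix.PosDef.one 0 with hy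
  have hDO := (mem_DX.mp (mem_ZD.mp hD).1).1
  obtain ⟨P, hP⟩ := sy_poly hDO 1 y
  refine ⟨P, fun ξ => ?_⟩
  apply Op.ext
  intro f
  ext x
  obtain ⟨Q, hQ⟩ := sy_poly hDO f x
  rw [Op.algebraMap_apply, smul_val, hQ]
  have h1 : minorP 𝕜 (Fin.castLE hrm) * (Q - f.1 x • P) = 0 := by
    apply evR_ext
    intro ξ
    rw [map_zero, map_mul, mul_eq_zero, evR_minorP']
    by_cases h2 : (ξ.submatrix (Fin.castLE hrm) id).det = 0
    · left; rw [h2, map_zero]
    · right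
      obtain ⟨η, hη⟩ := exists_left_inv ξ h2
      have h3 := base_sy_aux hD ξ hη y
      have h4 := hQ ξ
      rw [h3, Op.algebraMap_apply, smul_val, hP ξ] at h4
      rw [map_sub, map_smul, sub_eq_zero, smul_eq_mul]
      rw [mul_comm] at h4
      exact h4.symm
  have h2 : minorP 𝕜 (Fin.castLE hrm) ≠ 0 := by
    intro h
    have h3 := congrArg (evR (Matrix.of fun a j => if a = Fin.castLE hrm j then (1 : ℝ) else 0)) h
    rw [evR_minorP', map_zero] at h3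
    have h4 : (Matrix.of fun (a : Fin m) (j : Fin r) => if a = Fin.castLE hrm j then (1 : ℝ)
        else 0).submatrix (Fin.castLE hrm) id = 1 := by
      ext i j
      simp [Matrix.one_apply, Fin.castLE_inj]
    rw [h4, Matrix.det_one, map_one] at h3
    exact one_ne_zero h3
  have h3 := (mul_eq_zero.mp h1).resolve_left h2
  rw [sub_eq_zero] at h3
  rw [h3, map_smul, smul_eq_mul, mul_comm]
  rfl

end Base

end Pool.Agent.MP_5aa3e6_al
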