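import Mathlib
import Pool.Agent.MP_5aa3e6_al.Step4

/-!
The base case of the induction.
-/

set_option linter.unusedSectionVars false

namespace Pool.Agent.MP_5aa3e6_al

open scoped ContDiff Manifold Topology

section Good

variable {𝕜 : Type*} [RCLike 𝕜]

theorem DI_mem_ZD {m q r : ℕ} {ι : Type*} [Fintype ι] [DecidableEq ι] [Nonempty ι]
    (ε : Fin (q * m + r) ≃ ι) (I : Fin r → Fin m) : DI 𝕜 ε I ∈ ZD 𝕜 (Fin m) ι :=
  mem_ZD.mpr ⟨DI_mem ε I, (DI_comm ε I Dl_mem).symm, fun a b => (DI_comm ε I (Qd_mem a b)).symm⟩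

/-- the conclusion for one index type -/
def Good (𝕜 : Type*) [RCLike 𝕜] {m q r : ℕ} {ι : Type*} [Fintype ι] [DecidableEq ι] [Nonempty ι]
    (ε : Fin (q * m + r) ≃ ι) : Prop :=
  ∃ Φ : ZD 𝕜 (Fin m) ι →ₐ[𝕜] MvPolynomial (Fin m × Fin r) 𝕜, Function.Injective Φ ∧
    (∀ z, Φ z ∈ Algebra.adjoin 𝕜 (Set.range fun I : Fin r → Fin m => minorP 𝕜 I)) ∧
    ∀ I : Fin r → Fin m, Φ ⟨DI 𝕜 ε I, DI_mem_ZD ε I⟩ = minorP 𝕜 I

theorem algebraMap_OpX_injective {ι : Type*} [Fintype ι] [DecidableEq ι] [Nonempty ι] {c d : 𝕜}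
    (h : algebraMap 𝕜 (OpX 𝕜 Empty ι) c = algebraMap 𝕜 (OpX 𝕜 Empty ι) d) : c = d := by
  have h1 := DFunLike.congr_fun h (1 : CX 𝕜 Empty ι)
  rw [Op.algebraMap_apply, Op.algebraMap_apply] at h1
  have h2 := congrFun (congrArg Subtype.val h1) (mkX 1 Matrix.PosDef.one 0)
  rw [smul_val, smul_val] at h2
  have h3 : ((1 : CX 𝕜 Empty ι)).1 (mkX 1 Matrix.PosDef.one 0) = 1 := rfl
  rwa [h3, mul_one, mul_one] at h2

theorem cdet_algebraMap {K U : Type*} [Field K] [Ring U] [Algebra K U] {n : ℕ}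
    (M : Fin n → Fin n → K) :
    cdet (fun j i => algebraMap K U (M j i)) = algebraMap K U (Matrix.of M).det := by
  rw [cdet, ← Matrix.det_transpose, Matrix.det_apply', map_sum]
  refine Finset.sum_congr rfl fun σ _ => ?_
  rw [map_mul, map_intCast, zsmul_eq_mul]
  congr 1
  rw [← List.prod_ofFn, map_list_prod, List.map_ofFn]
  rfl

theorem base_good {m r : ℕ} [Nonempty (Fin r)] (hrm : r ≤ m) :
    Good 𝕜 (m := m) (q := 0) (r := r) (ι := Fin r) (finCongr (by simp)) := by
  have hr : 0 < r := Fin.pos (Classical.arbitrary (Fin r))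
  set y : XX Empty (Fin r) := mkX 1 Matrix.PosDef.one 0 with hy
  have hex := fun D : ZD 𝕜 (Fin m) (Fin r) => base_sy D.2 hrm
  choose P hP using hex
  have huniq : ∀ (D : ZD 𝕜 (Fin m) (Fin r)) (Q : MvPolynomial (Fin m × Fin r) 𝕜),
      (∀ ξ, sy D.1 ξ = algebraMap 𝕜 _ (evR ξ Q)) → P D = Q := by
    intro D Q h
    apply evR_ext
    intro ξ
    apply algebraMap_OpX_injective (ι := Fin r)
    rw [← hP, h]
  have hmul : ∀ D D' : ZD 𝕜 (Fin m) (Fin r), P (D * D') = P D * P D' := by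
    intro D D'
    apply huniq
    intro ξ
    change sy (D.1 * D'.1) ξ = _
    rw [sy_mul (mem_ZD.mp D.2).1 (mem_ZD.mp D'.2).1, hP, hP, map_mul, map_mul]
  let Φ : ZD 𝕜 (Fin m) (Fin r) →ₐ[𝕜] MvPolynomial (Fin m × Fin r) 𝕜 :=
    { toFun := P
      map_one' := by
        apply huniq
        intro ξ
        rw [map_one, map_one]
        have := sy_algebraMap (𝕜 := 𝕜) (α := Fin m) (ι := Fin r) 1 ξ
        rwa [map_one, map_one] at this
      map_mul' := hmul
      map_zero' := by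
        apply huniq
        intro ξ
        rw [map_zero, map_zero]
        have := sy_algebraMap (𝕜 := 𝕜) (α := Fin m) (ι := Fin r) 0 ξ
        rwa [map_zero, map_zero] at this
      map_add' := by
        intro D D'
        apply huniq
        intro ξ
        change sy (D.1 + D'.1) ξ = _
        rw [sy_add, hP, hP, map_add, map_add]
      commutes' := by
        intro c
        apply huniq
        intro ξ
        rw [AlgHom.commutes]
        exact sy_algebraMap (𝕜 := 𝕜) (α := Fin m) (ι := Fin r) c ξ }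
  refine ⟨Φ, ?_, ?_, ?_⟩
  · rw [injective_iff_map_eq_zero]
    intro D hD
    apply Subtype.ext
    apply eq_zero_of_sy (mem_ZD.mp D.2).1
    intro ξ
    have h1 : P D = 0 := hD
    rw [hP, h1, map_zero, map_zero]
  · intro D
    apply fft hr
    intro A hA ξ
    have h1 := sy_rhoX (mem_ZD.mp D.2).1 ⟨A, hA⟩ ξ (1 : CX 𝕜 Empty (Fin r))
    rw [hP, hP, map_one, Op.algebraMap_apply, Op.algebraMap_apply, map_smul, map_one] at h1
    have h2 := congrFun (congrArg Subtype.val h1) y
    rw [smul_val, smul_val] at h2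
    have h3 : ((1 : CX 𝕜 Empty (Fin r))).1 y = 1 := rfl
    rw [h3, mul_one, mul_one] at h2
    exact h2
  · intro I
    apply huniq
    intro ξ
    refine (hasSy_sy (DI_mem _ I) ξ).unique ?_
    have hc : (0 * m + r) = r := by simp
    have h1 : DI 𝕜 (m := m) (q := 0) (r := r) (ι := Fin r) (finCongr hc) I
        = cdet (fun j i : Fin (0 * m + r) => pM 𝕜 (I (finCongr hc j)) (finCongr hc i)) := by
      rw [DI, dI]
      congr 1
      funext j i
      have h2 : colI I j = (I (finCongr hc j), 0) := by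
        rw [colI, dif_neg (by simp)]
        congr 2
        apply Fin.ext
        simp
      rw [h2]
      rfl
    rw [h1]
    have h3 := HasSy.cdet (x := fun j i : Fin (0 * m + r) =>
      pM 𝕜 (I (finCongr hc j)) (finCongr hc i)) (ξ := ξ)
      (y := fun j i => algebraMap 𝕜 _ ((ξ (I (finCongr hc j)) (finCongr hc i) : ℝ) : 𝕜))
      (fun i j => HasSy_pM ξ _ _)
    rw [cdet_algebraMap] at h3
    convert h3 using 2
    rw [evR_minorP, ← Matrix.det_submatrix_equiv_self (finCongr hc)]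
    rfl

end Good

end Pool.Agent.MP_5aa3e6_al
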