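import Mathlib
import Pool.Agent.MP_5aa3e6_al.Step5

/-!
Block decomposition of positive definite matrices; the maps `φ` and `ψ`.
-/

set_option linter.unusedSectionVars false

namespace Pool.Agent.MP_5aa3e6_al

open scoped ContDiff Manifold Topology

section Blk

variable {α ι : Type*} [Fintype α] [DecidableEq α] [Fintype ι] [DecidableEq ι]

theorem tr_posDef {n : Type*} [Fintype n] {Y : Matrix n n ℝ} (h : Y.PosDef) : Y.transpose = Y := by
  have := h.isHermitian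
  rwa [Matrix.IsHermitian, Matrix.conjTranspose_eq_transpose_of_trivial] at this

theorem unit_posDef {n : Type*} [Fintype n] [DecidableEq n] {Y : Matrix n n ℝ} (h : Y.PosDef) :
    IsUnit Y.det := h.det_pos.ne'.isUnit

/-- the matrix `Lᵗ T L + diag(0, S)` with `L = [1, -V]` -/
def bZ (T : Matrix α α ℝ) (S : Matrix ι ι ℝ) (V : Matrix α ι ℝ) : Matrix (α ⊕ ι) (α ⊕ ι) ℝ :=
  Matrix.fromBlocks T (-(T * V)) (-(V.transpose * T)) (V.transpose * T * V + S)

theorem bZ_smul (c : ℝ) (T : Matrix α α ℝ) (S : Matrix ι ι ℝ) (V : Matrix α ι ℝ) :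
    bZ (c • T) (c • S) V = c • bZ T S V := by
  rw [bZ, bZ, Matrix.fromBlocks_smul]
  simp only [Matrix.smul_mul, Matrix.mul_smul, smul_neg, smul_add]

theorem bZ_det (T : Matrix α α ℝ) (S : Matrix ι ι ℝ) (V : Matrix α ι ℝ) (hT : IsUnit T.det) :
    (bZ T S V).det = T.det * S.det := by
  haveI : Invertible T := Matrix.invertibleOfIsUnitDet T hT
  rw [bZ, Matrix.det_fromBlocks₁₁, Matrix.invOf_eq_nonsing_inv]
  congr 2
  rw [Matrix.neg_mul, Matrix.neg_mul, Matrix.mul_neg, neg_neg, Matrix.mul_assoc V.transpose T T⁻¹,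
    Matrix.mul_nonsing_inv _ hT, Matrix.mul_one, Matrix.mul_assoc]
  abel

theorem bZ_posDef {T : Matrix α α ℝ} {S : Matrix ι ι ℝ} (V : Matrix α ι ℝ) (hT : T.PosDef)
    (hS : S.PosDef) : (bZ T S V).PosDef := by
  haveI : Invertible T := Matrix.invertibleOfIsUnitDet T (unit_posDef hT)
  have h1 := Matrix.PosDef.fromBlocks₁₁ (-(T * V)) (V.transpose * T * V + S) hT
  have h2 : (-(T * V)).conjTranspose = -(V.transpose * T) := by
    rw [Matrix.conjTranspose_eq_transpose_of_trivial, Matrix.transpose_neg, Matrix.transpose_mul,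
      tr_posDef hT]
  have h3 : V.transpose * T * V + S - -(V.transpose * T) * T⁻¹ * -(T * V) = S := by
    rw [Matrix.neg_mul, Matrix.neg_mul, Matrix.mul_neg, neg_neg,
      Matrix.mul_assoc V.transpose T T⁻¹,
      Matrix.mul_nonsing_inv _ (unit_posDef hT), Matrix.mul_one, Matrix.mul_assoc]
    abel
  rw [h2, h3] at h1
  have h4 : (bZ T S V).PosSemidef := h1.mpr hS.posSemidef
  rw [h4.posDef_iff_det_ne_zero, bZ_det _ _ _ (unit_posDef hT)]
  exact mul_ne_zero hT.det_pos.ne' hS.det_pos.ne'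

/-- Schur complement -/
noncomputable def sch (Z : Matrix (α ⊕ ι) (α ⊕ ι) ℝ) : Matrix ι ι ℝ :=
  Z.toBlocks₂₂ - Z.toBlocks₂₁ * Z.toBlocks₁₁⁻¹ * Z.toBlocks₁₂

/-- the matrix `-Z₁₁⁻¹ Z₁₂` -/
noncomputable def vv (Z : Matrix (α ⊕ ι) (α ⊕ ι) ℝ) : Matrix α ι ℝ :=
  -(Z.toBlocks₁₁⁻¹ * Z.toBlocks₁₂)

theorem t11_posDef {Z : Matrix (α ⊕ ι) (α ⊕ ι) ℝ} (hZ : Z.PosDef) : Z.toBlocks₁₁.PosDef :=
  hZ.submatrix Sum.inl_injective

theorem sch_bZ {T : Matrix α α ℝ} (S : Matrix ι ι ℝ) (V : Matrix α ι ℝ) (hT : IsUnit T.det) :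
    sch (bZ T S V) = S := by
  rw [sch, bZ, Matrix.toBlocks_fromBlocks₁₁, Matrix.toBlocks_fromBlocks₁₂,
    Matrix.toBlocks_fromBlocks₂₁, Matrix.toBlocks_fromBlocks₂₂]
  rw [Matrix.neg_mul, Matrix.neg_mul, Matrix.mul_neg, neg_neg,
      Matrix.mul_assoc V.transpose T T⁻¹,
      Matrix.mul_nonsing_inv _ hT, Matrix.mul_one, Matrix.mul_assoc]
  abel

theorem vv_bZ {T : Matrix α α ℝ} (S : Matrix ι ι ℝ) (V : Matrix α ι ℝ) (hT : IsUnit T.det) :
    vv (bZ T S V) = V := by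
  rw [vv, bZ, Matrix.toBlocks_fromBlocks₁₁, Matrix.toBlocks_fromBlocks₁₂, Matrix.mul_neg, neg_neg,
    ← Matrix.mul_assoc, Matrix.nonsing_inv_mul _ hT, Matrix.one_mul]

theorem t11_bZ (T : Matrix α α ℝ) (S : Matrix ι ι ℝ) (V : Matrix α ι ℝ) :
    (bZ T S V).toBlocks₁₁ = T := by
  rw [bZ, Matrix.toBlocks_fromBlocks₁₁]

theorem bZ_eta {Z : Matrix (α ⊕ ι) (α ⊕ ι) ℝ} (hZ : Z.PosDef) :
    bZ Z.toBlocks₁₁ (sch Z) (vv Z) = Z := by
  have hT := t11_posDef hZ
  have hu := unit_posDef hT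
  have h21 : Z.toBlocks₂₁ = Z.toBlocks₁₂.transpose := by
    have h := tr_posDef hZ
    ext i j
    exact congrFun (congrFun h.symm (Sum.inr i)) (Sum.inl j)
  have h12 : Z.toBlocks₁₁ * vv Z = -Z.toBlocks₁₂ := by
    rw [vv, Matrix.mul_neg, ← Matrix.mul_assoc, Matrix.mul_nonsing_inv _ hu, Matrix.one_mul]
  have h21' : (vv Z).transpose * Z.toBlocks₁₁ = -Z.toBlocks₂₁ := by
    have h3 : (Z.toBlocks₁₁ * vv Z).transpose = (vv Z).transpose * Z.toBlocks₁₁ := by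
      rw [Matrix.transpose_mul, tr_posDef hT]
    rw [← h3, h12, Matrix.transpose_neg, h21]
  rw [bZ, h12, h21', neg_neg, neg_neg]
  have h22 : -Z.toBlocks₂₁ * vv Z + sch Z = Z.toBlocks₂₂ := by
    rw [sch, vv, Matrix.neg_mul, Matrix.mul_neg, neg_neg, Matrix.mul_assoc]
    abel
  rw [h22, Matrix.fromBlocks_toBlocks]

theorem sch_posDef {Z : Matrix (α ⊕ ι) (α ⊕ ι) ℝ} (hZ : Z.PosDef) : (sch Z).PosDef := by
  have hT := t11_posDef hZ
  haveI : Invertible Z.toBlocks₁₁ := Matrix.invertibleOfIsUnitDet _ (unit_posDef hT)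
  have h21 : Z.toBlocks₂₁ = Z.toBlocks₁₂.conjTranspose := by
    have h := tr_posDef hZ
    ext i j
    exact congrFun (congrFun h.symm (Sum.inr i)) (Sum.inl j)
  have h1 := Matrix.PosDef.fromBlocks₁₁ Z.toBlocks₁₂ Z.toBlocks₂₂ hT
  rw [← h21, Matrix.fromBlocks_toBlocks] at h1
  have h2 : (sch Z).PosSemidef := h1.mp hZ.posSemidef
  rw [h2.posDef_iff_det_ne_zero]
  intro h3
  have h4 := bZ_det Z.toBlocks₁₁ (sch Z) (vv Z) (unit_posDef hT)
  rw [bZ_eta hZ, h3, mul_zero] at h4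
  exact hZ.det_pos.ne' h4

theorem sch_smul {c : ℝ} (hc : c ≠ 0) {Z : Matrix (α ⊕ ι) (α ⊕ ι) ℝ} (hZ : Z.PosDef) :
    sch (c • Z) = c • sch Z := by
  conv_lhs => rw [← bZ_eta hZ, ← bZ_smul]
  rw [sch_bZ]
  rw [Matrix.det_smul]
  exact (mul_ne_zero (pow_ne_zero _ hc) (t11_posDef hZ).det_pos.ne').isUnit

theorem vv_smul {c : ℝ} (hc : c ≠ 0) {Z : Matrix (α ⊕ ι) (α ⊕ ι) ℝ} (hZ : Z.PosDef) :
    vv (c • Z) = vv Z := by
  conv_lhs => rw [← bZ_eta hZ, ← bZ_smul]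
  rw [vv_bZ]
  rw [Matrix.det_smul]
  exact (mul_ne_zero (pow_ne_zero _ hc) (t11_posDef hZ).det_pos.ne').isUnit

variable [Nonempty ι]

/-- the map `φ` -/
noncomputable def phi (x : XX Empty (α ⊕ ι)) : XX α ι :=
  mkX (sch x.1.1) (sch_posDef x.1.2.1) (vv x.1.1)

theorem mkX_congr {Z Z' : Matrix ι ι ℝ} (hZ : Z.PosDef) (hZ' : Z'.PosDef) {V V' : Matrix α ι ℝ}
    (h1 : nrm Z = nrm Z') (h2 : V = V') : mkX Z hZ V = mkX Z' hZ' V' := by
  apply Prod.ext
  · exact Subtype.ext h1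
  · exact h2

theorem phi_mkX {Z : Matrix (α ⊕ ι) (α ⊕ ι) ℝ} (hZ : Z.PosDef) (U : Matrix Empty (α ⊕ ι) ℝ) :
    phi (mkX Z hZ U) = mkX (sch Z) (sch_posDef hZ) (vv Z) := by
  have h1 : (mkX Z hZ U).1.1 = (Z.det ^ (-(1 : ℝ) / (Fintype.card (α ⊕ ι) : ℝ))) • Z := rfl
  have hc : 0 < Z.det ^ (-(1 : ℝ) / (Fintype.card (α ⊕ ι) : ℝ)) :=
    Real.rpow_pos_of_pos hZ.det_pos _
  apply mkX_congr
  · rw [h1, sch_smul hc.ne' hZ, nrm_smul hc (sch_posDef hZ).det_pos]
  · rw [h1, vv_smul hc.ne' hZ]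

theorem phi_mkX_bZ {T : Matrix α α ℝ} {S : Matrix ι ι ℝ} (V : Matrix α ι ℝ) (hT : T.PosDef)
    (hS : S.PosDef) (U : Matrix Empty (α ⊕ ι) ℝ) :
    phi (mkX (bZ T S V) (bZ_posDef V hT hS) U) = mkX S hS V := by
  rw [phi_mkX]
  apply mkX_congr
  · rw [sch_bZ _ _ (unit_posDef hT)]
  · rw [vv_bZ _ _ (unit_posDef hT)]

/-- the map `ψ` -/
noncomputable def psi (y : XX α ι) : XX Empty (α ⊕ ι) :=
  (⟨bZ 1 y.1.1 y.2, bZ_posDef _ Matrix.PosDef.one y.1.2.1, by
    rw [bZ_det _ _ _ (by rw [Matrix.det_one]; exact isUnit_one), Matrix.det_one, one_mul]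
    exact y.1.2.2⟩, 0)

theorem phi_psi (y : XX α ι) : phi (psi y) = y := by
  have h1 : IsUnit (1 : Matrix α α ℝ).det := by rw [Matrix.det_one]; exact isUnit_one
  have : phi (psi y) = mkX y.1.1 y.1.2.1 y.2 := by
    apply mkX_congr
    · congr 1
      exact sch_bZ _ _ h1
    · exact vv_bZ _ _ h1
  rw [this, mkX_eq]

end Blk

section SmM

variable {E : Type*} [NormedAddCommGroup E] [NormedSpace ℝ E] {M : Type*} {e : M → E}
variable {m n k : Type*}

/-- matrix valued functions with smooth entries -/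
def SmM (e : M → E) (A : M → Matrix m n ℝ) : Prop := ∀ i j, (fun x => A x i j) ∈ Sm ℝ e

theorem SmM.const (A : Matrix m n ℝ) : SmM e (fun _ => A) := fun i j =>
  Subalgebra.algebraMap_mem (Sm ℝ e) (A i j)

theorem SmM.mul [Fintype n] {A : M → Matrix m n ℝ} {B : M → Matrix n k ℝ} (hA : SmM e A)
    (hB : SmM e B) : SmM e (fun x => A x * B x) := by
  intro i j
  have : (fun x => (A x * B x) i j) = ∑ l, (fun x => A x i l) * (fun x => B x l j) := by
    funext x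
    rw [Matrix.mul_apply, Finset.sum_apply]
    rfl
  rw [this]
  exact sum_mem fun l _ => mul_mem (hA i l) (hB l j)

theorem SmM.add {A B : M → Matrix m n ℝ} (hA : SmM e A) (hB : SmM e B) :
    SmM e (fun x => A x + B x) := fun i j => add_mem (hA i j) (hB i j)

theorem SmM.neg {A : M → Matrix m n ℝ} (hA : SmM e A) :
    SmM e (fun x => -(A x)) := fun i j => neg_mem (hA i j)

theorem SmM.sub {A B : M → Matrix m n ℝ} (hA : SmM e A) (hB : SmM e B) :
    SmM e (fun x => A x - B x) := fun i j => sub_mem (hA i j) (hB i j)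

theorem SmM.smul {A : M → Matrix m n ℝ} {c : M → ℝ} (hc : c ∈ Sm ℝ e) (hA : SmM e A) :
    SmM e (fun x => c x • A x) := fun i j => mul_mem hc (hA i j)

theorem SmM.transpose {A : M → Matrix m n ℝ} (hA : SmM e A) :
    SmM e (fun x => (A x).transpose) := fun i j => hA j i

theorem SmM.det [Fintype n] [DecidableEq n] {A : M → Matrix n n ℝ} (hA : SmM e A) :
    (fun x => (A x).det) ∈ Sm ℝ e := by
  have : (fun x => (A x).det)
      = ∑ σ : Equiv.Perm n, (fun _ => ((Equiv.Perm.sign σ : ℤ) : ℝ)) * ∏ i, (fun x => A x (σ i) i) := by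
    funext x
    rw [Matrix.det_apply', Finset.sum_apply]
    refine Finset.sum_congr rfl fun σ _ => ?_
    rw [Pi.mul_apply, Finset.prod_apply]
  rw [this]
  exact sum_mem fun σ _ => mul_mem (Subalgebra.algebraMap_mem (Sm ℝ e) _)
    (prod_mem fun i _ => hA _ _)

theorem SmM.inv [Fintype n] [DecidableEq n] [FiniteDimensional ℝ E] {A : M → Matrix n n ℝ}
    (hA : SmM e A) (he : IsClosed (Set.range e)) (h0 : ∀ x, (A x).det ≠ 0) :
    SmM e (fun x => (A x)⁻¹) := by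
  intro i j
  have h1 : (fun x => ((A x)⁻¹) i j)
      = (fun x => ((A x).det)⁻¹) * fun x => ((A x).updateRow j (Pi.single i 1)).det := by
    funext x
    rw [Matrix.inv_def, Ring.inverse_eq_inv', Matrix.smul_apply, Matrix.adjugate_apply]
    rfl
  rw [h1]
  refine mul_mem (inv_mem_Sm he hA.det h0) (SmM.det ?_)
  intro k l
  by_cases hk : k = j
  · subst hk
    simp only [Matrix.updateRow_self]
    exact Subalgebra.algebraMap_mem (Sm ℝ e) _
  · simp only [Matrix.updateRow_ne hk]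
    exact hA k l

theorem rpow_mem_Sm [FiniteDimensional ℝ E] (he : IsClosed (Set.range e)) {f : M → ℝ}
    (hf : f ∈ Sm ℝ e) (h0 : ∀ x, 0 < f x) (p : ℝ) : (fun x => f x ^ p) ∈ Sm ℝ e := by
  obtain ⟨F, hF, hF'⟩ := hf
  refine mem_Sm_of_contDiffAt he (U := {y | F y ≠ 0}) ?_ ?_ (g := fun y => (F y) ^ p) ?_ ?_
  · exact isOpen_ne_fun hF.continuous continuous_const
  · intro x
    have := (h0 x).ne'
    rw [hF' x] at this
    exact this
  · intro y hy
    exact hF.contDiffAt.rpow_const_of_ne hy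
  · intro x
    rw [hF' x]

theorem SmM.nrm [Fintype n] [DecidableEq n] [FiniteDimensional ℝ E] {A : M → Matrix n n ℝ}
    (hA : SmM e A) (he : IsClosed (Set.range e)) (h0 : ∀ x, 0 < (A x).det) :
    SmM e (fun x => nrm (A x)) :=
  (rpow_mem_Sm he hA.det h0 _).elim fun F hF =>
    SmM.smul (c := fun x => (A x).det ^ (-(1 : ℝ) / (Fintype.card n : ℝ))) ⟨F, hF⟩ hA

theorem ofReal_mem_Sm {𝕜 : Type*} [RCLike 𝕜] {f : M → ℝ} (hf : f ∈ Sm ℝ e) :
    (fun x => ((f x : ℝ) : 𝕜)) ∈ Sm 𝕜 e := by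
  obtain ⟨F, hF, hF'⟩ := hf
  exact ⟨fun x => ((F x : ℝ) : 𝕜), (RCLike.ofRealCLM (K := 𝕜)).contDiff.comp hF,
    fun x => congrArg (fun t : ℝ => (t : 𝕜)) (hF' x)⟩

theorem SMap_of_coords {α ι : Type*} [Fintype α] [DecidableEq α] [Fintype ι] [DecidableEq ι]
    {φ : M → XX α ι} (h1 : SmM e (fun x => (φ x).1.1)) (h2 : SmM e (fun x => (φ x).2)) :
    SMap e emX φ := by
  choose F hF hF' using h1
  choose G hG hG' using h2
  refine ⟨fun p => mE (Matrix.of fun i j => F i j p) (Matrix.of fun a i => G a i p),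
    SmMat.contDiff_mE (fun i j => hF i j) (fun i j => hG i j), fun x => ?_⟩
  apply EX_ext
  · ext i j
    exact (hF' i j x).symm
  · ext i j
    exact (hG' i j x).symm

theorem SmM_Y {α ι : Type*} [Fintype α] [DecidableEq α] [Fintype ι] [DecidableEq ι] :
    SmM (emX : XX α ι → EX α ι) (fun x => x.1.1) := fun i j =>
  ⟨fun p => lY α i j p, (lY α i j).contDiff, fun _ => rfl⟩

theorem SmM_V {α ι : Type*} [Fintype α] [DecidableEq α] [Fintype ι] [DecidableEq ι] :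
    SmM (emX : XX α ι → EX α ι) (fun x => x.2) := fun i j =>
  ⟨fun p => lV i j p, (lV i j).contDiff, fun _ => rfl⟩

end SmM

section Maps

variable {α ι : Type*} [Fintype α] [DecidableEq α] [Fintype ι] [DecidableEq ι] [Nonempty ι]

theorem SmM_sch : SmM (emX : XX Empty (α ⊕ ι) → EX Empty (α ⊕ ι)) (fun x => sch x.1.1) := by
  have h := SmM_Y (α := Empty) (ι := α ⊕ ι)
  have h11 : SmM (emX : XX Empty (α ⊕ ι) → EX Empty (α ⊕ ι)) (fun x => x.1.1.toBlocks₁₁) :=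
    fun i j => h _ _
  have h12 : SmM (emX : XX Empty (α ⊕ ι) → EX Empty (α ⊕ ι)) (fun x => x.1.1.toBlocks₁₂) :=
    fun i j => h _ _
  have h21 : SmM (emX : XX Empty (α ⊕ ι) → EX Empty (α ⊕ ι)) (fun x => x.1.1.toBlocks₂₁) :=
    fun i j => h _ _
  have h22 : SmM (emX : XX Empty (α ⊕ ι) → EX Empty (α ⊕ ι)) (fun x => x.1.1.toBlocks₂₂) :=
    fun i j => h _ _
  exact h22.sub ((h21.mul (h11.inv isClosed_emX
    fun x => (t11_posDef x.1.2.1).det_pos.ne')).mul h12)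

theorem SmM_vv : SmM (emX : XX Empty (α ⊕ ι) → EX Empty (α ⊕ ι)) (fun x => vv x.1.1) := by
  have h := SmM_Y (α := Empty) (ι := α ⊕ ι)
  have h11 : SmM (emX : XX Empty (α ⊕ ι) → EX Empty (α ⊕ ι)) (fun x => x.1.1.toBlocks₁₁) :=
    fun i j => h _ _
  have h12 : SmM (emX : XX Empty (α ⊕ ι) → EX Empty (α ⊕ ι)) (fun x => x.1.1.toBlocks₁₂) :=
    fun i j => h _ _
  exact ((h11.inv isClosed_emX fun x => (t11_posDef x.1.2.1).det_pos.ne').mul h12).neg

theorem SMap_phi : SMap emX emX (phi : XX Empty (α ⊕ ι) → XX α ι) :=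
  SMap_of_coords (SmM_sch.nrm isClosed_emX fun x => (sch_posDef x.1.2.1).det_pos) SmM_vv

theorem SMap_psi : SMap emX emX (psi : XX α ι → XX Empty (α ⊕ ι)) := by
  apply SMap_of_coords
  · have hY := SmM_Y (α := α) (ι := ι)
    have hV := SmM_V (α := α) (ι := ι)
    have h1 : SmM (emX : XX α ι → EX α ι) (fun _ => (1 : Matrix α α ℝ)) := SmM.const _
    have h12 := (h1.mul hV).neg
    have h21 := (hV.transpose.mul h1).neg
    have h22 := ((hV.transpose.mul h1).mul hV).add hY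
    intro i j
    rcases i with i | i
    · rcases j with j | j
      · exact h1 i j
      · exact h12 i j
    · rcases j with j | j
      · exact h21 i j
      · exact h22 i j
  · intro a; exact a.elim

end Maps

end Pool.Agent.MP_5aa3e6_al
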