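import Mathlib
import Pool.Agent.MP_5aa3e6_al.Blk1

/-!
The operators `Θ` on functions of the form `φ^* h`.
-/

set_option linter.unusedSectionVars false

namespace Pool.Agent.MP_5aa3e6_al

open scoped ContDiff Manifold Topology

section Der

variable {l m n : Type*} [Fintype m]

theorem hasDerivAt_mul_entry {A : ℝ → Matrix l m ℝ} {B : ℝ → Matrix m n ℝ} {A' : Matrix l m ℝ}
    {B' : Matrix m n ℝ} {t : ℝ} (hA : ∀ i j, HasDerivAt (fun s => A s i j) (A' i j) t)
    (hB : ∀ i j, HasDerivAt (fun s => B s i j) (B' i j) t) (i : l) (j : n) :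
    HasDerivAt (fun s => (A s * B s) i j) ((A' * B t + A t * B') i j) t := by
  simp only [Matrix.mul_apply, Matrix.add_apply]
  rw [← Finset.sum_add_distrib]
  exact HasDerivAt.fun_sum fun k _ => (hA i k).mul (hB k j)

end Der

section Phi

variable {α ι : Type*} [Fintype α] [DecidableEq α] [Fintype ι] [DecidableEq ι] [Nonempty ι]
variable {𝕜 : Type*} [RCLike 𝕜]

/-- pull-back by `φ` -/
noncomputable def pp (𝕜 : Type*) [RCLike 𝕜] {α ι : Type*} [Fintype α] [DecidableEq α] [Fintype ι]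
    [DecidableEq ι] [Nonempty ι] : CX 𝕜 α ι →ₐ[𝕜] CX 𝕜 Empty (α ⊕ ι) := pb 𝕜 SMap_phi

theorem pp_val (h : CX 𝕜 α ι) (x : XX Empty (α ⊕ ι)) : (pp 𝕜 h).1 x = h.1 (phi x) := rfl

theorem hasDerivAt_bZ {T : ℝ → Matrix α α ℝ} {S : ℝ → Matrix ι ι ℝ} {V : ℝ → Matrix α ι ℝ}
    {T' : Matrix α α ℝ} {S' : Matrix ι ι ℝ} {V' : Matrix α ι ℝ} {t : ℝ}
    (hT' : ∀ i j, HasDerivAt (fun s => T s i j) (T' i j) t)
    (hS' : ∀ i j, HasDerivAt (fun s => S s i j) (S' i j) t)
    (hV' : ∀ i j, HasDerivAt (fun s => V s i j) (V' i j) t) (i j : α ⊕ ι) :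
    HasDerivAt (fun s => bZ (T s) (S s) (V s) i j)
      (Matrix.fromBlocks T' (-(T' * V t + T t * V')) (-(V'.transpose * T t + (V t).transpose * T'))
        ((V'.transpose * T t + (V t).transpose * T') * V t + (V t).transpose * T t * V' + S') i j)
      t := by
  have hTV := hasDerivAt_mul_entry hT' hV'
  have hVT := hasDerivAt_mul_entry (A := fun s => (V s).transpose) (A' := V'.transpose)
    (fun i j => hV' j i) hT'
  have hVTV := hasDerivAt_mul_entry hVT hV'
  rcases i with i | i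
  · rcases j with j | j
    · exact hT' i j
    · exact (hTV i j).neg
  · rcases j with j | j
    · exact (hVT i j).neg
    · exact (hVTV i j).add (hS' i j)

/-- differentiation of `φ^* h` along a curve -/
theorem Th_phi (h : CX 𝕜 α ι) (x : XX Empty (α ⊕ ι)) {B : Matrix (α ⊕ ι) (α ⊕ ι) ℝ}
    {C : Matrix ι ι ℝ} {T : ℝ → Matrix α α ℝ} {S : ℝ → Matrix ι ι ℝ} {V : ℝ → Matrix α ι ℝ}
    {T' : Matrix α α ℝ} {S' : Matrix ι ι ℝ} {V' : Matrix α ι ℝ}
    (hT : ∀ s, (T s).PosDef) (hS : ∀ s, (S s).PosDef)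
    (hT' : ∀ i j, HasDerivAt (fun s => T s i j) (T' i j) 0)
    (hS' : ∀ i j, HasDerivAt (fun s => S s i j) (S' i j) 0)
    (hV' : ∀ i j, HasDerivAt (fun s => V s i j) (V' i j) 0)
    (h0 : bZ (T 0) (S 0) (V 0) = x.1.1)
    (hB : Matrix.fromBlocks T' (-(T' * V 0 + T 0 * V'))
      (-(V'.transpose * T 0 + (V 0).transpose * T'))
        ((V'.transpose * T 0 + (V 0).transpose * T') * V 0 + (V 0).transpose * T 0 * V' + S')
      = -(B * bZ (T 0) (S 0) (V 0) + bZ (T 0) (S 0) (V 0) * B.transpose))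
    (hC : S' = -(C * S 0 + S 0 * C.transpose)) :
    (Th B (pp 𝕜 h)).1 x = (Th C h).1 (phi x) + (Pm V' h).1 (phi x) := by
  have hx : mkX (bZ (T 0) (S 0) (V 0)) (bZ_posDef _ (hT 0) (hS 0)) (0 : Matrix Empty (α ⊕ ι) ℝ)
      = x := by
    have h9 : (0 : Matrix Empty (α ⊕ ι) ℝ) = x.2 := by ext a; exact a.elim
    have h10 : mkX (bZ (T 0) (S 0) (V 0)) (bZ_posDef _ (hT 0) (hS 0))
        (0 : Matrix Empty (α ⊕ ι) ℝ) = mkX x.1.1 x.1.2.1 x.2 :=
      mkX_congr _ _ (by rw [h0]) h9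
    rw [h10, mkX_eq]
  have hy : mkX (S 0) (hS 0) (V 0) = phi x := by
    rw [← hx, phi_mkX_bZ _ (hT 0) (hS 0)]
  have h1 := KL' (pp 𝕜 h) (Z := fun s => bZ (T s) (S s) (V s))
    (fun s => bZ_posDef (V s) (hT s) (hS s)) (V := fun _ => 0) (V' := 0) (B := -B) hx
    (hasDerivAt_bZ hT' hS' hV') (by
      rw [hB, Matrix.transpose_neg, Matrix.neg_mul, Matrix.mul_neg]; abel)
    (fun a i => hasDerivAt_const _ _)
  have h2 := KL' h hS (V := V) (V' := V') (B := -C) hy hS' (by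
      rw [hC, Matrix.transpose_neg, Matrix.neg_mul, Matrix.mul_neg]; abel) hV'
  have h3 : (fun s => (pp 𝕜 h).1 (mkX (bZ (T s) (S s) (V s)) (bZ_posDef (V s) (hT s) (hS s))
      (0 : Matrix Empty (α ⊕ ι) ℝ))) = fun s => h.1 (mkX (S s) (hS s) (V s)) := by
    funext s
    rw [pp_val, phi_mkX_bZ _ (hT s) (hS s)]
  rw [h3] at h1
  have h4 := h1.unique h2
  rw [Th_neg, Th_neg, Pm_zero, Op.neg_apply, Op.neg_apply, Op.zero_apply, neg_val, neg_val,
    neg_neg, neg_neg] at h4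
  have h5 : (0 : CX 𝕜 Empty (α ⊕ ι)).1 x = 0 := rfl
  rw [h5, add_zero] at h4
  exact h4

theorem bZ_phi (x : XX Empty (α ⊕ ι)) :
    bZ x.1.1.toBlocks₁₁ (sch x.1.1) (vv x.1.1) = x.1.1 := bZ_eta x.1.2.1

theorem hasDerivAt_lin {m n : Type*} (A B : Matrix m n ℝ) (i : m) (j : n) :
    HasDerivAt (fun s : ℝ => (A + s • B) i j) (B i j) 0 := by
  have h := ((hasDerivAt_id (0 : ℝ)).mul_const (B i j)).const_add (A i j)
  rw [one_mul] at h
  exact h

theorem phi_two (x : XX Empty (α ⊕ ι)) : (phi x).2 = vv x.1.1 := rfl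

theorem Em_val (B : Matrix ι ι ℝ) (h : CX 𝕜 α ι) (y : XX α ι) :
    (Em B h).1 y = (Th B h).1 y + (Pm (-(y.2 * B.transpose)) h).1 y := by
  obtain ⟨F, rfl⟩ := res_surj h
  rw [Em_res, Th_res, Pm_res, res_apply, res_apply, res_apply]
  have h1 : (EB 𝕜 B F).1 (emX y)
      = fderiv ℝ (F : EX α ι → 𝕜) (emX y) (aY B (emX y) + aV B (emX y)) := rfl
  rw [h1, map_add]
  congr 2

/-- lower right block -/
theorem Th_phi_22 (B : Matrix ι ι ℝ) (h : CX 𝕜 α ι) :
    Th (Matrix.fromBlocks 0 0 0 B) (pp 𝕜 h) = pp 𝕜 (Em B h) := by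
  ext x
  rw [pp_val, Em_val, phi_two]
  have hT := t11_posDef x.1.2.1
  have hS := sch_posDef x.1.2.1
  refine Th_phi h x (T := fun _ => x.1.1.toBlocks₁₁) (S := crv B (sch x.1.1))
    (V := fun s => vv x.1.1 + s • (-(vv x.1.1 * B.transpose))) (T' := 0)
    (S' := -(B * sch x.1.1 + sch x.1.1 * B.transpose))
    (fun _ => hT) (crv_posDef B hS) (fun i j => hasDerivAt_const _ _)
    (hasDerivAt_crv B _) (hasDerivAt_lin _ _) ?_ ?_ ?_
  · simp only [crv_zero, zero_smul, add_zero]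
    exact bZ_phi x
  · simp only [crv_zero, zero_smul, add_zero]
    set T := x.1.1.toBlocks₁₁
    set S := sch x.1.1
    set V := vv x.1.1
    rw [bZ, Matrix.fromBlocks_transpose, Matrix.fromBlocks_multiply, Matrix.fromBlocks_multiply,
      Matrix.fromBlocks_add, Matrix.fromBlocks_neg, Matrix.fromBlocks_inj]
    refine ⟨by simp, ?_, ?_, ?_⟩
    · simp [Matrix.mul_assoc]
    · simp [Matrix.transpose_mul, Matrix.mul_assoc]
    · simp only [Matrix.transpose_neg, Matrix.transpose_mul, Matrix.transpose_transpose,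
        Matrix.mul_neg, Matrix.neg_mul, Matrix.mul_zero, Matrix.zero_mul, add_zero,
        Matrix.mul_add, Matrix.add_mul, Matrix.mul_assoc, Matrix.transpose_zero]
      abel
  · rw [crv_zero]

/-- lower left block -/
theorem Th_phi_21 (B : Matrix α ι ℝ) (h : CX 𝕜 α ι) :
    Th (Matrix.fromBlocks 0 0 B.transpose 0) (pp 𝕜 h) = pp 𝕜 (Pm B h) := by
  ext x
  have hT := t11_posDef x.1.2.1
  have hS := sch_posDef x.1.2.1
  have h1 := Th_phi h x (B := Matrix.fromBlocks 0 0 B.transpose 0)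
    (T := fun _ => x.1.1.toBlocks₁₁) (S := fun _ => sch x.1.1)
    (V := fun s => vv x.1.1 + s • B) (T' := 0) (S' := 0) (C := 0)
    (fun _ => hT) (fun _ => hS) (fun i j => hasDerivAt_const _ _)
    (fun i j => hasDerivAt_const _ _) (hasDerivAt_lin _ _) ?_ ?_ ?_
  · rw [h1, Th_zero, pp_val]
    have h5 : ((0 : OpX 𝕜 α ι) h).1 (phi x) = 0 := rfl
    rw [h5, zero_add]
  · simp only [zero_smul, add_zero]
    exact bZ_phi x
  · simp only [zero_smul, add_zero]
    set T := x.1.1.toBlocks₁₁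
    set S := sch x.1.1
    set V := vv x.1.1
    rw [bZ, Matrix.fromBlocks_transpose, Matrix.fromBlocks_multiply, Matrix.fromBlocks_multiply,
      Matrix.fromBlocks_add, Matrix.fromBlocks_neg, Matrix.fromBlocks_inj]
    refine ⟨by simp, ?_, ?_, ?_⟩
    · simp
    · simp
    · simp only [Matrix.transpose_transpose, Matrix.transpose_zero,
        Matrix.mul_neg, Matrix.neg_mul, Matrix.mul_zero, Matrix.zero_mul, add_zero,
        Matrix.mul_assoc]
      abel
  · simp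

/-- upper left block -/
theorem Th_phi_11 (B : Matrix α α ℝ) (h : CX 𝕜 α ι) (x : XX Empty (α ⊕ ι)) :
    (Th (Matrix.fromBlocks B 0 0 0) (pp 𝕜 h)).1 x
      = (Pm (B.transpose * (phi x).2) h).1 (phi x) := by
  have hT := t11_posDef x.1.2.1
  have hS := sch_posDef x.1.2.1
  rw [phi_two]
  have h1 := Th_phi h x (B := Matrix.fromBlocks B 0 0 0)
    (T := crv B x.1.1.toBlocks₁₁) (S := fun _ => sch x.1.1)
    (V := fun s => vv x.1.1 + s • (B.transpose * vv x.1.1))
    (T' := -(B * x.1.1.toBlocks₁₁ + x.1.1.toBlocks₁₁ * B.transpose)) (S' := 0) (C := 0)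
    (crv_posDef B hT) (fun _ => hS) (hasDerivAt_crv B _)
    (fun i j => hasDerivAt_const _ _) (hasDerivAt_lin _ _) ?_ ?_ ?_
  · rw [h1, Th_zero]
    have h5 : ((0 : OpX 𝕜 α ι) h).1 (phi x) = 0 := rfl
    rw [h5, zero_add]
  · simp only [crv_zero, zero_smul, add_zero]
    exact bZ_phi x
  · simp only [crv_zero, zero_smul, add_zero]
    set T := x.1.1.toBlocks₁₁
    set S := sch x.1.1
    set V := vv x.1.1
    rw [bZ, Matrix.fromBlocks_transpose, Matrix.fromBlocks_multiply, Matrix.fromBlocks_multiply,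
      Matrix.fromBlocks_add, Matrix.fromBlocks_neg, Matrix.fromBlocks_inj]
    refine ⟨by simp, ?_, ?_, ?_⟩
    · simp only [Matrix.transpose_zero,
        Matrix.mul_neg, Matrix.neg_mul, Matrix.mul_zero, Matrix.zero_mul, add_zero, zero_add,
        Matrix.mul_add, Matrix.add_mul, Matrix.mul_assoc]
      abel
    · simp only [Matrix.transpose_zero, Matrix.transpose_mul, Matrix.transpose_transpose,
        Matrix.mul_neg, Matrix.neg_mul, Matrix.mul_zero, Matrix.zero_mul, add_zero, zero_add,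
        Matrix.mul_add, Matrix.add_mul, Matrix.mul_assoc]
      abel
    · simp only [Matrix.transpose_zero, Matrix.transpose_mul, Matrix.transpose_transpose,
        Matrix.mul_neg, Matrix.neg_mul, Matrix.mul_zero, Matrix.zero_mul, add_zero, zero_add,
        Matrix.mul_add, Matrix.add_mul, Matrix.mul_assoc]
      abel
  · simp

/-- upper right block, at points with `V = 0` -/
theorem Th_phi_12 (B : Matrix α ι ℝ) (h : CX 𝕜 α ι) (x : XX Empty (α ⊕ ι))
    (hx : (phi x).2 = 0) :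
    (Th (Matrix.fromBlocks 0 B 0 0) (pp 𝕜 h)).1 x
      = (Pm (x.1.1.toBlocks₁₁⁻¹ * (B * sch x.1.1)) h).1 (phi x) := by
  have hT := t11_posDef x.1.2.1
  have hS := sch_posDef x.1.2.1
  rw [phi_two] at hx
  have h1 := Th_phi h x (B := Matrix.fromBlocks 0 B 0 0)
    (T := fun _ => x.1.1.toBlocks₁₁) (S := fun _ => sch x.1.1)
    (V := fun s => vv x.1.1 + s • (x.1.1.toBlocks₁₁⁻¹ * (B * sch x.1.1)))
    (T' := 0) (S' := 0) (C := 0)
    (fun _ => hT) (fun _ => hS) (fun i j => hasDerivAt_const _ _)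
    (fun i j => hasDerivAt_const _ _) (hasDerivAt_lin _ _) ?_ ?_ ?_
  · rw [h1, Th_zero]
    have h5 : ((0 : OpX 𝕜 α ι) h).1 (phi x) = 0 := rfl
    rw [h5, zero_add]
  · simp only [zero_smul, add_zero]
    exact bZ_phi x
  · simp only [zero_smul, add_zero]
    rw [hx]
    have hTi : x.1.1.toBlocks₁₁ * x.1.1.toBlocks₁₁⁻¹ = 1 :=
      Matrix.mul_nonsing_inv _ (unit_posDef hT)
    have hTi' : (x.1.1.toBlocks₁₁⁻¹).transpose * x.1.1.toBlocks₁₁ = 1 := by
      rw [Matrix.transpose_nonsing_inv, tr_posDef hT]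
      exact Matrix.nonsing_inv_mul _ (unit_posDef hT)
    have hSt := tr_posDef hS
    set T := x.1.1.toBlocks₁₁
    set S := sch x.1.1
    rw [bZ, Matrix.fromBlocks_transpose, Matrix.fromBlocks_multiply, Matrix.fromBlocks_multiply,
      Matrix.fromBlocks_add, Matrix.fromBlocks_neg, Matrix.fromBlocks_inj]
    refine ⟨by simp, ?_, ?_, ?_⟩
    · rw [← Matrix.mul_assoc T, hTi]
      simp
    · rw [Matrix.transpose_mul, Matrix.mul_assoc, hTi', Matrix.transpose_mul, hSt]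
      simp
    · simp
  · simp

end Phi

end Pool.Agent.MP_5aa3e6_al
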