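import Mathlib
import Pool.Agent.MP_5aa3e6_al.Blk2

/-!
The operator `Δ` on functions of the form `φ^* h`, at points with `V = 0`.
-/

set_option linter.unusedSectionVars false

namespace Pool.Agent.MP_5aa3e6_al

open scoped ContDiff Manifold Topology

section Entries

variable {α ι : Type*} [Fintype α] [DecidableEq α] [Fintype ι] [DecidableEq ι]

theorem single_22 (j k : ι) : (Matrix.single (Sum.inr j) (Sum.inr k) 1 : Matrix (α ⊕ ι) (α ⊕ ι) ℝ)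
    = Matrix.fromBlocks 0 0 0 (Matrix.single j k 1) := by
  ext p q
  rcases p with p | p <;> rcases q with q | q <;> simp [Matrix.single_apply]

theorem single_21 (j : ι) (a : α) :
    (Matrix.single (Sum.inr j) (Sum.inl a) 1 : Matrix (α ⊕ ι) (α ⊕ ι) ℝ)
    = Matrix.fromBlocks 0 0 (Matrix.single a j 1).transpose 0 := by
  ext p q
  rcases p with p | p <;> rcases q with q | q <;> simp [Matrix.single_apply, and_comm]

theorem single_12 (a : α) (j : ι) :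
    (Matrix.single (Sum.inl a) (Sum.inr j) 1 : Matrix (α ⊕ ι) (α ⊕ ι) ℝ)
    = Matrix.fromBlocks 0 (Matrix.single a j 1) 0 0 := by
  ext p q
  rcases p with p | p <;> rcases q with q | q <;> simp [Matrix.single_apply]

theorem single_11 (a b : α) :
    (Matrix.single (Sum.inl a) (Sum.inl b) 1 : Matrix (α ⊕ ι) (α ⊕ ι) ℝ)
    = Matrix.fromBlocks (Matrix.single a b 1) 0 0 0 := by
  ext p q
  rcases p with p | p <;> rcases q with q | q <;> simp [Matrix.single_apply]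

theorem single_mul_apply' {l m n : Type*} [Fintype m] [DecidableEq l] [DecidableEq m] (i : l) (j : m)
    (M : Matrix m n ℝ) (a : l) (b : n) :
    (Matrix.single i j (1 : ℝ) * M) a b = if i = a then M j b else 0 := by
  rw [Matrix.mul_apply, Finset.sum_eq_single j]
  · by_cases h : i = a
    · subst h; simp
    · rw [if_neg h, Matrix.single_apply, if_neg (fun h' => h h'.1), zero_mul]
  · intro c _ hc
    rw [Matrix.single_apply, if_neg (fun h => hc h.2.symm), zero_mul]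
  · simp

end Entries

section Th

variable {α ι : Type*} [Fintype α] [DecidableEq α] [Fintype ι] [DecidableEq ι] [Nonempty ι]
variable {𝕜 : Type*} [RCLike 𝕜]

theorem Pm_val (W : Matrix α ι ℝ) (h : CX 𝕜 α ι) (y : XX α ι) :
    (Pm W h).1 y = ∑ a, ∑ i, ((W a i : ℝ) : 𝕜) * (pM 𝕜 a i h).1 y := by
  rw [Pm_eq_sum, Op.sum_apply, sum_val]
  refine Finset.sum_congr rfl fun k _ => ?_
  rw [Op.sum_apply, sum_val]
  rfl

theorem th22 (j k : ι) (h : CX 𝕜 α ι) :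
    thM 𝕜 Empty (Sum.inr j : α ⊕ ι) (Sum.inr k) (pp 𝕜 h) = pp 𝕜 (eM 𝕜 α j k h) := by
  rw [thM, single_22, Th_phi_22]; rfl

theorem th21 (j : ι) (a : α) (h : CX 𝕜 α ι) :
    thM 𝕜 Empty (Sum.inr j : α ⊕ ι) (Sum.inl a) (pp 𝕜 h) = pp 𝕜 (pM 𝕜 a j h) := by
  rw [thM, single_21, Th_phi_21]; rfl

/-- the operator giving `Θ_ab` on functions `φ^* h` -/
noncomputable def gg (𝕜 : Type*) [RCLike 𝕜] {α : Type*} (ι : Type*) [Fintype α] [DecidableEq α]
    [Fintype ι] [DecidableEq ι] (a b : α) : OpX 𝕜 α ι :=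
  ∑ j, mulM (cV a j) * pM 𝕜 b j

theorem th11 (a b : α) (h : CX 𝕜 α ι) :
    thM 𝕜 Empty (Sum.inl a : α ⊕ ι) (Sum.inl b) (pp 𝕜 h) = pp 𝕜 (gg 𝕜 ι a b h) := by
  ext x
  rw [thM, single_11, Th_phi_11, pp_val, Pm_val, gg, Op.sum_apply, sum_val,
    Finset.sum_eq_single b]
  · refine Finset.sum_congr rfl fun j _ => ?_
    rw [Op.mul_apply, mulM_apply, mul_val, cV_apply, Matrix.transpose_single, single_mul_apply',
      if_pos rfl]
  · intro c _ hc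
    refine Finset.sum_eq_zero fun j _ => ?_
    rw [Matrix.transpose_single, single_mul_apply', if_neg hc.symm]
    simp
  · simp

theorem gg_val_zero (a b : α) (h : CX 𝕜 α ι) {y : XX α ι} (hy : y.2 = 0) :
    (gg 𝕜 ι a b h).1 y = 0 := by
  rw [gg, Op.sum_apply, sum_val]
  refine Finset.sum_eq_zero fun j _ => ?_
  rw [Op.mul_apply, mulM_apply, mul_val, cV_apply, hy]
  simp

theorem th12 (a : α) (j : ι) (h : CX 𝕜 α ι) {x : XX Empty (α ⊕ ι)} (hx : (phi x).2 = 0) :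
    (thM 𝕜 Empty (Sum.inl a : α ⊕ ι) (Sum.inr j) (pp 𝕜 h)).1 x
      = ∑ b, ∑ k, ((x.1.1.toBlocks₁₁⁻¹ b a * sch x.1.1 j k : ℝ) : 𝕜) *
        (pM 𝕜 b k h).1 (phi x) := by
  rw [thM, single_12, Th_phi_12 _ _ _ hx, Pm_val]
  refine Finset.sum_congr rfl fun b _ => Finset.sum_congr rfl fun k _ => ?_
  congr 2
  rw [Matrix.mul_apply, Finset.sum_eq_single a]
  · rw [single_mul_apply', if_pos rfl]
  · intro c _ hc
    rw [single_mul_apply', if_neg hc.symm, mul_zero]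
  · simp

/-- the factor `det(S)^(1/n)` -/
noncomputable def wR (x : XX Empty (α ⊕ ι)) : ℝ :=
  (sch x.1.1).det ^ ((1 : ℝ) / (Fintype.card ι : ℝ))

theorem wR_pos (x : XX Empty (α ⊕ ι)) : 0 < wR x :=
  Real.rpow_pos_of_pos (sch_posDef x.1.2.1).det_pos _

theorem sch_eq (x : XX Empty (α ⊕ ι)) : sch x.1.1 = wR x • (phi x).1.1 := by
  have h1 : (phi x).1.1 = nrm (sch x.1.1) := rfl
  have h2 := (sch_posDef x.1.2.1).det_pos
  rw [h1, nrm, smul_smul, wR, ← Real.rpow_add h2]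
  have h3 : (1 : ℝ) / (Fintype.card ι : ℝ) + -1 / (Fintype.card ι : ℝ) = 0 := by ring
  rw [h3, Real.rpow_zero, one_smul]

theorem wR_pow (x : XX Empty (α ⊕ ι)) : wR x ^ (Fintype.card ι) = (sch x.1.1).det := by
  have hn : (Fintype.card ι : ℝ) ≠ 0 := by exact_mod_cast Fintype.card_ne_zero
  rw [wR, ← Real.rpow_natCast, ← Real.rpow_mul (sch_posDef x.1.2.1).det_pos.le,
    one_div, inv_mul_cancel₀ hn, Real.rpow_one]

theorem wR_mem : (wR : XX Empty (α ⊕ ι) → ℝ) ∈ Sm ℝ (emX : XX Empty (α ⊕ ι) → EX Empty (α ⊕ ι)) :=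
  rpow_mem_Sm isClosed_emX SmM_sch.det (fun x => (sch_posDef x.1.2.1).det_pos) _

/-- `w` as a smooth function -/
noncomputable def wC (𝕜 : Type*) [RCLike 𝕜] (α ι : Type*) [Fintype α] [DecidableEq α] [Fintype ι]
    [DecidableEq ι] [Nonempty ι] : CX 𝕜 Empty (α ⊕ ι) :=
  ⟨fun x => ((wR x : ℝ) : 𝕜), ofReal_mem_Sm wR_mem⟩

/-- `(T⁻¹)_ab` as a smooth function -/
noncomputable def kC (𝕜 : Type*) [RCLike 𝕜] {α : Type*} (ι : Type*) [Fintype α] [DecidableEq α]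
    [Fintype ι] [DecidableEq ι] [Nonempty ι] (a b : α) : CX 𝕜 Empty (α ⊕ ι) :=
  ⟨fun x => ((x.1.1.toBlocks₁₁⁻¹ a b : ℝ) : 𝕜), ofReal_mem_Sm
    ((SmM.inv (A := fun x : XX Empty (α ⊕ ι) => x.1.1.toBlocks₁₁)
      (fun i j => SmM_Y (α := Empty) (ι := α ⊕ ι) _ _) isClosed_emX
        fun x => (t11_posDef x.1.2.1).det_pos.ne') a b)⟩

theorem wC_val (x : XX Empty (α ⊕ ι)) : (wC 𝕜 α ι).1 x = ((wR x : ℝ) : 𝕜) := rfl

theorem kC_val (a b : α) (x : XX Empty (α ⊕ ι)) :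
    (kC 𝕜 ι a b).1 x = ((x.1.1.toBlocks₁₁⁻¹ a b : ℝ) : 𝕜) := rfl

theorem Qd_val (a b : α) (h : CX 𝕜 α ι) (y : XX α ι) :
    (Qd 𝕜 ι a b h).1 y = ∑ i, ∑ j, ((y.1.1 i j : ℝ) : 𝕜) * (pM 𝕜 a i (pM 𝕜 b j h)).1 y := by
  rw [Qd, Op.sum_apply, sum_val]
  refine Finset.sum_congr rfl fun i _ => ?_
  rw [Op.sum_apply, sum_val]
  rfl

theorem pM_comm' (a b : α) (i j : ι) (h : CX 𝕜 α ι) :
    pM 𝕜 a i (pM 𝕜 b j h) = pM 𝕜 b j (pM 𝕜 a i h) :=
  DFunLike.congr_fun (Pm_Pm_comm (𝕜 := 𝕜) (Matrix.single a i 1) (Matrix.single b j 1)) h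

/-- the mixed terms -/
theorem mixed (h : CX 𝕜 α ι) {x : XX Empty (α ⊕ ι)} (hx : (phi x).2 = 0) :
    ∑ a : α, ∑ j : ι, (thM 𝕜 Empty (Sum.inl a : α ⊕ ι) (Sum.inr j)
      (thM 𝕜 Empty (Sum.inr j : α ⊕ ι) (Sum.inl a) (pp 𝕜 h))).1 x
      = ∑ a : α, ∑ b : α, (wC 𝕜 α ι).1 x * (kC 𝕜 ι a b).1 x * (Qd 𝕜 ι a b h).1 (phi x) := by
  have h1 : ∀ (a : α) (j : ι), (thM 𝕜 Empty (Sum.inl a : α ⊕ ι) (Sum.inr j)
      (thM 𝕜 Empty (Sum.inr j : α ⊕ ι) (Sum.inl a) (pp 𝕜 h))).1 x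
      = ∑ b, (wC 𝕜 α ι).1 x * (kC 𝕜 ι b a).1 x * ∑ k, (((phi x).1.1 j k : ℝ) : 𝕜) *
        (pM 𝕜 b k (pM 𝕜 a j h)).1 (phi x) := by
    intro a j
    rw [th21, th12 a j _ hx]
    refine Finset.sum_congr rfl fun b _ => ?_
    rw [Finset.mul_sum]
    refine Finset.sum_congr rfl fun k _ => ?_
    rw [sch_eq, wC_val, kC_val, Matrix.smul_apply, smul_eq_mul]
    push_cast
    ring
  simp only [h1]
  have h2 : ∀ a b : α, (wC 𝕜 α ι).1 x * (kC 𝕜 ι a b).1 x * (Qd 𝕜 ι a b h).1 (phi x)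
      = ∑ j, (wC 𝕜 α ι).1 x * (kC 𝕜 ι a b).1 x * ∑ k, (((phi x).1.1 j k : ℝ) : 𝕜) *
        (pM 𝕜 a k (pM 𝕜 b j h)).1 (phi x) := by
    intro a b
    rw [Qd_val, Finset.mul_sum]
    have h3 : ∀ i j, (phi x).1.1 i j = (phi x).1.1 j i := by
      intro i j
      conv_lhs => rw [← PD_symm (phi x).1]
      rfl
    simp only [Finset.mul_sum]
    rw [Finset.sum_comm]
    refine Finset.sum_congr rfl fun j _ => Finset.sum_congr rfl fun k _ => ?_
    rw [h3]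
  simp only [h2]
  refine Eq.trans (Finset.sum_congr rfl fun a _ => Finset.sum_comm) ?_
  exact Finset.sum_comm

end Th

end Pool.Agent.MP_5aa3e6_al
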