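import Mathlib
import Pool.Agent.MP_5aa3e6_al.Blk3

/-!
The operator `Δ` on functions of the form `φ^* h`.
-/

set_option linter.unusedSectionVars false

namespace Pool.Agent.MP_5aa3e6_al

open scoped ContDiff Manifold Topology

section DlPhi

variable {α ι : Type*} [Fintype α] [DecidableEq α] [Fintype ι] [DecidableEq ι] [Nonempty ι]
variable {𝕜 : Type*} [RCLike 𝕜]

theorem Em_one' : (Em 1 : OpX 𝕜 α ι) = ∑ j, eM 𝕜 α j j := by
  simp only [eM]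
  rw [← Em_sum]
  congr 1
  ext a b
  rw [Matrix.sum_apply, Matrix.one_apply]
  simp only [Matrix.single_apply]
  by_cases hab : a = b
  · subst hab; simp
  · rw [if_neg hab]
    symm
    refine Finset.sum_eq_zero fun c _ => if_neg ?_
    rintro ⟨rfl, rfl⟩
    exact hab rfl

theorem zero_val (y : XX α ι) : (0 : CX 𝕜 α ι).1 y = 0 := rfl

theorem Em_val_zero (B : Matrix ι ι ℝ) (h : CX 𝕜 α ι) {y : XX α ι} (hy : y.2 = 0) :
    (Em B h).1 y = (Th B h).1 y := by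
  rw [Em_val, hy, Matrix.zero_mul, neg_zero, Pm_zero, Op.zero_apply, zero_val, add_zero]

theorem eM_val_zero (i j : ι) (h : CX 𝕜 α ι) {y : XX α ι} (hy : y.2 = 0) :
    (eM 𝕜 α i j h).1 y = (thM 𝕜 α i j h).1 y := Em_val_zero _ h hy

theorem eM_eM_val_zero (i j k l : ι) (h : CX 𝕜 α ι) {y : XX α ι} (hy : y.2 = 0) :
    (eM 𝕜 α i j (eM 𝕜 α k l h)).1 y = (thM 𝕜 α i j (thM 𝕜 α k l h)).1 y := by
  rw [eM_val_zero _ _ _ hy, eM_eq k l, Op.sub_apply, Op.sum_apply, map_sub, map_sum, sub_val,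
    sum_val]
  rw [Finset.sum_eq_zero, sub_zero]
  intro a _
  rw [Op.mul_apply, mulM_apply, thM_mul]
  have h1 : thM 𝕜 α i j (cV a l) = 0 := Th_cV _ _ _
  rw [h1, zero_mul, zero_add, mul_val, cV_apply, hy]
  simp

theorem Dl_val (h : CX 𝕜 α ι) (y : XX α ι) :
    (Dl 𝕜 α ι h).1 y = ∑ i, ∑ j, (thM 𝕜 α i j (thM 𝕜 α j i h)).1 y := by
  rw [Dl, Op.sum_apply, sum_val]
  refine Finset.sum_congr rfl fun i _ => ?_
  rw [Op.sum_apply, sum_val]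
  rfl

/-- the mixed terms in the other order -/
theorem mixed' (h : CX 𝕜 α ι) {x : XX Empty (α ⊕ ι)} (hx : (phi x).2 = 0) :
    ∑ j : ι, ∑ a : α, (thM 𝕜 Empty (Sum.inr j : α ⊕ ι) (Sum.inl a)
      (thM 𝕜 Empty (Sum.inl a : α ⊕ ι) (Sum.inr j) (pp 𝕜 h))).1 x
      = ∑ a : α, ∑ b : α, (wC 𝕜 α ι).1 x * (kC 𝕜 ι a b).1 x * (Qd 𝕜 ι a b h).1 (phi x) := by
  rw [← mixed h hx, Finset.sum_comm]
  have h1 : ∀ (a : α) (j : ι), (thM 𝕜 Empty (Sum.inr j : α ⊕ ι) (Sum.inl a)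
      (thM 𝕜 Empty (Sum.inl a : α ⊕ ι) (Sum.inr j) (pp 𝕜 h))).1 x
      = (thM 𝕜 Empty (Sum.inl a : α ⊕ ι) (Sum.inr j)
      (thM 𝕜 Empty (Sum.inr j : α ⊕ ι) (Sum.inl a) (pp 𝕜 h))).1 x + (eM 𝕜 α j j h).1 (phi x) := by
    intro a j
    have h2 := thM_comm (𝕜 := 𝕜) (α := Empty) (Sum.inr j : α ⊕ ι) (Sum.inl a) (Sum.inl a)
      (Sum.inr j)
    rw [if_pos rfl, if_pos rfl] at h2
    have h3 := DFunLike.congr_fun h2 (pp 𝕜 h)
    rw [Op.sub_apply, Op.mul_apply, Op.mul_apply, Op.sub_apply] at h3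
    have h4 := congrFun (congrArg Subtype.val h3) x
    rw [sub_val, sub_val] at h4
    rw [th22, th11, pp_val, pp_val, gg_val_zero _ _ _ hx, sub_zero] at h4
    exact sub_eq_iff_eq_add'.mp h4
  simp only [h1, Finset.sum_add_distrib]
  have h5 : ∑ j, (eM 𝕜 α j j h).1 (phi x) = 0 := by
    have h6 : ∑ j, (eM 𝕜 α j j h).1 (phi x) = (Em 1 h).1 (phi x) := by
      rw [Em_one', Op.sum_apply, sum_val]
    rw [h6, Em_val_zero _ _ hx, Th_one, Op.zero_apply, zero_val]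
  rw [h5]
  simp

theorem Dl_pp_zero (h : CX 𝕜 α ι) {x : XX Empty (α ⊕ ι)} (hx : (phi x).2 = 0) :
    (Dl 𝕜 Empty (α ⊕ ι) (pp 𝕜 h)).1 x = (Dl 𝕜 α ι h).1 (phi x)
      + 2 * ∑ a, ∑ b, (wC 𝕜 α ι).1 x * (kC 𝕜 ι a b).1 x * (Qd 𝕜 ι a b h).1 (phi x) := by
  rw [Dl_val, Fintype.sum_sum_type]
  simp only [Fintype.sum_sum_type, Finset.sum_add_distrib]
  rw [mixed h hx, mixed' h hx]
  have h1 : ∑ a : α, ∑ b : α, (thM 𝕜 Empty (Sum.inl a : α ⊕ ι) (Sum.inl b)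
      (thM 𝕜 Empty (Sum.inl b : α ⊕ ι) (Sum.inl a) (pp 𝕜 h))).1 x = 0 := by
    refine Finset.sum_eq_zero fun a _ => Finset.sum_eq_zero fun b _ => ?_
    rw [th11, th11, pp_val, gg_val_zero _ _ _ hx]
  have h2 : ∑ j : ι, ∑ k : ι, (thM 𝕜 Empty (Sum.inr j : α ⊕ ι) (Sum.inr k)
      (thM 𝕜 Empty (Sum.inr k : α ⊕ ι) (Sum.inr j) (pp 𝕜 h))).1 x = (Dl 𝕜 α ι h).1 (phi x) := by
    rw [Dl_val]
    refine Finset.sum_congr rfl fun j _ => Finset.sum_congr rfl fun k _ => ?_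
    rw [th22, th22, pp_val, eM_eM_val_zero _ _ _ _ _ hx]
  rw [h1, h2]
  ring

end DlPhi

section Equi

variable {α ι : Type*} [Fintype α] [DecidableEq α] [Fintype ι] [DecidableEq ι] [Nonempty ι]
variable {𝕜 : Type*} [RCLike 𝕜]

/-- the element of `SL` covering `(A, a)` -/
def gt (A : Matrix.SpecialLinearGroup ι ℝ) (a : Matrix α ι ℝ) :
    Matrix.SpecialLinearGroup (α ⊕ ι) ℝ :=
  ⟨Matrix.fromBlocks 1 0 (-(A.1 * a.transpose)) A.1, by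
    rw [Matrix.det_fromBlocks_zero₁₂, Matrix.det_one, one_mul, A.2]⟩

theorem gt_bZ (A : Matrix.SpecialLinearGroup ι ℝ) (a : Matrix α ι ℝ) (T : Matrix α α ℝ)
    (S : Matrix ι ι ℝ) (V : Matrix α ι ℝ) :
    (gt A a).1 * bZ T S V * (gt A a).1.transpose
      = bZ T (A.1 * S * A.1.transpose) ((V + a) * A.1.transpose) := by
  change Matrix.fromBlocks 1 0 (-(A.1 * a.transpose)) A.1 * bZ T S V *
    (Matrix.fromBlocks 1 0 (-(A.1 * a.transpose)) A.1).transpose = _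
  rw [bZ, bZ, Matrix.fromBlocks_transpose, Matrix.fromBlocks_multiply, Matrix.fromBlocks_multiply,
    Matrix.fromBlocks_inj]
  refine ⟨by simp, ?_, ?_, ?_⟩
  · simp only [Matrix.transpose_one, Matrix.transpose_neg, Matrix.transpose_mul,
      Matrix.transpose_transpose,
      Matrix.one_mul, Matrix.zero_mul, add_zero, Matrix.mul_neg, Matrix.neg_mul, Matrix.add_mul,
      Matrix.mul_add, neg_add, ← Matrix.mul_assoc]
    abel
  · simp only [Matrix.transpose_one, Matrix.transpose_zero, Matrix.transpose_mul,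
      Matrix.transpose_transpose, Matrix.transpose_add,
      Matrix.mul_one, Matrix.mul_zero, add_zero, Matrix.mul_neg, Matrix.neg_mul, Matrix.add_mul,
      Matrix.mul_add, neg_add, ← Matrix.mul_assoc]
    abel
  · simp only [Matrix.transpose_neg, Matrix.transpose_mul,
      Matrix.transpose_transpose, Matrix.transpose_add, Matrix.mul_neg, Matrix.neg_mul,
      Matrix.add_mul,
      Matrix.mul_add, neg_add, ← Matrix.mul_assoc, neg_neg]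
    abel

theorem act_gt_Y (A : Matrix.SpecialLinearGroup ι ℝ) (a : Matrix α ι ℝ) (x : XX Empty (α ⊕ ι)) :
    (act (gt A a) 0 x).1.1 = bZ x.1.1.toBlocks₁₁ (A.1 * sch x.1.1 * A.1.transpose)
      ((vv x.1.1 + a) * A.1.transpose) := by
  change (gt A a).1 * x.1.1 * (gt A a).1.transpose = _
  conv_lhs => rw [← bZ_phi x]
  rw [gt_bZ]

theorem t11_act_gt (A : Matrix.SpecialLinearGroup ι ℝ) (a : Matrix α ι ℝ)
    (x : XX Empty (α ⊕ ι)) : (act (gt A a) 0 x).1.1.toBlocks₁₁ = x.1.1.toBlocks₁₁ := by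
  rw [act_gt_Y, t11_bZ]

theorem sch_act_gt (A : Matrix.SpecialLinearGroup ι ℝ) (a : Matrix α ι ℝ)
    (x : XX Empty (α ⊕ ι)) :
    sch (act (gt A a) 0 x).1.1 = A.1 * sch x.1.1 * A.1.transpose := by
  rw [act_gt_Y, sch_bZ _ _ (unit_posDef (t11_posDef x.1.2.1))]

theorem vv_act_gt (A : Matrix.SpecialLinearGroup ι ℝ) (a : Matrix α ι ℝ)
    (x : XX Empty (α ⊕ ι)) :
    vv (act (gt A a) 0 x).1.1 = (vv x.1.1 + a) * A.1.transpose := by
  rw [act_gt_Y, vv_bZ _ _ (unit_posDef (t11_posDef x.1.2.1))]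

theorem phi_act_gt (A : Matrix.SpecialLinearGroup ι ℝ) (a : Matrix α ι ℝ)
    (x : XX Empty (α ⊕ ι)) : phi (act (gt A a) 0 x) = act A a (phi x) := by
  apply Prod.ext
  · apply Subtype.ext
    change nrm (sch (act (gt A a) 0 x).1.1) = A.1 * nrm (sch x.1.1) * A.1.transpose
    rw [sch_act_gt, nrm, nrm, Matrix.det_mul, Matrix.det_mul, Matrix.det_transpose, A.2, one_mul,
      mul_one, Matrix.mul_smul, Matrix.smul_mul]
  · exact vv_act_gt A a x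

theorem rhoX_pp (A : Matrix.SpecialLinearGroup ι ℝ) (a : Matrix α ι ℝ) (h : CX 𝕜 α ι) :
    rhoX 𝕜 (gt A a) 0 (pp 𝕜 h) = pp 𝕜 (rhoX 𝕜 A a h) := by
  ext x
  rw [rhoX_apply, pp_val, pp_val, rhoX_apply, phi_act_gt]

theorem kC_act_gt (A : Matrix.SpecialLinearGroup ι ℝ) (a : Matrix α ι ℝ)
    (x : XX Empty (α ⊕ ι)) (b c : α) :
    (kC 𝕜 ι b c).1 (act (gt A a) 0 x) = (kC 𝕜 ι b c).1 x := by
  rw [kC_val, kC_val, t11_act_gt]

theorem wC_act_gt (A : Matrix.SpecialLinearGroup ι ℝ) (a : Matrix α ι ℝ)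
    (x : XX Empty (α ⊕ ι)) :
    (wC 𝕜 α ι).1 (act (gt A a) 0 x) = (wC 𝕜 α ι).1 x := by
  rw [wC_val, wC_val, wR, wR, sch_act_gt, Matrix.det_mul, Matrix.det_mul, Matrix.det_transpose,
    A.2, one_mul, mul_one]

theorem exists_act_gt (x : XX Empty (α ⊕ ι)) :
    ∃ (a : Matrix α ι ℝ) (y : XX Empty (α ⊕ ι)), act (gt 1 a) 0 y = x ∧ (phi y).2 = 0 := by
  have hT := t11_posDef x.1.2.1
  have hS := sch_posDef x.1.2.1
  refine ⟨vv x.1.1, (⟨bZ x.1.1.toBlocks₁₁ (sch x.1.1) 0, bZ_posDef _ hT hS, ?_⟩, 0), ?_, ?_⟩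
  · rw [bZ_det _ _ _ (unit_posDef hT), ← bZ_det _ _ (vv x.1.1) (unit_posDef hT), bZ_phi]
    exact x.1.2.2
  · apply Prod.ext
    · apply Subtype.ext
      rw [act_gt_Y]
      have h1 : (1 : Matrix.SpecialLinearGroup ι ℝ).1 = 1 := Matrix.SpecialLinearGroup.coe_one
      rw [h1, Matrix.transpose_one, Matrix.one_mul, Matrix.mul_one, Matrix.mul_one]
      change bZ (bZ x.1.1.toBlocks₁₁ (sch x.1.1) 0).toBlocks₁₁
        (sch (bZ x.1.1.toBlocks₁₁ (sch x.1.1) 0))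
        (vv (bZ x.1.1.toBlocks₁₁ (sch x.1.1) 0) + vv x.1.1) = x.1.1
      rw [t11_bZ, sch_bZ _ _ (unit_posDef hT), vv_bZ _ _ (unit_posDef hT), zero_add, bZ_phi]
    · ext a; exact a.elim
  · exact vv_bZ _ _ (unit_posDef hT)

/-- the operator `Δ` on functions of the form `φ^* h` -/
theorem Dl_pp (h : CX 𝕜 α ι) :
    Dl 𝕜 Empty (α ⊕ ι) (pp 𝕜 h) = pp 𝕜 (Dl 𝕜 α ι h)
      + (2 : 𝕜) • ∑ a, ∑ b, (wC 𝕜 α ι) * (kC 𝕜 ι a b) * pp 𝕜 (Qd 𝕜 ι a b h) := by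
  ext x
  obtain ⟨a, y, rfl, hy⟩ := exists_act_gt x
  have h1 : (Dl 𝕜 Empty (α ⊕ ι) (pp 𝕜 h)).1 (act (gt 1 a) 0 y)
      = (Dl 𝕜 Empty (α ⊕ ι) (pp 𝕜 (rhoX 𝕜 1 a h))).1 y := by
    rw [← rhoX_apply, ← Dl_rhoX, rhoX_pp]
  rw [h1, Dl_pp_zero _ hy, add_val, pp_val, phi_act_gt, Dl_rhoX, rhoX_apply, smul_val, sum_val]
  congr 2
  refine Finset.sum_congr rfl fun b _ => ?_
  rw [sum_val]
  refine Finset.sum_congr rfl fun c _ => ?_
  rw [mul_val, mul_val, pp_val, phi_act_gt, wC_act_gt, kC_act_gt, Qd_rhoX, rhoX_apply]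

end Equi

end Pool.Agent.MP_5aa3e6_al
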