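import Mathlib
import Pool.Agent.MP_5aa3e6_al.Blk4

/-!
Functions constant along the fibres of `φ`; functions commuting with `D_ξ₀`.
-/

set_option linter.unusedSectionVars false

namespace Pool.Agent.MP_5aa3e6_al

open scoped ContDiff Manifold Topology

section Xi

variable {α ι : Type*} [Fintype α] [DecidableEq α] [Fintype ι] [DecidableEq ι] [Nonempty ι]
variable {𝕜 : Type*} [RCLike 𝕜]

/-- the matrix `[1, 0]` -/
def xi0 (α ι : Type*) [DecidableEq α] : Matrix α (α ⊕ ι) ℝ := Matrix.fromCols 1 0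

omit [Fintype α] [Fintype ι] [DecidableEq ι] [Nonempty ι] in
theorem xi0_inl (a b : α) : xi0 α ι a (Sum.inl b) = if a = b then 1 else 0 := by
  rw [xi0, Matrix.fromCols_apply_inl, Matrix.one_apply]

omit [Fintype α] [Fintype ι] [DecidableEq ι] [Nonempty ι] in
theorem xi0_inr (a : α) (j : ι) : xi0 α ι a (Sum.inr j) = 0 := by
  rw [xi0, Matrix.fromCols_apply_inr, Matrix.zero_apply]

theorem xi0_sum {M : Type*} [AddCommGroup M] [Module 𝕜 M] (T : (α ⊕ ι) → (α ⊕ ι) → M) (a b : α) :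
    ∑ i, ∑ j, ((xi0 α ι a i * xi0 α ι b j : ℝ) : 𝕜) • T i j = T (Sum.inl a) (Sum.inl b) := by
  rw [Finset.sum_eq_single (Sum.inl a)]
  · rw [Finset.sum_eq_single (Sum.inl b)]
    · rw [xi0_inl, xi0_inl, if_pos rfl, if_pos rfl]; simp
    · rintro (c | c) _ hc
      · rw [xi0_inl b c, if_neg (fun h => hc (by rw [h]))]; simp
      · rw [xi0_inr]; simp
    · simp
  · rintro (c | c) _ hc
    · refine Finset.sum_eq_zero fun j _ => ?_
      rw [xi0_inl a c, if_neg (fun h => hc (by rw [h]))]; simp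
    · refine Finset.sum_eq_zero fun j _ => ?_
      rw [xi0_inr]; simp
  · simp

theorem qf_xi0 (a b : α) : qf 𝕜 (xi0 α ι) a b = cY (Sum.inl a) (Sum.inl b) := xi0_sum _ a b

theorem Hq_xi0 (a b : α) : Hq 𝕜 (xi0 α ι) a b = Hop 𝕜 Empty (Sum.inl a) (Sum.inl b) :=
  xi0_sum _ a b

theorem xi0_gt (A : Matrix.SpecialLinearGroup ι ℝ) (a : Matrix α ι ℝ) :
    xi0 α ι * (gt A a).1 = xi0 α ι := by
  change Matrix.fromCols 1 0 * Matrix.fromBlocks 1 0 (-(A.1 * a.transpose)) A.1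
    = Matrix.fromCols 1 0
  rw [Matrix.fromCols_mul_fromBlocks]
  simp

end Xi

section Fibre

variable {α ι : Type*} [Fintype α] [DecidableEq α] [Fintype ι] [DecidableEq ι] [Nonempty ι]
variable {𝕜 : Type*} [RCLike 𝕜]

theorem one_smul_pd (Y : Matrix ι ι ℝ) (hY : Y.PosDef) : ∃ c : ℝ, 0 < c ∧ nrm Y = c • Y :=
  ⟨_, Real.rpow_pos_of_pos hY.det_pos _, rfl⟩

/-- `Th B` for `B` supported in the first columns -/
theorem Th_left_inl {u : CX 𝕜 Empty (α ⊕ ι)}
    (hu : ∀ a b : α, Hop 𝕜 Empty (Sum.inl a : α ⊕ ι) (Sum.inl b) u = 0)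
    (x : XX Empty (α ⊕ ι)) (h : Matrix α α ℝ) :
    (Th (x.1.1 * Matrix.fromBlocks h 0 0 0) u).1 x = 0 := by
  rw [Th_left_val, Fintype.sum_sum_type]
  have h1 : ∀ k : α, ∑ l : α ⊕ ι, (((Matrix.fromBlocks h 0 0 0 : Matrix (α ⊕ ι) (α ⊕ ι) ℝ)
      (Sum.inl k) l : ℝ) : 𝕜) * (Hop 𝕜 Empty (Sum.inl k : α ⊕ ι) l u).1 x = 0 := by
    intro k
    rw [Fintype.sum_sum_type]
    simp only [hu]
    simp [zero_val]
  have h2 : ∀ k : ι, ∑ l : α ⊕ ι, (((Matrix.fromBlocks h 0 0 0 : Matrix (α ⊕ ι) (α ⊕ ι) ℝ)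
      (Sum.inr k) l : ℝ) : 𝕜) * (Hop 𝕜 Empty (Sum.inr k : α ⊕ ι) l u).1 x = 0 := by
    intro k
    rw [Fintype.sum_sum_type]
    simp
  simp only [h1, h2]
  simp

/-- a function killed by `H_ab` is constant along the fibres of `φ` -/
theorem const_fibre {u : CX 𝕜 Empty (α ⊕ ι)}
    (hu : ∀ a b : α, Hop 𝕜 Empty (Sum.inl a : α ⊕ ι) (Sum.inl b) u = 0)
    {T₀ T₁ : Matrix α α ℝ} (h₀ : T₀.PosDef) (h₁ : T₁.PosDef) {S : Matrix ι ι ℝ} (hS : S.PosDef)
    (V : Matrix α ι ℝ) :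
    u.1 (mkX (bZ T₀ S V) (bZ_posDef V h₀ hS) 0) = u.1 (mkX (bZ T₁ S V) (bZ_posDef V h₁ hS) 0) := by
  set T : ℝ → Matrix α α ℝ := fun s => (1 - s) ^ 2 • T₀ + s ^ 2 • T₁ with hT
  have hpos : ∀ s, (T s).PosDef := by
    intro s
    by_cases hs : s = 0
    · subst hs
      simpa [hT] using h₀
    · exact Matrix.PosDef.posSemidef_add (h₀.posSemidef.smul (sq_nonneg _))
        (h₁.smul (by positivity))
  set T' : ℝ → Matrix α α ℝ := fun s => (-(2 * (1 - s))) • T₀ + (2 * s) • T₁ with hT'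
  have hTd : ∀ s i j, HasDerivAt (fun s => T s i j) (T' s i j) s := by
    intro s i j
    have h6 := ((((hasDerivAt_id s).const_sub 1).pow 2).mul_const
      (T₀ i j)).add ((hasDerivAt_pow 2 s).mul_const (T₁ i j))
    have h5 : HasDerivAt (fun s : ℝ => (1 - s) ^ 2 * T₀ i j + s ^ 2 * T₁ i j)
        ((-(2 * (1 - s))) * T₀ i j + (2 * s) * T₁ i j) s := by
      refine h6.congr_deriv ?_
      simp
    exact h5
  have hder : ∀ s, HasDerivAt (fun s => u.1 (mkX (bZ (T s) S V) (bZ_posDef V (hpos s) hS)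
      (0 : Matrix Empty (α ⊕ ι) ℝ))) 0 s := by
    intro s
    set h : Matrix α α ℝ := (1 / 2 : ℝ) • ((T s)⁻¹ * T' s * (T s)⁻¹) with hh
    have hTt := tr_posDef (hpos s)
    have hTt' : (T' s).transpose = T' s := by
      rw [hT']
      simp only [Matrix.transpose_add, Matrix.transpose_smul, tr_posDef h₀, tr_posDef h₁]
    have hTi : T s * (T s)⁻¹ = 1 := Matrix.mul_nonsing_inv _ (unit_posDef (hpos s))
    have hTi' : (T s)⁻¹ * T s = 1 := Matrix.nonsing_inv_mul _ (unit_posDef (hpos s))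
    have hht : h.transpose = h := by
      rw [hh, Matrix.transpose_smul, Matrix.transpose_mul, Matrix.transpose_mul,
        Matrix.transpose_nonsing_inv, hTt, hTt', Matrix.mul_assoc]
    have hThT : T s * h * T s = (1 / 2 : ℝ) • T' s := by
      rw [hh, Matrix.mul_smul, Matrix.smul_mul, ← Matrix.mul_assoc, ← Matrix.mul_assoc, hTi,
        Matrix.one_mul, Matrix.mul_assoc, hTi', Matrix.mul_one]
    have hZt : (bZ (T s) S V).transpose = bZ (T s) S V := tr_posDef (bZ_posDef V (hpos s) hS)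
    have hder := hasDerivAt_bZ (T := T) (S := fun _ => S) (V := fun _ => V) (hTd s)
      (S' := 0) (V' := 0) (fun i j => hasDerivAt_const _ _) (fun i j => hasDerivAt_const _ _)
    have h4 := KL u (Z := fun s => bZ (T s) S V) (fun s => bZ_posDef V (hpos s) hS)
      (V := fun _ => 0) (V' := 0)
      (B := bZ (T s) S V * Matrix.fromBlocks h 0 0 0) hder ?_ (fun a i => hasDerivAt_const _ _)
    · refine h4.congr_deriv ?_
      have h5 : bZ (T s) S V * Matrix.fromBlocks h 0 0 0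
          = (mkX (bZ (T s) S V) (bZ_posDef V (hpos s) hS) (0 : Matrix Empty (α ⊕ ι) ℝ)).1.1
            * Matrix.fromBlocks (((bZ (T s) S V).det ^
              (-(1 : ℝ) / (Fintype.card (α ⊕ ι) : ℝ)))⁻¹ • h) 0 0 0 := by
        have h6 : (mkX (bZ (T s) S V) (bZ_posDef V (hpos s) hS)
            (0 : Matrix Empty (α ⊕ ι) ℝ)).1.1
            = ((bZ (T s) S V).det ^ (-(1 : ℝ) / (Fintype.card (α ⊕ ι) : ℝ))) • bZ (T s) S V := rfl
        have h7 : ((bZ (T s) S V).det ^ (-(1 : ℝ) / (Fintype.card (α ⊕ ι) : ℝ))) ≠ 0 :=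
          (Real.rpow_pos_of_pos (bZ_posDef V (hpos s) hS).det_pos _).ne'
        have h8 : (Matrix.fromBlocks (((bZ (T s) S V).det ^
              (-(1 : ℝ) / (Fintype.card (α ⊕ ι) : ℝ)))⁻¹ • h) 0 0 0 : Matrix (α ⊕ ι) (α ⊕ ι) ℝ)
            = ((bZ (T s) S V).det ^
              (-(1 : ℝ) / (Fintype.card (α ⊕ ι) : ℝ)))⁻¹ • Matrix.fromBlocks h 0 0 0 := by
          rw [Matrix.fromBlocks_smul]
          simp
        rw [h6, h8, Matrix.mul_smul, Matrix.smul_mul, smul_smul, inv_mul_cancel₀ h7, one_smul]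
      rw [h5, Th_left_inl hu, Pm_zero, Op.zero_apply, zero_val]
      simp
    · rw [Matrix.transpose_mul, hZt, Matrix.fromBlocks_transpose, hht, Matrix.transpose_zero,
        Matrix.transpose_zero, Matrix.transpose_zero, ← Matrix.mul_assoc]
      rw [bZ, Matrix.fromBlocks_multiply, Matrix.fromBlocks_multiply,
        Matrix.fromBlocks_add, Matrix.fromBlocks_inj]
      have h9 : (1 / 2 : ℝ) • T' s + (1 / 2 : ℝ) • T' s = T' s := by
        rw [← add_smul]; norm_num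
      refine ⟨?_, ?_, ?_, ?_⟩
      · simp only [Matrix.mul_zero, Matrix.zero_mul, add_zero, hThT, h9]
      · simp only [Matrix.mul_zero, Matrix.zero_mul, add_zero, Matrix.mul_neg]
        rw [← Matrix.mul_assoc, hThT, Matrix.smul_mul]
        rw [← neg_add, ← add_smul]
        norm_num
      · simp only [Matrix.mul_zero, Matrix.zero_mul, add_zero, Matrix.neg_mul,
          Matrix.transpose_zero, zero_add]
        rw [Matrix.mul_assoc, Matrix.mul_assoc, ← Matrix.mul_assoc (T s), hThT, Matrix.mul_smul]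
        rw [← neg_add, ← add_smul]
        norm_num
      · simp only [Matrix.mul_zero, Matrix.zero_mul, add_zero, Matrix.neg_mul, Matrix.mul_neg,
          Matrix.transpose_zero, zero_add, neg_neg]
        have h10 : V.transpose * T s * h * (T s * V) = (1 / 2 : ℝ) • (V.transpose * T' s * V) := by
          calc _ = V.transpose * (T s * h * T s) * V := by simp only [Matrix.mul_assoc]
            _ = _ := by rw [hThT, Matrix.mul_smul, Matrix.smul_mul]
        rw [h10, ← add_smul]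
        norm_num
  have hc := is_const_of_deriv_eq_zero (fun s => (hder s).differentiableAt)
    (fun s => (hder s).deriv) 0 1
  have h7 : mkX (bZ (T 0) S V) (bZ_posDef V (hpos 0) hS) (0 : Matrix Empty (α ⊕ ι) ℝ)
      = mkX (bZ T₀ S V) (bZ_posDef V h₀ hS) 0 := by
    apply mkX_congr
    · simp [hT]
    · rfl
  have h8 : mkX (bZ (T 1) S V) (bZ_posDef V (hpos 1) hS) (0 : Matrix Empty (α ⊕ ι) ℝ)
      = mkX (bZ T₁ S V) (bZ_posDef V h₁ hS) 0 := by
    apply mkX_congr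
    · simp [hT]
    · rfl
  rw [h7, h8] at hc
  exact hc

theorem eq_mkX_bZ (x : XX Empty (α ⊕ ι)) :
    x = mkX (bZ x.1.1.toBlocks₁₁ (sch x.1.1) (vv x.1.1))
      (bZ_posDef _ (t11_posDef x.1.2.1) (sch_posDef x.1.2.1)) 0 := by
  conv_lhs => rw [← mkX_eq x]
  apply mkX_congr
  · rw [bZ_phi]
  · ext a; exact a.elim

theorem psi_phi_eq (x : XX Empty (α ⊕ ι)) :
    ∃ (T : Matrix α α ℝ) (hT : T.PosDef), psi (phi x) = mkX (bZ T (sch x.1.1) (vv x.1.1))
      (bZ_posDef _ hT (sch_posDef x.1.2.1)) 0 := by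
  have hS := sch_posDef x.1.2.1
  obtain ⟨c, hc, hc'⟩ := one_smul_pd (sch x.1.1) hS
  refine ⟨c⁻¹ • 1, Matrix.PosDef.one.smul (inv_pos.mpr hc), ?_⟩
  have h1 : (psi (phi x)).1.1 = bZ 1 (nrm (sch x.1.1)) (vv x.1.1) := rfl
  have h2 : bZ 1 (nrm (sch x.1.1)) (vv x.1.1) = c • bZ (c⁻¹ • 1) (sch x.1.1) (vv x.1.1) := by
    rw [← bZ_smul, hc', smul_smul, mul_inv_cancel₀ hc.ne', one_smul]
  rw [← mkX_eq (psi (phi x))]
  apply mkX_congr
  · rw [h1, h2]
    exact nrm_smul hc (bZ_posDef _ (Matrix.PosDef.one.smul (inv_pos.mpr hc)) hS).det_pos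
  · ext a; exact a.elim

theorem eq_psi_phi {u : CX 𝕜 Empty (α ⊕ ι)}
    (hu : ∀ a b : α, Hop 𝕜 Empty (Sum.inl a : α ⊕ ι) (Sum.inl b) u = 0)
    (x : XX Empty (α ⊕ ι)) : u.1 x = u.1 (psi (phi x)) := by
  obtain ⟨T, hT, h⟩ := psi_phi_eq x
  rw [h]
  refine Eq.trans ?_ (const_fibre hu (t11_posDef x.1.2.1) hT (sch_posDef x.1.2.1) (vv x.1.1))
  exact congrArg u.1 (eq_mkX_bZ x)

/-- functions `φ^* h` are killed by `H_ab` -/
theorem Hop_pp (a b : α) (h : CX 𝕜 α ι) :
    Hop 𝕜 Empty (Sum.inl a : α ⊕ ι) (Sum.inl b) (pp 𝕜 h) = 0 := by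
  ext x
  rw [Hop_val]
  have hT := t11_posDef x.1.2.1
  have hS := sch_posDef x.1.2.1
  have hTt := tr_posDef hT
  set E : Matrix α α ℝ := Matrix.single a b 1 with hE
  have hEt : E.transpose = Matrix.single b a 1 := by rw [hE, Matrix.transpose_single]
  have h1 := Th_phi h x (B := x.1.1 * Matrix.single (Sum.inl a) (Sum.inl b) 1)
    (T := crv (x.1.1.toBlocks₁₁ * E) x.1.1.toBlocks₁₁) (S := fun _ => sch x.1.1)
    (V := fun _ => vv x.1.1)
    (T' := -(x.1.1.toBlocks₁₁ * E * x.1.1.toBlocks₁₁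
      + x.1.1.toBlocks₁₁ * (x.1.1.toBlocks₁₁ * E).transpose)) (S' := 0) (V' := 0) (C := 0)
    (crv_posDef _ hT) (fun _ => hS) (hasDerivAt_crv _ _)
    (fun i j => hasDerivAt_const _ _) (fun i j => hasDerivAt_const _ _) ?_ ?_ ?_
  · rw [h1, Th_zero, Pm_zero, Op.zero_apply, zero_val, add_zero]
    rfl
  · simp only [crv_zero]
    exact bZ_phi x
  · simp only [crv_zero]
    have hBt : (x.1.1 * Matrix.single (Sum.inl a) (Sum.inl b) 1).transpose
        = Matrix.fromBlocks E.transpose 0 0 0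
          * bZ x.1.1.toBlocks₁₁ (sch x.1.1) (vv x.1.1) := by
      rw [Matrix.transpose_mul, PD_symm, single_11, Matrix.fromBlocks_transpose, ← hE,
        Matrix.transpose_zero, Matrix.transpose_zero, Matrix.transpose_zero, bZ_phi x]
    have hB' : x.1.1 * Matrix.single (Sum.inl a) (Sum.inl b) 1
        = bZ x.1.1.toBlocks₁₁ (sch x.1.1) (vv x.1.1) * Matrix.fromBlocks E 0 0 0 := by
      rw [single_11, ← hE, bZ_phi x]
    rw [hBt, hB']
    set T := x.1.1.toBlocks₁₁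
    set S := sch x.1.1
    set V := vv x.1.1
    rw [bZ, Matrix.transpose_mul, hTt, Matrix.fromBlocks_multiply, Matrix.fromBlocks_multiply,
      Matrix.fromBlocks_multiply, Matrix.fromBlocks_multiply,
      Matrix.fromBlocks_add, Matrix.fromBlocks_neg, Matrix.fromBlocks_inj]
    refine ⟨?_, ?_, ?_, ?_⟩
    · simp only [Matrix.mul_zero, Matrix.zero_mul, add_zero, zero_add, Matrix.mul_assoc]
    · simp only [Matrix.mul_zero, Matrix.zero_mul, add_zero, zero_add, Matrix.mul_neg,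
        Matrix.neg_mul, Matrix.add_mul, Matrix.mul_assoc]
      abel
    · simp only [Matrix.mul_zero, Matrix.zero_mul, add_zero, zero_add, Matrix.mul_neg,
        Matrix.neg_mul, Matrix.mul_add, Matrix.mul_assoc, Matrix.transpose_zero]
      abel
    · simp only [Matrix.mul_zero, Matrix.zero_mul, add_zero, zero_add, Matrix.mul_neg,
        Matrix.neg_mul, Matrix.mul_add, Matrix.add_mul, Matrix.mul_assoc, Matrix.transpose_zero]
      abel
  · simp

end Fibre

end Pool.Agent.MP_5aa3e6_al
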