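import Mathlib
import Pool.Agent.MP_5aa3e6_al.Blk5

/-!
The reduction `z : ZD(α, α ⊕ ι) → ZD(α, ι)`.
-/

set_option linter.unusedSectionVars false

namespace Pool.Agent.MP_5aa3e6_al

open scoped ContDiff Manifold Topology

section ComDet

variable {𝕜 : Type*} [RCLike 𝕜] {A : Type*} [CommRing A] [Algebra 𝕜 A]

theorem det_mem {n : Type*} [Fintype n] [DecidableEq n] (S : Subalgebra 𝕜 A) {M : Matrix n n A}
    (h : ∀ i j, M i j ∈ S) : M.det ∈ S := by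
  rw [Matrix.det_apply]
  refine sum_mem fun σ _ => ?_
  rw [Units.smul_def]
  exact zsmul_mem (prod_mem fun i _ => h _ _) _

theorem adjugate_mem {n : Type*} [Fintype n] [DecidableEq n] (S : Subalgebra 𝕜 A)
    {M : Matrix n n A} (h : ∀ i j, M i j ∈ S) (i j : n) : M.adjugate i j ∈ S := by
  rw [Matrix.adjugate_apply]
  apply det_mem
  intro k l
  by_cases hk : k = j
  · subst hk
    rw [Matrix.updateRow_self]
    by_cases hl : l = i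
    · subst hl; rw [Pi.single_eq_same]; exact one_mem _
    · rw [Pi.single_eq_of_ne hl]; exact zero_mem _
  · rw [Matrix.updateRow_ne hk]
    exact h k l

end ComDet

section Com

variable {α ι : Type*} [Fintype α] [DecidableEq α] [Fintype ι] [DecidableEq ι] [Nonempty ι]
variable {𝕜 : Type*} [RCLike 𝕜]

/-- evaluation at a point -/
def evx (𝕜 : Type*) [RCLike 𝕜] {α ι : Type*} [Fintype α] [Fintype ι] [DecidableEq ι] (x : XX α ι) :
    CX 𝕜 α ι →ₐ[𝕜] 𝕜 where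
  toFun f := f.1 x
  map_one' := rfl
  map_mul' _ _ := rfl
  map_zero' := rfl
  map_add' _ _ := rfl
  commutes' _ := rfl

/-- the matrix `T = Y₁₁` of functions -/
noncomputable def tM (𝕜 : Type*) [RCLike 𝕜] (α ι : Type*) [Fintype α] [DecidableEq α] [Fintype ι]
    [DecidableEq ι] [Nonempty ι] : Matrix α α (CX 𝕜 Empty (α ⊕ ι)) :=
  Matrix.of fun a b => cY (Sum.inl a) (Sum.inl b)

theorem tM_map (x : XX Empty (α ⊕ ι)) :
    (tM 𝕜 α ι).map (evx 𝕜 x) = (x.1.1.toBlocks₁₁).map (algebraMap ℝ 𝕜) := by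
  ext a b
  rfl

theorem tM_det_val (x : XX Empty (α ⊕ ι)) :
    (tM 𝕜 α ι).det.1 x = ((x.1.1.toBlocks₁₁.det : ℝ) : 𝕜) := by
  change evx 𝕜 x (tM 𝕜 α ι).det = algebraMap ℝ 𝕜 _
  rw [AlgHom.map_det, RingHom.map_det]
  congr 1

theorem tM_adj_val (x : XX Empty (α ⊕ ι)) (a b : α) :
    ((tM 𝕜 α ι).adjugate a b).1 x = ((x.1.1.toBlocks₁₁.adjugate a b : ℝ) : 𝕜) := by
  change evx 𝕜 x ((tM 𝕜 α ι).adjugate a b) = algebraMap ℝ 𝕜 _
  have h1 := congrFun (congrFun (AlgHom.map_adjugate (evx 𝕜 x) (tM 𝕜 α ι)) a) b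
  have h2 := congrFun (congrFun (RingHom.map_adjugate (algebraMap ℝ 𝕜) x.1.1.toBlocks₁₁) a) b
  refine h1.trans (Eq.trans ?_ h2.symm)
  rfl

theorem wR_mul_det (x : XX Empty (α ⊕ ι)) :
    x.1.1.toBlocks₁₁.det * wR x ^ (Fintype.card ι) = 1 := by
  rw [wR_pow, ← bZ_det _ _ (vv x.1.1) (unit_posDef (t11_posDef x.1.2.1)), bZ_phi, x.1.2.2]

theorem tM_mul_w : (tM 𝕜 α ι).det * (wC 𝕜 α ι) ^ (Fintype.card ι) = 1 := by
  ext x
  have h1 : ((wC 𝕜 α ι) ^ (Fintype.card ι)).1 x = ((wC 𝕜 α ι).1 x) ^ (Fintype.card ι) := rfl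
  rw [mul_val, tM_det_val, h1, wC_val]
  have h2 := wR_mul_det x
  have h3 : ((x.1.1.toBlocks₁₁.det * wR x ^ (Fintype.card ι) : ℝ) : 𝕜) = 1 := by
    rw [h2]; simp
  rw [← RCLike.ofReal_pow, ← RCLike.ofReal_mul, h3]
  rfl

theorem kC_eq (a b : α) :
    kC 𝕜 ι a b = (wC 𝕜 α ι) ^ (Fintype.card ι) * (tM 𝕜 α ι).adjugate a b := by
  ext x
  have h1 : ((wC 𝕜 α ι) ^ (Fintype.card ι)).1 x = ((wC 𝕜 α ι).1 x) ^ (Fintype.card ι) := rfl
  rw [mul_val, tM_adj_val, h1, wC_val, kC_val, ← RCLike.ofReal_pow, ← RCLike.ofReal_mul]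
  congr 1
  have h2 := wR_mul_det x
  have h3 : (x.1.1.toBlocks₁₁.det)⁻¹ = wR x ^ (Fintype.card ι) :=
    inv_eq_of_mul_eq_one_right h2
  rw [Matrix.inv_def, Ring.inverse_eq_inv', h3]
  rfl

variable {R : OpX 𝕜 Empty (α ⊕ ι)}

theorem wC_mem_comF (hR : ∀ a b : α, (cY (Sum.inl a) (Sum.inl b) : CX 𝕜 Empty (α ⊕ ι)) ∈ comF R) :
    wC 𝕜 α ι ∈ comF R := by
  have h1 : (tM 𝕜 α ι).det ∈ comF R := det_mem _ fun a b => hR a b
  have h2 : (wC 𝕜 α ι) ^ (Fintype.card ι) ∈ comF R := comF_inv h1 tM_mul_w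
  exact comF_root isClosed_emX (fun x => ⟨wR x, wR_pos x, rfl⟩) Fintype.card_ne_zero h2

theorem kC_mem_comF (hR : ∀ a b : α, (cY (Sum.inl a) (Sum.inl b) : CX 𝕜 Empty (α ⊕ ι)) ∈ comF R)
    (a b : α) : kC 𝕜 ι a b ∈ comF R := by
  rw [kC_eq]
  exact mul_mem (pow_mem (wC_mem_comF hR) _) (adjugate_mem _ (fun a b => hR a b) a b)

end Com

section Z

variable {α ι : Type*} [Fintype α] [DecidableEq α] [Fintype ι] [DecidableEq ι] [Nonempty ι]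
variable {𝕜 : Type*} [RCLike 𝕜]

/-- the reduction of an operator -/
noncomputable def zz (D : OpX 𝕜 α (α ⊕ ι)) : OpX 𝕜 α ι :=
  trans SMap_phi SMap_psi (sy D (xi0 α ι))

theorem zz_val (D : OpX 𝕜 α (α ⊕ ι)) (h : CX 𝕜 α ι) (y : XX α ι) :
    (zz D h).1 y = (sy D (xi0 α ι) (pp 𝕜 h)).1 (psi y) := rfl

theorem pp_injective {g h : CX 𝕜 α ι} (hgh : pp 𝕜 g = pp 𝕜 h) : g = h := by
  ext y
  have := congrFun (congrArg Subtype.val hgh) (psi y)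
  rwa [pp_val, pp_val, phi_psi] at this

theorem IsDO_zz {D : OpX 𝕜 α (α ⊕ ι)} (hD : IsDO 𝕜 emX D) : IsDO 𝕜 emX (zz D) :=
  IsDO.transport _ _ phi_psi (IsDO_sy hD _)

variable {D : OpX 𝕜 α (α ⊕ ι)}

theorem cY_comF (hD : D ∈ ZD 𝕜 α (α ⊕ ι)) (a b : α) :
    (cY (Sum.inl a) (Sum.inl b) : CX 𝕜 Empty (α ⊕ ι)) ∈ comF (sy D (xi0 α ι)) := by
  rw [mem_comF', ← qf_xi0]
  exact sy_comm_qf hD _ a b

theorem Hop_comm (hD : D ∈ ZD 𝕜 α (α ⊕ ι)) (a b : α) (f : CX 𝕜 Empty (α ⊕ ι)) :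
    Hop 𝕜 Empty (Sum.inl a) (Sum.inl b) (sy D (xi0 α ι) f)
      = sy D (xi0 α ι) (Hop 𝕜 Empty (Sum.inl a) (Sum.inl b) f) := by
  have h := sy_comm_Hq hD (xi0 α ι) a b
  rw [Hq_xi0] at h
  exact (DFunLike.congr_fun h f).symm

/-- the fundamental property of the reduction -/
theorem sy_pp (hD : D ∈ ZD 𝕜 α (α ⊕ ι)) (h : CX 𝕜 α ι) :
    sy D (xi0 α ι) (pp 𝕜 h) = pp 𝕜 (zz D h) := by
  ext x
  rw [pp_val, zz_val]
  refine eq_psi_phi (fun a b => ?_) x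
  rw [Hop_comm hD, Hop_pp, map_zero]

theorem zz_mul {D' : OpX 𝕜 α (α ⊕ ι)} (hD : D ∈ ZD 𝕜 α (α ⊕ ι)) (hD' : D' ∈ ZD 𝕜 α (α ⊕ ι)) :
    zz (D * D') = zz D * zz D' := by
  apply Op.ext
  intro h
  apply pp_injective
  rw [← sy_pp (mul_mem hD hD'), sy_mul (mem_ZD.mp hD).1 (mem_ZD.mp hD').1, Op.mul_apply,
    Op.mul_apply, sy_pp hD', sy_pp hD]

theorem zz_add (D D' : OpX 𝕜 α (α ⊕ ι)) : zz (D + D') = zz D + zz D' := by
  apply Op.ext
  intro h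
  ext y
  rw [zz_val, Op.add_apply, add_val, zz_val, zz_val, sy_add]
  rfl

theorem zz_algebraMap (c : 𝕜) :
    zz (algebraMap 𝕜 (OpX 𝕜 α (α ⊕ ι)) c) = algebraMap 𝕜 (OpX 𝕜 α ι) c := by
  apply Op.ext
  intro h
  ext y
  rw [zz_val, sy_algebraMap, Op.algebraMap_apply, Op.algebraMap_apply, smul_val, smul_val,
    pp_val, phi_psi]

theorem zz_mem_DX (hD : D ∈ ZD 𝕜 α (α ⊕ ι)) : zz D ∈ DX 𝕜 α ι := by
  refine mem_DX.mpr ⟨IsDO_zz (mem_DX.mp (mem_ZD.mp hD).1).1, fun A a h => ?_⟩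
  apply pp_injective
  rw [← sy_pp hD, ← rhoX_pp, ← rhoX_pp, ← sy_pp hD]
  have h1 := sy_rhoX (mem_ZD.mp hD).1 (gt A a) (xi0 α ι) (pp 𝕜 h)
  rwa [xi0_gt] at h1

/-- comparison of the two sides of the commutation with `Δ` -/
theorem zz_Dl_aux (hD : D ∈ ZD 𝕜 α (α ⊕ ι)) (h : CX 𝕜 α ι) :
    pp 𝕜 (zz D (Dl 𝕜 α ι h) - Dl 𝕜 α ι (zz D h))
      + (2 : 𝕜) • ∑ a, ∑ b, (wC 𝕜 α ι) * (kC 𝕜 ι a b)
        * pp 𝕜 (zz D (Qd 𝕜 ι a b h) - Qd 𝕜 ι a b (zz D h)) = 0 := by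
  have h1 := DFunLike.congr_fun (sy_comm_Dl hD (xi0 α ι)) (pp 𝕜 h)
  rw [Op.mul_apply, Op.mul_apply, sy_pp hD, Dl_pp, Dl_pp, map_add, map_smul, sy_pp hD,
    map_sum] at h1
  have h2 : ∀ a, sy D (xi0 α ι) (∑ b, wC 𝕜 α ι * kC 𝕜 ι a b * pp 𝕜 (Qd 𝕜 ι a b h))
      = ∑ b, wC 𝕜 α ι * kC 𝕜 ι a b * pp 𝕜 (zz D (Qd 𝕜 ι a b h)) := by
    intro a
    rw [map_sum]
    refine Finset.sum_congr rfl fun b _ => ?_
    have h3 : wC 𝕜 α ι * kC 𝕜 ι a b ∈ comF (sy D (xi0 α ι)) :=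
      mul_mem (wC_mem_comF (cY_comF hD)) (kC_mem_comF (cY_comF hD) a b)
    rw [mem_comF.mp h3, sy_pp hD]
  simp only [h2] at h1
  rw [map_sub]
  simp only [map_sub, mul_sub, Finset.sum_sub_distrib, smul_sub]
  rw [← sub_eq_zero] at h1
  rw [← h1]
  abel

/-- evaluation at the point with `K = T⁻¹` -/
theorem zz_Dl_aux2 (hD : D ∈ ZD 𝕜 α (α ⊕ ι)) (h : CX 𝕜 α ι) (y : XX α ι) {P : Matrix α α ℝ}
    (hP : P.PosDef) :
    (zz D (Dl 𝕜 α ι h) - Dl 𝕜 α ι (zz D h)).1 y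
      + 2 * ∑ a, ∑ b, ((P a b : ℝ) : 𝕜) *
        (zz D (Qd 𝕜 ι a b h) - Qd 𝕜 ι a b (zz D h)).1 y = 0 := by
  have hPi : (P⁻¹).PosDef := hP.inv
  set x : XX Empty (α ⊕ ι) := mkX (bZ P⁻¹ y.1.1 y.2) (bZ_posDef _ hPi y.1.2.1) 0 with hx
  have hphi : phi x = y := by
    rw [hx, phi_mkX_bZ _ hPi y.1.2.1, mkX_eq]
  have h1 := congrFun (congrArg Subtype.val (zz_Dl_aux hD h)) x
  rw [add_val, pp_val, hphi, smul_val, sum_val, zero_val] at h1
  rw [← h1]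
  congr 2
  refine Finset.sum_congr rfl fun a _ => ?_
  rw [sum_val]
  refine Finset.sum_congr rfl fun b _ => ?_
  rw [mul_val, mul_val, pp_val, hphi, wC_val, kC_val, ← RCLike.ofReal_mul]
  congr 2
  -- compute `w * T⁻¹`
  set c : ℝ := (bZ P⁻¹ y.1.1 y.2).det ^ (-(1 : ℝ) / (Fintype.card (α ⊕ ι) : ℝ)) with hc
  have hcpos : 0 < c := Real.rpow_pos_of_pos (bZ_posDef _ hPi y.1.2.1).det_pos _
  have hx1 : x.1.1 = bZ (c • P⁻¹) (c • y.1.1) y.2 := by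
    rw [bZ_smul]; rfl
  have hu : IsUnit (c • P⁻¹).det := unit_posDef (hPi.smul hcpos)
  have h2 : x.1.1.toBlocks₁₁ = c • P⁻¹ := by rw [hx1, t11_bZ]
  have h3 : sch x.1.1 = c • y.1.1 := by rw [hx1, sch_bZ _ _ hu]
  have h4 : wR x = c := by
    have hn : (Fintype.card ι : ℝ) ≠ 0 := by exact_mod_cast Fintype.card_ne_zero
    rw [wR, h3, Matrix.det_smul, y.1.2.2, mul_one, ← Real.rpow_natCast, ← Real.rpow_mul hcpos.le,
      mul_one_div_cancel hn, Real.rpow_one]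
  have h5 : (c • P⁻¹)⁻¹ = c⁻¹ • P := by
    apply Matrix.inv_eq_right_inv
    rw [Matrix.smul_mul, Matrix.mul_smul, smul_smul, mul_inv_cancel₀ hcpos.ne', one_smul,
      Matrix.nonsing_inv_mul _ (unit_posDef hP)]
  rw [h4, h2, h5, Matrix.smul_apply, smul_eq_mul, ← mul_assoc, mul_inv_cancel₀ hcpos.ne', one_mul]

theorem Qd_symm (a b : α) : Qd 𝕜 ι a b = Qd 𝕜 ι b a := by
  apply Op.ext
  intro h
  ext y
  rw [Qd_val, Qd_val, Finset.sum_comm]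
  refine Finset.sum_congr rfl fun i _ => Finset.sum_congr rfl fun j _ => ?_
  rw [pM_comm']
  congr 3
  conv_lhs => rw [← PD_symm y.1]
  rfl

theorem quadf_zero {X : 𝕜} {B : α → α → 𝕜} (hBs : ∀ a b, B a b = B b a)
    (h1 : ∀ P : Matrix α α ℝ, P.PosDef → X + 2 * ∑ a, ∑ b, ((P a b : ℝ) : 𝕜) * B a b = 0) :
    X = 0 ∧ ∀ a b, B a b = 0 := by
  have e1 := h1 1 Matrix.PosDef.one
  have e2 := h1 ((2 : ℝ) • 1) (Matrix.PosDef.one.smul (by norm_num))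
  have e3 : ∑ a, ∑ b, ((((2 : ℝ) • (1 : Matrix α α ℝ)) a b : ℝ) : 𝕜) * B a b
      = 2 * ∑ a, ∑ b, (((1 : Matrix α α ℝ) a b : ℝ) : 𝕜) * B a b := by
    rw [Finset.mul_sum]
    refine Finset.sum_congr rfl fun a _ => ?_
    rw [Finset.mul_sum]
    refine Finset.sum_congr rfl fun b _ => ?_
    rw [Matrix.smul_apply, smul_eq_mul]
    push_cast
    ring
  rw [e3] at e2
  have hX0 : X = 0 := by linear_combination 2 * e1 - e2
  have hS0 : ∑ a, ∑ b, (((1 : Matrix α α ℝ) a b : ℝ) : 𝕜) * B a b = 0 := by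
    have : (2 : 𝕜) ≠ 0 := two_ne_zero
    have h2 : (2 : 𝕜) * ∑ a, ∑ b, (((1 : Matrix α α ℝ) a b : ℝ) : 𝕜) * B a b = 0 := by
      rw [hX0, zero_add] at e1; exact e1
    exact (mul_eq_zero.mp h2).resolve_left this
  have hq : ∀ u : α → ℝ, ∑ a, ∑ b, ((u a * u b : ℝ) : 𝕜) * B a b = 0 := by
    intro u
    have hpd : ((1 : Matrix α α ℝ) + Matrix.vecMulVec u u).PosDef := by
      apply Matrix.PosDef.add_posSemidef Matrix.PosDef.one
      have := Matrix.posSemidef_vecMulVec_self_star u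
      rwa [star_trivial] at this
    have e4 := h1 _ hpd
    have e5 : ∑ a, ∑ b, (((1 + Matrix.vecMulVec u u : Matrix α α ℝ) a b : ℝ) : 𝕜) * B a b
        = ∑ a, ∑ b, (((1 : Matrix α α ℝ) a b : ℝ) : 𝕜) * B a b
          + ∑ a, ∑ b, ((u a * u b : ℝ) : 𝕜) * B a b := by
      rw [← Finset.sum_add_distrib]
      refine Finset.sum_congr rfl fun a _ => ?_
      rw [← Finset.sum_add_distrib]
      refine Finset.sum_congr rfl fun b _ => ?_
      rw [Matrix.add_apply, Matrix.vecMulVec_apply]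
      push_cast
      ring
    rw [e5, hS0, zero_add, hX0, zero_add] at e4
    exact (mul_eq_zero.mp e4).resolve_left two_ne_zero
  have hcast : ∀ (p : Prop) [Decidable p], (((if p then (1 : ℝ) else 0) : ℝ) : 𝕜)
      = if p then 1 else 0 := by
    intro p _; split_ifs <;> simp
  refine ⟨hX0, fun a b => ?_⟩
  have hsum : ∀ a b : α, ∑ c, ∑ d, (if c = a then (1 : 𝕜) else 0) *
      ((if d = b then (1 : 𝕜) else 0) * B c d) = B a b := by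
    intro a b
    simp only [ite_mul, one_mul, zero_mul, Finset.sum_ite_eq', Finset.mem_univ, if_true]
    rw [Finset.sum_eq_single a]
    · simp
    · intro c _ hc; simp [hc]
    · simp
  have hd : ∀ c, B c c = 0 := by
    intro c
    have h2 := hq (fun d => if d = c then 1 else 0)
    have h3 : ∀ a b, ((((if a = c then 1 else 0) * (if b = c then 1 else 0) : ℝ) : ℝ) : 𝕜) * B a b
        = (if a = c then (1 : 𝕜) else 0) * ((if b = c then (1 : 𝕜) else 0) * B a b) := by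
      intro a b
      rw [RCLike.ofReal_mul, hcast, hcast, mul_assoc]
    simp only [h3] at h2
    rwa [hsum] at h2
  have h2 := hq (fun c => (if c = a then 1 else 0) + (if c = b then 1 else 0))
  have h4 : ∀ c d, (((((if c = a then 1 else 0) + (if c = b then 1 else 0)) *
      ((if d = a then 1 else 0) + (if d = b then 1 else 0)) : ℝ) : ℝ) : 𝕜) * B c d
      = (if c = a then (1 : 𝕜) else 0) * ((if d = a then (1 : 𝕜) else 0) * B c d)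
        + (if c = a then (1 : 𝕜) else 0) * ((if d = b then (1 : 𝕜) else 0) * B c d)
        + ((if c = b then (1 : 𝕜) else 0) * ((if d = a then (1 : 𝕜) else 0) * B c d)
        + (if c = b then (1 : 𝕜) else 0) * ((if d = b then (1 : 𝕜) else 0) * B c d)) := by
    intro c d
    rw [RCLike.ofReal_mul, RCLike.ofReal_add, RCLike.ofReal_add, hcast, hcast, hcast, hcast]
    ring
  simp only [h4, Finset.sum_add_distrib, hsum] at h2
  rw [hd, hd, ← hBs a b, zero_add, add_zero] at h2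
  have h5 : (2 : 𝕜) * B a b = 0 := by rw [two_mul]; exact h2
  exact (mul_eq_zero.mp h5).resolve_left two_ne_zero

theorem zz_comm (hD : D ∈ ZD 𝕜 α (α ⊕ ι)) (h : CX 𝕜 α ι) :
    zz D (Dl 𝕜 α ι h) = Dl 𝕜 α ι (zz D h) ∧
      ∀ a b, zz D (Qd 𝕜 ι a b h) = Qd 𝕜 ι a b (zz D h) := by
  have key : ∀ y : XX α ι, (zz D (Dl 𝕜 α ι h) - Dl 𝕜 α ι (zz D h)).1 y = 0 ∧
      ∀ a b, (zz D (Qd 𝕜 ι a b h) - Qd 𝕜 ι a b (zz D h)).1 y = 0 := by
    intro y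
    refine quadf_zero (B := fun a b => (zz D (Qd 𝕜 ι a b h) - Qd 𝕜 ι a b (zz D h)).1 y) ?_
      (fun P hP => zz_Dl_aux2 hD h y hP)
    intro a b
    rw [Qd_symm]
  constructor
  · ext y
    have := (key y).1
    rw [sub_val] at this
    exact sub_eq_zero.mp this
  · intro a b
    ext y
    have := (key y).2 a b
    rw [sub_val] at this
    exact sub_eq_zero.mp this

theorem zz_mem_ZD (hD : D ∈ ZD 𝕜 α (α ⊕ ι)) : zz D ∈ ZD 𝕜 α ι := by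
  refine mem_ZD.mpr ⟨zz_mem_DX hD, ?_, fun a b => ?_⟩
  · apply Op.ext; intro h; exact (zz_comm hD h).1
  · apply Op.ext; intro h; exact (zz_comm hD h).2 a b

end Z

end Pool.Agent.MP_5aa3e6_al
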