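import Mathlib
import Pool.Agent.MP_5aa3e6_al.Blk6

/-!
Injectivity of the reduction.
-/

set_option linter.unusedSectionVars false

namespace Pool.Agent.MP_5aa3e6_al

open scoped ContDiff Manifold Topology

section Inj

variable {α ι : Type*} [Fintype α] [DecidableEq α] [Fintype ι] [DecidableEq ι] [Nonempty ι]
variable {𝕜 : Type*} [RCLike 𝕜]

theorem cY_12 (a : α) (j : ι) : (cY (Sum.inl a) (Sum.inr j) : CX 𝕜 Empty (α ⊕ ι))
    = -∑ b, cY (Sum.inl a) (Sum.inl b) * pp 𝕜 (cV b j) := by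
  ext x
  rw [cY_apply, neg_val, sum_val]
  have h1 : x.1.1 (Sum.inl a) (Sum.inr j) = -∑ b, x.1.1 (Sum.inl a) (Sum.inl b) * vv x.1.1 b j := by
    conv_lhs => rw [← bZ_phi x]
    rfl
  rw [h1, RCLike.ofReal_neg, RCLike.ofReal_sum]
  congr 1
  refine Finset.sum_congr rfl fun b _ => ?_
  rw [RCLike.ofReal_mul]
  rfl

theorem cY_22 (i j : ι) : (cY (Sum.inr i) (Sum.inr j) : CX 𝕜 Empty (α ⊕ ι))
    = ∑ b, (∑ a, pp 𝕜 (cV a i) * cY (Sum.inl a) (Sum.inl b)) * pp 𝕜 (cV b j)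
      + wC 𝕜 α ι * pp 𝕜 (cY i j) := by
  ext x
  rw [cY_apply, add_val, sum_val, mul_val, wC_val, pp_val, cY_apply]
  have h1 : x.1.1 (Sum.inr i) (Sum.inr j)
      = ∑ b, (∑ a, vv x.1.1 a i * x.1.1 (Sum.inl a) (Sum.inl b)) * vv x.1.1 b j
        + wR x * (phi x).1.1 i j := by
    conv_lhs => rw [← bZ_phi x]
    change ((vv x.1.1).transpose * x.1.1.toBlocks₁₁ * vv x.1.1 + sch x.1.1) i j = _
    rw [sch_eq]
    rfl
  rw [h1, RCLike.ofReal_add, RCLike.ofReal_mul, RCLike.ofReal_sum]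
  congr 1
  refine Finset.sum_congr rfl fun b _ => ?_
  rw [mul_val, sum_val, RCLike.ofReal_mul, RCLike.ofReal_sum]
  congr 1
  refine Finset.sum_congr rfl fun a _ => ?_
  rw [RCLike.ofReal_mul]
  rfl

variable {D : OpX 𝕜 α (α ⊕ ι)}

theorem sy_xi0_zero (hD : D ∈ ZD 𝕜 α (α ⊕ ι)) (h : zz D = 0) : sy D (xi0 α ι) = 0 := by
  set R := sy D (xi0 α ι) with hR
  have hc := cY_comF hD
  have hw := wC_mem_comF hc
  set S : Subalgebra 𝕜 (CX 𝕜 Empty (α ⊕ ι)) := comF R ⊔ (pp 𝕜 (α := α) (ι := ι)).range with hS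
  have hS1 : ∀ g ∈ comF R, g ∈ S := fun g hg => (le_sup_left : comF R ≤ S) hg
  have hS2 : ∀ h, pp 𝕜 h ∈ S := fun h =>
    (le_sup_right : (pp 𝕜 (α := α) (ι := ι)).range ≤ S) ⟨h, rfl⟩
  have h12 : ∀ (a : α) (j : ι), (cY (Sum.inl a) (Sum.inr j) : CX 𝕜 Empty (α ⊕ ι)) ∈ S := by
    intro a j
    rw [cY_12]
    exact neg_mem (sum_mem fun b _ => mul_mem (hS1 _ (hc _ _)) (hS2 _))
  have hkill : ∀ p ∈ S, R p = 0 := by
    intro p hp
    have hp' : p ∈ Subalgebra.toSubmodule S := hp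
    rw [hS, ← Subalgebra.mul_toSubmodule] at hp'
    refine Submodule.mul_induction_on hp' ?_ ?_
    · rintro g hg _ ⟨h', rfl⟩
      have hg' : g ∈ comF R := hg
      rw [mem_comF.mp hg']
      have h2 : R (pp 𝕜 h') = 0 := by
        rw [hR, sy_pp hD, h, Op.zero_apply, map_zero]
      have h3 : R ((pp 𝕜 (α := α) (ι := ι)).toRingHom h') = 0 := h2
      rw [h3, mul_zero]
    · intro x y hx hy
      rw [map_add, hx, hy, add_zero]
  apply eq_zero_of_cY (IsDO_sy (mem_DX.mp (mem_ZD.mp hD).1).1 _)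
  intro p hp
  apply hkill
  have hle : Algebra.adjoin 𝕜 (Set.range fun q : (α ⊕ ι) × (α ⊕ ι) =>
      (cY q.1 q.2 : CX 𝕜 Empty (α ⊕ ι))) ≤ S := by
    apply Algebra.adjoin_le
    rintro _ ⟨⟨p, q⟩, rfl⟩
    rcases p with a | i <;> rcases q with b | j
    · exact hS1 _ (hc _ _)
    · exact h12 _ _
    · change (cY (Sum.inr i) (Sum.inl b) : CX 𝕜 Empty (α ⊕ ι)) ∈ S
      rw [cY_symm]; exact h12 _ _
    · change (cY (Sum.inr i) (Sum.inr j) : CX 𝕜 Empty (α ⊕ ι)) ∈ S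
      rw [cY_22]
      exact add_mem (sum_mem fun b _ => mul_mem (sum_mem fun a _ =>
        mul_mem (hS2 _) (hS1 _ (hc _ _))) (hS2 _)) (mul_mem (hS1 _ hw) (hS2 _))
  exact hle hp

theorem exists_SL (ξ : Matrix α (α ⊕ ι) ℝ) (h : ξ.toCols₁.det ≠ 0) :
    ∃ A : Matrix.SpecialLinearGroup (α ⊕ ι) ℝ, xi0 α ι * A.1 = ξ := by
  obtain ⟨i0⟩ := (inferInstance : Nonempty ι)
  refine ⟨⟨Matrix.fromBlocks ξ.toCols₁ ξ.toCols₂ 0
    (Matrix.diagonal (Function.update 1 i0 (ξ.toCols₁.det)⁻¹)), ?_⟩, ?_⟩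
  · rw [Matrix.det_fromBlocks_zero₂₁, Matrix.det_diagonal,
      Finset.prod_update_of_mem (Finset.mem_univ _)]
    simp [h]
  · change xi0 α ι * Matrix.fromBlocks ξ.toCols₁ ξ.toCols₂ 0
      (Matrix.diagonal (Function.update 1 i0 (ξ.toCols₁.det)⁻¹)) = ξ
    rw [xi0, Matrix.fromCols_mul_fromBlocks]
    simp

/-- injectivity of the reduction -/
theorem zz_injective (hD : D ∈ ZD 𝕜 α (α ⊕ ι)) (h : zz D = 0) : D = 0 := by
  have h0 := sy_xi0_zero hD h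
  apply eq_zero_of_sy (mem_ZD.mp hD).1
  set Q : MvPolynomial (α × (α ⊕ ι)) 𝕜 :=
    (Matrix.of fun a b : α => (MvPolynomial.X (a, Sum.inl b) :
      MvPolynomial (α × (α ⊕ ι)) 𝕜)).det with hQ
  have hQev : ∀ ξ : Matrix α (α ⊕ ι) ℝ, MvPolynomial.aeval
      (fun k : α × (α ⊕ ι) => algebraMap ℝ 𝕜 (ξ k.1 k.2)) Q
      = algebraMap ℝ 𝕜 ξ.toCols₁.det := by
    intro ξ
    rw [hQ, AlgHom.map_det, RingHom.map_det]
    congr 1
    ext a b
    simp [Matrix.toCols₁]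
  refine sy_zero_of_dense (mem_DX.mp (mem_ZD.mp hD).1).1 (Q := Q) ?_ ?_
  · intro hQ0
    have h1 := hQev (xi0 α ι)
    rw [hQ0, map_zero] at h1
    have h2 : (xi0 α ι).toCols₁ = 1 := by rw [xi0, Matrix.toCols₁_fromCols]
    rw [h2, Matrix.det_one, map_one] at h1
    exact zero_ne_one h1
  · intro ξ hξ
    rw [hQev] at hξ
    have h1 : ξ.toCols₁.det ≠ 0 := by
      intro h2
      rw [h2, map_zero] at hξ
      exact hξ rfl
    obtain ⟨A, hA⟩ := exists_SL ξ h1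
    rw [← hA]
    exact sy_zero_of_mul (mem_ZD.mp hD).1 A _ h0

end Inj

end Pool.Agent.MP_5aa3e6_al
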