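import Mathlib

/-!
# The algebra of invariant differential operators on `𝔓_n × ℝ^(m,n)` and the operators `D_I`

The definitions used in the statement of `Pool.Agent.Results.MP_5aa3e6_al.Center.result`.
-/

namespace Pool.Agent.PnmCenter

open scoped ContDiff

section Space

/-- The real vector space of pairs `(Y, V)` of a real `n × n` matrix `Y` and a real `m × n`
matrix `V` (all entries are independent coordinates). -/
def Amb (m n : ℕ) : Type := (Fin n → Fin n → ℝ) × (Fin m → Fin n → ℝ)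

noncomputable instance (m n : ℕ) : NormedAddCommGroup (Amb m n) := Prod.normedAddCommGroup

noncomputable instance (m n : ℕ) : NormedSpace ℝ (Amb m n) := Prod.normedSpace

/-- `𝔓_n`: the real symmetric positive definite `n × n` matrices of determinant `1`. -/
def Pos (n : ℕ) : Type := {Y : Matrix (Fin n) (Fin n) ℝ // Y.PosDef ∧ Y.det = 1}

/-- `𝔓_{n,m} = 𝔓_n × ℝ^(m,n)`. -/
def PX (m n : ℕ) : Type := Pos n × Matrix (Fin m) (Fin n) ℝ

/-- The matrix `Y` of the point `(Y, V)`. -/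
def PX.Y {m n : ℕ} (x : PX m n) : Matrix (Fin n) (Fin n) ℝ := x.1.1

/-- The matrix `V` of the point `(Y, V)`. -/
def PX.V {m n : ℕ} (x : PX m n) : Matrix (Fin m) (Fin n) ℝ := x.2

/-- The inclusion of `𝔓_{n,m}`, as a closed submanifold, into the vector space of all pairs. -/
def incl {m n : ℕ} (x : PX m n) : Amb m n := (x.Y, x.V)

/-- The point `y` of `𝔓_{n,m}` is the image of `x = (Y, V)` under the action of
`g = (A, a) ∈ SL(n,ℝ) ⋉ ℝ^(m,n)`, that is `y = g · x = (A Y ᵗA, (V + a) ᵗA)`. -/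
def IsAct {m n : ℕ} (A : Matrix.SpecialLinearGroup (Fin n) ℝ) (a : Matrix (Fin m) (Fin n) ℝ)
    (x y : PX m n) : Prop :=
  y.Y = A.1 * x.Y * A.1.transpose ∧ y.V = (x.V + a) * A.1.transpose

end Space

section Operators

variable (𝕜 : Type*) [RCLike 𝕜]

/-- The vector space of the smooth `𝕜`-valued functions on `𝔓_{n,m}`: the restrictions of the
smooth functions on the vector space of pairs. -/
def SP (m n : ℕ) : Submodule 𝕜 (PX m n → 𝕜) where
  carrier := {f | ∃ F : Amb m n → 𝕜, ContDiff ℝ ∞ F ∧ ∀ x, f x = F (incl x)}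
  add_mem' := fun ⟨F, hF, hF'⟩ ⟨G, hG, hG'⟩ => ⟨F + G, hF.add hG, fun x => by simp [hF', hG']⟩
  zero_mem' := ⟨fun _ => 0, contDiff_const, fun _ => rfl⟩
  smul_mem' := fun c _ ⟨F, hF, hF'⟩ => ⟨c • F, hF.const_smul c, fun x => by simp [hF']⟩

/-- The smooth `𝕜`-valued functions on `𝔓_{n,m}`. -/
def FP (m n : ℕ) : Type _ := SP 𝕜 m n

noncomputable instance (m n : ℕ) : AddCommGroup (FP 𝕜 m n) := (SP 𝕜 m n).addCommGroup

noncomputable instance (m n : ℕ) : Module 𝕜 (FP 𝕜 m n) := (SP 𝕜 m n).module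

/-- The `𝕜`-linear operators on the smooth functions on `𝔓_{n,m}`. -/
def OP (m n : ℕ) : Type _ := Module.End 𝕜 (FP 𝕜 m n)

/-- The product of operators is the composition. -/
noncomputable instance (m n : ℕ) : Ring (OP 𝕜 m n) := Module.End.instRing

noncomputable instance (m n : ℕ) : Algebra 𝕜 (OP 𝕜 m n) := Module.End.instAlgebra 𝕜 𝕜 (FP 𝕜 m n)

variable {𝕜} {m n : ℕ}

/-- The value `f x`. -/
def FP.val (f : FP 𝕜 m n) (x : PX m n) : 𝕜 := f.1 x

/-- The function `D f`. -/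
def OP.app (D : OP 𝕜 m n) (f : FP 𝕜 m n) : FP 𝕜 m n := (LinearMap.toAddHom D).toFun f

/-- The linear differential operators with smooth coefficients on the vector space of pairs: the
operators generated, under sums and compositions, by the multiplications by smooth functions and
by the directional derivatives. -/
inductive IsDO : ((Amb m n → 𝕜) → Amb m n → 𝕜) → Prop
  | mul (g : Amb m n → 𝕜) (hg : ContDiff ℝ ∞ g) : IsDO fun F p => g p * F p
  | der (v : Amb m n) : IsDO fun F p => fderiv ℝ F p v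
  | add (S T : (Amb m n → 𝕜) → Amb m n → 𝕜) (hS : IsDO S) (hT : IsDO T) :
      IsDO fun F p => S F p + T F p
  | comp (S T : (Amb m n → 𝕜) → Amb m n → 𝕜) (hS : IsDO S) (hT : IsDO T) :
      IsDO fun F => S (T F)

theorem IsDO.smooth {T : (Amb m n → 𝕜) → Amb m n → 𝕜} (hT : IsDO T) :
    ∀ F : Amb m n → 𝕜, ContDiff ℝ ∞ F → ContDiff ℝ ∞ (T F) := by
  induction hT with
  | mul g hg => exact fun F hF => hg.mul hF
  | der v => exact fun F hF => (hF.fderiv_right (m := ∞) (by simp)).clm_apply contDiff_const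
  | add S T _ _ hS hT => exact fun F hF => (hS F hF).add (hT F hF)
  | comp S T _ _ hS hT => exact fun F hF => hS _ (hT F hF)

/-- `D` is the restriction to `𝔓_{n,m}` of the operator `T` on the vector space of pairs:
`D (F|𝔓_{n,m}) = (T F)|𝔓_{n,m}` for all smooth functions `F`. -/
def Induced (D : OP 𝕜 m n) (T : (Amb m n → 𝕜) → Amb m n → 𝕜) : Prop :=
  ∀ (F : Amb m n → 𝕜) (f : FP 𝕜 m n), ContDiff ℝ ∞ F → (∀ x, f.val x = F (incl x)) →
    ∀ x, (D.app f).val x = T F (incl x)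

/-- `D` is a linear differential operator with smooth coefficients on `𝔓_{n,m}`: the restriction
of such an operator on the vector space of pairs. -/
def IsDiffOp (D : OP 𝕜 m n) : Prop := ∃ T, IsDO T ∧ Induced D T

/-- `D` is invariant: `D (f ∘ L_g) = (D f) ∘ L_g` for all `g = (A, a)` and all smooth `f`. -/
def IsInvariant (D : OP 𝕜 m n) : Prop :=
  ∀ (A : Matrix.SpecialLinearGroup (Fin n) ℝ) (a : Matrix (Fin m) (Fin n) ℝ)
    (f f' : FP 𝕜 m n), (∀ x y, IsAct A a x y → f'.val x = f.val y) →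
      ∀ x y, IsAct A a x y → (D.app f').val x = (D.app f).val y

variable (𝕜)

theorem DD_mul {D E : OP 𝕜 m n} (hD : IsDiffOp D ∧ IsInvariant D)
    (hE : IsDiffOp E ∧ IsInvariant E) : IsDiffOp (D * E) ∧ IsInvariant (D * E) := by
  obtain ⟨⟨T, hT, h1⟩, h2⟩ := hD
  obtain ⟨⟨S, hS, h3⟩, h4⟩ := hE
  exact ⟨⟨_, hT.comp _ _ hS, fun F f hF hf => h1 (S F) (E.app f) (hS.smooth F hF) (h3 F f hF hf)⟩,
    fun A a f g h => h2 A a (E.app f) (E.app g) (h4 A a f g h)⟩

theorem DD_add {D E : OP 𝕜 m n} (hD : IsDiffOp D ∧ IsInvariant D)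
    (hE : IsDiffOp E ∧ IsInvariant E) : IsDiffOp (D + E) ∧ IsInvariant (D + E) := by
  obtain ⟨⟨T, hT, h1⟩, h2⟩ := hD
  obtain ⟨⟨S, hS, h3⟩, h4⟩ := hE
  exact ⟨⟨_, hT.add _ _ hS, fun F f hF hf x =>
      congrArg₂ (· + ·) (h1 F f hF hf x) (h3 F f hF hf x)⟩,
    fun A a f g h x y hxy => congrArg₂ (· + ·) (h2 A a f g h x y hxy) (h4 A a f g h x y hxy)⟩

theorem DD_algebraMap (c : 𝕜) :
    IsDiffOp (algebraMap 𝕜 (OP 𝕜 m n) c) ∧ IsInvariant (algebraMap 𝕜 (OP 𝕜 m n) c) :=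
  ⟨⟨_, IsDO.mul (fun _ => c) contDiff_const, fun _ _ _ hf x => congrArg (c * ·) (hf x)⟩,
    fun _ _ _ _ h x y hxy => congrArg (c * ·) (h x y hxy)⟩

/-- `𝔻(𝔓_{n,m})`: the algebra, under composition, of the invariant linear differential operators
with smooth coefficients on `𝔓_{n,m}`. -/
noncomputable def DD (m n : ℕ) : Subalgebra 𝕜 (OP 𝕜 m n) where
  carrier := {D | IsDiffOp D ∧ IsInvariant D}
  mul_mem' := DD_mul 𝕜
  add_mem' := DD_add 𝕜
  algebraMap_mem' := DD_algebraMap 𝕜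

/-- The centre of `𝔻(𝔓_{n,m})`. -/
noncomputable def ZZ (m n : ℕ) : Subalgebra 𝕜 (OP 𝕜 m n) :=
  DD 𝕜 m n ⊓ Subalgebra.centralizer 𝕜 (DD 𝕜 m n)

end Operators

section Explicit

variable {𝕜 : Type*} [RCLike 𝕜] {m n : ℕ}

/-- The partial derivative `∂/∂Y_kl`. -/
noncomputable def dY (k l : Fin n) (F : Amb m n → 𝕜) (p : Amb m n) : 𝕜 :=
  fderiv ℝ F p (fun i j => if i = k ∧ j = l then 1 else 0, 0)

/-- The partial derivative `∂/∂V_ai`. -/
noncomputable def dV (a : Fin m) (i : Fin n) (F : Amb m n → 𝕜) (p : Amb m n) : 𝕜 :=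
  fderiv ℝ F p (0, fun b j => if b = a ∧ j = i then 1 else 0)

/-- The first order operator
`Θ_ij = - ∑_k (Y_jk ∂/∂Y_ik + Y_kj ∂/∂Y_ki) + δ_ij (2/n) ∑_kl Y_kl ∂/∂Y_kl`. -/
noncomputable def Theta (i j : Fin n) (F : Amb m n → 𝕜) (p : Amb m n) : 𝕜 :=
  -(∑ k, (((p.1 j k : ℝ) : 𝕜) * dY i k F p + ((p.1 k j : ℝ) : 𝕜) * dY k i F p))
    + if i = j then ((2 / (n : ℝ) : ℝ) : 𝕜) * ∑ k, ∑ l, ((p.1 k l : ℝ) : 𝕜) * dY k l F p else 0

/-- The columns `Θ^k ∂_a` of operators: `(Θ^0 ∂_a)_i = ∂/∂V_ai`,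
`(Θ^(k+1) ∂_a)_i = ∑_j Θ_ij (Θ^k ∂_a)_j`. -/
noncomputable def colOp (a : Fin m) (k : ℕ) : Fin n → (Amb m n → 𝕜) → Amb m n → 𝕜 :=
  Nat.rec (fun i => dV a i) (fun _ C i F p => ∑ j, Theta i j (C j F) p) k

/-- The labels `(a, k)` of the `n = q m + r` columns `Θ^k ∂_a` of `D_I`: first the `q m` labels
with `k < q`, ordered by `k` and then by `a`, then the `r` labels `(I l, q)`. -/
def label {q r : ℕ} (hn : n = q * m + r) (I : Fin r → Fin m) (j : Fin n) : Fin m × ℕ :=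
  if h : j.1 < q * m then
    (⟨j.1 % m, Nat.mod_lt _ (Nat.pos_of_ne_zero (by rintro rfl; simp at h))⟩, j.1 / m)
  else (I ⟨j.1 - q * m, by omega⟩, q)

/-- The operator `D_I = ∑_σ sgn(σ) C_1(σ 1) C_2(σ 2) ⋯ C_n(σ n)`, the column-ordered determinant of
the `n × n` matrix of operators whose `j`-th column `C_j` is `Θ^k ∂_a`, `(a, k) = label j`. -/
noncomputable def DI {q r : ℕ} (hn : n = q * m + r) (I : Fin r → Fin m)
    (F : Amb m n → 𝕜) (p : Amb m n) : 𝕜 :=
  ∑ σ : Equiv.Perm (Fin n), ((Equiv.Perm.sign σ : ℤˣ) : ℤ) •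
    (List.ofFn fun j => colOp (label hn I j).1 (label hn I j).2 (σ j)).foldr (fun T G => T G) F p

variable (𝕜) in
/-- The `r × r` minor with rows `I` of the generic `m × r` matrix `(X_aj)`. -/
noncomputable def minor {r : ℕ} (I : Fin r → Fin m) : MvPolynomial (Fin m × Fin r) 𝕜 :=
  (Matrix.of fun l j : Fin r => (MvPolynomial.X (I l, j) : MvPolynomial (Fin m × Fin r) 𝕜)).det

end Explicit

end Pool.Agent.PnmCenter
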