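import Mathlib
import Pool.Agent.MP_5aa3e6_al.Blk7

/-!
The reduction of the operators `D_I`.
-/

set_option linter.unusedSectionVars false

namespace Pool.Agent.MP_5aa3e6_al

section CUnit

variable {U : Type*} [Ring U]

/-- expansion along a first column equal to the first unit vector -/
theorem cdet_succ {n : ℕ} (v : Fin (n + 1) → Fin (n + 1) → U)
    (h : ∀ i, v 0 i = if i = 0 then 1 else 0) :
    cdet v = cdet (fun j i : Fin n => v j.succ i.succ) := by
  rw [cdet, ← Equiv.Perm.decomposeFin.symm.sum_comp, Fintype.sum_prod_type,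
    Finset.sum_eq_single 0, cdet]
  · refine Finset.sum_congr rfl fun τ _ => ?_
    rw [Equiv.Perm.decomposeFin.symm_sign, if_pos rfl, one_mul, List.ofFn_succ, List.prod_cons,
      Equiv.Perm.decomposeFin_symm_apply_zero, h, if_pos rfl, one_mul]
    congr 3
  · intro p _ hp
    refine Finset.sum_eq_zero fun τ _ => ?_
    rw [List.ofFn_succ, List.prod_cons, Equiv.Perm.decomposeFin_symm_apply_zero, h, if_neg hp,
      zero_mul, smul_zero]
  · simp

theorem cdet_units {n : ℕ} (m : ℕ) (v : Fin (n + m) → Fin (n + m) → U)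
    (h : ∀ j i : Fin (n + m), j.1 < m → v j i = if i = j then 1 else 0) :
    cdet v = cdet (fun j i : Fin n => v (j.addNat m) (i.addNat m)) := by
  induction m with
  | zero => rfl
  | succ m ih =>
    have h1 : cdet v = cdet (fun j i : Fin (n + m) => v j.succ i.succ) :=
      cdet_succ (n := n + m) v fun i => h 0 i (Nat.succ_pos m)
    rw [h1, ih]
    · rfl
    · intro j i hj
      rw [h j.succ i.succ (by simpa using hj)]
      simp [Fin.succ_inj]

theorem cdet_cast {n n' : ℕ} (h : n = n') (v : Fin n' → Fin n' → U) :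
    cdet v = cdet (fun j i : Fin n => v (Fin.cast h j) (Fin.cast h i)) := by
  subst h
  rfl

end CUnit

section Ext

variable {ι : Type*} {m q r : ℕ}

/-- the ordering of `Fin m ⊕ ι` induced by an ordering of `ι` -/
def extE (ε : Fin (q * m + r) ≃ ι) : Fin ((q + 1) * m + r) ≃ Fin m ⊕ ι :=
  (finCongr (by ring)).trans (finSumFinEquiv.symm.trans
    (Equiv.sumCongr (Equiv.refl (Fin m)) ε))

theorem extE_low (ε : Fin (q * m + r) ≃ ι) (i : Fin ((q + 1) * m + r)) (hi : i.1 < m) :
    extE ε i = Sum.inl ⟨i.1, hi⟩ := by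
  rw [extE, Equiv.trans_apply, Equiv.trans_apply]
  have h1 : (finCongr (by ring : (q + 1) * m + r = m + (q * m + r))) i
      = finSumFinEquiv (Sum.inl ⟨i.1, hi⟩) := by
    apply Fin.ext
    simp
  rw [h1, Equiv.symm_apply_apply]
  rfl

theorem extE_high (ε : Fin (q * m + r) ≃ ι) (i : Fin ((q + 1) * m + r)) (j : Fin (q * m + r))
    (hi : i.1 = j.1 + m) : extE ε i = Sum.inr (ε j) := by
  rw [extE, Equiv.trans_apply, Equiv.trans_apply]
  have h1 : (finCongr (by ring : (q + 1) * m + r = m + (q * m + r))) i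
      = finSumFinEquiv (Sum.inr j) := by
    apply Fin.ext
    simp [hi]
    omega
  rw [h1, Equiv.symm_apply_apply]
  rfl

theorem colI_low (I : Fin r → Fin m) (j : Fin ((q + 1) * m + r)) (hj : j.1 < m) :
    colI I j = (⟨j.1, hj⟩, 0) := by
  have h1 : j.1 < (q + 1) * m := by
    calc j.1 < m := hj
      _ = 1 * m := (one_mul m).symm
      _ ≤ (q + 1) * m := Nat.mul_le_mul_right m (Nat.succ_le_succ (Nat.zero_le q))
  rw [colI, dif_pos h1]
  ext
  · exact Nat.mod_eq_of_lt hj
  · exact Nat.div_eq_of_lt hj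

theorem colI_high (I : Fin r → Fin m) (j : Fin ((q + 1) * m + r)) (k : Fin (q * m + r))
    (hj : j.1 = k.1 + m) : colI I j = ((colI I k).1, (colI I k).2 + 1) := by
  by_cases h : k.1 < q * m
  · have hm : 0 < m := Nat.pos_of_ne_zero (by rintro rfl; simp at h)
    have h1 : j.1 < (q + 1) * m := by
      rw [hj, Nat.add_mul, Nat.one_mul]
      exact Nat.add_lt_add_right h m
    rw [colI, dif_pos h1, colI, dif_pos h]
    ext
    · simp [hj]
    · simp only
      rw [hj, Nat.add_div_right _ hm]
  · have h1 : ¬ j.1 < (q + 1) * m := by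
      rw [hj, Nat.add_mul, Nat.one_mul]
      intro h2
      exact h (Nat.lt_of_add_lt_add_right h2)
    rw [colI, dif_neg h1, colI, dif_neg h]
    simp only
    congr 2
    apply Fin.ext
    simp only
    rw [hj, Nat.add_mul, Nat.one_mul, Nat.add_sub_add_right]

variable {U : Type*} [Ring U]

theorem dI_step (u : Fin m → ℕ → (Fin m ⊕ ι) → U)
    (h1 : ∀ a b, u a 0 (Sum.inl b) = if a = b then 1 else 0)
    (h2 : ∀ a j, u a 0 (Sum.inr j) = 0) (ε : Fin (q * m + r) ≃ ι) (I : Fin r → Fin m) :
    dI u (extE ε) I = dI (fun a k j => u a (k + 1) (Sum.inr j)) ε I := by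
  have hN : (q * m + r) + m = (q + 1) * m + r := by ring
  rw [dI, cdet_cast hN, cdet_units m]
  · rw [dI]
    congr 1
    funext j i
    rw [colI_high I (Fin.cast hN (j.addNat m)) j (by simp),
      extE_high ε (Fin.cast hN (i.addNat m)) i (by simp)]
  · intro j i hj
    rw [colI_low I (Fin.cast hN j) (by simpa using hj)]
    by_cases hi : i.1 < m
    · rw [extE_low ε (Fin.cast hN i) (by simpa using hi), h1]
      congr 1
      simp only [Fin.ext_iff, eq_iff_iff, Fin.val_cast]
      exact eq_comm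
    · have hi' : i.1 - m < q * m + r := by omega
      rw [extE_high ε (Fin.cast hN i) ⟨i.1 - m, hi'⟩ (by simp; omega), h2, if_neg]
      rintro rfl
      exact hi hj

end Ext

end Pool.Agent.MP_5aa3e6_al
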