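import Mathlib
import Pool.Agent.MP_5aa3e6_al.Red1

/-!
The reduction maps `D_I` to `D_I`.
-/

set_option linter.unusedSectionVars false

namespace Pool.Agent.MP_5aa3e6_al

section Iw

variable {𝕜 : Type*} [RCLike 𝕜] {E E' : Type*} [NormedAddCommGroup E] [NormedSpace ℝ E]
  [NormedAddCommGroup E'] [NormedSpace ℝ E'] {M M' : Type*} {e : M → E} {e' : M' → E'}

/-- intertwining of two operators by a linear map -/
def Iw (J : Sm 𝕜 e' →ₗ[𝕜] Sm 𝕜 e) (x : Op 𝕜 e) (y : Op 𝕜 e') : Prop := ∀ f, x (J f) = J (y f)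

variable {J : Sm 𝕜 e' →ₗ[𝕜] Sm 𝕜 e}

theorem Iw.mul {x x' : Op 𝕜 e} {y y' : Op 𝕜 e'} (h : Iw J x y) (h' : Iw J x' y') :
    Iw J (x * x') (y * y') := by
  intro f
  rw [Op.mul_apply, Op.mul_apply, h', h]

theorem Iw.add {x x' : Op 𝕜 e} {y y' : Op 𝕜 e'} (h : Iw J x y) (h' : Iw J x' y') :
    Iw J (x + x') (y + y') := by
  intro f
  rw [Op.add_apply, Op.add_apply, h', h, map_add]

theorem Iw.zero : Iw J 0 0 := by
  intro f
  rw [Op.zero_apply, Op.zero_apply, map_zero]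

theorem Iw.one : Iw J 1 1 := fun f => rfl

theorem Iw.sum {κ : Type*} (s : Finset κ) {x : κ → Op 𝕜 e} {y : κ → Op 𝕜 e'}
    (h : ∀ k, Iw J (x k) (y k)) : Iw J (∑ k ∈ s, x k) (∑ k ∈ s, y k) := by
  classical
  induction s using Finset.induction_on with
  | empty => simpa using Iw.zero
  | insert a s ha ih => rw [Finset.sum_insert ha, Finset.sum_insert ha]; exact (h a).add ih

theorem Iw.list_prod {n : ℕ} {x : Fin n → Op 𝕜 e} {y : Fin n → Op 𝕜 e'}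
    (h : ∀ j, Iw J (x j) (y j)) : Iw J (List.ofFn x).prod (List.ofFn y).prod := by
  induction n with
  | zero => simpa using Iw.one
  | succ n ih =>
    rw [List.ofFn_succ, List.prod_cons, List.ofFn_succ, List.prod_cons]
    exact (h 0).mul (ih fun j => h j.succ)

theorem Iw.zsmul {x : Op 𝕜 e} {y : Op 𝕜 e'} (h : Iw J x y) (c : ℤ) : Iw J (c • x) (c • y) := by
  intro f
  have h4 : ∀ (D : Op 𝕜 e) (g : Sm 𝕜 e), (c • D) g = c • (D g) := fun D g => rfl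
  have h5 : ∀ (D : Op 𝕜 e') (g : Sm 𝕜 e'), (c • D) g = c • (D g) := fun D g => rfl
  rw [h4, h5, h f, map_zsmul]

theorem Iw.cdet {n : ℕ} {x : Fin n → Fin n → Op 𝕜 e} {y : Fin n → Fin n → Op 𝕜 e'}
    (h : ∀ i j, Iw J (x i j) (y i j)) : Iw J (cdet x) (cdet y) := by
  rw [MP_5aa3e6_al.cdet, MP_5aa3e6_al.cdet]
  exact Iw.sum _ fun σ => (Iw.list_prod fun j => h _ _).zsmul _

theorem Iw.colVec {ι β : Type*} [Fintype ι] {A : ι → ι → Op 𝕜 e} {P : β → ι → Op 𝕜 e}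
    {A' : ι → ι → Op 𝕜 e'} {P' : β → ι → Op 𝕜 e'}
    (hE : ∀ i j, Iw J (A i j) (A' i j)) (hP : ∀ i j, Iw J (P i j) (P' i j)) (a : β) (k : ℕ) :
    ∀ i, Iw J (colVec A P a k i) (colVec A' P' a k i) := by
  induction k with
  | zero => exact hP a
  | succ k ih =>
    intro i
    exact Iw.sum _ fun j => (hE i j).mul (ih j)

theorem Iw.dI {m q r : ℕ} {ι : Type*} {u : Fin m → ℕ → ι → Op 𝕜 e}
    {u' : Fin m → ℕ → ι → Op 𝕜 e'} (h : ∀ a k i, Iw J (u a k i) (u' a k i))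
    (ε : Fin (q * m + r) ≃ ι) (I : Fin r → Fin m) : Iw J (dI u ε I) (dI u' ε I) := by
  rw [MP_5aa3e6_al.dI, MP_5aa3e6_al.dI]
  exact Iw.cdet fun i j => h _ _ _

end Iw

section Red

variable {m : ℕ} {ι : Type*} [Fintype ι] [DecidableEq ι] [Nonempty ι]
variable {𝕜 : Type*} [RCLike 𝕜]

/-- the lower right block `Θ₂₂` -/
noncomputable def e22 (𝕜 : Type*) [RCLike 𝕜] (m : ℕ) {ι : Type*} [Fintype ι] [DecidableEq ι]
    [Nonempty ι] (i j : ι) : OpX 𝕜 Empty (Fin m ⊕ ι) := thM 𝕜 Empty (Sum.inr i) (Sum.inr j)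

/-- the columns of the lower left block `Θ₂₁` -/
noncomputable def p21 (𝕜 : Type*) [RCLike 𝕜] {m : ℕ} {ι : Type*} [Fintype ι] [DecidableEq ι]
    [Nonempty ι] (a : Fin m) (i : ι) : OpX 𝕜 Empty (Fin m ⊕ ι) :=
  thM 𝕜 Empty (Sum.inr i) (Sum.inl a)

theorem glRel21 : GLRel (e22 𝕜 m (ι := ι)) (p21 𝕜 (m := m) (ι := ι)) where
  EE i j k l := by
    rw [e22, e22, thM_comm]
    simp only [Sum.inr.injEq]
    rfl
  EP i j a k := by
    rw [e22, p21, thM_comm]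
    simp only [Sum.inr.injEq, reduceCtorEq, if_false, sub_zero]
    rfl
  PP a b i j := by
    have h := thM_comm (𝕜 := 𝕜) (α := Empty) (Sum.inr i : Fin m ⊕ ι) (Sum.inl a) (Sum.inr j)
      (Sum.inl b)
    simp only [reduceCtorEq, if_false, sub_zero] at h
    exact sub_eq_zero.mp h

/-- the constant columns of the symbol at `ξ₀` -/
noncomputable def cst (𝕜 : Type*) [RCLike 𝕜] {m : ℕ} {ι : Type*} [Fintype ι] [DecidableEq ι]
    [Nonempty ι] (a : Fin m) (i : Fin m ⊕ ι) : OpX 𝕜 Empty (Fin m ⊕ ι) :=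
  algebraMap 𝕜 _ ((xi0 (Fin m) ι a i : ℝ) : 𝕜)

theorem cst_inl (a b : Fin m) : (cst 𝕜 a (Sum.inl b) : OpX 𝕜 Empty (Fin m ⊕ ι))
    = if a = b then 1 else 0 := by
  rw [cst, xi0_inl]
  split_ifs <;> simp

theorem cst_inr (a : Fin m) (j : ι) : (cst 𝕜 a (Sum.inr j) : OpX 𝕜 Empty (Fin m ⊕ ι)) = 0 := by
  rw [cst, xi0_inr]
  simp

theorem step_low (a : Fin m) (k : ℕ) :
    (fun j : ι => colVec (thM 𝕜 Empty (ι := Fin m ⊕ ι)) (cst 𝕜) a (k + 1) (Sum.inr j))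
      - colVec (e22 𝕜 m) (p21 𝕜) a k ∈ lowV (e22 𝕜 m (ι := ι)) (p21 𝕜) k := by
  refine mem_lowV_of_step (u := fun a k (j : ι) =>
    colVec (thM 𝕜 Empty (ι := Fin m ⊕ ι)) (cst 𝕜) a (k + 1) (Sum.inr j)) ?_ ?_ a k
  · intro a
    funext j
    change ∑ p, thM 𝕜 Empty (Sum.inr j) p * cst 𝕜 a p = _
    rw [Fintype.sum_sum_type]
    simp only [cst_inl, cst_inr, mul_zero, Finset.sum_const_zero, add_zero, mul_ite, mul_one,
      Finset.sum_ite_eq, Finset.mem_univ, if_true]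
    rfl
  · intro a k _
    set u := colVec (thM 𝕜 Empty (ι := Fin m ⊕ ι)) (cst 𝕜) a (k + 1) with hu
    have h1 : ((fun j : ι => colVec (thM 𝕜 Empty (ι := Fin m ⊕ ι)) (cst 𝕜) a (k + 1 + 1)
        (Sum.inr j)) - opVec (e22 𝕜 m) (fun j : ι => u (Sum.inr j)))
        = ∑ b : Fin m, fun j : ι => colVec (e22 𝕜 m) (p21 𝕜) b 0 j * u (Sum.inl b) := by
      funext j
      have h2 : colVec (thM 𝕜 Empty (ι := Fin m ⊕ ι)) (cst 𝕜) a (k + 1 + 1) (Sum.inr j)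
          = ∑ p, thM 𝕜 Empty (Sum.inr j) p * u p := rfl
      rw [Pi.sub_apply, h2, Fintype.sum_sum_type, Finset.sum_apply]
      have h3 : opVec (e22 𝕜 m) (fun j : ι => u (Sum.inr j)) j
          = ∑ i, thM 𝕜 Empty (Sum.inr j) (Sum.inr i) * u (Sum.inr i) := rfl
      rw [h3, add_sub_cancel_right]
      rfl
    have h4 : ((fun j : ι => colVec (thM 𝕜 Empty (ι := Fin m ⊕ ι)) (cst 𝕜) a (k + 1 + 1)
        (Sum.inr j)) - opVec (e22 𝕜 m) (fun j : ι => u (Sum.inr j)))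
        ∈ lowV (e22 𝕜 m (ι := ι)) (p21 𝕜) (k + 1) := by
      rw [h1]
      exact sum_mem fun b _ => AddSubgroup.subset_closure ⟨b, 0, _, Nat.succ_pos k, rfl⟩
    exact h4

variable {q r : ℕ}

theorem HasSy.dI {α κ η : Type*} [Fintype α] [DecidableEq α] [Fintype η] [DecidableEq η]
    {ξ : Matrix α η ℝ}
    {u : Fin m → ℕ → κ → OpX 𝕜 α η} {u' : Fin m → ℕ → κ → OpX 𝕜 Empty η}
    (h : ∀ a k i, HasSy (u a k i) ξ (u' a k i)) (ε : Fin (q * m + r) ≃ κ) (I : Fin r → Fin m) :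
    HasSy (dI u ε I) ξ (dI u' ε I) := by
  rw [MP_5aa3e6_al.dI, MP_5aa3e6_al.dI]
  exact HasSy.cdet fun i j => h _ _ _

theorem sy_DI (ε : Fin (q * m + r) ≃ ι) (I : Fin r → Fin m) :
    sy (DI 𝕜 (extE ε) I) (xi0 (Fin m) ι) = dI (colVec (e22 𝕜 m) (p21 𝕜)) ε I := by
  have hP : ∀ (a : Fin m) (i : Fin m ⊕ ι), HasSy (pM 𝕜 a i) (xi0 (Fin m) ι) (cst 𝕜 a i) :=
    fun a i => HasSy_pM _ a i
  have hc : ∀ (a : Fin m) (k : ℕ) (i : Fin m ⊕ ι),
      HasSy (colVec (thM 𝕜 (Fin m)) (pM 𝕜) a k i) (xi0 (Fin m) ι)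
        (colVec (thM 𝕜 Empty (ι := Fin m ⊕ ι)) (cst 𝕜) a k i) :=
    fun a k i => HasSy.colVec (HasSy_thM _) hP a k i
  have h1 : HasSy (DI 𝕜 (extE ε) I) (xi0 (Fin m) ι)
      (dI (colVec (thM 𝕜 Empty (ι := Fin m ⊕ ι)) (cst 𝕜)) (extE ε) I) := by
    rw [DI]
    exact HasSy.dI hc _ _
  rw [(hasSy_sy (DI_mem _ I) _).unique h1]
  rw [dI_step]
  · exact dI_congr 𝕜 glRel21 _ step_low ε I
  · intro a b; exact cst_inl a b
  · intro a j; exact cst_inr a j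

theorem zz_DI (ε : Fin (q * m + r) ≃ ι) (I : Fin r → Fin m) :
    zz (DI 𝕜 (extE ε) I) = DI 𝕜 ε I := by
  apply Op.ext
  intro h
  apply pp_injective
  rw [← sy_pp (DI_mem_ZD _ I), sy_DI, DI_eq_e]
  have h1 : Iw (pp 𝕜 (α := Fin m) (ι := ι)).toLinearMap
      (dI (colVec (e22 𝕜 m) (p21 𝕜)) ε I) (dI (colVec (eM 𝕜 (Fin m)) (pM 𝕜)) ε I) :=
    Iw.dI (fun a k i => Iw.colVec (fun i j h => th22 i j h) (fun a i h => th21 i a h) a k i) ε I
  exact h1 h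

end Red

section Step

variable {m q r : ℕ} {ι : Type*} [Fintype ι] [DecidableEq ι] [Nonempty ι]
variable {𝕜 : Type*} [RCLike 𝕜]

/-- the reduction as a homomorphism of algebras -/
noncomputable def zzHom (𝕜 : Type*) [RCLike 𝕜] (α ι : Type*) [Fintype α] [DecidableEq α]
    [Fintype ι] [DecidableEq ι] [Nonempty ι] : ZD 𝕜 α (α ⊕ ι) →ₐ[𝕜] ZD 𝕜 α ι where
  toFun D := ⟨zz D.1, zz_mem_ZD D.2⟩
  map_one' := by
    apply Subtype.ext
    have := zz_algebraMap (𝕜 := 𝕜) (α := α) (ι := ι) 1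
    rwa [map_one, map_one] at this
  map_mul' D D' := Subtype.ext (zz_mul D.2 D'.2)
  map_zero' := by
    apply Subtype.ext
    have := zz_algebraMap (𝕜 := 𝕜) (α := α) (ι := ι) 0
    rwa [map_zero, map_zero] at this
  map_add' D D' := Subtype.ext (zz_add D.1 D'.1)
  commutes' c := Subtype.ext (zz_algebraMap c)

/-- the induction step -/
theorem Good.step (ε : Fin (q * m + r) ≃ ι) (h : Good 𝕜 ε) : Good 𝕜 (extE ε) := by
  obtain ⟨Φ, h1, h2, h3⟩ := h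
  refine ⟨Φ.comp (zzHom 𝕜 (Fin m) ι), ?_, fun z => h2 _, fun I => ?_⟩
  · rw [AlgHom.coe_comp]
    apply h1.comp
    rw [injective_iff_map_eq_zero]
    intro D hD
    apply Subtype.ext
    exact zz_injective D.2 (congrArg Subtype.val hD)
  · rw [AlgHom.comp_apply]
    have : zzHom 𝕜 (Fin m) ι ⟨DI 𝕜 (extE ε) I, DI_mem_ZD _ I⟩ = ⟨DI 𝕜 ε I, DI_mem_ZD ε I⟩ :=
      Subtype.ext (zz_DI ε I)
    rw [this, h3]

theorem exists_good (𝕜 : Type*) [RCLike 𝕜] {m r : ℕ} [Nonempty (Fin r)] (hrm : r ≤ m) (q : ℕ) :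
    ∃ (ι : Type) (_ : Fintype ι) (_ : DecidableEq ι) (_ : Nonempty ι) (ε : Fin (q * m + r) ≃ ι),
      Good 𝕜 ε := by
  induction q with
  | zero => exact ⟨Fin r, inferInstance, inferInstance, inferInstance, _, base_good hrm⟩
  | succ q ih =>
    obtain ⟨ι, i1, i2, i3, ε, h⟩ := ih
    exact ⟨Fin m ⊕ ι, inferInstance, inferInstance, inferInstance, extE ε, h.step⟩

end Step

end Pool.Agent.MP_5aa3e6_al
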