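import Mathlib
import Pool.Agent.MP_5aa3e6_al.Red2

/-!
Renaming of the indices.
-/

set_option linter.unusedSectionVars false

namespace Pool.Agent.MP_5aa3e6_al

section Tr

variable {α ι κ : Type*} [Fintype α] [DecidableEq α] [Fintype ι] [DecidableEq ι] [Nonempty ι]
  [Fintype κ] [DecidableEq κ] [Nonempty κ]
variable {𝕜 : Type*} [RCLike 𝕜]

omit [Nonempty ι] [Nonempty κ] in
theorem nrm_submatrix (σ : κ ≃ ι) (Z : Matrix ι ι ℝ) :
    nrm (Z.submatrix σ σ) = (nrm Z).submatrix σ σ := by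
  rw [nrm, nrm, Matrix.det_submatrix_equiv_self, Fintype.card_congr σ]
  rfl

/-- renaming of the indices -/
def tr (σ : κ ≃ ι) (x : XX α ι) : XX α κ :=
  (⟨x.1.1.submatrix σ σ, x.1.2.1.submatrix σ.injective, by
    rw [Matrix.det_submatrix_equiv_self]; exact x.1.2.2⟩, x.2.submatrix id σ)

omit [Nonempty ι] [Nonempty κ] in
theorem tr_symm (σ : κ ≃ ι) (x : XX α κ) : tr σ (tr σ.symm x) = x := by
  apply Prod.ext
  · apply Subtype.ext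
    ext i j
    simp [tr]
  · ext i j
    simp [tr]

omit [Nonempty ι] [Nonempty κ] in
theorem SMap_tr (σ : κ ≃ ι) : SMap emX emX (tr σ : XX α ι → XX α κ) :=
  SMap_of_coords (fun i j => SmM_Y (α := α) (ι := ι) _ _) (fun i j => SmM_V (α := α) (ι := ι) _ _)

theorem tr_mkX (σ : κ ≃ ι) {Z : Matrix ι ι ℝ} (hZ : Z.PosDef) (V : Matrix α ι ℝ) :
    tr σ (mkX Z hZ V) = mkX (Z.submatrix σ σ) (hZ.submatrix σ.injective) (V.submatrix id σ) := by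
  apply Prod.ext
  · apply Subtype.ext
    change (nrm Z).submatrix σ σ = nrm (Z.submatrix σ σ)
    rw [nrm_submatrix]
  · rfl

/-- pull-back by the renaming -/
noncomputable def jt (𝕜 : Type*) [RCLike 𝕜] {α ι κ : Type*} [Fintype α] [DecidableEq α]
    [Fintype ι] [DecidableEq ι] [Fintype κ] [DecidableEq κ] (σ : κ ≃ ι) :
    CX 𝕜 α κ →ₐ[𝕜] CX 𝕜 α ι := pb 𝕜 (SMap_tr (α := α) σ)

omit [Nonempty ι] [Nonempty κ] in
theorem jt_val (σ : κ ≃ ι) (f : CX 𝕜 α κ) (x : XX α ι) : (jt 𝕜 σ f).1 x = f.1 (tr σ x) := rfl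

omit [Nonempty ι] [Nonempty κ] in
theorem jt_jt (σ : κ ≃ ι) (f : CX 𝕜 α κ) : jt 𝕜 σ.symm (jt 𝕜 σ f) = f := by
  ext x
  rw [jt_val, jt_val, tr_symm]

omit [Nonempty ι] [Nonempty κ] in
theorem jt_jt' (σ : κ ≃ ι) (f : CX 𝕜 α ι) : jt 𝕜 σ (jt 𝕜 σ.symm f) = f := jt_jt σ.symm f

theorem Th_jt (σ : κ ≃ ι) (B : Matrix ι ι ℝ) (f : CX 𝕜 α κ) :
    Th B (jt 𝕜 σ f) = jt 𝕜 σ (Th (B.submatrix σ σ) f) := by
  ext x
  have h := pb_curve_crv (SMap_tr (α := α) σ) f B 0 x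
    (W := fun s => (crv B x.1.1 s).submatrix σ σ)
    (fun s => (crv_posDef B x.1.2.1 s).submatrix σ.injective)
    (U := fun _ => x.2.submatrix id σ) (C := B.submatrix σ σ)
    (W' := (-(B * x.1.1 + x.1.1 * B.transpose)).submatrix σ σ) (U' := 0) (y := tr σ x) rfl
    (fun s => by rw [tr_mkX, smul_zero, add_zero]) (fun i j => hasDerivAt_crv B x.1.1 _ _)
    ?_ (fun a i => hasDerivAt_const _ _)
  · rw [Pm_zero, Pm_zero, Op.zero_apply, Op.zero_apply, zero_val, zero_val, add_zero,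
      add_zero] at h
    exact h
  · rw [crv_zero, Matrix.submatrix_mul_equiv, Matrix.transpose_submatrix,
      Matrix.submatrix_mul_equiv]
    rfl

omit [Nonempty ι] [Nonempty κ] in
theorem Pm_jt (σ : κ ≃ ι) (W : Matrix α ι ℝ) (f : CX 𝕜 α κ) :
    Pm W (jt 𝕜 σ f) = jt 𝕜 σ (Pm (W.submatrix id σ) f) := by
  ext x
  obtain ⟨F, rfl⟩ := res_surj f
  rw [jt_val, Pm_res, res_apply]
  have h1 : HasDerivAt (fun s : ℝ => (res 𝕜 emX F : XX α κ → 𝕜)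
      ((tr σ x).1, (tr σ x).2 + s • W.submatrix id σ)) ((PB 𝕜 (W.submatrix id σ) F).1
        (emX (tr σ x))) 0 := by
    have h2 : HasDerivAt (fun s : ℝ => (emX ((tr σ x).1, (tr σ x).2 + s • W.submatrix id σ) :
        EX α κ)) (mE 0 (W.submatrix id σ)) 0 := by
      open scoped Matrix.Norms.Elementwise in
      have h := ((hasDerivAt_id (0 : ℝ)).smul_const (W.submatrix id σ)).const_add (tr σ x).2
      rw [one_smul] at h
      exact hasDerivAt_mE (hasDerivAt_const (0 : ℝ) (tr σ x).1.1) h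
    have h3 := hasDerivAt_curve (e := emX)
      (c := fun s : ℝ => ((tr σ x).1, (tr σ x).2 + s • W.submatrix id σ)) h2 F
    simp only [zero_smul, add_zero] at h3
    exact h3
  obtain ⟨G, hG⟩ := res_surj (jt 𝕜 σ (res 𝕜 emX F))
  rw [← hG, Pm_res, res_apply]
  have h4 : HasDerivAt (fun s : ℝ => (res 𝕜 emX G : XX α ι → 𝕜) (x.1, x.2 + s • W))
      ((PB 𝕜 W G).1 (emX x)) 0 := by
    have h2 : HasDerivAt (fun s : ℝ => (emX (x.1, x.2 + s • W) : EX α ι)) (mE 0 W) 0 := by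
      open scoped Matrix.Norms.Elementwise in
      have h := ((hasDerivAt_id (0 : ℝ)).smul_const W).const_add x.2
      rw [one_smul] at h
      exact hasDerivAt_mE (hasDerivAt_const (0 : ℝ) x.1.1) h
    have h3 := hasDerivAt_curve (e := emX) (c := fun s : ℝ => (x.1, x.2 + s • W)) h2 G
    simp only [zero_smul, add_zero] at h3
    exact h3
  rw [hG] at h4
  exact h4.unique h1

omit [Nonempty ι] [Nonempty κ] in
theorem cY_jt (σ : κ ≃ ι) (i j : ι) :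
    (cY i j : CX 𝕜 α ι) = jt 𝕜 σ (cY (σ.symm i) (σ.symm j)) := by
  ext x
  rw [jt_val, cY_apply, cY_apply]
  simp [tr]

omit [Fintype κ] [Nonempty κ] [Fintype ι] [Nonempty ι] in
theorem single_submatrix (σ : κ ≃ ι) (i j : ι) :
    (Matrix.single i j (1 : ℝ)).submatrix σ σ = Matrix.single (σ.symm i) (σ.symm j) 1 := by
  ext a b
  simp [Matrix.single_apply, Equiv.symm_apply_eq]

omit [Fintype κ] [Nonempty κ] [Fintype ι] [Nonempty ι] [Fintype α] in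
theorem single_submatrix' (σ : κ ≃ ι) (a : α) (j : ι) :
    (Matrix.single a j (1 : ℝ)).submatrix id σ = Matrix.single a (σ.symm j) 1 := by
  ext b c
  simp [Matrix.single_apply, Equiv.symm_apply_eq]

theorem Iw_th (σ : κ ≃ ι) (i j : ι) :
    Iw (jt 𝕜 (α := α) σ).toLinearMap (thM 𝕜 α i j) (thM 𝕜 α (σ.symm i) (σ.symm j)) := by
  intro f
  have := Th_jt (𝕜 := 𝕜) (α := α) σ (Matrix.single i j 1) f
  rw [single_submatrix] at this
  exact this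

omit [Nonempty ι] [Nonempty κ] in
theorem Iw_pM (σ : κ ≃ ι) (a : α) (j : ι) :
    Iw (jt 𝕜 (α := α) σ).toLinearMap (pM 𝕜 a j) (pM 𝕜 a (σ.symm j)) := by
  intro f
  have := Pm_jt (𝕜 := 𝕜) (α := α) σ (Matrix.single a j 1) f
  rw [single_submatrix'] at this
  exact this

omit [Nonempty ι] [Nonempty κ] in
theorem Iw_cY (σ : κ ≃ ι) (i j : ι) :
    Iw (jt 𝕜 (α := α) σ).toLinearMap (mulM (cY i j)) (mulM (cY (σ.symm i) (σ.symm j))) := by
  intro f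
  have h1 : (jt 𝕜 (α := α) σ).toLinearMap f = jt 𝕜 σ f := rfl
  have h2 : (jt 𝕜 (α := α) σ).toLinearMap (mulM (cY (σ.symm i) (σ.symm j)) f)
      = jt 𝕜 σ (cY (σ.symm i) (σ.symm j) * f) := rfl
  rw [h1, h2, map_mul, mulM_apply, cY_jt σ]

theorem Iw_Dl (σ : κ ≃ ι) :
    Iw (jt 𝕜 (α := α) σ).toLinearMap (Dl 𝕜 α ι) (Dl 𝕜 α κ) := by
  have h1 : Dl 𝕜 α κ = ∑ i : ι, ∑ j : ι, thM 𝕜 α (σ.symm i) (σ.symm j)
      * thM 𝕜 α (σ.symm j) (σ.symm i) := by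
    rw [Dl, ← σ.symm.sum_comp]
    refine Finset.sum_congr rfl fun i _ => ?_
    rw [← σ.symm.sum_comp]
  rw [h1]
  exact Iw.sum _ fun i => Iw.sum _ fun j => (Iw_th σ i j).mul (Iw_th σ j i)

omit [Nonempty ι] [Nonempty κ] in
theorem Iw_Qd (σ : κ ≃ ι) (a b : α) :
    Iw (jt 𝕜 (α := α) σ).toLinearMap (Qd 𝕜 ι a b) (Qd 𝕜 κ a b) := by
  have h1 : Qd 𝕜 κ a b = ∑ i : ι, ∑ j : ι, mulM (cY (σ.symm i) (σ.symm j))
      * (pM 𝕜 a (σ.symm i) * pM 𝕜 b (σ.symm j)) := by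
    rw [Qd, ← σ.symm.sum_comp]
    refine Finset.sum_congr rfl fun i _ => ?_
    rw [← σ.symm.sum_comp]
  rw [h1]
  exact Iw.sum _ fun i => Iw.sum _ fun j => (Iw_cY σ i j).mul ((Iw_pM σ a i).mul (Iw_pM σ b j))

/-- conjugation of operators by the renaming -/
noncomputable def cj (𝕜 : Type*) [RCLike 𝕜] {α ι κ : Type*} [Fintype α] [DecidableEq α]
    [Fintype ι] [DecidableEq ι] [Fintype κ] [DecidableEq κ] (σ : κ ≃ ι) :
    OpX 𝕜 α κ →ₐ[𝕜] OpX 𝕜 α ι where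
  toFun D := trans (SMap_tr (α := α) σ.symm) (SMap_tr (α := α) σ) D
  map_one' := by
    apply Op.ext; intro f
    exact jt_jt' σ f
  map_mul' D D' := by
    apply Op.ext; intro f
    change jt 𝕜 σ (D (D' (jt 𝕜 σ.symm f)))
      = jt 𝕜 σ (D (jt 𝕜 σ.symm (jt 𝕜 σ (D' (jt 𝕜 σ.symm f)))))
    rw [jt_jt]
  map_zero' := by
    apply Op.ext; intro f
    change jt 𝕜 σ 0 = 0
    rw [map_zero]
  map_add' D D' := by
    apply Op.ext; intro f
    change jt 𝕜 σ (D (jt 𝕜 σ.symm f) + D' (jt 𝕜 σ.symm f))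
      = jt 𝕜 σ (D (jt 𝕜 σ.symm f)) + jt 𝕜 σ (D' (jt 𝕜 σ.symm f))
    rw [map_add]
  commutes' c := by
    apply Op.ext; intro f
    change jt 𝕜 σ (c • (jt 𝕜 σ.symm f)) = c • f
    rw [map_smul, jt_jt']

omit [Nonempty ι] [Nonempty κ] in
theorem Iw_cj (σ : κ ≃ ι) (D : OpX 𝕜 α κ) : Iw (jt 𝕜 (α := α) σ).toLinearMap (cj 𝕜 σ D) D := by
  intro f
  change jt 𝕜 σ (D (jt 𝕜 σ.symm (jt 𝕜 σ f))) = jt 𝕜 σ (D f)
  rw [jt_jt]

omit [Nonempty ι] [Nonempty κ] in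
theorem Iw_unique (σ : κ ≃ ι) {D D' : OpX 𝕜 α ι} {D₂ : OpX 𝕜 α κ}
    (h : Iw (jt 𝕜 (α := α) σ).toLinearMap D D₂) (h' : Iw (jt 𝕜 (α := α) σ).toLinearMap D' D₂) :
    D = D' := by
  apply Op.ext
  intro f
  rw [← jt_jt' σ f]
  exact (h _).trans (h' _).symm

omit [Nonempty ι] [Nonempty κ] in
theorem cj_eq (σ : κ ≃ ι) {D : OpX 𝕜 α ι} {D₂ : OpX 𝕜 α κ}
    (h : Iw (jt 𝕜 (α := α) σ).toLinearMap D D₂) : cj 𝕜 σ D₂ = D :=
  Iw_unique σ (Iw_cj σ D₂) h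

omit [Nonempty ι] [Nonempty κ] in
theorem cj_injective (σ : κ ≃ ι) : Function.Injective (cj 𝕜 (α := α) σ) := by
  intro D D' h
  apply Op.ext
  intro f
  have h1 := Iw_cj (𝕜 := 𝕜) (α := α) σ D f
  have h2 := Iw_cj (𝕜 := 𝕜) (α := α) σ D' f
  rw [h, h2] at h1
  have h3 := congrArg (jt 𝕜 (α := α) σ.symm) h1
  change jt 𝕜 σ.symm (jt 𝕜 σ (D' f)) = jt 𝕜 σ.symm (jt 𝕜 σ (D f)) at h3
  rw [jt_jt, jt_jt] at h3
  exact h3.symm

/-- renaming the indices of a matrix of determinant one -/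
def trSL (σ : κ ≃ ι) (A : Matrix.SpecialLinearGroup ι ℝ) : Matrix.SpecialLinearGroup κ ℝ :=
  ⟨A.1.submatrix σ σ, by rw [Matrix.det_submatrix_equiv_self]; exact A.2⟩

omit [Nonempty ι] [Nonempty κ] in
theorem tr_act (σ : κ ≃ ι) (A : Matrix.SpecialLinearGroup ι ℝ) (a : Matrix α ι ℝ) (x : XX α ι) :
    tr σ (act A a x) = act (trSL σ A) (a.submatrix id σ) (tr σ x) := by
  apply Prod.ext
  · apply Subtype.ext
    change (A.1 * x.1.1 * A.1.transpose).submatrix σ σ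
      = A.1.submatrix σ σ * x.1.1.submatrix σ σ * (A.1.submatrix σ σ).transpose
    rw [Matrix.transpose_submatrix, Matrix.submatrix_mul_equiv, Matrix.submatrix_mul_equiv]
  · change ((x.2 + a) * A.1.transpose).submatrix id σ
      = (x.2.submatrix id σ + a.submatrix id σ) * (A.1.submatrix σ σ).transpose
    rw [Matrix.transpose_submatrix, ← Matrix.submatrix_mul_equiv (x.2 + a) A.1.transpose id σ σ]
    rfl

omit [Nonempty ι] [Nonempty κ] in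
theorem cj_mem_DX (σ : κ ≃ ι) {D : OpX 𝕜 α κ} (hD : D ∈ DX 𝕜 α κ) : cj 𝕜 σ D ∈ DX 𝕜 α ι := by
  obtain ⟨h1, h2⟩ := mem_DX.mp hD
  refine mem_DX.mpr ⟨IsDO.transport _ _ (tr_symm σ.symm) h1, fun A a f => ?_⟩
  have h3 : ∀ g : CX 𝕜 α κ, rhoX 𝕜 A a (jt 𝕜 σ g)
      = jt 𝕜 σ (rhoX 𝕜 (trSL σ A) (a.submatrix id σ) g) := by
    intro g
    ext x
    rw [rhoX_apply, jt_val, jt_val, rhoX_apply, tr_act]
  have h4 : ∀ g : CX 𝕜 α κ, cj 𝕜 σ D (jt 𝕜 σ g) = jt 𝕜 σ (D g) := Iw_cj σ D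
  rw [← jt_jt' σ f, h3, h4, h2, ← h3, ← h4]

theorem cj_mem_ZD (σ : κ ≃ ι) {D : OpX 𝕜 α κ} (hD : D ∈ ZD 𝕜 α κ) : cj 𝕜 σ D ∈ ZD 𝕜 α ι := by
  obtain ⟨h1, h2, h3⟩ := mem_ZD.mp hD
  refine mem_ZD.mpr ⟨cj_mem_DX σ h1, ?_, fun a b => ?_⟩
  · rw [← cj_eq σ (Iw_Dl σ), ← map_mul, h2, map_mul]
  · rw [← cj_eq σ (Iw_Qd σ a b), ← map_mul, h3, map_mul]

variable {m q r : ℕ}

theorem cj_DI (σ : κ ≃ ι) (ε : Fin (q * m + r) ≃ ι) (I : Fin r → Fin m) :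
    cj 𝕜 σ (DI 𝕜 (ε.trans σ.symm) I) = DI 𝕜 ε I := by
  apply cj_eq
  rw [DI, DI]
  rw [MP_5aa3e6_al.dI, MP_5aa3e6_al.dI]
  apply Iw.cdet
  intro i j
  have h : ∀ (a : Fin m) (k : ℕ) (i : ι), Iw (jt 𝕜 (α := Fin m) σ).toLinearMap
      (colVec (thM 𝕜 (Fin m)) (pM 𝕜) a k i)
      (colVec (thM 𝕜 (Fin m)) (pM 𝕜) a k (σ.symm i)) := by
    intro a k
    induction k with
    | zero => intro i; exact Iw_pM σ a i
    | succ k ih =>
      intro i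
      have h1 : colVec (thM 𝕜 (Fin m)) (pM 𝕜) a (k + 1) (σ.symm i)
          = ∑ j : ι, thM 𝕜 (Fin m) (σ.symm i) (σ.symm j)
            * colVec (thM 𝕜 (Fin m)) (pM 𝕜) a k (σ.symm j) := by
        change ∑ j : κ, _ = _
        rw [← σ.symm.sum_comp]
      rw [h1]
      exact Iw.sum _ fun j => (Iw_th σ i j).mul (ih j)
  exact h _ _ _

/-- transport of the conclusion -/
theorem Good.transport {ε : Fin (q * m + r) ≃ ι} (h : Good 𝕜 ε) (σ : κ ≃ ι) :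
    Good 𝕜 (ε.trans σ.symm) := by
  obtain ⟨Φ, h1, h2, h3⟩ := h
  let c : ZD 𝕜 (Fin m) κ →ₐ[𝕜] ZD 𝕜 (Fin m) ι :=
    { toFun := fun D => ⟨cj 𝕜 σ D.1, cj_mem_ZD σ D.2⟩
      map_one' := Subtype.ext (map_one _)
      map_mul' := fun D D' => Subtype.ext (map_mul _ _ _)
      map_zero' := Subtype.ext (map_zero _)
      map_add' := fun D D' => Subtype.ext (map_add _ _ _)
      commutes' := fun c => Subtype.ext ((cj 𝕜 σ).commutes c) }
  refine ⟨Φ.comp c, ?_, fun z => h2 _, fun I => ?_⟩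
  · rw [AlgHom.coe_comp]
    apply h1.comp
    intro D D' h
    apply Subtype.ext
    exact cj_injective σ (congrArg Subtype.val h)
  · rw [AlgHom.comp_apply]
    have : c ⟨DI 𝕜 (ε.trans σ.symm) I, DI_mem_ZD _ I⟩ = ⟨DI 𝕜 ε I, DI_mem_ZD ε I⟩ :=
      Subtype.ext (cj_DI σ ε I)
    rw [this, h3]

theorem good_all (𝕜 : Type*) [RCLike 𝕜] {m r q : ℕ} {κ : Type*} [Fintype κ] [DecidableEq κ]
    [Nonempty κ] (hr : 1 ≤ r) (hrm : r ≤ m) (ε : Fin (q * m + r) ≃ κ) : Good 𝕜 ε := by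
  haveI : Nonempty (Fin r) := ⟨⟨0, hr⟩⟩
  obtain ⟨ι, i1, i2, i3, ε', h⟩ := exists_good 𝕜 hrm q
  have h2 := h.transport (κ := κ) (ε.symm.trans ε')
  have h3 : ε'.trans (ε.symm.trans ε').symm = ε := by
    ext i
    simp
  rwa [h3] at h2

end Tr

end Pool.Agent.MP_5aa3e6_al
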