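import Mathlib
import Pool.Agent.MP_5aa3e6_al.Tr1

/-!
The centre of the algebra of invariant differential operators.
-/

set_option linter.unusedSectionVars false

namespace Pool.Agent.MP_5aa3e6_al

section Center

variable {κ : Type*} [Fintype κ] [DecidableEq κ] [Nonempty κ]
variable {𝕜 : Type*} [RCLike 𝕜] {m q r : ℕ}

/-- `D_I` as an element of the algebra of invariant differential operators -/
noncomputable def DIx (𝕜 : Type*) [RCLike 𝕜] {m q r : ℕ} {κ : Type*} [Fintype κ] [DecidableEq κ]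
    [Nonempty κ] (ε : Fin (q * m + r) ≃ κ) (I : Fin r → Fin m) : DX 𝕜 (Fin m) κ :=
  ⟨DI 𝕜 ε I, DI_mem ε I⟩

theorem DIx_center (ε : Fin (q * m + r) ≃ κ) (I : Fin r → Fin m) :
    DIx 𝕜 ε I ∈ Subalgebra.center 𝕜 (DX 𝕜 (Fin m) κ) := by
  rw [Subalgebra.mem_center_iff]
  intro D
  apply Subtype.ext
  exact DI_comm ε I D.2

/-- `D_I` as an element of the centre -/
noncomputable def DIc (𝕜 : Type*) [RCLike 𝕜] {m q r : ℕ} {κ : Type*} [Fintype κ] [DecidableEq κ]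
    [Nonempty κ] (ε : Fin (q * m + r) ≃ κ) (I : Fin r → Fin m) :
    Subalgebra.center 𝕜 (DX 𝕜 (Fin m) κ) :=
  ⟨DIx 𝕜 ε I, DIx_center ε I⟩

theorem center_sub_ZD (z : Subalgebra.center 𝕜 (DX 𝕜 (Fin m) κ)) : z.1.1 ∈ ZD 𝕜 (Fin m) κ := by
  have h := Subalgebra.mem_center_iff.mp z.2
  refine mem_ZD.mpr ⟨z.1.2, ?_, fun a b => ?_⟩
  · exact (congrArg Subtype.val (h ⟨Dl 𝕜 (Fin m) κ, Dl_mem⟩)).symm
  · exact (congrArg Subtype.val (h ⟨Qd 𝕜 κ a b, Qd_mem a b⟩)).symm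

theorem main (𝕜 : Type*) [RCLike 𝕜] {m q r : ℕ} {κ : Type*} [Fintype κ] [DecidableEq κ]
    [Nonempty κ] (hr : 1 ≤ r) (hrm : r ≤ m) (ε : Fin (q * m + r) ≃ κ) :
    Algebra.adjoin 𝕜 (Set.range (DIc 𝕜 ε)) = ⊤ ∧
    ∃ e : Subalgebra.center 𝕜 (DX 𝕜 (Fin m) κ) ≃ₐ[𝕜]
        Algebra.adjoin 𝕜 (Set.range fun I : Fin r → Fin m => minorP 𝕜 I),
      ∀ I, (e (DIc 𝕜 ε I) : MvPolynomial (Fin m × Fin r) 𝕜) = minorP 𝕜 I := by
  obtain ⟨Φ, h1, h2, h3⟩ := good_all 𝕜 hr hrm ε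
  let i : Subalgebra.center 𝕜 (DX 𝕜 (Fin m) κ) →ₐ[𝕜] ZD 𝕜 (Fin m) κ :=
    { toFun := fun z => ⟨z.1.1, center_sub_ZD z⟩
      map_one' := rfl
      map_mul' := fun _ _ => rfl
      map_zero' := rfl
      map_add' := fun _ _ => rfl
      commutes' := fun _ => rfl }
  have hi : Function.Injective i := by
    intro z z' h
    exact Subtype.ext (Subtype.ext (congrArg (fun w : ZD 𝕜 (Fin m) κ => w.1) h))
  have hΨ : Function.Injective (Φ.comp i) := by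
    rw [AlgHom.coe_comp]; exact h1.comp hi
  have hDI : ∀ I, (Φ.comp i) (DIc 𝕜 ε I) = minorP 𝕜 I := fun I => h3 I
  have hmem : ∀ z, (Φ.comp i) z ∈ Algebra.adjoin 𝕜 (Set.range fun I : Fin r → Fin m =>
      minorP 𝕜 I) := fun z => h2 _
  have hmap : (Algebra.adjoin 𝕜 (Set.range (DIc 𝕜 ε))).map (Φ.comp i)
      = Algebra.adjoin 𝕜 (Set.range fun I : Fin r → Fin m => minorP 𝕜 I) := by
    rw [AlgHom.map_adjoin]
    congr 1
    ext p
    constructor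
    · rintro ⟨_, ⟨I, rfl⟩, rfl⟩
      exact ⟨I, (hDI I).symm⟩
    · rintro ⟨I, rfl⟩
      exact ⟨_, ⟨I, rfl⟩, hDI I⟩
  constructor
  · rw [eq_top_iff]
    intro z _
    have hz := hmem z
    rw [← hmap] at hz
    obtain ⟨z', hz', h⟩ := hz
    have : z' = z := hΨ h
    rwa [← this]
  · let f : Subalgebra.center 𝕜 (DX 𝕜 (Fin m) κ) →ₐ[𝕜]
        Algebra.adjoin 𝕜 (Set.range fun I : Fin r → Fin m => minorP 𝕜 I) :=
      (Φ.comp i).codRestrict _ hmem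
    have hf : Function.Bijective f := by
      constructor
      · intro z z' h
        exact hΨ (congrArg Subtype.val h)
      · rintro ⟨p, hp⟩
        have hp' := hp
        rw [← hmap] at hp'
        obtain ⟨z', -, h⟩ := hp'
        exact ⟨z', Subtype.ext h⟩
    exact ⟨AlgEquiv.ofBijective f hf, fun I => hDI I⟩

end Center

end Pool.Agent.MP_5aa3e6_al
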