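import Mathlib
import Pool.Agent.MP_5aa3e6_al.Main

/-!
The operators `D_I` are induced by explicit operators on the ambient space.
-/

set_option linter.unusedSectionVars false

namespace Pool.Agent.MP_5aa3e6_al

section Ir

variable {𝕜 : Type*} [RCLike 𝕜] {E : Type*} [NormedAddCommGroup E] [NormedSpace ℝ E]
  {M : Type*} {e : M → E}

/-- `x` is induced by `y` -/
def Ir (x : Op 𝕜 e) (y : Module.End 𝕜 (SF 𝕜 E)) : Prop :=
  ∀ F, x (res 𝕜 e F) = res 𝕜 e (y F)

theorem Ir.mul {x x' : Op 𝕜 e} {y y' : Module.End 𝕜 (SF 𝕜 E)} (h : Ir x y) (h' : Ir x' y') :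
    Ir (x * x') (y * y') := by
  intro f
  rw [Op.mul_apply, Module.End.mul_apply, h', h]

theorem Ir.add {x x' : Op 𝕜 e} {y y' : Module.End 𝕜 (SF 𝕜 E)} (h : Ir x y) (h' : Ir x' y') :
    Ir (x + x') (y + y') := by
  intro f
  rw [Op.add_apply, LinearMap.add_apply, h', h, map_add]

theorem Ir.zero : Ir (0 : Op 𝕜 e) 0 := by
  intro f
  rw [Op.zero_apply, LinearMap.zero_apply, map_zero]

theorem Ir.one : Ir (1 : Op 𝕜 e) 1 := fun f => rfl

theorem Ir.sum {κ : Type*} (s : Finset κ) {x : κ → Op 𝕜 e} {y : κ → Module.End 𝕜 (SF 𝕜 E)}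
    (h : ∀ k, Ir (x k) (y k)) : Ir (∑ k ∈ s, x k) (∑ k ∈ s, y k) := by
  classical
  induction s using Finset.induction_on with
  | empty => simpa using Ir.zero
  | insert a s ha ih => rw [Finset.sum_insert ha, Finset.sum_insert ha]; exact (h a).add ih

theorem Ir.list_prod {n : ℕ} {x : Fin n → Op 𝕜 e} {y : Fin n → Module.End 𝕜 (SF 𝕜 E)}
    (h : ∀ j, Ir (x j) (y j)) : Ir (List.ofFn x).prod (List.ofFn y).prod := by
  induction n with
  | zero => simpa using Ir.one
  | succ n ih =>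
    rw [List.ofFn_succ, List.prod_cons, List.ofFn_succ, List.prod_cons]
    exact (h 0).mul (ih fun j => h j.succ)

theorem Ir.zsmul {x : Op 𝕜 e} {y : Module.End 𝕜 (SF 𝕜 E)} (h : Ir x y) (c : ℤ) :
    Ir (c • x) (c • y) := by
  intro f
  have h4 : ∀ (D : Op 𝕜 e) (g : Sm 𝕜 e), (c • D) g = c • (D g) := fun D g => rfl
  have h5 : ∀ (D : Module.End 𝕜 (SF 𝕜 E)) (g : SF 𝕜 E), (c • D) g = c • (D g) := fun D g => rfl
  rw [h4, h5, h f, map_zsmul]

theorem Ir.cdet {n : ℕ} {x : Fin n → Fin n → Op 𝕜 e}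
    {y : Fin n → Fin n → Module.End 𝕜 (SF 𝕜 E)}
    (h : ∀ i j, Ir (x i j) (y i j)) : Ir (cdet x) (cdet y) := by
  rw [MP_5aa3e6_al.cdet, MP_5aa3e6_al.cdet]
  exact Ir.sum _ fun σ => (Ir.list_prod fun j => h _ _).zsmul _

theorem Ir.colVec {ι β : Type*} [Fintype ι] {A : ι → ι → Op 𝕜 e} {P : β → ι → Op 𝕜 e}
    {A' : ι → ι → Module.End 𝕜 (SF 𝕜 E)} {P' : β → ι → Module.End 𝕜 (SF 𝕜 E)}
    (hE : ∀ i j, Ir (A i j) (A' i j)) (hP : ∀ i j, Ir (P i j) (P' i j)) (a : β) (k : ℕ) :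
    ∀ i, Ir (colVec A P a k i) (colVec A' P' a k i) := by
  induction k with
  | zero => exact hP a
  | succ k ih =>
    intro i
    exact Ir.sum _ fun j => (hE i j).mul (ih j)

end Ir

section Amb

variable {ι : Type*} [Fintype ι] [DecidableEq ι] [Nonempty ι] {m q r : ℕ}
variable {𝕜 : Type*} [RCLike 𝕜]

/-- the ambient operator inducing `D_I` -/
noncomputable def DIa (𝕜 : Type*) [RCLike 𝕜] {m q r : ℕ} {ι : Type*} [Fintype ι] [DecidableEq ι]
    (ε : Fin (q * m + r) ≃ ι) (I : Fin r → Fin m) : Module.End 𝕜 (SF 𝕜 (EX (Fin m) ι)) :=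
  cdet (fun j i => colVec (fun i j => ThB 𝕜 (Matrix.single i j 1))
    (fun a i => PB 𝕜 (Matrix.single a i 1)) (colI I j).1 (colI I j).2 (ε i))

theorem Ir_DI (ε : Fin (q * m + r) ≃ ι) (I : Fin r → Fin m) : Ir (DI 𝕜 ε I) (DIa 𝕜 ε I) := by
  have hT : ∀ i j : ι, Ir (thM 𝕜 (Fin m) i j) (ThB 𝕜 (Matrix.single i j 1)) :=
    fun i j => Th_res _
  have hP : ∀ (a : Fin m) (i : ι), Ir (pM 𝕜 a i) (PB 𝕜 (Matrix.single a i 1)) :=
    fun a i => Pm_res _
  have hc : ∀ (a : Fin m) (k : ℕ) (i : ι), Ir (colVec (thM 𝕜 (Fin m)) (pM 𝕜) a k i)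
      (colVec (fun i j => ThB 𝕜 (Matrix.single i j 1))
        (fun a i => PB 𝕜 (Matrix.single a i 1)) a k i) := fun a k i => Ir.colVec hT hP a k i
  rw [DI, DIa, dI]
  exact Ir.cdet fun j i => hc _ _ _

omit [Nonempty ι] in
theorem aY_single (i j : ι) (p : EX (Fin m) ι) :
    aY (Matrix.single i j 1) p
      = -(∑ k, (mY p j k • (mE (Matrix.single i k 1) 0 : EX (Fin m) ι)
          + mY p k j • mE (Matrix.single k i 1) 0))
        + if i = j then (2 / (Fintype.card ι : ℝ)) • ∑ k, ∑ l, mY p k l •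
          (mE (Matrix.single k l 1) 0 : EX (Fin m) ι) else 0 := by
  have hall : ∀ M : Matrix ι ι ℝ, ∑ k, ∑ l, M k l • (mE (Matrix.single k l 1) 0 : EX (Fin m) ι)
      = mE M 0 := by
    intro M
    apply EX_ext
    · rw [mY_sum, mY_mE]
      conv_rhs => rw [Matrix.matrix_eq_sum_single M]
      refine Finset.sum_congr rfl fun k _ => ?_
      rw [mY_sum]
      refine Finset.sum_congr rfl fun l _ => ?_
      rw [mY_smul, mY_mE, Matrix.smul_single, smul_eq_mul, mul_one]
    · rw [mV_sum, mV_mE]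
      refine Finset.sum_eq_zero fun k _ => ?_
      rw [mV_sum]
      refine Finset.sum_eq_zero fun l _ => ?_
      rw [mV_smul, mV_mE, smul_zero]
  rw [hall]
  apply EX_ext
  · rw [mY_aY, mY_add, mY_neg, mY_sum]
    have h1 : Matrix.single i j (1 : ℝ) * mY p = ∑ k, mY p j k • Matrix.single i k (1 : ℝ) := by
      ext a b
      rw [single_mul_apply', Matrix.sum_apply]
      simp only [Matrix.smul_apply, Matrix.single_apply, smul_eq_mul, mul_ite, mul_one, mul_zero]
      by_cases h : i = a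
      · simp [h]
      · simp [h]
    have h2 : mY p * (Matrix.single i j (1 : ℝ)).transpose
        = ∑ k, mY p k j • Matrix.single k i (1 : ℝ) := by
      ext a b
      rw [Matrix.transpose_single, Matrix.mul_apply, Matrix.sum_apply]
      simp only [Matrix.smul_apply, Matrix.single_apply, smul_eq_mul, mul_ite, mul_one, mul_zero]
      by_cases h : i = b
      · simp [h]
      · simp [h]
    have h3 : (Matrix.single i j (1 : ℝ)).trace = if i = j then 1 else 0 := by
      by_cases h : i = j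
      · subst h; simp
      · rw [Matrix.trace_single_eq_of_ne i j 1 h, if_neg h]
    rw [h1, h2, h3]
    simp only [mY_add, mY_smul, mY_mE, Finset.sum_add_distrib]
    by_cases h : i = j
    · rw [if_pos h, if_pos h, mY_smul, mY_mE, mul_one]
      abel
    · rw [if_neg h, if_neg h, mY_zero, mul_zero, zero_smul]
      abel
  · rw [mV_aY, mV_add, mV_neg, mV_sum]
    rw [Finset.sum_eq_zero]
    · by_cases h : i = j
      · rw [if_pos h]; simp
      · rw [if_neg h]; simp
    · intro k _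
      simp

end Amb

end Pool.Agent.MP_5aa3e6_al
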