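import Mathlib
import Pool.Agent.MP_5aa3e6_al.Main2
import Pool.Agent.MP_5aa3e6_al.Defs

/-!
Comparison of the definitions of `Defs` with those used in the proof, and the main theorem.
-/

namespace Pool.Agent.PnmCenter

open scoped ContDiff

section Bridge

open Pool.Agent.MP_5aa3e6_al (OpX DX EX XX emX SF Sm res Op ambDO mulO dd)

variable {𝕜 : Type*} [RCLike 𝕜] {m n : ℕ}

/-- `y` acts as `T` -/
def Rep (y : Module.End 𝕜 (SF 𝕜 (EX (Fin m) (Fin n)))) (T : (Amb m n → 𝕜) → Amb m n → 𝕜) : Prop :=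
  ∀ F, (y F).1 = T F.1

theorem exists_rep {y : Module.End 𝕜 (SF 𝕜 (EX (Fin m) (Fin n)))}
    (hy : y ∈ ambDO 𝕜 (EX (Fin m) (Fin n))) : ∃ T, IsDO T ∧ Rep y T := by
  refine Pool.Agent.MP_5aa3e6_al.ambDO_induction (p := fun y => ∃ T, IsDO T ∧ Rep y T)
    (fun g => ⟨_, IsDO.mul g.1 g.2, fun F => rfl⟩) (fun v => ⟨_, IsDO.der v, fun F => rfl⟩)
    ?_ ?_ hy
  · rintro y z ⟨S, hS, h1⟩ ⟨T, hT, h2⟩
    refine ⟨_, IsDO.add S T hS hT, fun F => ?_⟩
    funext p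
    exact congrArg₂ (· + ·) (congrFun (h1 F) p) (congrFun (h2 F) p)
  · rintro y z ⟨S, hS, h1⟩ ⟨T, hT, h2⟩
    refine ⟨_, IsDO.comp S T hS hT, fun F => ?_⟩
    change (y (z F)).1 = S (T F.1)
    rw [h1, h2]

theorem exists_end {T : (Amb m n → 𝕜) → Amb m n → 𝕜} (hT : IsDO T) :
    ∃ y ∈ ambDO 𝕜 (EX (Fin m) (Fin n)), Rep y T := by
  induction hT with
  | mul g hg => exact ⟨_, Pool.Agent.MP_5aa3e6_al.mulO_mem ⟨g, hg⟩, fun F => rfl⟩
  | der v => exact ⟨_, Pool.Agent.MP_5aa3e6_al.dd_mem (E := EX (Fin m) (Fin n)) v, fun F => rfl⟩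
  | add S T _ _ hS hT =>
    obtain ⟨y, hy, h1⟩ := hS
    obtain ⟨z, hz, h2⟩ := hT
    refine ⟨y + z, add_mem hy hz, fun F => ?_⟩
    funext p
    exact congrArg₂ (· + ·) (congrFun (h1 F) p) (congrFun (h2 F) p)
  | comp S T _ _ hS hT =>
    obtain ⟨y, hy, h1⟩ := hS
    obtain ⟨z, hz, h2⟩ := hT
    refine ⟨y * z, mul_mem hy hz, fun F => ?_⟩
    change (y (z F)).1 = S (T F.1)
    rw [h1, h2]

/-- the two versions of the space of smooth functions -/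
def fn (𝕜 : Type*) [RCLike 𝕜] (m n : ℕ) :
    FP 𝕜 m n ≃ₗ[𝕜] Sm 𝕜 (emX : XX (Fin m) (Fin n) → EX (Fin m) (Fin n)) where
  toFun f := ⟨f.1, f.2⟩
  invFun f := ⟨f.1, f.2⟩
  left_inv _ := rfl
  right_inv _ := rfl
  map_add' _ _ := rfl
  map_smul' _ _ := rfl

/-- the two versions of the algebra of operators -/
noncomputable def opB (𝕜 : Type*) [RCLike 𝕜] (m n : ℕ) :
    OP 𝕜 m n ≃ₐ[𝕜] OpX 𝕜 (Fin m) (Fin n) where
  toFun D := (((fn 𝕜 m n).toLinearMap ∘ₗ (show FP 𝕜 m n →ₗ[𝕜] FP 𝕜 m n from D)) ∘ₗ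
    (fn 𝕜 m n).symm.toLinearMap :
    Sm 𝕜 (emX : XX (Fin m) (Fin n) → EX (Fin m) (Fin n)) →ₗ[𝕜] _)
  invFun D := (((fn 𝕜 m n).symm.toLinearMap ∘ₗ
    (show Sm 𝕜 (emX : XX (Fin m) (Fin n) → EX (Fin m) (Fin n)) →ₗ[𝕜] _ from D)) ∘ₗ
    (fn 𝕜 m n).toLinearMap : FP 𝕜 m n →ₗ[𝕜] FP 𝕜 m n)
  left_inv _ := rfl
  right_inv _ := rfl
  map_mul' _ _ := rfl
  map_add' _ _ := rfl
  commutes' _ := rfl

theorem opB_apply (D : OP 𝕜 m n) (f : FP 𝕜 m n) :
    opB 𝕜 m n D (fn 𝕜 m n f) = fn 𝕜 m n (D.app f) := rfl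

theorem isAct_iff (A : Matrix.SpecialLinearGroup (Fin n) ℝ) (a : Matrix (Fin m) (Fin n) ℝ)
    (x y : PX m n) :
    IsAct A a x y ↔ (y : XX (Fin m) (Fin n)) = Pool.Agent.MP_5aa3e6_al.act A a x := by
  constructor
  · rintro ⟨h1, h2⟩
    exact Prod.ext (Subtype.ext h1) h2
  · intro h
    exact ⟨congrArg (fun z : XX (Fin m) (Fin n) => z.1.1) h,
      congrArg (fun z : XX (Fin m) (Fin n) => z.2) h⟩

theorem mem_DD_iff (D : OP 𝕜 m n) : D ∈ DD 𝕜 m n ↔ opB 𝕜 m n D ∈ DX 𝕜 (Fin m) (Fin n) := by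
  constructor
  · rintro ⟨⟨T, hT, h1⟩, h2⟩
    refine Pool.Agent.MP_5aa3e6_al.mem_DX.mpr ⟨?_, fun A a f => ?_⟩
    · obtain ⟨y, hy, h3⟩ := exists_end hT
      refine ⟨y, hy, fun F => ?_⟩
      apply Subtype.ext
      funext x
      change (D.app ⟨fun x => F.1 (emX x), F.1, F.2, fun _ => rfl⟩).val x = (y F).1 (emX x)
      rw [h3]
      exact h1 F.1 _ F.2 (fun _ => rfl) x
    · apply Subtype.ext
      funext x
      exact h2 A a ((fn 𝕜 m n).symm f)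
        ((fn 𝕜 m n).symm (Pool.Agent.MP_5aa3e6_al.rhoX 𝕜 A a f))
        (fun x y hxy => by rw [(isAct_iff A a x y).mp hxy]; rfl) x _ ((isAct_iff A a x _).mpr rfl)
  · intro h
    obtain ⟨⟨y, hy, h1⟩, h2⟩ := Pool.Agent.MP_5aa3e6_al.mem_DX.mp h
    obtain ⟨T, hT, h3⟩ := exists_rep hy
    refine ⟨⟨T, hT, fun F f hF hf x => ?_⟩, fun A a f g hg x y hxy => ?_⟩
    · have h4 : fn 𝕜 m n f = res 𝕜 emX ⟨F, hF⟩ := Subtype.ext (funext hf)
      have h5 := h1 ⟨F, hF⟩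
      rw [← h4, opB_apply] at h5
      have h6 := congrFun (congrArg Subtype.val h5) x
      have h7 : (D.app f).val x = (y ⟨F, hF⟩).1 (incl x) := h6
      rw [h7, h3]
    · have h4 : fn 𝕜 m n g = Pool.Agent.MP_5aa3e6_al.rhoX 𝕜 A a (fn 𝕜 m n f) :=
        Subtype.ext (funext fun x => hg x _ ((isAct_iff A a x _).mpr rfl))
      have h5 := h2 A a (fn 𝕜 m n f)
      rw [← h4, opB_apply, opB_apply] at h5
      rw [(isAct_iff A a x y).mp hxy]
      exact congrFun (congrArg Subtype.val h5) x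

theorem mem_ZZ_iff (D : OP 𝕜 m n) :
    D ∈ ZZ 𝕜 m n ↔ D ∈ DD 𝕜 m n ∧ ∀ E ∈ DD 𝕜 m n, E * D = D * E :=
  Iff.rfl

/-- the two versions of the centre -/
noncomputable def zB (𝕜 : Type*) [RCLike 𝕜] (m n : ℕ) :
    ZZ 𝕜 m n ≃ₐ[𝕜] Subalgebra.center 𝕜 (DX 𝕜 (Fin m) (Fin n)) where
  toFun z := ⟨⟨opB 𝕜 m n z.1, (mem_DD_iff z.1).mp ((mem_ZZ_iff z.1).mp z.2).1⟩, by
    rw [Subalgebra.mem_center_iff]
    intro w
    apply Subtype.ext
    change w.1 * opB 𝕜 m n z.1 = opB 𝕜 m n z.1 * w.1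
    have hw : (opB 𝕜 m n).symm w.1 ∈ DD 𝕜 m n := by
      rw [mem_DD_iff, AlgEquiv.apply_symm_apply]; exact w.2
    have h := congrArg (opB 𝕜 m n) (((mem_ZZ_iff z.1).mp z.2).2 _ hw)
    rwa [map_mul, map_mul, AlgEquiv.apply_symm_apply] at h⟩
  invFun w := ⟨(opB 𝕜 m n).symm w.1.1, by
    rw [mem_ZZ_iff]
    constructor
    · rw [mem_DD_iff, AlgEquiv.apply_symm_apply]; exact w.1.2
    · intro E hE
      apply (opB 𝕜 m n).injective
      rw [map_mul, map_mul, AlgEquiv.apply_symm_apply]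
      exact congrArg Subtype.val
        (Subalgebra.mem_center_iff.mp w.2 ⟨opB 𝕜 m n E, (mem_DD_iff E).mp hE⟩)⟩
  left_inv z := Subtype.ext ((opB 𝕜 m n).symm_apply_apply z.1)
  right_inv w := Subtype.ext (Subtype.ext ((opB 𝕜 m n).apply_symm_apply w.1.1))
  map_mul' z w := Subtype.ext (Subtype.ext (map_mul (opB 𝕜 m n) z.1 w.1))
  map_add' z w := Subtype.ext (Subtype.ext (map_add (opB 𝕜 m n) z.1 w.1))
  commutes' k := Subtype.ext (Subtype.ext ((opB 𝕜 m n).commutes k))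

/-! the explicit operators in the two versions -/

theorem rep_sum {κ : Type*} (s : Finset κ) {y : κ → Module.End 𝕜 (SF 𝕜 (EX (Fin m) (Fin n)))}
    {T : κ → (Amb m n → 𝕜) → Amb m n → 𝕜} (h : ∀ k, Rep (y k) (T k)) :
    Rep (∑ k ∈ s, y k) (fun F p => ∑ k ∈ s, T k F p) := by
  classical
  intro F
  funext p
  have key : ((∑ k ∈ s, y k) F).1 p = ∑ k ∈ s, (T k F.1 : Amb m n → 𝕜) p := by
    induction s using Finset.induction_on with
    | empty => rfl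
    | insert a s ha ih =>
      rw [Finset.sum_insert ha, Finset.sum_insert ha, ← ih, ← h a F]
      rfl
  exact key

theorem rep_dV (a : Fin m) (i : Fin n) :
    Rep (Pool.Agent.MP_5aa3e6_al.PB 𝕜 (Matrix.single a i 1)) (dV a i) := by
  intro F
  funext p
  have h2 : ((0, fun b j => if b = a ∧ j = i then (1 : ℝ) else 0) : Amb m n)
      = Pool.Agent.MP_5aa3e6_al.mE 0 (Matrix.single a i 1) := by
    apply Prod.ext
    · rfl
    · funext b c
      change _ = Matrix.single a i (1 : ℝ) b c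
      rw [Matrix.single_apply]
      simp only [eq_comm]
  change fderiv ℝ F.1 p (Pool.Agent.MP_5aa3e6_al.mE 0 (Matrix.single a i 1))
    = fderiv ℝ F.1 p (0, fun b j => if b = a ∧ j = i then (1 : ℝ) else 0)
  rw [h2]

theorem dY_eq (k l : Fin n) (F : EX (Fin m) (Fin n) → 𝕜) (p : EX (Fin m) (Fin n)) :
    dY (m := m) k l F p
      = fderiv ℝ F p (Pool.Agent.MP_5aa3e6_al.mE (Matrix.single k l 1) 0) := by
  have h2 : ((fun i j => if i = k ∧ j = l then (1 : ℝ) else 0, 0) : Amb m n)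
      = Pool.Agent.MP_5aa3e6_al.mE (Matrix.single k l 1) 0 := by
    apply Prod.ext
    · funext a b
      change _ = Matrix.single k l (1 : ℝ) a b
      rw [Matrix.single_apply]
      simp only [eq_comm]
    · rfl
  change fderiv ℝ F p (fun i j => if i = k ∧ j = l then (1 : ℝ) else 0, 0) = _
  rw [h2]

theorem rep_Theta [Nonempty (Fin n)] (i j : Fin n) :
    Rep (Pool.Agent.MP_5aa3e6_al.ThB (α := Fin m) 𝕜 (Matrix.single i j 1)) (Theta i j) := by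
  intro F
  funext p
  have h1 : (Pool.Agent.MP_5aa3e6_al.ThB 𝕜 (Matrix.single i j 1) F).1 p
      = fderiv ℝ F.1 p (Pool.Agent.MP_5aa3e6_al.aY (Matrix.single i j 1) p) := rfl
  rw [h1, Pool.Agent.MP_5aa3e6_al.aY_single, map_add, map_neg, map_sum]
  have e1 : ∑ k, fderiv ℝ F.1 p (Pool.Agent.MP_5aa3e6_al.mY p j k •
        (Pool.Agent.MP_5aa3e6_al.mE (Matrix.single i k 1) 0 : EX (Fin m) (Fin n))
          + Pool.Agent.MP_5aa3e6_al.mY p k j •
            Pool.Agent.MP_5aa3e6_al.mE (Matrix.single k i 1) 0)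
      = ∑ k, (((p.1 j k : ℝ) : 𝕜) * dY (m := m) i k F.1 p
        + ((p.1 k j : ℝ) : 𝕜) * dY (m := m) k i F.1 p) := by
    refine Finset.sum_congr rfl fun k _ => ?_
    rw [map_add, map_smul, map_smul, RCLike.real_smul_eq_coe_mul, RCLike.real_smul_eq_coe_mul,
      dY_eq, dY_eq]
    rfl
  have e2 : fderiv ℝ F.1 p (∑ k, ∑ l, Pool.Agent.MP_5aa3e6_al.mY p k l •
        (Pool.Agent.MP_5aa3e6_al.mE (Matrix.single k l 1) 0 : EX (Fin m) (Fin n)))
      = ∑ k, ∑ l, ((p.1 k l : ℝ) : 𝕜) * dY (m := m) k l F.1 p := by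
    rw [map_sum]
    refine Finset.sum_congr rfl fun k _ => ?_
    rw [map_sum]
    refine Finset.sum_congr rfl fun l _ => ?_
    rw [map_smul, RCLike.real_smul_eq_coe_mul, dY_eq]
    rfl
  rw [e1]
  refine congrArg (fun x : 𝕜 => -(∑ k, (((p.1 j k : ℝ) : 𝕜) * dY (m := m) i k F.1 p
        + ((p.1 k j : ℝ) : 𝕜) * dY (m := m) k i F.1 p)) + x) ?_
  by_cases h : i = j
  · rw [if_pos h, map_smul, e2, RCLike.real_smul_eq_coe_mul, Fintype.card_fin, if_pos h]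
  · rw [if_neg h, map_zero, if_neg h]

theorem rep_colOp [Nonempty (Fin n)] (a : Fin m) (k : ℕ) : ∀ i : Fin n,
    Rep (Pool.Agent.MP_5aa3e6_al.colVec
        (fun i j => Pool.Agent.MP_5aa3e6_al.ThB 𝕜 (Matrix.single i j 1))
        (fun a i => Pool.Agent.MP_5aa3e6_al.PB 𝕜 (Matrix.single a i 1)) a k i)
      (colOp a k i) := by
  induction k with
  | zero => exact rep_dV a
  | succ k ih =>
    intro i
    refine rep_sum (T := fun j F => Theta i j (colOp a k j F)) Finset.univ fun j F => ?_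
    change (Pool.Agent.MP_5aa3e6_al.ThB 𝕜 (Matrix.single i j 1)
      (Pool.Agent.MP_5aa3e6_al.colVec
        (fun i j => Pool.Agent.MP_5aa3e6_al.ThB 𝕜 (Matrix.single i j 1))
        (fun a i => Pool.Agent.MP_5aa3e6_al.PB 𝕜 (Matrix.single a i 1)) a k j F)).1
      = Theta i j (colOp a k j F.1)
    rw [rep_Theta i j, ih j]

theorem rep_prod {N : ℕ} {y : Fin N → Module.End 𝕜 (SF 𝕜 (EX (Fin m) (Fin n)))}
    {T : Fin N → (Amb m n → 𝕜) → Amb m n → 𝕜} (h : ∀ j, Rep (y j) (T j)) :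
    Rep (List.ofFn y).prod (fun F => (List.ofFn T).foldr (fun T G => T G) F) := by
  induction N with
  | zero => intro F; rfl
  | succ N ih =>
    intro F
    rw [List.ofFn_succ, List.ofFn_succ, List.prod_cons]
    change (y 0 ((List.ofFn fun i => y i.succ).prod F)).1
      = T 0 ((List.ofFn fun i => T i.succ).foldr (fun T G => T G) F.1)
    rw [h 0, ih fun j => h j.succ]

theorem rep_DI {q r : ℕ} [Nonempty (Fin (q * m + r))] (I : Fin r → Fin m) :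
    Rep (Pool.Agent.MP_5aa3e6_al.DIa 𝕜 (Equiv.refl (Fin (q * m + r))) I)
      (DI (rfl : q * m + r = q * m + r) I) := by
  rw [Pool.Agent.MP_5aa3e6_al.DIa, Pool.Agent.MP_5aa3e6_al.cdet]
  refine rep_sum (T := fun (σ : Equiv.Perm (Fin (q * m + r))) F p =>
    ((Equiv.Perm.sign σ : ℤˣ) : ℤ) •
    (List.ofFn fun j => colOp (label (rfl : q * m + r = q * m + r) I j).1
      (label (rfl : q * m + r = q * m + r) I j).2 (σ j)).foldr (fun T G => T G) F p)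
    Finset.univ fun σ F => ?_
  funext p
  have h := rep_prod (𝕜 := 𝕜) (m := m) (n := q * m + r) (fun j : Fin (q * m + r) =>
    rep_colOp (𝕜 := 𝕜) (m := m) (n := q * m + r)
      (label (rfl : q * m + r = q * m + r) I j).1 (label (rfl : q * m + r = q * m + r) I j).2 (σ j))
  exact congrArg (fun x => ((Equiv.Perm.sign σ : ℤˣ) : ℤ) • x) (congrFun (h F) p)

end Bridge

theorem main (𝕜 : Type*) [RCLike 𝕜] {m n q r : ℕ} (hr : 1 ≤ r) (hrm : r ≤ m)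
    (hn : n = q * m + r) :
    ∃ D : (Fin r → Fin m) → OP 𝕜 m n,
      (∀ I, Induced (D I) (DI hn I)) ∧
      ZZ 𝕜 m n = Algebra.adjoin 𝕜 (Set.range D) ∧
      ∃ e : ZZ 𝕜 m n ≃ₐ[𝕜] Algebra.adjoin 𝕜 (Set.range fun I : Fin r → Fin m => minor 𝕜 I),
        ∀ (I : Fin r → Fin m) (z : ZZ 𝕜 m n), z.1 = D I → (e z).1 = minor 𝕜 I := by
  subst hn
  have : Nonempty (Fin (q * m + r)) := ⟨⟨0, by omega⟩⟩
  obtain ⟨h1, e, h2⟩ := Pool.Agent.MP_5aa3e6_al.main 𝕜 hr hrm (Equiv.refl (Fin (q * m + r)))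
  let d := Pool.Agent.MP_5aa3e6_al.DIc 𝕜 (m := m) (Equiv.refl (Fin (q * m + r)))
  let c := zB 𝕜 m (q * m + r)
  let ψ := (ZZ 𝕜 m (q * m + r)).val.comp c.symm.toAlgHom
  refine ⟨fun I => ψ (d I), fun I F f hF hf x => ?_, ?_, c.trans e, fun I z hz => ?_⟩
  · have h3 := Pool.Agent.MP_5aa3e6_al.Ir_DI (𝕜 := 𝕜) (Equiv.refl (Fin (q * m + r))) I
      (⟨F, hF⟩ : Pool.Agent.MP_5aa3e6_al.SF 𝕜
        (Pool.Agent.MP_5aa3e6_al.EX (Fin m) (Fin (q * m + r))))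
    have h4 : fn 𝕜 m (q * m + r) f
        = Pool.Agent.MP_5aa3e6_al.res 𝕜 Pool.Agent.MP_5aa3e6_al.emX ⟨F, hF⟩ :=
      Subtype.ext (funext hf)
    rw [← h4] at h3
    have h5 := congrFun (congrArg Subtype.val h3) x
    have h6 := congrFun (rep_DI (𝕜 := 𝕜) (m := m) I (⟨F, hF⟩ : Pool.Agent.MP_5aa3e6_al.SF 𝕜
        (Pool.Agent.MP_5aa3e6_al.EX (Fin m) (Fin (q * m + r))))) (incl x)
    exact h5.trans h6
  · have h4 : (Algebra.adjoin 𝕜 (Set.range d)).map ψ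
        = Algebra.adjoin 𝕜 (Set.range fun I => ψ (d I)) := by
      rw [AlgHom.map_adjoin, ← Set.range_comp]
      rfl
    rw [← h4, h1, Algebra.map_top]
    apply le_antisymm
    · intro z hz
      exact ⟨c ⟨z, hz⟩, congrArg Subtype.val (c.symm_apply_apply ⟨z, hz⟩)⟩
    · rintro _ ⟨w, rfl⟩
      exact (c.symm w).2
  · have h5 : z = c.symm (d I) := Subtype.ext hz
    have h6 : c z = d I := by rw [h5, AlgEquiv.apply_symm_apply]
    exact (congrArg (fun w => (e w).1) h6).trans (h2 I)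

end Pool.Agent.PnmCenter
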